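import Pool.Agent.Lib.MP_78b700_nt.HV.Spec

/-!
# APX: points in the closure of `T(F)` are approximated by points of `T(F)`
-/

set_option autoImplicit false

open IsDedekindDomain NumberField Polynomial
open scoped RestrictedProduct

namespace Pool.Agent.Lib.MP_78b700_nt.HV.APXM

variable {L : Type} [Field L] [NumberField L]

/-- `x` is a unit at `v`, close to one -/
def Un (v : HeightOneSpectrum (𝓞 L)) (c : ℝ) (x : v.adicCompletion L) : Prop :=
  ‖x‖ = 1 ∧ ‖x - 1‖ ≤ c

theorem Un.mul {v : HeightOneSpectrum (𝓞 L)} {c : ℝ} {x y : v.adicCompletion L}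
    (hx : Un v c x) (hy : Un v c y) : Un v c (x * y) := by
  refine ⟨by rw [norm_mul, hx.1, hy.1, one_mul], ?_⟩
  have e : x * y - 1 = x * (y - 1) + (x - 1) := by ring
  rw [e]
  refine (norm_add_le_max' v _ _).trans (max_le ?_ hx.2)
  rw [norm_mul, hx.1, one_mul]
  exact hy.2

theorem Un.inv {v : HeightOneSpectrum (𝓞 L)} {c : ℝ} {x : v.adicCompletion L}
    (hx : Un v c x) : Un v c x⁻¹ := by
  have h0 : x ≠ 0 := by
    intro h
    have := hx.1
    rw [h, norm_zero] at this
    exact zero_ne_one this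
  refine ⟨by rw [norm_inv, hx.1, inv_one], ?_⟩
  have e : x⁻¹ - 1 = -(x⁻¹ * (x - 1)) := by field_simp; ring
  rw [e, norm_neg, norm_mul, norm_inv, hx.1, inv_one, one_mul]
  exact hx.2

theorem Un.div {v : HeightOneSpectrum (𝓞 L)} {c : ℝ} {x y : v.adicCompletion L}
    (hx : Un v c x) (hy : Un v c y) : Un v c (x / y) := by
  rw [div_eq_mul_inv]
  exact hx.mul hy.inv

theorem Un.mono {v : HeightOneSpectrum (𝓞 L)} {c c' : ℝ} (h : c ≤ c') {x : v.adicCompletion L}
    (hx : Un v c x) : Un v c' x := ⟨hx.1, hx.2.trans h⟩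

variable {F : Type} [Field F] [NumberField F] [Algebra F L]
  (f : F[X]) (S : Finset (HeightOneSpectrum (𝓞 F)))

/-- one approximation -/
theorem approx {p : f.rootSet L → (Ad L S)ˣ} (h : p ∈ closure (torusF L f S)) (M : Lˣ)
    (hM : ∀ v, fabs v (M : L) ≤ 1) :
    ∃ t : f.rootSet L → Lˣ, Equi f t ∧
      ∀ v : {v : HeightOneSpectrum (𝓞 L) // v ∉ above L S}, ∃ l : v.1.adicCompletion L, l ≠ 0 ∧
        ∀ θ, Un v.1 (fabs v.1 (M : L))
          (l * ((t θ : L) : v.1.adicCompletion L) / (p θ).1 v) := by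
  set O : Set (Ad L S) := nbhd M with hO
  have hOo : IsOpen O := isOpen_nbhd M
  set W : Set (f.rootSet L → (Ad L S)ˣ) :=
    ⋂ θ, {q | ((q θ * (p θ)⁻¹ : (Ad L S)ˣ) : Ad L S) - 1 ∈ O ∧
      ((p θ * (q θ)⁻¹ : (Ad L S)ˣ) : Ad L S) - 1 ∈ O} with hW
  have hWo : IsOpen W := by
    refine isOpen_iInter_of_finite fun θ => ?_
    have c1 : Continuous fun q : f.rootSet L → (Ad L S)ˣ =>
        ((q θ * (p θ)⁻¹ : (Ad L S)ˣ) : Ad L S) - 1 :=
      (Units.continuous_val.comp ((continuous_apply θ).mul continuous_const)).sub continuous_const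
    have c2 : Continuous fun q : f.rootSet L → (Ad L S)ˣ =>
        ((p θ * (q θ)⁻¹ : (Ad L S)ˣ) : Ad L S) - 1 :=
      (Units.continuous_val.comp (continuous_const.mul (continuous_apply θ).inv)).sub
        continuous_const
    exact (hOo.preimage c1).inter (hOo.preimage c2)
  have hmem : p ∈ W := by
    refine Set.mem_iInter.2 fun θ => ?_
    simp only [Set.mem_ofPred_eq, mul_inv_cancel, Units.val_one, sub_self]
    exact ⟨zero_mem_nbhd M, zero_mem_nbhd M⟩
  obtain ⟨q, hqW, l, t, ht, hq⟩ := mem_closure_iff.1 h W hWo hmem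
  refine ⟨t, ht, fun v => ⟨l.1 v, ?_, fun θ => ?_⟩⟩
  · intro h0
    have h3 : l.1 * (l⁻¹ : (Ad L S)ˣ).1 = 1 := l.mul_inv
    have h4 : l.1 v * (l⁻¹ : (Ad L S)ˣ).1 v = 1 := congrArg (fun y : Ad L S => y v) h3
    rw [h0, zero_mul] at h4
    exact zero_ne_one h4
  · have hθ := Set.mem_iInter.1 hqW θ
    obtain ⟨k1, k2⟩ := hθ
    have hqv : (q θ).1 v = l.1 v * ((t θ : L) : v.1.adicCompletion L) := by
      rw [hq θ]
      rfl
    have hp1 : (p θ).1 v * ((p θ)⁻¹ : (Ad L S)ˣ).1 v = 1 :=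
      congrArg (fun y : Ad L S => y v) (p θ).mul_inv
    have hq1 : (q θ).1 v * ((q θ)⁻¹ : (Ad L S)ˣ).1 v = 1 :=
      congrArg (fun y : Ad L S => y v) (q θ).mul_inv
    have hp0 : (p θ).1 v ≠ 0 := left_ne_zero_of_mul_eq_one hp1
    have hq0 : (q θ).1 v ≠ 0 := left_ne_zero_of_mul_eq_one hq1
    have hpi : ((p θ)⁻¹ : (Ad L S)ˣ).1 v = ((p θ).1 v)⁻¹ := eq_inv_of_mul_eq_one_right hp1
    have hqi : ((q θ)⁻¹ : (Ad L S)ˣ).1 v = ((q θ).1 v)⁻¹ := eq_inv_of_mul_eq_one_right hq1
    have j1 : ‖(q θ).1 v / (p θ).1 v - 1‖ ≤ fabs v.1 (M : L) := by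
      have := k1 v
      rw [div_eq_mul_inv, ← hpi]
      exact this
    have j2 : ‖(p θ).1 v / (q θ).1 v - 1‖ ≤ fabs v.1 (M : L) := by
      have := k2 v
      rw [div_eq_mul_inv, ← hqi]
      exact this
    rw [← hqv]
    have hM1 := hM v.1
    have g1 : ‖(q θ).1 v / (p θ).1 v‖ ≤ 1 := by
      have := norm_add_le_max' v.1 ((q θ).1 v / (p θ).1 v - 1) 1
      rw [sub_add_cancel, norm_one] at this
      exact this.trans (max_le (j1.trans hM1) le_rfl)
    have g2 : ‖(p θ).1 v / (q θ).1 v‖ ≤ 1 := by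
      have := norm_add_le_max' v.1 ((p θ).1 v / (q θ).1 v - 1) 1
      rw [sub_add_cancel, norm_one] at this
      exact this.trans (max_le (j2.trans hM1) le_rfl)
    refine ⟨le_antisymm g1 ?_, j1⟩
    have e : ‖(q θ).1 v / (p θ).1 v‖ * ‖(p θ).1 v / (q θ).1 v‖ = 1 := by
      rw [← norm_mul, div_mul_div_cancel₀ hp0, div_self hq0, norm_one]
    nlinarith [norm_nonneg ((q θ).1 v / (p θ).1 v), norm_nonneg ((p θ).1 v / (q θ).1 v)]

end APXM

open APXM

theorem specAPX : SpecApx := by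
  classical
  intro F L _ _ _ _ _ f S p hc hcl
  have hM : ∀ k : ℕ, ((k.factorial : ℕ) : L) ≠ 0 := fun k => by
    exact_mod_cast k.factorial_ne_zero
  have H := fun k : ℕ => approx f S hcl (Units.mk0 _ (hM k)) fun v => by
    rw [Units.val_mk0]; exact fabs_natCast_le v _
  choose t ht hl using H
  -- the quotients
  have hcoe : ∀ (v : HeightOneSpectrum (𝓞 L)) (x y : L),
      ((x / y : L) : v.adicCompletion L) = (x : v.adicCompletion L) / (y : v.adicCompletion L) :=
    fun v x y => map_div₀ (FinitePlace.embedding v : L →+* v.adicCompletion L) x y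
  have hp0 : ∀ (v : {v : HeightOneSpectrum (𝓞 L) // v ∉ above L S}) θ, (p θ).1 v ≠ 0 := by
    intro v θ
    have hp1 : (p θ).1 v * ((p θ)⁻¹ : (Ad L S)ˣ).1 v = 1 :=
      congrArg (fun y : Ad L S => y v) (p θ).mul_inv
    exact left_ne_zero_of_mul_eq_one hp1
  have ht0 : ∀ (v : HeightOneSpectrum (𝓞 L)) k θ, ((t k θ : L) : v.adicCompletion L) ≠ 0 := by
    intro v k θ
    exact (map_ne_zero (FinitePlace.embedding v : L →+* v.adicCompletion L)).2 (t k θ).ne_zero
  have hquot : ∀ (k : ℕ) (v : {v : HeightOneSpectrum (𝓞 L) // v ∉ above L S})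
      (θ θ' : f.rootSet L), Un v.1 (fabs v.1 ((k.factorial : ℕ) : L))
        (((t k θ : L) / t k θ' : L) / ((p θ).1 v / (p θ').1 v)) := by
    intro k v θ θ'
    obtain ⟨l, hl0, h⟩ := hl k v
    have h1 := (h θ).div (h θ')
    rw [Units.val_mk0] at h1
    have e : l * ((t k θ : L) : v.1.adicCompletion L) / (p θ).1 v /
        (l * ((t k θ' : L) : v.1.adicCompletion L) / (p θ').1 v) =
        (((t k θ : L) / t k θ' : L) : v.1.adicCompletion L) / ((p θ).1 v / (p θ').1 v) := by
      rw [hcoe]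
      have a1 := hp0 v θ
      have a2 := hp0 v θ'
      have a3 := ht0 v.1 k θ'
      field_simp
    rw [e] at h1
    exact h1
  have hdist : ∀ (k : ℕ) (v : {v : HeightOneSpectrum (𝓞 L) // v ∉ above L S})
      (θ θ' : f.rootSet L),
      ‖(((t k θ : L) / t k θ' : L) : v.1.adicCompletion L) - (p θ).1 v / (p θ').1 v‖ ≤
        fabs v.1 ((k.factorial : ℕ) : L) * ‖(p θ).1 v / (p θ').1 v‖ := by
    intro k v θ θ'
    have h1 := (hquot k v θ θ').2
    have h0 : (p θ).1 v / (p θ').1 v ≠ 0 := div_ne_zero (hp0 v θ) (hp0 v θ')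
    have e : (((t k θ : L) / t k θ' : L) : v.1.adicCompletion L) - (p θ).1 v / (p θ').1 v =
        ((((t k θ : L) / t k θ' : L) : v.1.adicCompletion L) / ((p θ).1 v / (p θ').1 v) - 1) *
          ((p θ).1 v / (p θ').1 v) := by
      rw [sub_mul, div_mul_cancel₀ _ h0, one_mul]
    rw [e, norm_mul]
    exact mul_le_mul_of_nonneg_right h1 (norm_nonneg _)
  -- common denominator
  obtain ⟨b, hb⟩ := IsLocalization.exist_integer_multiples_of_finset (nonZeroDivisors (𝓞 L))
    (Finset.univ.image fun x : f.rootSet L × f.rootSet L × f.rootSet L × f.rootSet L =>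
      ((x.1 : L) - x.2.1) * ((t 0 x.2.2.1 : L) / t 0 x.2.2.2))
  have hb0 : algebraMap (𝓞 L) L b ≠ 0 := by
    have := nonZeroDivisors.coe_ne_zero b
    exact (map_ne_zero_iff _ (FaithfulSMul.algebraMap_injective (𝓞 L) L)).2 this
  have hbv : ∀ (v : HeightOneSpectrum (𝓞 L)) (θ₁ θ₂ θ₃ θ₄ : f.rootSet L),
      fabs v (algebraMap (𝓞 L) L b * (((θ₁ : L) - θ₂) * ((t 0 θ₃ : L) / t 0 θ₄))) ≤ 1 := by
    intro v θ₁ θ₂ θ₃ θ₄
    obtain ⟨y, hy⟩ := hb _ (Finset.mem_image_of_mem _ (Finset.mem_univ (θ₁, θ₂, θ₃, θ₄)))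
    rw [Algebra.smul_def] at hy
    rw [← hy]
    exact fabs_coe_le v y
  refine ⟨t, ⟨ht, fun θ θ' k l hkl => ?_, ⟨algebraMap (𝓞 L) L b, hb0, fun k v hv θ θ' θ'' => ?_⟩⟩,
    fun k v θ θ' => ?_⟩
  · refine ⟨div_ne_zero (t k θ).ne_zero (t k θ').ne_zero,
      div_ne_zero (t l θ).ne_zero (t l θ').ne_zero, fun v hv => ?_⟩
    have h1 := hquot k ⟨v, hv⟩ θ θ'
    have h2 := (hquot l ⟨v, hv⟩ θ θ').mono (fabs_factorial_anti v hkl)
    have h3 := h1.div h2
    have h0 : (p θ).1 ⟨v, hv⟩ / (p θ').1 ⟨v, hv⟩ ≠ 0 :=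
      div_ne_zero (hp0 ⟨v, hv⟩ θ) (hp0 ⟨v, hv⟩ θ')
    have e : (((t k θ : L) / t k θ' : L) : v.adicCompletion L) /
          ((p θ).1 ⟨v, hv⟩ / (p θ').1 ⟨v, hv⟩) /
        ((((t l θ : L) / t l θ' : L) : v.adicCompletion L) /
          ((p θ).1 ⟨v, hv⟩ / (p θ').1 ⟨v, hv⟩)) =
        (((t k θ : L) / t k θ') / ((t l θ : L) / t l θ') : L) := by
      rw [hcoe v (_ / _) (_ / _), div_div_div_cancel_right₀ h0]
    have h4 : Un v (fabs v ((k.factorial : ℕ) : L))
        ((((t k θ : L) / t k θ') / ((t l θ : L) / t l θ') : L) : v.adicCompletion L) := by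
      rw [← e]; exact h3
    obtain ⟨h5, h6⟩ := h4
    rw [norm_coe_eq] at h5
    refine ⟨h5, ?_⟩
    rw [← norm_coe_eq]
    have e2 : (((((t k θ : L) / t k θ') / ((t l θ : L) / t l θ')) - 1 : L) :
        v.adicCompletion L) =
        ((((t k θ : L) / t k θ') / ((t l θ : L) / t l θ') : L) : v.adicCompletion L) - 1 := by
      have := (FinitePlace.embedding v : L →+* v.adicCompletion L).map_sub
        (((t k θ : L) / t k θ') / ((t l θ : L) / t l θ')) 1
      rw [map_one] at this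
      exact this
    rw [e2]
    exact h6
  · obtain ⟨x, y, hxy⟩ := hc
    set v' : {v : HeightOneSpectrum (𝓞 L) // v ∉ above L S} := ⟨v, hv⟩ with hv'
    have hx : ∀ θ, (p θ).1 v' = x v' - ((θ : L) : v.adicCompletion L) * y v' := by
      intro θ
      have := congrArg (fun z : Ad L S => z v') (hxy θ)
      exact this
    -- reduce to the two differences
    set A : L := ((θ : L) - θ') * ((t k θ'' : L) / t k θ') +
      ((θ' : L) - θ'') * ((t k θ : L) / t k θ') + ((θ'' : L) - θ) with hA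
    have hA' : (((θ - θ' : L) * t k θ'' + (θ' - θ'' : L) * t k θ + (θ'' - θ : L) * t k θ') /
      t k θ') = A := by
      have := (t k θ').ne_zero
      rw [hA]
      field_simp
    rw [hA']
    have hmap : ∀ z : L, ((z : L) : v.adicCompletion L) =
      (FinitePlace.embedding v : L →+* v.adicCompletion L) z := fun z => rfl
    have hAv : ((A : L) : v.adicCompletion L) =
        (((θ : L) - θ' : L) : v.adicCompletion L) *
          ((((t k θ'' : L) / t k θ' : L) : v.adicCompletion L) -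
            (p θ'').1 v' / (p θ').1 v') +
        (((θ' : L) - θ'' : L) : v.adicCompletion L) *
          ((((t k θ : L) / t k θ' : L) : v.adicCompletion L) -
            (p θ).1 v' / (p θ').1 v') := by
      have h1 : (((θ : L) - θ' : L) : v.adicCompletion L) * (p θ'').1 v' +
          (((θ' : L) - θ'' : L) : v.adicCompletion L) * (p θ).1 v' +
          (((θ'' : L) - θ : L) : v.adicCompletion L) * (p θ').1 v' = 0 := by
        have hgen : ∀ X Y a b c : v.adicCompletion L,
            (a - b) * (X - c * Y) + (b - c) * (X - a * Y) + (c - a) * (X - b * Y) = 0 := by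
          intro X Y a b c
          ring
        have e1 := hgen (x v') (y v') (θ : L) (θ' : L) (θ'' : L)
        rw [hx θ, hx θ', hx θ'', hmap, hmap (θ' - θ''), hmap (θ'' - θ), map_sub, map_sub, map_sub]
        exact e1
      have h2 : (((θ'' : L) - θ : L) : v.adicCompletion L) =
          -((((θ : L) - θ' : L) : v.adicCompletion L) * ((p θ'').1 v' / (p θ').1 v') +
          (((θ' : L) - θ'' : L) : v.adicCompletion L) * ((p θ).1 v' / (p θ').1 v')) := by
        have h3 := hp0 v' θ'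
        field_simp
        linear_combination h1
      have h4 : ((A : L) : v.adicCompletion L) =
          (((θ : L) - θ' : L) : v.adicCompletion L) *
            (((t k θ'' : L) / t k θ' : L) : v.adicCompletion L) +
          (((θ' : L) - θ'' : L) : v.adicCompletion L) *
            (((t k θ : L) / t k θ' : L) : v.adicCompletion L) +
          (((θ'' : L) - θ : L) : v.adicCompletion L) := by
        show (FinitePlace.embedding v : L →+* v.adicCompletion L) A =
          (FinitePlace.embedding v : L →+* v.adicCompletion L) ((θ : L) - θ') *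
            (FinitePlace.embedding v : L →+* v.adicCompletion L) ((t k θ'' : L) / t k θ') +
          (FinitePlace.embedding v : L →+* v.adicCompletion L) ((θ' : L) - θ'') *
            (FinitePlace.embedding v : L →+* v.adicCompletion L) ((t k θ : L) / t k θ') +
          (FinitePlace.embedding v : L →+* v.adicCompletion L) ((θ'' : L) - θ)
        rw [hA, map_add, map_add, map_mul, map_mul]
      rw [h4, h2]
      ring
    have hnorm : ∀ θ₁ : f.rootSet L, ‖(p θ₁).1 v' / (p θ').1 v'‖ =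
        fabs v ((t 0 θ₁ : L) / t 0 θ') := by
      intro θ₁
      have h1 := (hquot 0 v' θ₁ θ').1
      have h0 : (p θ₁).1 v' / (p θ').1 v' ≠ 0 := div_ne_zero (hp0 v' θ₁) (hp0 v' θ')
      rw [norm_div, div_eq_one_iff_eq (norm_ne_zero_iff.2 h0)] at h1
      rw [← h1]
      exact norm_coe_eq v _
    have hterm : ∀ θ₁ θ₂ θ₃ : f.rootSet L,
        ‖((algebraMap (𝓞 L) L b : L) : v.adicCompletion L) *
          ((((θ₁ : L) - θ₂ : L) : v.adicCompletion L) *
          ((((t k θ₃ : L) / t k θ' : L) : v.adicCompletion L) -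
            (p θ₃).1 v' / (p θ').1 v'))‖ ≤ fabs v ((k.factorial : ℕ) : L) := by
      intro θ₁ θ₂ θ₃
      rw [norm_mul, norm_mul, norm_coe_eq, norm_coe_eq]
      have h1 := hdist k v' θ₃ θ'
      rw [hnorm θ₃] at h1
      have h2 := hbv v θ₁ θ₂ θ₃ θ'
      rw [map_mul, map_mul] at h2
      have p1 := (fabs v).nonneg (algebraMap (𝓞 L) L b)
      have p2 := (fabs v).nonneg ((θ₁ : L) - θ₂)
      have p3 := (fabs v).nonneg ((k.factorial : ℕ) : L)
      calc fabs v (algebraMap (𝓞 L) L b) * (fabs v ((θ₁ : L) - θ₂) *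
            ‖(((t k θ₃ : L) / t k θ' : L) : v.adicCompletion L) -
              (p θ₃).1 v' / (p θ').1 v'‖)
          ≤ fabs v (algebraMap (𝓞 L) L b) * (fabs v ((θ₁ : L) - θ₂) *
            (fabs v ((k.factorial : ℕ) : L) * fabs v ((t 0 θ₃ : L) / t 0 θ'))) :=
            mul_le_mul_of_nonneg_left (mul_le_mul_of_nonneg_left h1 p2) p1
        _ = fabs v ((k.factorial : ℕ) : L) * (fabs v (algebraMap (𝓞 L) L b) *
            (fabs v ((θ₁ : L) - θ₂) * fabs v ((t 0 θ₃ : L) / t 0 θ'))) := by ring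
        _ ≤ fabs v ((k.factorial : ℕ) : L) * 1 := mul_le_mul_of_nonneg_left h2 p3
        _ = _ := mul_one _
    rw [← norm_coe_eq]
    have e5 : ((algebraMap (𝓞 L) L b * A : L) : v.adicCompletion L) =
        ((algebraMap (𝓞 L) L b : L) : v.adicCompletion L) * ((A : L) : v.adicCompletion L) := by
      rw [hmap, map_mul]
      rfl
    rw [e5, hAv, mul_add]
    exact (norm_add_le_max' v _ _).trans (max_le (hterm θ θ' θ'') (hterm θ' θ'' θ))
  · have h1 := hdist k v θ θ'
    have h0 := hp0 v θ'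
    have e : (((t k θ : L) / t k θ' : L) : v.1.adicCompletion L) * (p θ').1 v - (p θ).1 v =
        ((((t k θ : L) / t k θ' : L) : v.1.adicCompletion L) - (p θ).1 v / (p θ').1 v) *
          (p θ').1 v := by
      rw [sub_mul, div_mul_cancel₀ _ h0]
    rw [e, norm_mul]
    calc ‖(((t k θ : L) / t k θ' : L) : v.1.adicCompletion L) - (p θ).1 v / (p θ').1 v‖ *
          ‖(p θ').1 v‖ ≤ fabs v.1 ((k.factorial : ℕ) : L) * ‖(p θ).1 v / (p θ').1 v‖ *
          ‖(p θ').1 v‖ := mul_le_mul_of_nonneg_right h1 (norm_nonneg _)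
      _ = _ := by
        rw [mul_assoc, ← norm_mul, div_mul_cancel₀ _ h0]

end Pool.Agent.Lib.MP_78b700_nt.HV
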