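import Pool.Agent.Lib.MP_78b700_nt.HV.Spec

/-!
# Characters of the torus from closed points (module CHA)
-/

set_option autoImplicit false

open IsDedekindDomain NumberField Polynomial

namespace Pool.Agent.Lib.MP_78b700_nt.HV.CHAM

variable {F L : Type} [Field F] [NumberField F] [Field L] [NumberField L] [Algebra F L]

/-- a family of different closed points -/
theorem exists_family (f : F[X]) (k : IntermediateField F L) (m : ℕ)
    (h : m ≤ (closedPts f k).ncard) :
    ∃ θ : Fin m → f.rootSet L, Function.Injective fun i => minpoly k (θ i : L) := by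
  classical
  have hfin : (closedPts f k).Finite := by
    have : closedPts f k ⊆ Set.range fun θ : f.rootSet L => minpoly k (θ : L) := by
      rintro q ⟨θ, hθ, rfl⟩
      exact ⟨⟨θ, hθ⟩, rfl⟩
    exact (Set.finite_range _).subset this
  haveI : Fintype (closedPts f k) := hfin.fintype
  have h1 : Fintype.card (Fin m) ≤ Fintype.card (closedPts f k) := by
    rw [Fintype.card_fin, ← Nat.card_eq_fintype_card]
    exact h
  obtain ⟨e⟩ := Function.Embedding.nonempty_of_card_le h1
  have h2 : ∀ i, ∃ θ : f.rootSet L, (e i : k[X]) = minpoly k (θ : L) := by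
    intro i
    obtain ⟨θ, hθ, hq⟩ := (e i).2
    exact ⟨⟨θ, hθ⟩, hq⟩
  choose θ hθ using h2
  refine ⟨θ, fun i j hij => e.injective (Subtype.ext ?_)⟩
  rw [hθ i, hθ j]
  exact hij

theorem minpoly_apply (k : IntermediateField F L) (g : L ≃ₐ[F] L) (hg : g ∈ k.fixingSubgroup)
    (x : L) : minpoly k (g x) = minpoly k x := by
  have := minpoly.algEquiv_eq (k.fixingSubgroupEquiv ⟨g, hg⟩) x
  exact this

end CHAM

open CHAM in
/-- CHA -/
theorem specCha : SpecCha := by
  classical
  intro F L _ _ _ _ _ _ f k r _ hr
  obtain ⟨θ, hθ⟩ := exists_family f k (r + 2) hr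
  set q : Fin (r + 2) → k[X] := fun i => minpoly k (θ i : L) with hq
  set O : Fin (r + 2) → Finset (f.rootSet L) :=
    fun i => Finset.univ.filter fun x : f.rootSet L => minpoly k (x : L) = q i with hO
  have hmem : ∀ i (x : f.rootSet L), x ∈ O i ↔ minpoly k (x : L) = q i := by
    intro i x
    simp [hO]
  have h0 : ((O 0).card : ℤ) ≠ 0 := by
    have : (O 0).card ≠ 0 := by
      rw [Finset.card_ne_zero]
      exact ⟨θ 0, (hmem 0 _).2 rfl⟩
    exact_mod_cast this
  refine ⟨fun i x => (O 0).card * (if x ∈ O i.succ then 1 else 0) -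
    (O i.succ).card * (if x ∈ O 0 then 1 else 0), ?_, fun i => ⟨?_, ?_⟩⟩
  · rw [Fintype.linearIndependent_iff]
    intro g hg j
    have h1 := congrFun hg (θ j.succ)
    rw [Finset.sum_apply, Finset.sum_eq_single j] at h1
    · have h2 : θ j.succ ∈ O j.succ := (hmem _ _).2 rfl
      have h3 : θ j.succ ∉ O 0 := by
        rw [hmem]
        intro h
        exact Fin.succ_ne_zero j (hθ h)
      simp only [Pi.smul_apply, Pi.zero_apply, smul_eq_mul, if_pos h2, if_neg h3, mul_one,
        mul_zero, sub_zero, mul_eq_zero] at h1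
      rcases h1 with h1 | h1
      · exact h1
      · exact absurd h1 h0
    · intro i _ hij
      have h2 : θ j.succ ∉ O i.succ := by
        rw [hmem]
        intro h
        exact hij (Fin.succ_injective _ (hθ h)).symm
      have h3 : θ j.succ ∉ O 0 := by
        rw [hmem]
        intro h
        exact Fin.succ_ne_zero j (hθ h)
      simp [h2, h3]
    · intro h
      exact absurd (Finset.mem_univ j) h
  · rw [Finset.sum_sub_distrib, ← Finset.mul_sum, ← Finset.mul_sum, Finset.sum_boole,
      Finset.sum_boole]
    have e : ∀ i, (Finset.univ.filter fun x : f.rootSet L => x ∈ O i) = O i := by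
      intro i
      ext x
      simp
    rw [e, e]
    ring
  · intro g hg x x' hx
    have h1 : ∀ i, x' ∈ O i ↔ x ∈ O i := by
      intro i
      rw [hmem, hmem, ← hx, minpoly_apply k g hg]
    refine ⟨fun _ => ?_, fun h => absurd hg h⟩
    simp only [h1]

end Pool.Agent.Lib.MP_78b700_nt.HV
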