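import Pool.Agent.Lib.MP_78b700_nt.Defs
import Pool.Agent.Lib.MP_78b700_nt.RankOne

/-!
# The torus form of the Harari-Voloch conjecture for `P^1 - D`, `D` a set of closed points
-/

set_option autoImplicit false

open IsDedekindDomain NumberField Polynomial
open scoped RestrictedProduct

namespace Pool.Agent.Lib.MP_78b700_nt.HV

/-- There are only finitely many primes of `L` above a prime of `F`. -/
theorem finite_above {F : Type*} [Field F] [NumberField F] (L : Type*) [Field L] [NumberField L]
    [Algebra F L] (S : Finset (HeightOneSpectrum (𝓞 F))) :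
    {w : HeightOneSpectrum (𝓞 L) | ∃ v ∈ S, w.asIdeal.under (𝓞 F) = v.asIdeal}.Finite := by
  have h : {w : HeightOneSpectrum (𝓞 L) | ∃ v ∈ S, w.asIdeal.under (𝓞 F) = v.asIdeal} ⊆
      ⋃ v ∈ S, {w : HeightOneSpectrum (𝓞 L) | w.asIdeal.under (𝓞 F) = v.asIdeal} := by
    rintro w ⟨v, hv, hw⟩
    exact Set.mem_biUnion hv hw
  refine (S.finite_toSet.biUnion fun v _ => ?_).subset h
  have h2 := IsDedekindDomain.primesOver_finite v.asIdeal (𝓞 L)
  refine Set.Finite.of_finite_image (f := fun w : HeightOneSpectrum (𝓞 L) => w.asIdeal)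
    (h2.subset ?_) ?_
  · rintro _ ⟨w, hw, rfl⟩
    exact ⟨w.isPrime, ⟨hw.symm⟩⟩
  · intro w _ w' _ hww
    exact HeightOneSpectrum.ext hww

/-- The set of primes of `L` above the primes in `S`. -/
noncomputable def above {F : Type*} [Field F] [NumberField F] (L : Type*) [Field L]
    [NumberField L] [Algebra F L] (S : Finset (HeightOneSpectrum (𝓞 F))) :
    Finset (HeightOneSpectrum (𝓞 L)) :=
  (finite_above L S).toFinset

theorem mem_above {F : Type*} [Field F] [NumberField F] {L : Type*} [Field L] [NumberField L]
    [Algebra F L] {S : Finset (HeightOneSpectrum (𝓞 F))} {w : HeightOneSpectrum (𝓞 L)} :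
    w ∈ above L S ↔ ∃ v ∈ S, w.asIdeal.under (𝓞 F) = v.asIdeal := by
  rw [above, Set.Finite.mem_toFinset]
  rfl

section

variable (F L : Type) [Field F] [NumberField F] [Field L] [NumberField L] [Algebra F L]
  (f : F[X]) (S : Finset (HeightOneSpectrum (𝓞 F)))

/-- The number of places of the extension `K` of `F` which are archimedean or lie above a prime
in `S`. -/
noncomputable def numPlaces (K : Type) [Field K] [Algebra F K] : ℕ :=
  Nat.card (InfinitePlace K) +
    Nat.card {w : HeightOneSpectrum (𝓞 K) // ∃ v ∈ S, w.asIdeal.under (𝓞 F) = v.asIdeal}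

variable {F L}

/-- The closed points of `D_k`, `D = {f = 0}`, given by the minimal polynomials over `k` of the
roots of `f`, where `k` is a field between `F` and `L`. -/
def closedPts (k : IntermediateField F L) : Set k[X] :=
  {q | ∃ θ ∈ f.rootSet L, q = minpoly k θ}

/-- The closed points of `D_k` whose residue field `k(θ)` contains `K`. -/
def closedPtsOver (k K : IntermediateField F L) : Set k[X] :=
  {q | ∃ θ ∈ f.rootSet L, K ≤ k ⊔ IntermediateField.adjoin F {θ} ∧ q = minpoly k θ}

/-- The Galois-equivariant maps `D → Lˣ`. Their classes modulo the constant maps `D → Fˣ` are the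
elements of `T(F)` (Hilbert 90). -/
def Equi (t : f.rootSet L → Lˣ) : Prop :=
  ∀ (g : L ≃ₐ[F] L) (θ θ' : f.rootSet L), g θ = θ' → g (t θ) = t θ'

/-- The group `T(O_S)` of the `S`-integral points of `T` (inverse image in the equivariant maps):
all quotients `t(θ) / t(θ')` are `S`-units. -/
def integralT : Set (f.rootSet L → Lˣ) :=
  {t | Equi f t ∧ ∀ θ θ', IsSUnit (above L S) ((t θ / t θ' : Lˣ) : L)}

variable (L)

/-- First case: there is a finite extension `k` of `F` which has at most two places above `S` and
`∞`, and `D_k` has more closed points than `k` has places above `S` and `∞`. -/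
def CritA : Prop :=
  ∃ k : IntermediateField F L,
    numPlaces F S k ≤ 2 ∧ numPlaces F S k < (closedPts f k).ncard

/-- Second case: there are a finite extension `k` of `F` and a quadratic extension `K` of `k` which
has at most one place above `S` and `∞` more than `k` (that is, at most one place of `k` above `S`
and `∞` splits in `K`), and `D_k` has more than (number of these split places) closed points whose
residue field contains `K`. For example, if the residue field of a closed point of `D` contains a
CM field `K ⊇ F`, `k = K⁺ ⊇ F`, such that the primes of `k` above `S` do not split in `K`. -/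
def CritB : Prop :=
  ∃ k K : IntermediateField F L, k ≤ K ∧ IntermediateField.relfinrank k K = 2 ∧
    numPlaces F S K ≤ numPlaces F S k + 1 ∧
    numPlaces F S K < numPlaces F S k + (closedPtsOver f k K).ncard

/-- Third case: `T` has `r + 1` independent characters `n_i` (over `L`), `r = 0` or `r = 1`, such
that any `r + 1` elements of the form `n_i(t)`, `t ∈ T(O_S)`, are multiplicatively dependent. -/
def CritC : Prop :=
  ∃ (r : ℕ) (n : Fin (r + 1) → f.rootSet L → ℤ), r ≤ 1 ∧ LinearIndependent ℤ n ∧
    (∀ i, ∑ θ, n i θ = 0) ∧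
    ∀ u : Fin (r + 1) → Lˣ, (∀ j, ∃ i, ∃ t ∈ integralT f S, u j = ∏ θ, t θ ^ n i θ) →
      ∃ a : Fin (r + 1) → ℤ, a ≠ 0 ∧ ∏ j, u j ^ a j = 1

/-- The assumption on `D = {f = 0}` and `S`. -/
def Crit : Prop := CritA L f S ∨ CritB L f S ∨ CritC L f S

/-- The ring `A_L^S`: the adeles of `L` without the components at the archimedean places and at
the primes above `S`. -/
abbrev Ad : Type := SAdele L (above L S)

/-- The group `T(F)` inside `T(A_L^S)`, more precisely its inverse image in `∏_D (A_L^S)ˣ`. Here
`D` is the set of zeros of `f` in `L`, `T(A_L^S) = ∏_D (A_L^S)ˣ / (A_L^S)ˣ`, and `T(F)` consists of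
the classes of the Galois-equivariant maps `t : D → Lˣ`. -/
def torusF : Set (f.rootSet L → (Ad L S)ˣ) :=
  {p | ∃ (l : (Ad L S)ˣ) (t : f.rootSet L → Lˣ),
    Equi f t ∧ ∀ θ, p θ = l * Units.map (diag L (above L S) : L →* Ad L S) (t θ)}

/-- The points of `X = P^1 - D` over `A_L^S` in `T(A_L^S)` (inverse image in `∏_D (A_L^S)ˣ`): the
point with homogeneous coordinates `(x : y)` is mapped to the class of `(x - θ y)_θ`. -/
def curveA : Set (f.rootSet L → (Ad L S)ˣ) :=
  {p | ∃ x y : Ad L S, ∀ θ, (p θ : Ad L S) = x - diag L (above L S) θ * y}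

/-- The points of `X(F)` in `T(A_L^S)` (inverse image in `∏_D (A_L^S)ˣ`). -/
def curveF : Set (f.rootSet L → (Ad L S)ˣ) :=
  {p | ∃ (l : (Ad L S)ˣ) (a b : F), ∀ θ, (p θ : Ad L S) =
    l * diag L (above L S) (algebraMap F L a - θ * algebraMap F L b)}

end

/-- The theorem. -/
def Statement : Prop :=
  ∀ (F L : Type) [Field F] [NumberField F] [Field L] [NumberField L] [Algebra F L] [IsGalois F L]
    (f : F[X]) (S : Finset (HeightOneSpectrum (𝓞 F))), f.Separable →
    (f.map (algebraMap F L)).Splits → Crit L f S →
    curveA L f S ∩ closure (torusF L f S) = curveF L f S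

end Pool.Agent.Lib.MP_78b700_nt.HV
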