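import Pool.Agent.Lib.MP_78b700_nt.RankOne
import Pool.Agent.Lib.MP_78b700_nt.Defs
import Pool.Agent.Lib.MP_78b700_nt.HV.Defs

section
/-!
# Approximate solutions of the unit equation come from exact ones (rank one)
-/
set_option autoImplicit false

open IsDedekindDomain NumberField NumberField.HeightOneSpectrum Filter Topology

namespace Pool.Agent.Lib.MP_78b700_nt

variable {F : Type*} [Field F] [NumberField F] {S : Finset (HeightOneSpectrum (𝓞 F))}

lemma exists_denom (a b : F) : ∃ d : F, d ≠ 0 ∧ ∀ v : HeightOneSpectrum (𝓞 F),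
    fabs v d ≤ 1 ∧ fabs v (d * a) ≤ 1 ∧ fabs v (d * b) ≤ 1 := by
  obtain ⟨n₁, d₁, hd₁, rfl⟩ := IsFractionRing.div_surjective (A := 𝓞 F) a
  obtain ⟨n₂, d₂, hd₂, rfl⟩ := IsFractionRing.div_surjective (A := 𝓞 F) b
  have h1 : algebraMap (𝓞 F) F d₁ ≠ 0 := by
    simpa using nonZeroDivisors.ne_zero hd₁
  have h2 : algebraMap (𝓞 F) F d₂ ≠ 0 := by
    simpa using nonZeroDivisors.ne_zero hd₂
  have hle : ∀ (v : HeightOneSpectrum (𝓞 F)) (x : 𝓞 F), fabs v (algebraMap (𝓞 F) F x) ≤ 1 :=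
    fun v x => v.adicAbv_coe_le_one (one_lt_absNorm_nnreal v) x
  refine ⟨algebraMap (𝓞 F) F (d₁ * d₂), by rw [map_mul]; exact mul_ne_zero h1 h2, fun v =>
    ⟨hle v _, ?_, ?_⟩⟩
  · rw [show algebraMap (𝓞 F) F (d₁ * d₂) * (algebraMap (𝓞 F) F n₁ / algebraMap (𝓞 F) F d₁) =
      algebraMap (𝓞 F) F (d₂ * n₁) by rw [map_mul, map_mul]; field_simp]
    exact hle v _
  · rw [show algebraMap (𝓞 F) F (d₁ * d₂) * (algebraMap (𝓞 F) F n₂ / algebraMap (𝓞 F) F d₂) =
      algebraMap (𝓞 F) F (d₁ * n₂) by rw [map_mul, map_mul]; field_simp]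
    exact hle v _

/-- The rank one case: an approximate solution of the unit equation is close to an exact one. -/
lemma rank_one_exact (hS : Fintype.card (TPlace S) ≤ 2) {ε : F} (hε : IsSUnit S ε)
    {t₁ : TPlace S} (h1 : 1 < tabs S t₁ ε) {a₀ b₀ : F} (ha₀ : a₀ ≠ 0) (hb₀ : b₀ ≠ 0) :
    ∃ r₀ : ℕ, ∀ r ≥ r₀, ∀ a b : F, IsSUnit S (a / a₀) → IsSUnit S (b / b₀) →
      (∀ v ∉ S, fabs v (a + b - 1) ≤
        fabs v (ε ^ (3 * r) - 1) * max (fabs v a₀) (fabs v b₀)) →
      ∃ a', (IsSUnit S (a' / a₀) ∧ IsSUnit S ((1 - a') / b₀)) ∧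
        ∀ v ∉ S, fabs v (a - a') ≤ fabs v (ε ^ (3 * r) - 1) * fabs v a₀ := by
  obtain ⟨t₂, h2, hne, hall⟩ := two_places hS hε h1
  obtain ⟨Z, hZfin, hZu, hZ⟩ := virt_cyclic hε h1 hne hall
  obtain ⟨D, hD0, hD⟩ := exists_denom a₀ b₀
  -- bounds for the elements of `Z`
  obtain ⟨C, hC⟩ : ∃ C : ℝ, ∀ ζ ∈ Z, ∀ t : TPlace S, tabs S t ζ ≤ C := by
    have hfin : (⋃ t : TPlace S, (fun ζ => tabs S t ζ) '' Z).Finite :=
      Set.finite_iUnion fun t => hZfin.image _
    obtain ⟨C, hC⟩ := hfin.bddAbove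
    exact ⟨C, fun ζ hζ t => hC (Set.mem_iUnion.2 ⟨t, ζ, hζ, rfl⟩)⟩
  set E := tabs S t₁ ε with hE
  set E₂ := tabs S t₂ ε with hE₂
  have hE0 : 0 < E := by linarith
  have hE20 : 0 < E₂ := (tabs S t₂).pos hε.1
  set C' : ℝ := max C 0 with hC'
  have hC'0 : 0 ≤ C' := le_max_right _ _
  have hCC' : ∀ ζ ∈ Z, ∀ t : TPlace S, tabs S t ζ ≤ C' := fun ζ hζ t =>
    (hC ζ hζ t).trans (le_max_left _ _)
  set K : TPlace S → ℝ := fun t => tabs S t D * (tabs S t a₀ * C' + tabs S t b₀ * C' + 1) with hK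
  have hK0 : ∀ t, 0 ≤ K t := fun t => by
    have := (tabs S t).nonneg D
    have := (tabs S t).nonneg a₀
    have := (tabs S t).nonneg b₀
    positivity
  have hsmall := eventually_small E E₂ (K t₁) (K t₂) h1 hE20.le h2 (texp S t₁) (texp S t₂)
    (texp_pos S t₁)
  obtain ⟨r₀, hr₀⟩ := eventually_atTop.1 hsmall
  refine ⟨max r₀ 1, fun r hr a b ha hb hab => ?_⟩
  have hr1 : 0 < r := lt_of_lt_of_le one_pos ((le_max_right _ _).trans hr)
  obtain ⟨ζ, hζ, m, hm⟩ := hZ _ ha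
  obtain ⟨ζ', hζ', k, hk⟩ := hZ _ hb
  have ha' : a = a₀ * ζ * ε ^ m := by
    rw [mul_assoc, ← hm]; field_simp
  have hb' : b = b₀ * ζ' * ε ^ k := by
    rw [mul_assoc, ← hk]; field_simp
  obtain ⟨j, m', k', l', hm', hk', hl', dm, dk, dl⟩ := arcs r hr1 m k
  have dm' : ((3 * r : ℕ) : ℤ) ∣ (m' : ℤ) - (m + j) := by
    push_cast; rw [← dvd_neg]; simpa using dm
  have dk' : ((3 * r : ℕ) : ℤ) ∣ (k' : ℤ) - (k + j) := by
    push_cast; rw [← dvd_neg]; simpa using dk
  have dl' : ((3 * r : ℕ) : ℤ) ∣ (l' : ℤ) - j := by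
    push_cast; rw [← dvd_neg]; simpa using dl
  set δ : HeightOneSpectrum (𝓞 F) → ℝ := fun v => fabs v (ε ^ (3 * r) - 1) with hδ
  have hδ0 : ∀ v, 0 ≤ δ v := fun v => (fabs v).nonneg _
  set g : F := a₀ * ζ * ε ^ m' + b₀ * ζ' * ε ^ k' - ε ^ l' with hg
  have hgdec : g = ε ^ j * (a + b - 1) + (a₀ * ζ * (ε ^ (m' : ℤ) - ε ^ (m + j)) +
      (b₀ * ζ' * (ε ^ (k' : ℤ) - ε ^ (k + j)) - (ε ^ (l' : ℤ) - ε ^ j))) := by
    rw [hg, ha', hb', zpow_add₀ hε.1, zpow_add₀ hε.1, zpow_natCast, zpow_natCast, zpow_natCast]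
    ring
  have hgv : ∀ v ∉ S, fabs v g ≤ δ v * max (max (fabs v a₀) (fabs v b₀)) 1 := by
    intro v hv
    have e1 : fabs v (ε ^ j * (a + b - 1)) ≤ δ v * max (max (fabs v a₀) (fabs v b₀)) 1 := by
      rw [map_mul, map_zpow₀, hε.2 v hv, one_zpow, one_mul]
      exact (hab v hv).trans (mul_le_mul_of_nonneg_left (le_max_left _ _) (hδ0 v))
    have e2 : fabs v (a₀ * ζ * (ε ^ (m' : ℤ) - ε ^ (m + j))) ≤
        δ v * max (max (fabs v a₀) (fabs v b₀)) 1 := by
      rw [map_mul, map_mul, (hZu ζ hζ).2 v hv, mul_one, mul_comm]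
      exact mul_le_mul (zpow_sub_zpow_le v hε.1 (hε.2 v hv) _ dm')
        ((le_max_left _ _).trans (le_max_left _ _)) ((fabs v).nonneg _) (hδ0 v)
    have e3 : fabs v (b₀ * ζ' * (ε ^ (k' : ℤ) - ε ^ (k + j))) ≤
        δ v * max (max (fabs v a₀) (fabs v b₀)) 1 := by
      rw [map_mul, map_mul, (hZu ζ' hζ').2 v hv, mul_one, mul_comm]
      exact mul_le_mul (zpow_sub_zpow_le v hε.1 (hε.2 v hv) _ dk')
        ((le_max_right _ _).trans (le_max_left _ _)) ((fabs v).nonneg _) (hδ0 v)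
    have e4 : fabs v (ε ^ (l' : ℤ) - ε ^ j) ≤ δ v * max (max (fabs v a₀) (fabs v b₀)) 1 := by
      refine (zpow_sub_zpow_le v hε.1 (hε.2 v hv) _ dl').trans ?_
      exact le_mul_of_one_le_right (hδ0 v) (le_max_right _ _)
    rw [hgdec]
    refine (fabs_add_le v _ _).trans (max_le e1 ?_)
    refine (fabs_add_le v _ _).trans (max_le e2 ?_)
    exact (fabs_sub_le v _ _).trans (max_le e3 e4)
  -- `g = 0`
  have hn1 : 3 * r ≠ 0 := by omega
  have hEn : 1 < E ^ (3 * r) := one_lt_pow₀ h1 hn1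
  have hE2n : E₂ ^ (3 * r) < 1 := pow_lt_one₀ hE20.le h2 hn1
  have hne1 : ε ^ (3 * r) - 1 ≠ 0 := by
    intro h0
    rw [sub_eq_zero] at h0
    have : E ^ (3 * r) = 1 := by rw [hE, ← map_pow, h0, map_one]
    linarith
  have hg0 : g = 0 := by
    by_contra hgne
    set h : F := D * g / (ε ^ (3 * r) - 1) with hh
    have hh0 : h ≠ 0 := div_ne_zero (mul_ne_zero hD0 hgne) hne1
    have hhv : ∀ v ∉ S, fabs v h ≤ 1 := by
      intro v hv
      rw [hh, map_div₀, map_mul, div_le_one ((fabs v).pos hne1)]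
      obtain ⟨c1, c2, c3⟩ := hD v
      rw [map_mul] at c2 c3
      calc fabs v D * fabs v g ≤ fabs v D * (δ v * max (max (fabs v a₀) (fabs v b₀)) 1) :=
            mul_le_mul_of_nonneg_left (hgv v hv) ((fabs v).nonneg _)
        _ = δ v * (fabs v D * max (max (fabs v a₀) (fabs v b₀)) 1) := by ring
        _ ≤ δ v * 1 := by
            refine mul_le_mul_of_nonneg_left ?_ (hδ0 v)
            rcases max_choice (max (fabs v a₀) (fabs v b₀)) 1 with e | e
            · rw [e]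
              rcases max_choice (fabs v a₀) (fabs v b₀) with e | e
              · rw [e]; exact c2
              · rw [e]; exact c3
            · rw [e, mul_one]; exact c1
        _ = δ v := mul_one _
    have hlow := one_le_tprod S hh0 hhv
    rw [tprod_two hne hall] at hlow
    have hup := hr₀ r ((le_max_left _ _).trans hr)
    have gt : ∀ t, tabs S t g ≤ tabs S t a₀ * C' * tabs S t ε ^ m' +
        tabs S t b₀ * C' * tabs S t ε ^ k' + tabs S t ε ^ l' := by
      intro t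
      have f1 : tabs S t g ≤ tabs S t (a₀ * ζ * ε ^ m' + b₀ * ζ' * ε ^ k') + tabs S t (ε ^ l') := by
        rw [hg, sub_eq_add_neg]
        refine ((tabs S t).add_le _ _).trans ?_
        rw [map_neg_eq_map]
      have f2 := (tabs S t).add_le (a₀ * ζ * ε ^ m') (b₀ * ζ' * ε ^ k')
      rw [map_mul, map_mul, map_mul, map_mul, map_pow, map_pow] at f2
      rw [map_pow] at f1
      have p0 := (tabs S t).nonneg ε
      have g1 : tabs S t a₀ * tabs S t ζ * tabs S t ε ^ m' ≤ tabs S t a₀ * C' * tabs S t ε ^ m' :=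
        mul_le_mul_of_nonneg_right (mul_le_mul_of_nonneg_left (hCC' ζ hζ t)
          ((tabs S t).nonneg _)) (by positivity)
      have g2 : tabs S t b₀ * tabs S t ζ' * tabs S t ε ^ k' ≤ tabs S t b₀ * C' * tabs S t ε ^ k' :=
        mul_le_mul_of_nonneg_right (mul_le_mul_of_nonneg_left (hCC' ζ' hζ' t)
          ((tabs S t).nonneg _)) (by positivity)
      linarith
    have b1 : tabs S t₁ h ≤ K t₁ * E ^ (2 * r) / (E ^ (3 * r) - 1) := by
      rw [hh, map_div₀, map_mul]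
      have q1 : tabs S t₁ g ≤ (tabs S t₁ a₀ * C' + tabs S t₁ b₀ * C' + 1) * E ^ (2 * r) := by
        refine (gt t₁).trans ?_
        have u1 : E ^ m' ≤ E ^ (2 * r) := pow_le_pow_right₀ h1.le hm'
        have u2 : E ^ k' ≤ E ^ (2 * r) := pow_le_pow_right₀ h1.le hk'
        have u3 : E ^ l' ≤ E ^ (2 * r) := pow_le_pow_right₀ h1.le hl'
        have w1 := mul_le_mul_of_nonneg_left u1 (mul_nonneg ((tabs S t₁).nonneg a₀) hC'0)
        have w2 := mul_le_mul_of_nonneg_left u2 (mul_nonneg ((tabs S t₁).nonneg b₀) hC'0)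
        rw [← hE]
        nlinarith
      have q2 : E ^ (3 * r) - 1 ≤ tabs S t₁ (ε ^ (3 * r) - 1) := by
        have := (tabs S t₁).add_le (ε ^ (3 * r) - 1) 1
        rw [sub_add_cancel, map_pow, map_one] at this
        linarith
      rw [div_le_div_iff₀ ((tabs S t₁).pos hne1) (by linarith)]
      have q3 : tabs S t₁ D * tabs S t₁ g ≤ K t₁ * E ^ (2 * r) := by
        rw [hK]
        calc tabs S t₁ D * tabs S t₁ g ≤ tabs S t₁ D *
              ((tabs S t₁ a₀ * C' + tabs S t₁ b₀ * C' + 1) * E ^ (2 * r)) :=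
              mul_le_mul_of_nonneg_left q1 ((tabs S t₁).nonneg _)
          _ = _ := by ring
      exact mul_le_mul q3 q2 (by linarith) (mul_nonneg (hK0 _) (by positivity))
    have b2 : tabs S t₂ h ≤ K t₂ / (1 - E₂ ^ (3 * r)) := by
      rw [hh, map_div₀, map_mul]
      have q1 : tabs S t₂ g ≤ (tabs S t₂ a₀ * C' + tabs S t₂ b₀ * C' + 1) := by
        refine (gt t₂).trans ?_
        have u1 : E₂ ^ m' ≤ 1 := pow_le_one₀ hE20.le h2.le
        have u2 : E₂ ^ k' ≤ 1 := pow_le_one₀ hE20.le h2.le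
        have u3 : E₂ ^ l' ≤ 1 := pow_le_one₀ hE20.le h2.le
        have w1 := mul_le_mul_of_nonneg_left u1 (mul_nonneg ((tabs S t₂).nonneg a₀) hC'0)
        have w2 := mul_le_mul_of_nonneg_left u2 (mul_nonneg ((tabs S t₂).nonneg b₀) hC'0)
        rw [← hE₂]
        nlinarith
      have q2 : 1 - E₂ ^ (3 * r) ≤ tabs S t₂ (ε ^ (3 * r) - 1) := by
        have := (tabs S t₂).sub_le 1 0 (ε ^ (3 * r))
        have h3 := (tabs S t₂).add_le (1 - ε ^ (3 * r)) (ε ^ (3 * r))
        rw [sub_add_cancel, map_pow, map_one] at h3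
        have h4 : tabs S t₂ (1 - ε ^ (3 * r)) = tabs S t₂ (ε ^ (3 * r) - 1) := by
          rw [← map_neg_eq_map]; congr 1; ring
        rw [h4] at h3
        linarith
      rw [div_le_div_iff₀ ((tabs S t₂).pos hne1) (by linarith)]
      have q3 : tabs S t₂ D * tabs S t₂ g ≤ K t₂ := by
        rw [hK]
        exact mul_le_mul_of_nonneg_left q1 ((tabs S t₂).nonneg _)
      exact mul_le_mul q3 q2 (by linarith) (hK0 _)
    have b3 : tabs S t₁ h ^ texp S t₁ * tabs S t₂ h ^ texp S t₂ ≤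
        (K t₁ * E ^ (2 * r) / (E ^ (3 * r) - 1)) ^ texp S t₁ *
          (K t₂ / (1 - E₂ ^ (3 * r))) ^ texp S t₂ := by
      have n1 := (tabs S t₁).nonneg h
      have n2 := (tabs S t₂).nonneg h
      exact mul_le_mul (pow_le_pow_left₀ n1 b1 _) (pow_le_pow_left₀ n2 b2 _) (by positivity)
        (pow_nonneg (n1.trans b1) _)
    linarith
  -- the exact solution
  refine ⟨a₀ * ζ * ε ^ ((m' : ℤ) - l'), ⟨?_, ?_⟩, ?_⟩
  · have : a₀ * ζ * ε ^ ((m' : ℤ) - l') / a₀ = ζ * ε ^ ((m' : ℤ) - l') := by field_simp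
    rw [this]
    exact (hZu ζ hζ).mul (hε.zpow _)
  · have hsum : 1 - a₀ * ζ * ε ^ ((m' : ℤ) - l') = b₀ * ζ' * ε ^ ((k' : ℤ) - l') := by
      have hl0 : ε ^ (l' : ℤ) ≠ 0 := zpow_ne_zero _ hε.1
      rw [zpow_sub₀ hε.1, zpow_sub₀ hε.1]
      rw [sub_eq_iff_eq_add, mul_div_assoc', mul_div_assoc', ← add_div, eq_comm, div_eq_one_iff_eq hl0]
      rw [zpow_natCast, zpow_natCast, zpow_natCast]
      have := hg0
      rw [hg, sub_eq_zero] at this
      rw [← this]; ring
    have : b₀ * ζ' * ε ^ ((k' : ℤ) - l') / b₀ = ζ' * ε ^ ((k' : ℤ) - l') := by field_simp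
    rw [hsum, this]
    exact (hZu ζ' hζ').mul (hε.zpow _)
  · intro v hv
    have dd : ((3 * r : ℕ) : ℤ) ∣ m - ((m' : ℤ) - l') := by
      have := dvd_sub dl' dm'
      rwa [show (l' : ℤ) - j - (m' - (m + j)) = m - (m' - l') by ring] at this
    have := zpow_sub_zpow_le v hε.1 (hε.2 v hv) (3 * r) dd
    have e : a - a₀ * ζ * ε ^ ((m' : ℤ) - l') = a₀ * ζ * (ε ^ m - ε ^ ((m' : ℤ) - l')) := by
      rw [ha']; ring
    rw [e, map_mul, map_mul, (hZu ζ hζ).2 v hv, mul_one, mul_comm]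
    exact mul_le_mul_of_nonneg_right this ((fabs v).nonneg _)

end Pool.Agent.Lib.MP_78b700_nt
end

section
/-!
# Powers of an `S`-unit close to one, and the passage to the limit
-/
set_option autoImplicit false

open IsDedekindDomain NumberField NumberField.HeightOneSpectrum Filter Topology

namespace Pool.Agent.Lib.MP_78b700_nt

variable {F : Type*} [Field F] [NumberField F] {S : Finset (HeightOneSpectrum (𝓞 F))}

lemma fabs_le_pow_of_mem (v : HeightOneSpectrum (𝓞 F)) :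
    ∃ c : ℝ, 0 ≤ c ∧ c < 1 ∧ ∀ (k : ℕ) (x : 𝓞 F), x ∈ v.asIdeal ^ k →
      fabs v (algebraMap (𝓞 F) F x) ≤ c ^ k := by
  have h1 := one_lt_absNorm_nnreal v
  set c : NNReal := WithZeroMulInt.toNNReal (absNorm_ne_zero v) (WithZero.exp (-1 : ℤ)) with hc
  have hc1 : c < 1 := by
    rw [hc, WithZeroMulInt.toNNReal_lt_one_iff h1]
    rw [← WithZero.exp_zero]
    exact WithZero.exp_lt_exp.2 (by norm_num)
  refine ⟨c, c.2, by exact_mod_cast hc1, fun k x hx => ?_⟩
  have h2 := (v.intValuation_le_pow_iff_mem x k).2 hx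
  have h3 : fabs v (algebraMap (𝓞 F) F x) =
      WithZeroMulInt.toNNReal (absNorm_ne_zero v) (v.intValuation x) := by
    rw [fabs, adicAbv_def, HeightOneSpectrum.valuation_of_algebraMap]
  rw [h3]
  have h4 := (WithZeroMulInt.toNNReal_strictMono h1).monotone h2
  have h5 : WithZero.exp (-(k : ℤ)) = (WithZero.exp (-1 : ℤ)) ^ k := by
    rw [← WithZero.exp_nsmul]; simp
  rw [h5, map_pow] at h4
  exact_mod_cast h4

lemma fabs_eq_one_of_notMem (v : HeightOneSpectrum (𝓞 F)) {x : 𝓞 F} (hx : x ∉ v.asIdeal) :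
    fabs v (algebraMap (𝓞 F) F x) = 1 :=
  (v.adicAbv_coe_eq_one_iff (one_lt_absNorm_nnreal v) x).2 hx

lemma exists_exponent (v : HeightOneSpectrum (𝓞 F)) {ε : F} (hε : fabs v ε = 1) {δ : ℝ}
    (hδ : 0 < δ) : ∃ R : ℕ, 0 < R ∧ ∀ n, R ∣ n → fabs v (ε ^ n - 1) ≤ δ := by
  classical
  have hval : v.valuation F ε ≤ 1 := by
    have h := hε.le
    rw [fabs, adicAbv_def] at h
    have h2 : WithZeroMulInt.toNNReal (absNorm_ne_zero v) (v.valuation F ε) ≤ 1 := by
      exact_mod_cast h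
    exact (WithZeroMulInt.toNNReal_le_one_iff (one_lt_absNorm_nnreal v)).1 h2
  obtain ⟨n, ⟨d, hd⟩, hnd⟩ := v.exists_primeCompl_mul_eq_of_integer ε hval
  have hdv : fabs v (algebraMap (𝓞 F) F d) = 1 := fabs_eq_one_of_notMem v hd
  have hnv : fabs v (algebraMap (𝓞 F) F n) = 1 := by
    rw [← hnd, map_mul, hε, one_mul]; exact hdv
  obtain ⟨c, hc0, hc1, hc⟩ := fabs_le_pow_of_mem v
  obtain ⟨k, hk⟩ := exists_pow_lt_of_lt_one hδ hc1
  have hfin : Finite (𝓞 F ⧸ v.asIdeal ^ k) :=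
    (v.asIdeal ^ k).finiteQuotientOfFreeOfNeBot (pow_ne_zero k v.ne_bot)
  -- pigeonhole on the pairs of powers
  obtain ⟨i, j, hij, heq⟩ := Finite.exists_ne_map_eq_of_infinite
    (fun i : ℕ => ((Ideal.Quotient.mk (v.asIdeal ^ k) (n ^ i),
      Ideal.Quotient.mk (v.asIdeal ^ k) (d ^ i)) :
        (𝓞 F ⧸ v.asIdeal ^ k) × (𝓞 F ⧸ v.asIdeal ^ k)))
  wlog hlt : i < j generalizing i j
  · exact this j i hij.symm heq.symm (lt_of_le_of_ne (not_lt.1 hlt) hij.symm)
  simp only [Prod.mk.injEq] at heq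
  obtain ⟨e1, e2⟩ := heq
  have aux : ∀ x : 𝓞 F, fabs v (algebraMap (𝓞 F) F x) = 1 →
      Ideal.Quotient.mk (v.asIdeal ^ k) (x ^ i) = Ideal.Quotient.mk (v.asIdeal ^ k) (x ^ j) →
      fabs v (algebraMap (𝓞 F) F x ^ (j - i) - 1) ≤ δ := by
    intro x hx e
    have h1 : x ^ j - x ^ i ∈ v.asIdeal ^ k := Ideal.Quotient.eq.1 e.symm
    have h2 := hc k _ h1
    have h3 : algebraMap (𝓞 F) F (x ^ j - x ^ i) =
        algebraMap (𝓞 F) F x ^ i * (algebraMap (𝓞 F) F x ^ (j - i) - 1) := by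
      rw [map_sub, map_pow, map_pow, mul_sub, ← pow_add, Nat.add_sub_cancel' hlt.le, mul_one]
    rw [h3, map_mul, map_pow, hx, one_pow, one_mul] at h2
    exact h2.trans hk.le
  have b1 := aux n hnv e1
  have b2 := aux d hdv e2
  have hd0 : algebraMap (𝓞 F) F d ≠ 0 := by
    intro h0; rw [h0, map_zero] at hdv; exact zero_ne_one hdv
  have b3 : fabs v (ε ^ (j - i) - 1) ≤ δ := by
    have e3 : ε ^ (j - i) - 1 = ((algebraMap (𝓞 F) F n ^ (j - i) - 1) -
        (algebraMap (𝓞 F) F d ^ (j - i) - 1)) / algebraMap (𝓞 F) F d ^ (j - i) := by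
      rw [← hnd, mul_pow]
      field_simp
      ring
    rw [e3, map_div₀, map_pow, hdv, one_pow, div_one]
    exact (fabs_sub_le v _ _).trans (max_le b1 b2)
  refine ⟨j - i, by omega, fun m hm => ?_⟩
  obtain ⟨s, rfl⟩ := hm
  rw [pow_mul]
  exact (pow_sub_one_le v (by rw [map_pow, hε, one_pow]) s).trans b3

/-- A common exponent for finitely many places. -/
lemma exists_common_exponent {ε : F} (P : Finset {v : HeightOneSpectrum (𝓞 F) // v ∉ S})
    (hε : IsSUnit S ε) {δ : {v : HeightOneSpectrum (𝓞 F) // v ∉ S} → ℝ} (hδ : ∀ v, 0 < δ v) :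
    ∃ R : ℕ, 0 < R ∧ ∀ v ∈ P, ∀ n, R ∣ n → fabs v.1 (ε ^ n - 1) ≤ δ v := by
  have h := fun v : {v : HeightOneSpectrum (𝓞 F) // v ∉ S} =>
    exists_exponent v.1 (hε.2 v.1 v.2) (hδ v)
  choose R hR0 hR using h
  refine ⟨∏ v ∈ P, R v, Finset.prod_pos fun v _ => hR0 v, fun v hv n hn => ?_⟩
  exact hR v n ((Finset.dvd_prod_of_mem R hv).trans hn)

lemma norm_coe_eq (v : HeightOneSpectrum (𝓞 F)) (x : F) :
    ‖(x : v.adicCompletion F)‖ = fabs v x := FinitePlace.norm_embedding v x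

/-- If a family `(u_v)` is arbitrarily close at finitely many places to elements of a finite set
of `F`, then it is one of them. -/
lemma limit_in_finite {Sol : Set F} (hSol : Sol.Finite)
    (u : ∀ v : {v : HeightOneSpectrum (𝓞 F) // v ∉ S}, v.1.adicCompletion F)
    (h : ∀ (P : Finset {v : HeightOneSpectrum (𝓞 F) // v ∉ S}) (δ : ℝ), 0 < δ →
      ∃ a ∈ Sol, ∀ v ∈ P, ‖u v - (a : v.1.adicCompletion F)‖ ≤ δ) :
    ∃ a ∈ Sol, ∀ v, u v = (a : v.1.adicCompletion F) := by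
  classical
  by_contra hcon
  push Not at hcon
  have h2 : ∀ a : F, ∃ v : {v : HeightOneSpectrum (𝓞 F) // v ∉ S}, a ∈ Sol →
      0 < ‖u v - (a : v.1.adicCompletion F)‖ := by
    intro a
    by_cases ha : a ∈ Sol
    · obtain ⟨v, hv⟩ := hcon a ha
      exact ⟨v, fun _ => norm_pos_iff.2 (sub_ne_zero.2 hv)⟩
    · obtain ⟨a', ha', -⟩ := h ∅ 1 one_pos
      obtain ⟨v, hv⟩ := hcon a' ha'
      exact ⟨v, fun h => absurd h ha⟩
  choose V hV using h2
  set T := hSol.toFinset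
  have hne : T.Nonempty := by
    obtain ⟨a', ha', -⟩ := h ∅ 1 one_pos
    exact ⟨a', hSol.mem_toFinset.2 ha'⟩
  obtain ⟨a₁, ha₁, hmin⟩ := T.exists_min_image
    (fun a => ‖u (V a) - (a : (V a).1.adicCompletion F)‖) hne
  have hpos := hV a₁ (hSol.mem_toFinset.1 ha₁)
  obtain ⟨a, ha, hle⟩ := h (T.image V) (‖u (V a₁) - (a₁ : (V a₁).1.adicCompletion F)‖ / 2)
    (half_pos hpos)
  have h3 := hle (V a) (Finset.mem_image_of_mem _ (hSol.mem_toFinset.2 ha))
  have h4 := hmin a (hSol.mem_toFinset.2 ha)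
  linarith

end Pool.Agent.Lib.MP_78b700_nt
end

section
/-!
# What membership in the closure of the global points gives
-/
set_option autoImplicit false

open IsDedekindDomain NumberField NumberField.HeightOneSpectrum Filter Topology
open scoped RestrictedProduct

namespace Pool.Agent.Lib.MP_78b700_nt

variable {F : Type*} [Field F] [NumberField F] {S : Finset (HeightOneSpectrum (𝓞 F))}

instance factOpen : Fact (∀ v : {v : HeightOneSpectrum (𝓞 F) // v ∉ S},
    IsOpen (v.1.adicCompletionIntegers F : Set (v.1.adicCompletion F))) :=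
  ⟨fun _ ↦ Valued.isOpen_valuationSubring _⟩

lemma mem_integers_iff (v : HeightOneSpectrum (𝓞 F)) (x : v.adicCompletion F) :
    x ∈ v.adicCompletionIntegers F ↔ ‖x‖ ≤ 1 := by
  rw [HeightOneSpectrum.mem_adicCompletionIntegers, FinitePlace.norm_def]
  rw [← WithZeroMulInt.toNNReal_le_one_iff (one_lt_absNorm_nnreal v)]
  norm_cast

/-- The neighbourhood `M * ∏ O_v` of zero. -/
def nbhd (M : Fˣ) : Set (SAdele F S) := {y | ∀ v, ‖y v‖ ≤ fabs v.1 (M : F)}

lemma diag_apply (x : F) (v : {v : HeightOneSpectrum (𝓞 F) // v ∉ S}) :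
    (diag F S x) v = (x : v.1.adicCompletion F) := rfl

lemma isOpen_nbhd (M : Fˣ) : IsOpen (nbhd M : Set (SAdele F S)) := by
  have h1 : IsOpen {f : SAdele F S | ∀ v, f.1 v ∈ (v.1.adicCompletionIntegers F :
      Set (v.1.adicCompletion F))} :=
    RestrictedProduct.isOpen_forall_mem (fun v => Valued.isOpen_valuationSubring _)
  have h2 : Continuous fun y : SAdele F S => diag F S ((M⁻¹ : Fˣ) : F) * y :=
    continuous_const.mul continuous_id
  have h3 : (nbhd M : Set (SAdele F S)) =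
      (fun y : SAdele F S => diag F S ((M⁻¹ : Fˣ) : F) * y) ⁻¹'
        {f : SAdele F S | ∀ v, f.1 v ∈ (v.1.adicCompletionIntegers F :
          Set (v.1.adicCompletion F))} := by
    ext y
    simp only [nbhd, Set.mem_ofPred_eq, Set.mem_preimage, SetLike.mem_coe]
    refine forall_congr' fun v => ?_
    rw [mem_integers_iff]
    have h4 : (diag F S ((M⁻¹ : Fˣ) : F) * y).1 v =
        (((M⁻¹ : Fˣ) : F) : v.1.adicCompletion F) * y v := rfl
    rw [h4, norm_mul, norm_coe_eq]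
    have h5 : fabs v.1 ((M⁻¹ : Fˣ) : F) = (fabs v.1 (M : F))⁻¹ := by
      rw [Units.val_inv_eq_inv_val, map_inv₀]
    have h6 : 0 < fabs v.1 (M : F) := (fabs v.1).pos M.ne_zero
    rw [h5, inv_mul_le_iff₀ h6, mul_one]
  rw [h3]
  exact h1.preimage h2

lemma zero_mem_nbhd (M : Fˣ) : (0 : SAdele F S) ∈ (nbhd M : Set (SAdele F S)) := by
  intro v
  have : (0 : SAdele F S) v = 0 := rfl
  rw [this, norm_zero]
  exact (fabs v.1).nonneg _

/-- The diagonal map `F^* × F^* → (A_F^S)^* × (A_F^S)^*`. -/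
noncomputable def pairDiag (F : Type*) [Field F] [NumberField F]
    (S : Finset (HeightOneSpectrum (𝓞 F))) (p : Fˣ × Fˣ) : (SAdele F S)ˣ × (SAdele F S)ˣ :=
  (Units.map (diag F S : F →* SAdele F S) p.1, Units.map (diag F S : F →* SAdele F S) p.2)

lemma closure_approx {u w : (SAdele F S)ˣ}
    (h : (u, w) ∈ closure (Set.range (pairDiag F S))) (M : Fˣ) :
    ∃ a b : Fˣ, (∀ v : {v : HeightOneSpectrum (𝓞 F) // v ∉ S},
      ‖((a : F) : v.1.adicCompletion F) * (u⁻¹ : (SAdele F S)ˣ).1 v - 1‖ ≤ fabs v.1 (M : F) ∧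
      ‖u.1 v * (((a⁻¹ : Fˣ) : F) : v.1.adicCompletion F) - 1‖ ≤ fabs v.1 (M : F) ∧
      ‖((b : F) : v.1.adicCompletion F) * (w⁻¹ : (SAdele F S)ˣ).1 v - 1‖ ≤ fabs v.1 (M : F) ∧
      ‖w.1 v * (((b⁻¹ : Fˣ) : F) : v.1.adicCompletion F) - 1‖ ≤ fabs v.1 (M : F)) := by
  set O : Set (SAdele F S) := nbhd M with hO
  have hOo : IsOpen O := isOpen_nbhd M
  set W : Set ((SAdele F S)ˣ × (SAdele F S)ˣ) :=
    {p | ((p.1 * u⁻¹ : (SAdele F S)ˣ) : SAdele F S) - 1 ∈ O ∧
      ((u * p.1⁻¹ : (SAdele F S)ˣ) : SAdele F S) - 1 ∈ O ∧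
      ((p.2 * w⁻¹ : (SAdele F S)ˣ) : SAdele F S) - 1 ∈ O ∧
      ((w * p.2⁻¹ : (SAdele F S)ˣ) : SAdele F S) - 1 ∈ O} with hW
  have c1 : Continuous fun p : (SAdele F S)ˣ × (SAdele F S)ˣ =>
      ((p.1 * u⁻¹ : (SAdele F S)ˣ) : SAdele F S) - 1 :=
    (Units.continuous_val.comp (continuous_fst.mul continuous_const)).sub continuous_const
  have c2 : Continuous fun p : (SAdele F S)ˣ × (SAdele F S)ˣ =>
      ((u * p.1⁻¹ : (SAdele F S)ˣ) : SAdele F S) - 1 :=
    (Units.continuous_val.comp (continuous_const.mul continuous_fst.inv)).sub continuous_const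
  have c3 : Continuous fun p : (SAdele F S)ˣ × (SAdele F S)ˣ =>
      ((p.2 * w⁻¹ : (SAdele F S)ˣ) : SAdele F S) - 1 :=
    (Units.continuous_val.comp (continuous_snd.mul continuous_const)).sub continuous_const
  have c4 : Continuous fun p : (SAdele F S)ˣ × (SAdele F S)ˣ =>
      ((w * p.2⁻¹ : (SAdele F S)ˣ) : SAdele F S) - 1 :=
    (Units.continuous_val.comp (continuous_const.mul continuous_snd.inv)).sub continuous_const
  have hWo : IsOpen W :=
    (hOo.preimage c1).inter ((hOo.preimage c2).inter ((hOo.preimage c3).inter (hOo.preimage c4)))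
  have hmem : (u, w) ∈ W := by
    simp only [hW, Set.mem_ofPred_eq, mul_inv_cancel, Units.val_one, sub_self]
    exact ⟨zero_mem_nbhd M, zero_mem_nbhd M, zero_mem_nbhd M, zero_mem_nbhd M⟩
  obtain ⟨p, hpW, ⟨⟨a, b⟩, rfl⟩⟩ := mem_closure_iff.1 h W hWo hmem
  obtain ⟨k1, k2, k3, k4⟩ := hpW
  refine ⟨a, b, fun v => ⟨?_, ?_, ?_, ?_⟩⟩
  · exact k1 v
  · have := k2 v
    rw [show ((u * (pairDiag F S (a, b)).1⁻¹ : (SAdele F S)ˣ) : SAdele F S) =
      u.1 * diag F S ((a⁻¹ : Fˣ) : F) by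
        rw [Units.val_mul]; congr 1] at this
    exact this
  · exact k3 v
  · have := k4 v
    rw [show ((w * (pairDiag F S (a, b)).2⁻¹ : (SAdele F S)ˣ) : SAdele F S) =
      w.1 * diag F S ((b⁻¹ : Fˣ) : F) by
        rw [Units.val_mul]; congr 1] at this
    exact this

end Pool.Agent.Lib.MP_78b700_nt
end

section
/-!
# The Harari-Voloch property for the projective line minus three points in rank at most one
-/
set_option autoImplicit false

open IsDedekindDomain NumberField NumberField.HeightOneSpectrum Filter Topology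
open scoped RestrictedProduct

namespace Pool.Agent.Lib.MP_78b700_nt

variable {F : Type*} [Field F] [NumberField F] {S : Finset (HeightOneSpectrum (𝓞 F))}

lemma norm_add_le_max' (v : HeightOneSpectrum (𝓞 F)) (x y : v.adicCompletion F) :
    ‖x + y‖ ≤ max ‖x‖ ‖y‖ := by
  rw [FinitePlace.norm_def, FinitePlace.norm_def, FinitePlace.norm_def]
  have h := (WithZeroMulInt.toNNReal_strictMono (one_lt_absNorm_nnreal v)).monotone
  have h2 := Valuation.map_add (Valued.v : Valuation (v.adicCompletion F) _) x y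
  have h3 := h h2
  rw [h.map_max] at h3
  exact_mod_cast h3

lemma exists_small_place (v : HeightOneSpectrum (𝓞 F)) {δ : ℝ} (hδ : 0 < δ) :
    ∃ x : F, x ≠ 0 ∧ (∀ w : HeightOneSpectrum (𝓞 F), fabs w x ≤ 1) ∧ fabs v x ≤ δ := by
  obtain ⟨π, hπ, hπ0⟩ := Submodule.exists_mem_ne_zero_of_ne_bot v.ne_bot
  have hlt : fabs v (algebraMap (𝓞 F) F π) < 1 :=
    (v.adicAbv_coe_lt_one_iff (one_lt_absNorm_nnreal v) π).2 hπ
  obtain ⟨k, hk⟩ := exists_pow_lt_of_lt_one hδ hlt
  have h0 : algebraMap (𝓞 F) F π ≠ 0 := by simpa using hπ0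
  refine ⟨algebraMap (𝓞 F) F π ^ k, pow_ne_zero _ h0, fun w => ?_, ?_⟩
  · rw [map_pow]
    exact pow_le_one₀ ((fabs w).nonneg _) (w.adicAbv_coe_le_one (one_lt_absNorm_nnreal w) π)
  · rw [map_pow]; exact hk.le

lemma exists_small (P : Finset {v : HeightOneSpectrum (𝓞 F) // v ∉ S})
    {δ : {v : HeightOneSpectrum (𝓞 F) // v ∉ S} → ℝ} (hδ : ∀ v, 0 < δ v) :
    ∃ M : Fˣ, (∀ w : HeightOneSpectrum (𝓞 F), fabs w (M : F) ≤ 1) ∧
      ∀ v ∈ P, fabs v.1 (M : F) ≤ δ v := by
  classical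
  have h := fun v : {v : HeightOneSpectrum (𝓞 F) // v ∉ S} => exists_small_place v.1 (hδ v)
  choose x hx0 hx1 hx2 using h
  refine ⟨Units.mk0 (∏ v ∈ P, x v) (Finset.prod_ne_zero_iff.2 fun v _ => hx0 v), fun w => ?_,
    fun v hv => ?_⟩
  · rw [Units.val_mk0, map_prod]
    exact Finset.prod_le_one (fun v _ => (fabs w).nonneg _) fun v _ => hx1 v w
  · rw [Units.val_mk0, ← Finset.mul_prod_erase P _ hv, map_mul, map_prod]
    have : ∏ i ∈ P.erase v, fabs v.1 (x i) ≤ 1 :=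
      Finset.prod_le_one (fun i _ => (fabs v.1).nonneg _) fun i _ => hx1 i v.1
    calc fabs v.1 (x v) * ∏ i ∈ P.erase v, fabs v.1 (x i) ≤ fabs v.1 (x v) * 1 :=
          mul_le_mul_of_nonneg_left this ((fabs v.1).nonneg _)
      _ ≤ δ v := by rw [mul_one]; exact hx2 v

lemma exists_notMem (S : Finset (HeightOneSpectrum (𝓞 F))) :
    ∃ v : HeightOneSpectrum (𝓞 F), v ∉ S := by
  classical
  by_contra hcon
  push Not at hcon
  set N : ℕ := ∏ v ∈ S, Ideal.absNorm v.asIdeal with hN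
  have hN0 : 0 < N := Finset.prod_pos fun v _ => (one_pos.trans (one_lt_absNorm v))
  set x : F := ((1 + N : ℕ) : F) with hx
  have hx0 : x ≠ 0 := by rw [hx]; exact_mod_cast (by omega : 1 + N ≠ 0)
  have h1 := tprod_eq_one S hx0 (fun v hv => absurd (hcon v) hv)
  rw [tprod_eq] at h1
  have h2 : ∀ v ∈ S, fabs v x = 1 := by
    intro v hv
    have hmem : ((1 + N : ℕ) : 𝓞 F) ∉ v.asIdeal := by
      intro hc
      have hNm : ((N : ℕ) : 𝓞 F) ∈ v.asIdeal := by
        rw [hN, ← Finset.mul_prod_erase S _ hv, Nat.cast_mul]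
        exact Ideal.mul_mem_right _ _ (Ideal.absNorm_mem _)
      have : (1 : 𝓞 F) ∈ v.asIdeal := by
        have := v.asIdeal.sub_mem hc hNm
        push_cast at this
        simpa using this
      exact v.isPrime.ne_top ((Ideal.eq_top_iff_one _).2 this)
    have := fabs_eq_one_of_notMem v hmem
    rwa [map_natCast] at this
  rw [Finset.prod_congr rfl h2, Finset.prod_const_one, one_mul] at h1
  have h3 : 1 < ∏ w : InfinitePlace F, w x ^ w.mult := by
    have hw : ∀ w : InfinitePlace F, w x = (1 + N : ℕ) := by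
      intro w
      rw [hx, ← InfinitePlace.norm_embedding_eq w, map_natCast]
      exact Complex.norm_natCast _
    have hne : (Finset.univ : Finset (InfinitePlace F)).Nonempty := Finset.univ_nonempty
    obtain ⟨w₀, -⟩ := hne
    rw [← Finset.mul_prod_erase Finset.univ _ (Finset.mem_univ w₀)]
    have ha : 1 < w₀ x ^ w₀.mult := by
      rw [hw]
      refine one_lt_pow₀ ?_ w₀.mult_ne_zero
      exact_mod_cast (by omega : 1 < 1 + N)
    have hb : 1 ≤ ∏ w ∈ Finset.univ.erase w₀, w x ^ w.mult := by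
      have := Finset.prod_le_prod (s := Finset.univ.erase w₀) (f := fun _ => (1 : ℝ))
        (g := fun w : InfinitePlace F => w x ^ w.mult) (fun _ _ => zero_le_one)
        (fun w _ => one_le_pow₀ (by rw [hw]; exact_mod_cast (by omega : 1 ≤ 1 + N)))
      simpa using this
    nlinarith
  linarith

/-- The basic approximation statement extracted from the closure. -/
lemma closure_approx' {u w : (SAdele F S)ˣ}
    (h : (u, w) ∈ closure (Set.range (pairDiag F S))) (M : Fˣ)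
    (hM : ∀ v ∉ S, fabs v (M : F) ≤ 1) :
    ∃ a b : F, a ≠ 0 ∧ b ≠ 0 ∧ ∀ v : {v : HeightOneSpectrum (𝓞 F) // v ∉ S},
      fabs v.1 a = ‖u.1 v‖ ∧ fabs v.1 b = ‖w.1 v‖ ∧
      ‖(a : v.1.adicCompletion F) - u.1 v‖ ≤ fabs v.1 (M : F) * ‖u.1 v‖ ∧
      ‖(b : v.1.adicCompletion F) - w.1 v‖ ≤ fabs v.1 (M : F) * ‖w.1 v‖ := by
  obtain ⟨a, b, hab⟩ := closure_approx h M
  -- one coordinate at a time
  have key : ∀ (z : (SAdele F S)ˣ) (c : Fˣ) (v : {v : HeightOneSpectrum (𝓞 F) // v ∉ S}),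
      ‖((c : F) : v.1.adicCompletion F) * (z⁻¹ : (SAdele F S)ˣ).1 v - 1‖ ≤ fabs v.1 (M : F) →
      ‖z.1 v * (((c⁻¹ : Fˣ) : F) : v.1.adicCompletion F) - 1‖ ≤ fabs v.1 (M : F) →
      fabs v.1 (c : F) = ‖z.1 v‖ ∧
        ‖((c : F) : v.1.adicCompletion F) - z.1 v‖ ≤ fabs v.1 (M : F) * ‖z.1 v‖ := by
    intro z c v h1 h2
    have hM1 := hM v.1 v.2
    have hz : z.1 v * (z⁻¹ : (SAdele F S)ˣ).1 v = 1 := by
      have h3 : z.1 * (z⁻¹ : (SAdele F S)ˣ).1 = 1 := z.mul_inv
      have h4 := congrArg (fun y : SAdele F S => y v) h3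
      exact h4
    have hzn : ‖z.1 v‖ * ‖(z⁻¹ : (SAdele F S)ˣ).1 v‖ = 1 := by rw [← norm_mul, hz, norm_one]
    have hz0 : 0 < ‖z.1 v‖ := by
      rcases (norm_nonneg (z.1 v)).lt_or_eq with h | h
      · exact h
      · rw [← h, zero_mul] at hzn; exact absurd hzn zero_ne_one
    have hcc : fabs v.1 (c : F) * fabs v.1 ((c⁻¹ : Fˣ) : F) = 1 := by
      rw [← map_mul, Units.mul_inv, map_one]
    have hc0 : 0 < fabs v.1 (c : F) := (fabs v.1).pos c.ne_zero
    have g1 : fabs v.1 (c : F) * ‖(z⁻¹ : (SAdele F S)ˣ).1 v‖ ≤ 1 := by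
      have := norm_add_le_max' v.1 (((c : F) : v.1.adicCompletion F) *
        (z⁻¹ : (SAdele F S)ˣ).1 v - 1) 1
      rw [sub_add_cancel, norm_one, norm_mul, norm_coe_eq] at this
      exact this.trans (max_le (h1.trans hM1) le_rfl)
    have g2 : ‖z.1 v‖ * fabs v.1 ((c⁻¹ : Fˣ) : F) ≤ 1 := by
      have := norm_add_le_max' v.1 (z.1 v * (((c⁻¹ : Fˣ) : F) : v.1.adicCompletion F) - 1) 1
      rw [sub_add_cancel, norm_one, norm_mul, norm_coe_eq] at this
      exact this.trans (max_le (h2.trans hM1) le_rfl)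
    refine ⟨le_antisymm ?_ ?_, ?_⟩
    · calc fabs v.1 (c : F) = fabs v.1 (c : F) * (‖z.1 v‖ * ‖(z⁻¹ : (SAdele F S)ˣ).1 v‖) := by
            rw [hzn, mul_one]
        _ = (fabs v.1 (c : F) * ‖(z⁻¹ : (SAdele F S)ˣ).1 v‖) * ‖z.1 v‖ := by ring
        _ ≤ 1 * ‖z.1 v‖ := mul_le_mul_of_nonneg_right g1 hz0.le
        _ = _ := one_mul _
    · calc ‖z.1 v‖ = ‖z.1 v‖ * (fabs v.1 (c : F) * fabs v.1 ((c⁻¹ : Fˣ) : F)) := by
            rw [hcc, mul_one]
        _ = (‖z.1 v‖ * fabs v.1 ((c⁻¹ : Fˣ) : F)) * fabs v.1 (c : F) := by ring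
        _ ≤ 1 * fabs v.1 (c : F) := mul_le_mul_of_nonneg_right g2 hc0.le
        _ = _ := one_mul _
    · have e : ((c : F) : v.1.adicCompletion F) - z.1 v =
          (((c : F) : v.1.adicCompletion F) * (z⁻¹ : (SAdele F S)ˣ).1 v - 1) * z.1 v := by
        rw [sub_mul, one_mul, mul_assoc, mul_comm ((z⁻¹ : (SAdele F S)ˣ).1 v), hz, mul_one]
      rw [e, norm_mul]
      exact mul_le_mul_of_nonneg_right h1 hz0.le
  refine ⟨a, b, a.ne_zero, b.ne_zero, fun v => ?_⟩
  obtain ⟨h1, h2, h3, h4⟩ := hab v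
  obtain ⟨p1, p2⟩ := key u a v h1 h2
  obtain ⟨q1, q2⟩ := key w b v h3 h4
  exact ⟨p1, q1, p2, q2⟩

/-- The main theorem, one coordinate. -/
theorem exists_global (hS : S.card + Fintype.card (InfinitePlace F) ≤ 2) {u w : (SAdele F S)ˣ}
    (huw : (u : SAdele F S) + w = 1)
    (h : (u, w) ∈ closure (Set.range (pairDiag F S))) :
    ∃ a : F, a ≠ 0 ∧ ∀ v : {v : HeightOneSpectrum (𝓞 F) // v ∉ S},
      u.1 v = (a : v.1.adicCompletion F) := by
  classical
  have hT : Fintype.card (TPlace S) ≤ 2 := by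
    rw [Fintype.card_sum, Fintype.card_coe]; exact hS
  obtain ⟨a₀, b₀, ha₀, hb₀, hab₀⟩ := closure_approx' h 1
    (fun v _ => by rw [Units.val_one, map_one])
  have hu0 : ∀ v : {v : HeightOneSpectrum (𝓞 F) // v ∉ S}, 0 < ‖u.1 v‖ := fun v => by
    rw [← (hab₀ v).1]; exact (fabs v.1).pos ha₀
  -- approximations give `S`-units
  have hunit : ∀ (a : F), a ≠ 0 → (∀ v : {v : HeightOneSpectrum (𝓞 F) // v ∉ S},
      fabs v.1 a = ‖u.1 v‖) → IsSUnit S (a / a₀) := by
    intro a ha h1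
    refine ⟨div_ne_zero ha ha₀, fun v hv => ?_⟩
    rw [map_div₀, h1 ⟨v, hv⟩, ← (hab₀ ⟨v, hv⟩).1]
    exact div_self ((fabs v).pos ha₀).ne'
  have hunitb : ∀ (b : F), b ≠ 0 → (∀ v : {v : HeightOneSpectrum (𝓞 F) // v ∉ S},
      fabs v.1 b = ‖w.1 v‖) → IsSUnit S (b / b₀) := by
    intro b hb h1
    refine ⟨div_ne_zero hb hb₀, fun v hv => ?_⟩
    rw [map_div₀, h1 ⟨v, hv⟩, ← (hab₀ ⟨v, hv⟩).2.1]
    exact div_self ((fabs v).pos hb₀).ne'
  rcases finite_or_exists S with hfin | ⟨ε, hε, t₁, ht₁⟩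
  · -- finitely many units
    have hSol : ((fun z => z * a₀) '' {z : F | IsSUnit S z}).Finite := hfin.image _
    have hlim := limit_in_finite hSol (fun v => u.1 v) ?_
    · obtain ⟨a, ⟨z, hz, rfl⟩, ha⟩ := hlim
      exact ⟨z * a₀, mul_ne_zero hz.1 ha₀, ha⟩
    · intro P δ hδ
      obtain ⟨M, hM1, hM2⟩ := exists_small P (δ := fun v => δ / ‖u.1 v‖)
        (fun v => div_pos hδ (hu0 v))
      obtain ⟨a, b, ha, hb, hab⟩ := closure_approx' h M (fun v _ => hM1 v)
      refine ⟨a, ⟨a / a₀, hunit a ha fun v => (hab v).1, by field_simp⟩, fun v hv => ?_⟩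
      rw [norm_sub_rev]
      refine (hab v).2.2.1.trans ?_
      have := hM2 v hv
      rwa [le_div_iff₀ (hu0 v)] at this
  · -- rank one
    obtain ⟨t₂, h2, hne, hall⟩ := two_places hT hε ht₁
    have hSol := sol_finite hne hall ha₀ hb₀
    obtain ⟨r₀, hr₀⟩ := rank_one_exact hT hε ht₁ ha₀ hb₀
    have hlim := limit_in_finite hSol (fun v => u.1 v) ?_
    · obtain ⟨a, ⟨hz, -⟩, ha⟩ := hlim
      refine ⟨a, ?_, ha⟩
      rintro rfl
      exact hz.1 (zero_div _)
    · intro P δ hδ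
      obtain ⟨R, hR0, hR⟩ := exists_common_exponent (S := S) P hε
        (δ := fun v => δ / ‖u.1 v‖) (fun v => div_pos hδ (hu0 v))
      set r : ℕ := R * (r₀ + 1) with hr
      have hrr : r₀ ≤ r := by rw [hr]; nlinarith
      have hr1 : 3 * r ≠ 0 := by positivity
      have hne1 : ε ^ (3 * r) - 1 ≠ 0 := by
        intro h0
        rw [sub_eq_zero] at h0
        have h3 : tabs S t₁ ε ^ (3 * r) = 1 := by rw [← map_pow, h0, map_one]
        have h4 : 1 < tabs S t₁ ε ^ (3 * r) := one_lt_pow₀ ht₁ hr1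
        linarith
      set M : Fˣ := Units.mk0 _ hne1 with hM
      have hM1 : ∀ v ∉ S, fabs v (M : F) ≤ 1 := by
        intro v hv
        rw [hM, Units.val_mk0]
        refine (fabs_sub_le v _ _).trans ?_
        rw [map_pow, hε.2 v hv, one_pow, map_one, max_self]
      obtain ⟨a, b, ha, hb, hab⟩ := closure_approx' h M hM1
      have hau := hunit a ha fun v => (hab v).1
      have hbu := hunitb b hb fun v => (hab v).2.1
      have happ : ∀ v ∉ S, fabs v (a + b - 1) ≤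
          fabs v (ε ^ (3 * r) - 1) * max (fabs v a₀) (fabs v b₀) := by
        intro v hv
        obtain ⟨p1, p2, p3, p4⟩ := hab ⟨v, hv⟩
        have e1 : ((a + b - 1 : F) : v.adicCompletion F) =
            ((a : v.adicCompletion F) - u.1 ⟨v, hv⟩) +
              ((b : v.adicCompletion F) - w.1 ⟨v, hv⟩) := by
          have e2 : u.1 ⟨v, hv⟩ + w.1 ⟨v, hv⟩ = 1 :=
            congrArg (fun y : SAdele F S => y ⟨v, hv⟩) huw
          have e3 : ((a + b - 1 : F) : v.adicCompletion F) =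
              (a : v.adicCompletion F) + (b : v.adicCompletion F) - 1 := by
            have := (FinitePlace.embedding v : F →+* v.adicCompletion F).map_sub (a + b) 1
            rw [map_add, map_one] at this
            exact this
          rw [e3, ← e2]; ring
        rw [← norm_coe_eq, e1]
        refine (norm_add_le_max' v _ _).trans (max_le (p3.trans ?_) (p4.trans ?_))
        · rw [← (hab₀ ⟨v, hv⟩).1]
          exact mul_le_mul_of_nonneg_left (le_max_left _ _) ((fabs v).nonneg _)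
        · rw [← (hab₀ ⟨v, hv⟩).2.1]
          exact mul_le_mul_of_nonneg_left (le_max_right _ _) ((fabs v).nonneg _)
      obtain ⟨a', ha', hclose⟩ := hr₀ r hrr a b hau hbu happ
      refine ⟨a', ha', fun v hv => ?_⟩
      have e1 : u.1 v - (a' : v.1.adicCompletion F) =
          -((a : v.1.adicCompletion F) - u.1 v) + ((a - a' : F) : v.1.adicCompletion F) := by
        have e3 : ((a - a' : F) : v.1.adicCompletion F) =
            (a : v.1.adicCompletion F) - (a' : v.1.adicCompletion F) :=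
          (FinitePlace.embedding v.1 : F →+* v.1.adicCompletion F).map_sub a a'
        rw [e3]; ring
      have hsm := hR v hv (3 * r) (Dvd.dvd.mul_left (Dvd.intro _ rfl) 3)
      rw [le_div_iff₀ (hu0 v)] at hsm
      rw [e1]
      refine (norm_add_le_max' v.1 _ _).trans (max_le ?_ ?_)
      · rw [norm_neg]
        refine (hab v).2.2.1.trans ?_
        exact hsm
      · rw [norm_coe_eq]
        refine (hclose v.1 v.2).trans ?_
        rw [(hab₀ v).1]
        exact hsm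

/-- Harari-Voloch for `P^1` minus at least three rational points when there are at most two
places in `S ∪ ∞`. -/
theorem curve_inter_closure (hS : S.card + Fintype.card (InfinitePlace F) ≤ 2)
    {ι : Type*} [Nontrivial ι] (a : ι → F) (ha : Function.Injective a) :
    curvePoints a (diag F S) ∩ closure (Set.range (torusDiag F S ι)) =
      torusDiag F S ι '' curvePoints a (RingHom.id F) := by
  classical
  obtain ⟨v₀, hv₀⟩ := exists_notMem S
  have hinj : ∀ x y : F, diag F S x = diag F S y → x = y := by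
    intro x y hxy
    have h1 : ((x : v₀.adicCompletion F) = (y : v₀.adicCompletion F)) :=
      congrArg (fun z : SAdele F S => z ⟨v₀, hv₀⟩) hxy
    exact (FinitePlace.embedding v₀ : F →+* v₀.adicCompletion F).injective h1
  have hnt : Nontrivial (SAdele F S) := by
    refine ⟨0, 1, fun h => ?_⟩
    rw [← map_zero (diag F S), ← map_one (diag F S)] at h
    exact zero_ne_one (hinj _ _ h)
  obtain ⟨i, j, hij⟩ := exists_pair_ne ι
  ext p
  constructor
  · rintro ⟨⟨x, hx⟩, h2⟩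
    have hc0 : a j - a i ≠ 0 := sub_ne_zero.2 (fun h => hij (ha h).symm)
    set c : Fˣ := Units.mk0 (a j - a i) hc0 with hc
    set C : (SAdele F S)ˣ := Units.map (diag F S : F →* SAdele F S) c with hC
    set φ : Torus ι (SAdele F S) → (SAdele F S)ˣ × (SAdele F S)ˣ :=
      fun q => (q i * C⁻¹, (-1) * q j * C⁻¹) with hφ
    have hφc : Continuous φ :=
      Continuous.prodMk ((continuous_apply i).mul continuous_const)
        ((continuous_const.mul (continuous_apply j)).mul continuous_const)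
    have hneg : Units.map (diag F S : F →* SAdele F S) (-1) = -1 := by
      apply Units.ext
      show diag F S (-1) = -1
      rw [map_neg, map_one]
    have h3 : φ p ∈ closure (Set.range (pairDiag F S)) := by
      have := image_closure_subset_closure_image hφc (Set.mem_image_of_mem _ h2)
      refine closure_mono ?_ this
      rintro _ ⟨_, ⟨q, rfl⟩, rfl⟩
      refine ⟨(q i * c⁻¹, (-1) * q j * c⁻¹), ?_⟩
      simp only [pairDiag, hφ, torusDiag, map_mul, map_inv, hC, hneg]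
    have hCval : ((C : (SAdele F S)ˣ) : SAdele F S) = diag F S (a j) - diag F S (a i) := by
      rw [hC, Units.coe_map, hc]
      show diag F S (a j - a i) = _
      rw [map_sub]
    have huw : ((φ p).1 : SAdele F S) + ((φ p).2 : SAdele F S) = 1 := by
      show ((p i * C⁻¹ : (SAdele F S)ˣ) : SAdele F S) + (((-1) * p j * C⁻¹ : (SAdele F S)ˣ) :
        SAdele F S) = 1
      rw [Units.val_mul, Units.val_mul, Units.val_mul, Units.val_neg, Units.val_one, hx i, hx j,
        ← add_mul]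
      have : x - diag F S (a i) + -1 * (x - diag F S (a j)) = (C : SAdele F S) := by
        rw [hCval]; ring
      rw [this, Units.mul_inv]
    obtain ⟨α, hα0, hα⟩ := exists_global hS huw h3
    have hα' : ((φ p).1 : SAdele F S) = diag F S α := by
      apply Subtype.ext
      funext v
      exact hα v
    have hpi : (p i : SAdele F S) = diag F S (α * (a j - a i)) := by
      have h4 : ((p i * C⁻¹ : (SAdele F S)ˣ) : SAdele F S) = diag F S α := hα'
      have h5 : (p i : SAdele F S) = ((p i * C⁻¹ : (SAdele F S)ˣ) : SAdele F S) * C := by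
        rw [← Units.val_mul, inv_mul_cancel_right]
      rw [h5, h4, hCval, map_mul, map_sub]
    set x₀ : F := α * (a j - a i) + a i with hx₀
    have hxx : x = diag F S x₀ := by
      have := hx i
      rw [hx₀, map_add, ← hpi, this, sub_add_cancel]
    have hne : ∀ k, x₀ - a k ≠ 0 := by
      intro k h0
      have h6 := hx k
      rw [hxx, ← map_sub, h0, map_zero] at h6
      exact (p k).ne_zero h6
    refine ⟨fun k => Units.mk0 (x₀ - a k) (hne k), ⟨x₀, fun k => rfl⟩, ?_⟩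
    funext k
    apply Units.ext
    show diag F S (x₀ - a k) = p k
    rw [hx k, hxx, map_sub]
  · rintro ⟨q, ⟨x, hx⟩, rfl⟩
    refine ⟨⟨diag F S x, fun k => ?_⟩, subset_closure ⟨q, rfl⟩⟩
    show diag F S (q k : F) = _
    rw [hx k, RingHom.id_apply, map_sub]

end Pool.Agent.Lib.MP_78b700_nt
end

section
/-!
# Multiplicative closeness modulo `k!` outside `S`
-/
set_option autoImplicit false

open IsDedekindDomain NumberField

namespace Pool.Agent.Lib.MP_78b700_nt.HV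

variable {L : Type} [Field L] [NumberField L] {S : Finset (HeightOneSpectrum (𝓞 L))}

/-- `a` and `b` are multiplicatively close modulo `k!` at all primes outside `S`. -/
def Near (S : Finset (HeightOneSpectrum (𝓞 L))) (k : ℕ) (a b : L) : Prop :=
  a ≠ 0 ∧ b ≠ 0 ∧ ∀ v ∉ S, fabs v (a / b) = 1 ∧
    fabs v (a / b - 1) ≤ fabs v ((k.factorial : ℕ) : L)

theorem fabs_coe_le (v : HeightOneSpectrum (𝓞 L)) (x : 𝓞 L) :
    fabs v (algebraMap (𝓞 L) L x) ≤ 1 :=
  v.adicAbv_coe_le_one (HeightOneSpectrum.one_lt_absNorm_nnreal v) x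

theorem fabs_coe_lt_iff (v : HeightOneSpectrum (𝓞 L)) (x : 𝓞 L) :
    fabs v (algebraMap (𝓞 L) L x) < 1 ↔ x ∈ v.asIdeal :=
  v.adicAbv_coe_lt_one_iff (HeightOneSpectrum.one_lt_absNorm_nnreal v) x

theorem fabs_coe_eq_iff (v : HeightOneSpectrum (𝓞 L)) (x : 𝓞 L) :
    fabs v (algebraMap (𝓞 L) L x) = 1 ↔ x ∉ v.asIdeal :=
  v.adicAbv_coe_eq_one_iff (HeightOneSpectrum.one_lt_absNorm_nnreal v) x

theorem fabs_natCast_le (v : HeightOneSpectrum (𝓞 L)) (n : ℕ) : fabs v (n : L) ≤ 1 := by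
  have := fabs_coe_le v (n : 𝓞 L)
  rwa [map_natCast] at this

theorem fabs_factorial_anti (v : HeightOneSpectrum (𝓞 L)) {k l : ℕ} (h : k ≤ l) :
    fabs v ((l.factorial : ℕ) : L) ≤ fabs v ((k.factorial : ℕ) : L) := by
  obtain ⟨c, hc⟩ := Nat.factorial_dvd_factorial h
  rw [hc, Nat.cast_mul, map_mul]
  exact mul_le_of_le_one_right ((fabs v).nonneg _) (fabs_natCast_le v c)

/-- for each prime the absolute value of `k!` tends to `0` -/
theorem exists_factorial_lt (v : HeightOneSpectrum (𝓞 L)) {δ : ℝ} (hδ : 0 < δ) :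
    ∃ k : ℕ, ∀ l ≥ k, fabs v ((l.factorial : ℕ) : L) < δ := by
  set p := Ideal.absNorm v.asIdeal with hp
  have hp1 : fabs v (p : L) < 1 := by
    have h1 : ((p : ℕ) : 𝓞 L) ∈ v.asIdeal := Ideal.absNorm_mem _
    have := (fabs_coe_lt_iff v ((p : ℕ) : 𝓞 L)).2 h1
    rwa [map_natCast] at this
  obtain ⟨n, hn⟩ := exists_pow_lt_of_lt_one hδ hp1
  have hp0 : 0 < p := one_pos.trans (HeightOneSpectrum.one_lt_absNorm v)
  refine ⟨n * p, fun l hl => ?_⟩
  have h2 : p ^ n ∣ l.factorial := by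
    have h3 : (p.factorial) ^ n ∣ (n * p).factorial := by
      have := Nat.prod_factorial_dvd_factorial_sum (Finset.range n) fun _ => p
      simpa using this
    exact ((pow_dvd_pow_of_dvd (Nat.dvd_factorial hp0 le_rfl) n).trans h3).trans
      (Nat.factorial_dvd_factorial hl)
  obtain ⟨c, hc⟩ := h2
  rw [hc, Nat.cast_mul, Nat.cast_pow, map_mul, map_pow]
  exact (mul_le_of_le_one_right (pow_nonneg ((fabs v).nonneg _) _) (fabs_natCast_le v c)).trans_lt hn

namespace Near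

theorem refl (S : Finset (HeightOneSpectrum (𝓞 L))) (k : ℕ) {a : L} (ha : a ≠ 0) :
    Near S k a a := by
  refine ⟨ha, ha, fun v _ => ?_⟩
  rw [div_self ha, map_one, sub_self, map_zero]
  exact ⟨rfl, (fabs v).nonneg _⟩

theorem symm {k : ℕ} {a b : L} (h : Near S k a b) : Near S k b a := by
  obtain ⟨ha, hb, h⟩ := h
  refine ⟨hb, ha, fun v hv => ?_⟩
  obtain ⟨h1, h2⟩ := h v hv
  have e : b / a = (a / b)⁻¹ := by rw [inv_div]
  have h0 : a / b ≠ 0 := div_ne_zero ha hb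
  refine ⟨by rw [e, map_inv₀, h1, inv_one], ?_⟩
  have e2 : b / a - 1 = -((a / b - 1) / (a / b)) := by
    field_simp
    ring
  rw [e2, map_neg_eq_map, map_div₀, h1, div_one]
  exact h2

theorem mul {k : ℕ} {a b a' b' : L} (h : Near S k a b) (h' : Near S k a' b') :
    Near S k (a * a') (b * b') := by
  obtain ⟨ha, hb, h⟩ := h
  obtain ⟨ha', hb', h'⟩ := h'
  refine ⟨mul_ne_zero ha ha', mul_ne_zero hb hb', fun v hv => ?_⟩
  obtain ⟨h1, h2⟩ := h v hv
  obtain ⟨h1', h2'⟩ := h' v hv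
  have e : a * a' / (b * b') = a / b * (a' / b') := by field_simp
  have e2 : a / b * (a' / b') - 1 = a / b * (a' / b' - 1) + (a / b - 1) := by ring
  refine ⟨by rw [e, map_mul, h1, h1', one_mul], ?_⟩
  rw [e, e2]
  refine (fabs_add_le v _ _).trans (max_le ?_ h2)
  rw [map_mul, h1, one_mul]
  exact h2'

theorem trans {k : ℕ} {a b c : L} (h : Near S k a b) (h' : Near S k b c) : Near S k a c := by
  obtain ⟨ha, hb, h⟩ := h
  obtain ⟨-, hc, h'⟩ := h'
  refine ⟨ha, hc, fun v hv => ?_⟩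
  obtain ⟨h1, h2⟩ := h v hv
  obtain ⟨h1', h2'⟩ := h' v hv
  have e : a / c = a / b * (b / c) := by field_simp
  have e2 : a / b * (b / c) - 1 = a / b * (b / c - 1) + (a / b - 1) := by ring
  refine ⟨by rw [e, map_mul, h1, h1', one_mul], ?_⟩
  rw [e, e2]
  refine (fabs_add_le v _ _).trans (max_le ?_ h2)
  rw [map_mul, h1, one_mul]
  exact h2'

theorem inv {k : ℕ} {a b : L} (h : Near S k a b) : Near S k a⁻¹ b⁻¹ := by
  obtain ⟨ha, hb, h'⟩ := h.symm
  refine ⟨inv_ne_zero hb, inv_ne_zero ha, fun v hv => ?_⟩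
  have e : a⁻¹ / b⁻¹ = b / a := by field_simp
  rw [e]
  exact h' v hv

theorem div {k : ℕ} {a b a' b' : L} (h : Near S k a b) (h' : Near S k a' b') :
    Near S k (a / a') (b / b') := by
  rw [div_eq_mul_inv, div_eq_mul_inv]
  exact h.mul h'.inv

theorem pow {k : ℕ} {a b : L} (h : Near S k a b) (n : ℕ) : Near S k (a ^ n) (b ^ n) := by
  induction n with
  | zero => simpa using refl S k (one_ne_zero : (1 : L) ≠ 0)
  | succ n ih => rw [pow_succ, pow_succ]; exact ih.mul h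

theorem zpow {k : ℕ} {a b : L} (h : Near S k a b) (n : ℤ) : Near S k (a ^ n) (b ^ n) := by
  rcases Int.eq_nat_or_neg n with ⟨m, rfl | rfl⟩
  · rw [zpow_natCast, zpow_natCast]; exact h.pow m
  · rw [zpow_neg, zpow_neg, zpow_natCast, zpow_natCast]; exact (h.pow m).inv

theorem prod {ι : Type} (s : Finset ι) {k : ℕ} {a b : ι → L} (h : ∀ i ∈ s, Near S k (a i) (b i)) :
    Near S k (∏ i ∈ s, a i) (∏ i ∈ s, b i) := by
  classical
  induction s using Finset.induction_on with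
  | empty => simpa using refl S k (one_ne_zero : (1 : L) ≠ 0)
  | insert i s hi ih =>
    rw [Finset.prod_insert hi, Finset.prod_insert hi]
    exact (h i (Finset.mem_insert_self _ _)).mul (ih fun j hj => h j (Finset.mem_insert_of_mem hj))

theorem mono {k l : ℕ} (hkl : k ≤ l) {a b : L} (h : Near S l a b) : Near S k a b := by
  obtain ⟨ha, hb, h⟩ := h
  exact ⟨ha, hb, fun v hv => ⟨(h v hv).1, (h v hv).2.trans (fabs_factorial_anti v hkl)⟩⟩

/-- elements which are close modulo all `k!` are equal -/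
theorem eq {a b : L} (h : ∀ k, Near S k a b) : a = b := by
  obtain ⟨v, hv⟩ := exists_notMem S
  by_contra hne
  have hb := (h 0).2.1
  have h0 : a / b - 1 ≠ 0 := by
    rw [sub_ne_zero]
    intro h1
    exact hne ((div_eq_one_iff_eq hb).1 h1)
  obtain ⟨k, hk⟩ := exists_factorial_lt v ((fabs v).pos h0)
  exact absurd (((h k).2.2 v hv).2) (not_le.2 (hk k le_rfl))

end Near

/-- A sequence which is multiplicatively Cauchy at all primes outside `S`. -/
def Conv (S : Finset (HeightOneSpectrum (𝓞 L))) (a : ℕ → L) : Prop :=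
  ∀ k l, k ≤ l → Near S k (a k) (a l)

end Pool.Agent.Lib.MP_78b700_nt.HV
end
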