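import Pool.Agent.Lib.MP_78b700_nt.HV.Spec

section
/-!
# DEP: linear dependence of products of linear functions
-/
set_option autoImplicit false

open Polynomial

namespace Pool.Agent.Lib.MP_78b700_nt.HV

namespace DEPM

variable {L D : Type} [Field L] [Fintype D]

theorem natDegree_prod_pow_le (ℓ : D → L[X]) (hℓ : ∀ θ, (ℓ θ).natDegree ≤ 1) (e : D → ℕ) :
    (∏ θ, ℓ θ ^ e θ).natDegree ≤ ∑ θ, e θ := by
  refine (natDegree_prod_le _ _).trans (Finset.sum_le_sum fun θ _ => ?_)
  exact natDegree_pow_le.trans (by nlinarith [hℓ θ])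

theorem exp_nonneg {n₁ n₂ : D → ℤ} {i j B A : ℕ} (hi : i ≤ B) (hj : j ≤ B)
    (hA : A = ∑ θ, ((n₁ θ).natAbs + (n₂ θ).natAbs)) (θ : D) :
    0 ≤ (i : ℤ) * n₁ θ + j * n₂ θ + ((B * A : ℕ) : ℤ) := by
  have h1 : (n₁ θ).natAbs + (n₂ θ).natAbs ≤ A := by
    rw [hA]
    exact Finset.single_le_sum (f := fun θ => (n₁ θ).natAbs + (n₂ θ).natAbs)
      (fun _ _ => Nat.zero_le _) (Finset.mem_univ θ)
  have h2 : -(n₁ θ) ≤ (n₁ θ).natAbs := by omega
  have h3 : -(n₂ θ) ≤ (n₂ θ).natAbs := by omega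
  have h4 : (i : ℤ) * (n₁ θ).natAbs ≤ B * (n₁ θ).natAbs := by
    exact_mod_cast Nat.mul_le_mul_right _ hi
  have h5 : (j : ℤ) * (n₂ θ).natAbs ≤ B * (n₂ θ).natAbs := by
    exact_mod_cast Nat.mul_le_mul_right _ hj
  have h6 : (B : ℤ) * ((n₁ θ).natAbs + (n₂ θ).natAbs) ≤ B * A := by
    exact_mod_cast Nat.mul_le_mul_left _ h1
  have hi0 : (0 : ℤ) ≤ i := Int.natCast_nonneg _
  have hj0 : (0 : ℤ) ≤ j := Int.natCast_nonneg _
  have h7 : -((i : ℤ) * n₁ θ) ≤ i * (n₁ θ).natAbs := by
    rw [← mul_neg]; exact mul_le_mul_of_nonneg_left h2 hi0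
  have h8 : -((j : ℤ) * n₂ θ) ≤ j * (n₂ θ).natAbs := by
    rw [← mul_neg]; exact mul_le_mul_of_nonneg_left h3 hj0
  push_cast
  linarith

end DEPM

theorem specDep : SpecDep := by
  classical
  intro L D _ _ ℓ n₁ n₂ hℓ hn₁ hn₂
  set A : ℕ := ∑ θ, ((n₁ θ).natAbs + (n₂ θ).natAbs) with hA
  set s : ℕ := Fintype.card D with hs
  set B : ℕ := s * A + 1 with hB
  set N : ℕ := B * A with hN
  set T : Finset (ℕ × ℕ) := Finset.range (B + 1) ×ˢ Finset.range (B + 1) with hT
  have hmem : ∀ i ∈ T, i.1 ≤ B ∧ i.2 ≤ B := by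
    intro i hi
    rw [hT, Finset.mem_product, Finset.mem_range, Finset.mem_range] at hi
    omega
  have hpos : ∀ i ∈ T, ∀ θ, 0 ≤ (i.1 : ℤ) * n₁ θ + i.2 * n₂ θ + N := fun i hi θ =>
    DEPM.exp_nonneg (hmem i hi).1 (hmem i hi).2 hA θ
  set e : ℕ × ℕ → D → ℕ := fun i θ => ((i.1 : ℤ) * n₁ θ + i.2 * n₂ θ + N).toNat with he
  have hsum : ∀ i ∈ T, ∑ θ, e i θ = s * N := by
    intro i hi
    have : ((∑ θ, e i θ : ℕ) : ℤ) = ((s * N : ℕ) : ℤ) := by
      push_cast
      have h1 : ∀ θ ∈ Finset.univ, ((e i θ : ℕ) : ℤ) = (i.1 : ℤ) * n₁ θ + i.2 * n₂ θ + N :=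
        fun θ _ => Int.toNat_of_nonneg (hpos i hi θ)
      rw [Finset.sum_congr rfl h1, Finset.sum_add_distrib, Finset.sum_add_distrib,
        ← Finset.mul_sum, ← Finset.mul_sum, hn₁, hn₂, Finset.sum_const, Finset.card_univ]
      simp [hs]
    exact_mod_cast this
  set v : T → degreeLT L (s * N + 1) := fun i => ⟨∏ θ, ℓ θ ^ e i.1 θ, by
    rw [mem_degreeLT]
    refine (degree_le_natDegree).trans_lt ?_
    have h1 := DEPM.natDegree_prod_pow_le ℓ hℓ (e i.1)
    rw [hsum i.1 i.2] at h1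
    exact_mod_cast Nat.lt_succ_of_le h1⟩ with hv
  have hnot : ¬ LinearIndependent L v := by
    intro hli
    have h1 := hli.fintype_card_le_finrank
    rw [Module.finrank_eq_card_basis (degreeLT.basis L (s * N + 1)), Fintype.card_fin,
      Fintype.card_coe, hT, Finset.card_product, Finset.card_range] at h1
    have h2 : (B + 1) * (B + 1) ≤ s * (B * A) + 1 := h1
    have h3 : s * (B * A) = B * (s * A) := by ring
    rw [h3] at h2
    have h4 : s * A = B - 1 := by omega
    have h5 : B * (s * A) ≤ B * B := Nat.mul_le_mul_left _ (by omega)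
    have hB1 : 1 ≤ B := by omega
    nlinarith
  rw [Fintype.not_linearIndependent_iff] at hnot
  obtain ⟨g, hg, i₀, hi₀⟩ := hnot
  set α : ℕ × ℕ → L := fun i => if h : i ∈ T then g ⟨i, h⟩ else 0 with hα
  refine ⟨T.filter fun i => α i ≠ 0, α, N, ⟨i₀.1, ?_⟩, ?_, ?_, ?_⟩
  · rw [Finset.mem_filter]
    refine ⟨i₀.2, ?_⟩
    rw [hα]
    simpa using hi₀
  · intro i hi
    exact (Finset.mem_filter.1 hi).2
  · intro i hi θ
    exact hpos i (Finset.mem_filter.1 hi).1 θ
  · have h1 : ∑ i ∈ T, C (α i) * ∏ θ, ℓ θ ^ e i θ = 0 := by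
      have h2 := congrArg (fun p : degreeLT L (s * N + 1) => (p : L[X])) hg
      simp only [Submodule.coe_sum, Submodule.coe_smul, ZeroMemClass.coe_zero] at h2
      rw [← Finset.sum_coe_sort T]
      refine (Finset.sum_congr rfl fun i _ => ?_).trans h2
      rw [← smul_eq_C_mul, hα]
      simp [hv]
    rw [Finset.sum_filter_of_ne]
    · exact h1
    · intro i _ hne h0
      apply hne
      rw [h0, C_0, zero_mul]

end Pool.Agent.Lib.MP_78b700_nt.HV
end

section
/-!
# REL: the relation between two characters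
-/
set_option autoImplicit false

open IsDedekindDomain NumberField Polynomial

namespace Pool.Agent.Lib.MP_78b700_nt.HV

namespace RELM

theorem natDegree_lf_le {L : Type} [Field L] (a b c : L) : (lf a b c).natDegree ≤ 1 := by
  unfold lf
  exact natDegree_linear_le

theorem prod_zpow_const {L D : Type} [Field L] [DecidableEq D] (T : Finset D) (s : L) (hs : s ≠ 0)
    (n : D → ℤ) : ∏ θ ∈ T, s ^ n θ = s ^ ∑ θ ∈ T, n θ := by
  induction T using Finset.induction_on with
  | empty => simp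
  | insert i T hi ih => rw [Finset.prod_insert hi, Finset.sum_insert hi, ih, zpow_add₀ hs]

theorem prod_zpow_div {L D : Type} [Field L] [Fintype D] (t : D → L) (s : L) (hs : s ≠ 0)
    (n : D → ℤ) (hn : ∑ θ, n θ = 0) : ∏ θ, (t θ / s) ^ n θ = ∏ θ, t θ ^ n θ := by
  classical
  have h1 : ∏ θ, s ^ n θ = 1 := by
    rw [prod_zpow_const _ s hs, hn, zpow_zero]
  have h2 : ∀ θ ∈ Finset.univ, (t θ / s) ^ n θ = t θ ^ n θ / s ^ n θ := fun θ _ => div_zpow _ _ _
  rw [Finset.prod_congr rfl h2, Finset.prod_div_distrib, h1, div_one]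

theorem prod_pow_toNat {L D : Type} [Field L] [Fintype D] (z : D → L) (hz : ∀ θ, z θ ≠ 0)
    (n₁ n₂ : D → ℤ) (i j N : ℕ) (hpos : ∀ θ, 0 ≤ (i : ℤ) * n₁ θ + j * n₂ θ + N) :
    ∏ θ, z θ ^ ((i : ℤ) * n₁ θ + j * n₂ θ + N).toNat =
      (∏ θ, z θ) ^ N * ((∏ θ, z θ ^ n₁ θ) ^ i * (∏ θ, z θ ^ n₂ θ) ^ j) := by
  rw [← Finset.prod_pow, ← Finset.prod_pow, ← Finset.prod_pow, ← Finset.prod_mul_distrib,
    ← Finset.prod_mul_distrib]
  refine Finset.prod_congr rfl fun θ _ => ?_
  rw [← zpow_natCast, Int.toNat_of_nonneg (hpos θ), zpow_add₀ (hz θ), zpow_add₀ (hz θ),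
    zpow_natCast, mul_comm (i : ℤ), mul_comm (j : ℤ), zpow_mul, zpow_mul, zpow_natCast,
    zpow_natCast]
  ring

section

set_option linter.unusedSectionVars false

variable {F L : Type} [Field F] [NumberField F] [Field L] [NumberField L] [Algebra F L]
  {f : F[X]} {S : Finset (HeightOneSpectrum (𝓞 F))} {t : ℕ → f.rootSet L → Lˣ}

theorem chi_eq (n : f.rootSet L → ℤ) (hn : ∑ θ, n θ = 0) (s : f.rootSet L → Lˣ)
    (θ₁ : f.rootSet L) : chi f n s = ∏ θ, ((s θ : L) / s θ₁) ^ n θ := by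
  rw [prod_zpow_div (fun θ => (s θ : L)) (s θ₁) (s θ₁).ne_zero n hn]
  rfl

theorem z_ne_zero (k : ℕ) (θ θ' : f.rootSet L) : (t k θ : L) / t k θ' ≠ 0 :=
  div_ne_zero (t k θ).ne_zero (t k θ').ne_zero

/-- absolute values do not depend on `k` -/
theorem fabs_conv {S : Finset (HeightOneSpectrum (𝓞 L))} {a : ℕ → L} (ha : Conv S a) (k l : ℕ)
    (v : HeightOneSpectrum (𝓞 L)) (hv : v ∉ S) : fabs v (a k) = fabs v (a l) := by
  have key : ∀ k l : ℕ, k ≤ l → fabs v (a k) = fabs v (a l) := by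
    intro k l hkl
    obtain ⟨h1, h2, h3⟩ := ha k l hkl
    have h4 := (h3 v hv).1
    rw [map_div₀, div_eq_one_iff_eq ((fabs v).ne_zero h2)] at h4
    exact h4
  rcases le_total k l with h | h
  · exact key k l h
  · exact (key l k h).symm

theorem fabs_z (ht : Appr f S t) (k : ℕ) (θ θ' : f.rootSet L) (v : HeightOneSpectrum (𝓞 L))
    (hv : v ∉ above L S) :
    fabs v ((t k θ : L) / t k θ') = fabs v ((t 0 θ : L) / t 0 θ') :=
  fabs_conv (ht.conv θ θ') k 0 v hv

end

end RELM

theorem specRel (hSub : SpecSub) : SpecRel := by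
  classical
  intro F L _ _ _ _ _ f S t ht θ₀ θ₁ hne n₁ n₂ h₁ h₂
  obtain ⟨I, α, N, hI, hα, hpos, hrel⟩ := specDep L (f.rootSet L)
    (fun θ => lf (θ₀ : L) (θ₁ : L) (θ : L)) n₁ n₂ (fun θ => RELM.natDegree_lf_le _ _ _) h₁ h₂
  set e : ℕ × ℕ → f.rootSet L → ℕ := fun i θ => ((i.1 : ℤ) * n₁ θ + i.2 * n₂ θ + N).toNat with he
  set Ψ : MvPolynomial (f.rootSet L) L :=
    ∑ i ∈ I, MvPolynomial.C (α i) * ∏ θ, MvPolynomial.X θ ^ e i θ with hΨ
  have heval : ∀ z : f.rootSet L → L,
      MvPolynomial.eval z Ψ = ∑ i ∈ I, α i * ∏ θ, z θ ^ e i θ := by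
    intro z
    rw [hΨ, map_sum]
    refine Finset.sum_congr rfl fun i _ => ?_
    rw [map_mul, MvPolynomial.eval_C, map_prod]
    congr 1
    refine Finset.prod_congr rfl fun θ _ => ?_
    rw [map_pow, MvPolynomial.eval_X]
  obtain ⟨d, hd, hdk⟩ := hSub F L f S t ht θ₀ θ₁ hne Ψ
  set w : L := ∏ θ, ((t 0 θ : L) / t 0 θ₁) with hw
  have hw0 : w ≠ 0 := Finset.prod_ne_zero_iff.2 fun θ _ => RELM.z_ne_zero 0 θ θ₁
  refine ⟨I, α, d * w ^ N, hI, hα, mul_ne_zero hd (pow_ne_zero _ hw0), fun k v hv => ?_⟩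
  have h3 := hdk k v hv
  have h4 : MvPolynomial.eval (fun θ : f.rootSet L =>
      (lf (θ₀ : L) (θ₁ : L) (θ : L)).eval ((t k θ₀ : L) / t k θ₁)) Ψ = 0 := by
    rw [heval]
    have h5 := congrArg (Polynomial.eval ((t k θ₀ : L) / t k θ₁)) hrel
    rw [eval_finsetSum, eval_zero] at h5
    rw [← h5]
    refine Finset.sum_congr rfl fun i _ => ?_
    rw [eval_mul, eval_C, eval_prod]
    congr 1
    refine Finset.prod_congr rfl fun θ _ => ?_
    rw [eval_pow]
  rw [h4, sub_zero, heval] at h3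
  have h6 : ∑ i ∈ I, α i * ∏ θ, ((t k θ : L) / t k θ₁) ^ e i θ =
      (∏ θ, ((t k θ : L) / t k θ₁)) ^ N *
        ∑ i ∈ I, α i * chi f n₁ (t k) ^ i.1 * chi f n₂ (t k) ^ i.2 := by
    rw [Finset.mul_sum]
    refine Finset.sum_congr rfl fun i hi => ?_
    rw [RELM.prod_pow_toNat (fun θ => (t k θ : L) / t k θ₁) (fun θ => RELM.z_ne_zero k θ θ₁)
      n₁ n₂ i.1 i.2 N (hpos i hi), RELM.chi_eq n₁ h₁ (t k) θ₁, RELM.chi_eq n₂ h₂ (t k) θ₁]
    ring
  rw [h6] at h3
  have h7 : fabs v (∏ θ, ((t k θ : L) / t k θ₁)) = fabs v w := by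
    rw [hw, map_prod, map_prod]
    exact Finset.prod_congr rfl fun θ _ => RELM.fabs_z ht k θ θ₁ v hv
  rw [map_mul, map_mul, map_pow, h7] at h3
  rw [map_mul, map_mul, map_pow, mul_assoc]
  exact h3

end Pool.Agent.Lib.MP_78b700_nt.HV
end

section
/-!
# ALX: the polynomial relation from the value of one character
-/
set_option autoImplicit false

open IsDedekindDomain NumberField Polynomial

namespace Pool.Agent.Lib.MP_78b700_nt.HV

namespace ALXM

section

set_option linter.unusedSectionVars false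

variable {L : Type} [Field L] [NumberField L]

/-- a common small multiplier -/
theorem exists_common (x y : L) (hx : x ≠ 0) (hy : y ≠ 0) : ∃ D : L, D ≠ 0 ∧
    ∀ v : HeightOneSpectrum (𝓞 L), fabs v D ≤ fabs v x ∧ fabs v D ≤ fabs v y := by
  obtain ⟨n, m, hm, rfl⟩ := IsFractionRing.div_surjective (A := 𝓞 L) x
  obtain ⟨n', m', hm', rfl⟩ := IsFractionRing.div_surjective (A := 𝓞 L) y
  have hn : algebraMap (𝓞 L) L n ≠ 0 := fun h => hx (by rw [h, zero_div])
  have hn' : algebraMap (𝓞 L) L n' ≠ 0 := fun h => hy (by rw [h, zero_div])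
  have hm0 : algebraMap (𝓞 L) L m ≠ 0 := fun h => hx (by rw [h, div_zero])
  have hm0' : algebraMap (𝓞 L) L m' ≠ 0 := fun h => hy (by rw [h, div_zero])
  refine ⟨algebraMap (𝓞 L) L n * algebraMap (𝓞 L) L n', mul_ne_zero hn hn', fun v => ?_⟩
  have key : ∀ a b c : 𝓞 L, algebraMap (𝓞 L) L c ≠ 0 →
      fabs v (algebraMap (𝓞 L) L a * algebraMap (𝓞 L) L b) ≤
        fabs v (algebraMap (𝓞 L) L a / algebraMap (𝓞 L) L c) := by
    intro a b c hc
    rw [map_mul, map_div₀, le_div_iff₀ ((fabs v).pos hc), mul_assoc]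
    refine mul_le_of_le_one_right ((fabs v).nonneg _) ?_
    exact mul_le_one₀ (fabs_coe_le v b) ((fabs v).nonneg _) (fabs_coe_le v c)
  refine ⟨key n n' m hm0, ?_⟩
  rw [mul_comm]
  exact key n' n m' hm0'

theorem lf_eval {a b c r : L} (h : a ≠ b) (hr : (c : L) ≠ b) (c' : L) (e : r = (c - a) / (c - b)) :
    (lf a b c').eval r = (c - c') / (c - b) := by
  have h1 : a - b ≠ 0 := sub_ne_zero.2 h
  have h2 : c - b ≠ 0 := sub_ne_zero.2 hr
  unfold lf
  rw [eval_add, eval_mul, eval_C, eval_C, eval_X, e]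
  field_simp
  ring

end

end ALXM

theorem specAlx (hSub : SpecSub) : SpecAlx := by
  classical
  intro F L _ _ _ _ _ f S t ht θ₀ θ₁ hne n hn0 hn c hc
  have hc0 : c ≠ 0 := (hc 0).2.1
  have hne' : (θ₀ : L) ≠ θ₁ := fun h => hne (Subtype.ext h)
  set Ψ : MvPolynomial (f.rootSet L) L :=
    ∏ θ, MvPolynomial.X θ ^ (n θ).toNat - MvPolynomial.C c * ∏ θ, MvPolynomial.X θ ^ (-n θ).toNat
    with hΨ
  have heval : ∀ z : f.rootSet L → L, MvPolynomial.eval z Ψ =
      ∏ θ, z θ ^ (n θ).toNat - c * ∏ θ, z θ ^ (-n θ).toNat := by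
    intro z
    rw [hΨ, map_sub, map_mul, MvPolynomial.eval_C, map_prod, map_prod]
    simp only [map_pow, MvPolynomial.eval_X]
  obtain ⟨d, hd, hdk⟩ := hSub F L f S t ht θ₀ θ₁ hne Ψ
  set P : L[X] := ∏ θ : f.rootSet L, lf (θ₀ : L) (θ₁ : L) (θ : L) ^ (n θ).toNat -
    C c * ∏ θ : f.rootSet L, lf (θ₀ : L) (θ₁ : L) (θ : L) ^ (-n θ).toNat with hP
  have hPeval : ∀ x : L, P.eval x = MvPolynomial.eval
      (fun θ : f.rootSet L => (lf (θ₀ : L) (θ₁ : L) (θ : L)).eval x) Ψ := by
    intro x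
    rw [heval, hP, eval_sub, eval_mul, eval_C, eval_prod, eval_prod]
    simp only [eval_pow]
  -- `P ≠ 0`
  have hP0 : P ≠ 0 := by
    have h1 : ∃ θ, θ ≠ θ₁ ∧ n θ ≠ 0 := by
      by_contra hcon
      push Not at hcon
      apply hn0
      have h2 : n θ₁ = 0 := by
        rw [← Finset.add_sum_erase Finset.univ n (Finset.mem_univ θ₁),
          Finset.sum_eq_zero fun θ hθ => hcon θ (Finset.ne_of_mem_erase hθ), add_zero] at hn
        exact hn
      funext θ
      by_cases h : θ = θ₁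
      · rw [h, h2]; rfl
      · exact hcon θ h
    obtain ⟨θ, hθ, hnθ⟩ := h1
    have hθ' : (θ : L) ≠ θ₁ := fun h => hθ (Subtype.ext h)
    set r : L := ((θ : L) - θ₀) / ((θ : L) - θ₁) with hr
    have hev : ∀ θ' : f.rootSet L, (lf (θ₀ : L) (θ₁ : L) (θ' : L)).eval r =
        ((θ : L) - θ') / ((θ : L) - θ₁) := fun θ' => ALXM.lf_eval hne' hθ' _ hr
    have hev0 : (lf (θ₀ : L) (θ₁ : L) (θ : L)).eval r = 0 := by
      rw [hev, sub_self, zero_div]
    have hevn : ∀ θ' : f.rootSet L, θ' ≠ θ → (lf (θ₀ : L) (θ₁ : L) (θ' : L)).eval r ≠ 0 := by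
      intro θ' h
      rw [hev]
      exact div_ne_zero (sub_ne_zero.2 fun h' => h (Subtype.ext h'.symm)) (sub_ne_zero.2 hθ')
    have key : ∀ m : f.rootSet L → ℕ, (0 < m θ → ∏ θ' : f.rootSet L,
          (lf (θ₀ : L) (θ₁ : L) (θ' : L)).eval r ^ m θ' = 0) ∧
        (m θ = 0 → ∏ θ' : f.rootSet L, (lf (θ₀ : L) (θ₁ : L) (θ' : L)).eval r ^ m θ' ≠ 0) := by
      intro m
      refine ⟨fun hm => ?_, fun hm => ?_⟩
      · refine Finset.prod_eq_zero (Finset.mem_univ θ) ?_
        rw [hev0, zero_pow hm.ne']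
      · rw [Finset.prod_ne_zero_iff]
        intro θ' _
        by_cases h : θ' = θ
        · rw [h, hm, pow_zero]; exact one_ne_zero
        · exact pow_ne_zero _ (hevn θ' h)
    intro h0
    have h3 : P.eval r = 0 := by rw [h0, eval_zero]
    rw [hPeval, heval, sub_eq_zero] at h3
    rcases lt_or_gt_of_ne hnθ with h | h
    · have h4 := (key fun θ => (-n θ).toNat).1 (by omega)
      have h5 := (key fun θ => (n θ).toNat).2 (by omega)
      rw [h4, mul_zero] at h3
      exact h5 h3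
    · have h4 := (key fun θ => (n θ).toNat).1 (by omega)
      have h5 := (key fun θ => (-n θ).toNat).2 (by omega)
      rw [h4] at h3
      exact mul_ne_zero hc0 h5 h3.symm
  set z : ℕ → f.rootSet L → L := fun k θ => (t k θ : L) / t k θ₁ with hz
  have hz0 : ∀ k θ, z k θ ≠ 0 := fun k θ => RELM.z_ne_zero k θ θ₁
  set B : ℕ → L := fun k => ∏ θ, z k θ ^ (-n θ).toNat with hB
  have hB0 : ∀ k, B k ≠ 0 := fun k => Finset.prod_ne_zero_iff.2 fun θ _ => pow_ne_zero _ (hz0 k θ)
  have hBabs : ∀ k, ∀ v ∉ above L S, fabs v (B k) = fabs v (B 0) := by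
    intro k v hv
    simp only [hB, map_prod, map_pow]
    exact Finset.prod_congr rfl fun θ _ => by rw [hz]; simp only; rw [RELM.fabs_z ht k θ θ₁ v hv]
  have hA : ∀ k, ∏ θ, z k θ ^ (n θ).toNat = chi f n (t k) * B k := by
    intro k
    rw [RELM.chi_eq n hn (t k) θ₁, hB]
    simp only
    rw [← Finset.prod_mul_distrib]
    refine Finset.prod_congr rfl fun θ _ => ?_
    change z k θ ^ (n θ).toNat = z k θ ^ n θ * z k θ ^ (-n θ).toNat
    rw [← zpow_natCast, ← zpow_natCast, ← zpow_add₀ (hz0 k θ)]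
    congr 1
    omega
  have hΨk : ∀ k, ∀ v ∉ above L S,
      fabs v ((c * B 0)⁻¹ * MvPolynomial.eval (z k) Ψ) ≤ fabs v ((k.factorial : ℕ) : L) := by
    intro k v hv
    have e : MvPolynomial.eval (z k) Ψ = c * B k * (chi f n (t k) / c - 1) := by
      rw [heval, hA]
      change chi f n (t k) * B k - c * B k = _
      field_simp
    have e2 : fabs v ((c * B 0)⁻¹ * (c * B k * (chi f n (t k) / c - 1))) =
        (fabs v c * fabs v (B 0))⁻¹ * (fabs v c * fabs v (B k)) *
          fabs v (chi f n (t k) / c - 1) := by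
      rw [map_mul, map_inv₀, map_mul, map_mul, map_mul]
      ring
    rw [e, e2, hBabs k v hv,
      inv_mul_cancel₀ (mul_ne_zero ((fabs v).ne_zero hc0) ((fabs v).ne_zero (hB0 0))), one_mul]
    exact ((hc k).2.2 v hv).2
  obtain ⟨D, hD0, hD⟩ := ALXM.exists_common d (c * B 0)⁻¹ hd
    (inv_ne_zero (mul_ne_zero hc0 (hB0 0)))
  refine ⟨P, hP0, D, hD0, fun k v hv => ?_⟩
  have e : D * P.eval ((t k θ₀ : L) / t k θ₁) = D * MvPolynomial.eval (z k) Ψ -
      D * (MvPolynomial.eval (z k) Ψ - MvPolynomial.eval (fun θ : f.rootSet L =>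
            (lf (θ₀ : L) (θ₁ : L) (θ : L)).eval ((t k θ₀ : L) / t k θ₁)) Ψ) := by
    rw [hPeval]
    ring
  rw [e]
  refine (fabs_sub_le v _ _).trans (max_le ?_ ?_)
  · refine le_trans ?_ (hΨk k v hv)
    rw [map_mul, map_mul]
    exact mul_le_mul_of_nonneg_right (hD v).2 ((fabs v).nonneg _)
  · refine le_trans ?_ (hdk k v hv)
    rw [map_mul, map_mul]
    exact mul_le_mul_of_nonneg_right (hD v).1 ((fabs v).nonneg _)

end Pool.Agent.Lib.MP_78b700_nt.HV
end

section
/-!
# Assembly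
-/
set_option autoImplicit false
set_option linter.unusedSectionVars false

open IsDedekindDomain NumberField Polynomial

namespace Pool.Agent.Lib.MP_78b700_nt.HV

namespace MainM

section

variable {F L : Type} [Field F] [NumberField F] [Field L] [NumberField L] [Algebra F L]
  {f : F[X]} {S : Finset (HeightOneSpectrum (𝓞 F))}

theorem chi_add (n n' : f.rootSet L → ℤ) (t : f.rootSet L → Lˣ) :
    chi f (n + n') t = chi f n t * chi f n' t := by
  unfold chi
  rw [← Finset.prod_mul_distrib]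
  exact Finset.prod_congr rfl fun θ _ => zpow_add₀ (t θ).ne_zero _ _

theorem chi_smul (a : ℤ) (n : f.rootSet L → ℤ) (t : f.rootSet L → Lˣ) :
    chi f (a • n) t = chi f n t ^ a := by
  unfold chi
  rw [← Finset.prod_zpow]
  refine Finset.prod_congr rfl fun θ _ => ?_
  rw [Pi.smul_apply, smul_eq_mul, mul_comm, zpow_mul]

theorem chi_div (n : f.rootSet L → ℤ) (t s : f.rootSet L → Lˣ) :
    chi f n (t / s) = chi f n t / chi f n s := by
  unfold chi
  rw [← Finset.prod_div_distrib]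
  refine Finset.prod_congr rfl fun θ _ => ?_
  rw [Pi.div_apply, Units.val_div_eq_div_val, div_zpow]

theorem chi_ne_zero (n : f.rootSet L → ℤ) (t : f.rootSet L → Lˣ) : chi f n t ≠ 0 :=
  Finset.prod_ne_zero_iff.2 fun θ _ => zpow_ne_zero _ (t θ).ne_zero

theorem chi_eq {n : f.rootSet L → ℤ} (hn : ∑ θ, n θ = 0) (t : f.rootSet L → Lˣ)
    (θ₀ : f.rootSet L) : chi f n t = ∏ θ, ((t θ : L) / t θ₀) ^ n θ := by
  unfold chi
  have : ∏ θ : f.rootSet L, (t θ₀ : L) ^ n θ = 1 := by
    have h : ∀ s : Finset (f.rootSet L),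
        ∏ θ ∈ s, (t θ₀ : L) ^ n θ = (t θ₀ : L) ^ (∑ θ ∈ s, n θ) := by
      classical
      intro s
      induction s using Finset.induction_on with
      | empty => simp
      | insert a s ha ih =>
        rw [Finset.prod_insert ha, Finset.sum_insert ha, zpow_add₀ (t θ₀).ne_zero, ih]
    rw [h, hn, zpow_zero]
  simp_rw [div_zpow]
  rw [Finset.prod_div_distrib, this, div_one]

theorem conv_chi {t : ℕ → f.rootSet L → Lˣ} (ht : Appr f S t) {n : f.rootSet L → ℤ}
    (hn : ∑ θ, n θ = 0) : Conv (above L S) fun k => chi f n (t k) := by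
  intro k l hkl
  rcases isEmpty_or_nonempty (f.rootSet L) with he | ⟨⟨θ₀⟩⟩
  · simpa [chi] using Near.refl (above L S) k (one_ne_zero : (1 : L) ≠ 0)
  · simp only [chi_eq hn _ θ₀]
    exact Near.prod _ fun θ _ => (ht.conv θ θ₀ k l hkl).zpow _

theorem isSUnit_one (T : Finset (HeightOneSpectrum (𝓞 L))) : IsSUnit T (1 : L) :=
  ⟨one_ne_zero, fun _ _ => map_one _⟩

theorem isSUnit_inv {T : Finset (HeightOneSpectrum (𝓞 L))} {u : L} (h : IsSUnit T u) :
    IsSUnit T u⁻¹ := by
  have := h.zpow (-1)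
  rwa [zpow_neg_one] at this

theorem isSUnit_prod {T : Finset (HeightOneSpectrum (𝓞 L))} {ι : Type*} (s : Finset ι)
    {u : ι → L} (h : ∀ i ∈ s, IsSUnit T (u i)) : IsSUnit T (∏ i ∈ s, u i) := by
  classical
  induction s using Finset.induction_on with
  | empty => simpa using isSUnit_one T
  | insert i s hi ih =>
    rw [Finset.prod_insert hi]
    exact (h i (Finset.mem_insert_self _ _)).mul (ih fun j hj => h j (Finset.mem_insert_of_mem hj))

theorem isSUnit_chi {t : f.rootSet L → Lˣ} (ht : t ∈ integralT f S) {n : f.rootSet L → ℤ}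
    (hn : ∑ θ, n θ = 0) : IsSUnit (above L S) (chi f n t) := by
  rcases isEmpty_or_nonempty (f.rootSet L) with he | ⟨⟨θ₀⟩⟩
  · simpa [chi] using isSUnit_one _
  · rw [chi_eq hn t θ₀]
    refine isSUnit_prod _ fun θ _ => IsSUnit.zpow ?_ _
    have := ht.2 θ θ₀
    rwa [Units.val_div_eq_div_val] at this

/-- the quotients of the approximations are in `T(O_S)` -/
theorem div_mem {t : ℕ → f.rootSet L → Lˣ} (ht : Appr f S t) (k : ℕ) :
    t k / t 0 ∈ integralT f S := by
  refine ⟨fun g θ θ' h => ?_, fun θ θ' => ?_⟩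
  · have h1 := ht.equi k g θ θ' h
    have h2 := ht.equi 0 g θ θ' h
    simp only [Pi.div_apply, Units.val_div_eq_div_val, map_div₀]
    rw [h1, h2]
  · have h := ht.conv θ θ' 0 k (Nat.zero_le k)
    have h' := h.symm
    have e : (((t k / t 0) θ / (t k / t 0) θ' : Lˣ) : L) =
        ((t k θ : L) / t k θ') / ((t 0 θ : L) / t 0 θ') := by
      simp only [Pi.div_apply, Units.val_div_eq_div_val]
      have h1 := (t 0 θ).ne_zero
      have h2 := (t 0 θ').ne_zero
      have h3 := (t k θ).ne_zero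
      have h4 := (t k θ').ne_zero
      field_simp
    rw [e]
    exact ⟨div_ne_zero h'.1 h'.2.1, fun v hv => (h'.2.2 v hv).1⟩

/-- action of the Galois group on the roots -/
theorem exists_perm (g : L ≃ₐ[F] L) :
    ∃ e : f.rootSet L ≃ f.rootSet L, ∀ θ : f.rootSet L, g θ = e θ := by
  rcases eq_or_ne f 0 with rfl | hf
  · have : IsEmpty ((0 : F[X]).rootSet L) := by
      rw [rootSet_zero]
      exact Set.isEmpty_coe_sort.2 rfl
    exact ⟨Equiv.refl _, fun θ => isEmptyElim θ⟩
  have hmem : ∀ (h : L ≃ₐ[F] L) (θ : f.rootSet L), h θ ∈ f.rootSet L := by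
    intro h θ
    have := θ.2
    rw [mem_rootSet] at this ⊢
    refine ⟨this.1, ?_⟩
    have h2 : aeval (h (θ : L)) f = h (aeval (θ : L) f) := by
      have := Polynomial.aeval_algHom_apply (h : L →ₐ[F] L) (θ : L) f
      simpa using this
    rw [h2, this.2, map_zero]
  refine ⟨⟨fun θ => ⟨g θ, hmem g θ⟩, fun θ => ⟨g.symm θ, hmem g.symm θ⟩, fun θ => ?_, fun θ => ?_⟩,
    fun θ => rfl⟩
  · exact Subtype.ext (g.symm_apply_apply _)
  · exact Subtype.ext (g.apply_symm_apply _)

theorem chi_galois {t : f.rootSet L → Lˣ} (ht : Equi f t) (n : f.rootSet L → ℤ) (g : L ≃ₐ[F] L)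
    (n' : f.rootSet L → ℤ) (h : ∀ θ θ' : f.rootSet L, g θ = θ' → n' θ' = n θ) :
    g (chi f n t) = chi f n' t := by
  obtain ⟨e, he⟩ := exists_perm (f := f) g
  unfold chi
  rw [map_prod, ← Equiv.prod_comp e fun θ => (t θ : L) ^ n' θ]
  refine Finset.prod_congr rfl fun θ _ => ?_
  rw [map_zpow₀, ht g θ (e θ) (he θ), h θ (e θ) (he θ)]

theorem chi_mem {G H : Subgroup (L ≃ₐ[F] L)} {n : f.rootSet L → ℤ} (hn : IsChar f G H n)
    {t : f.rootSet L → Lˣ} (ht : t ∈ integralT f S) : chi f n t ∈ UU (above L S) G H := by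
  refine ⟨isSUnit_chi ht hn.1, fun g hg => ⟨fun h => ?_, fun h => ?_⟩⟩
  · exact chi_galois ht.1 n g n fun θ θ' e => (hn.2 g hg θ θ' e).1 h
  · rw [chi_galois ht.1 n g (-n) fun θ θ' e => by
      rw [Pi.neg_apply, (hn.2 g hg θ θ' e).2 h, neg_neg]]
    have := chi_smul (-1) n t
    rw [neg_one_smul, zpow_neg_one] at this
    exact this

theorem UU_one (G H : Subgroup (L ≃ₐ[F] L)) : (1 : L) ∈ UU (above L S) G H :=
  ⟨isSUnit_one _, fun g _ => ⟨fun _ => map_one g, fun _ => by rw [map_one, inv_one]⟩⟩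

theorem UU_div (G H : Subgroup (L ≃ₐ[F] L)) {u u' : L} (h : u ∈ UU (above L S) G H)
    (h' : u' ∈ UU (above L S) G H) : u * u'⁻¹ ∈ UU (above L S) G H := by
  refine ⟨h.1.mul (isSUnit_inv h'.1), fun g hg => ⟨fun hH => ?_, fun hH => ?_⟩⟩
  · rw [map_mul, map_inv₀, (h.2 g hg).1 hH, (h'.2 g hg).1 hH]
  · rw [map_mul, map_inv₀, (h.2 g hg).2 hH, (h'.2 g hg).2 hH, mul_inv]

theorem exists_ne {n : f.rootSet L → ℤ} (hn : ∑ θ, n θ = 0) (h0 : n ≠ 0) :
    ∃ θ₀ θ₁ : f.rootSet L, θ₀ ≠ θ₁ := by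
  classical
  obtain ⟨θ₀, h⟩ := Function.ne_iff.1 h0
  by_contra hcon
  push Not at hcon
  rw [Finset.sum_eq_single θ₀ (fun θ _ hne => absurd (hcon θ θ₀) hne)
    (fun h => absurd (Finset.mem_univ _) h)] at hn
  exact h hn

/-- the core of the proof -/
theorem core [IsGalois F L] (hVCY : SpecVcy) (hAPX : SpecApx) (hFNA : SpecFna) (hREL : SpecRel)
    (hALX : SpecAlx) (hKAP : SpecKap) (hRON : SpecRon) (hZED : SpecZed)
    (U : Set L) (hU : ∀ u ∈ U, IsSUnit (above L S) u) (hU1 : 1 ∈ U)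
    (hUd : ∀ u ∈ U, ∀ u' ∈ U, u * u'⁻¹ ∈ U)
    (hP : ∃ w₁, ∀ u ∈ U, 1 ≤ tabs (above L S) w₁ u →
        ∀ w, tabs (above L S) w u ≤ tabs (above L S) w₁ u)
    (r : ℕ) (hr : r ≤ 1) (n : Fin (r + 1) → f.rootSet L → ℤ)
    (hr0 : r = 0 → ∀ u ∈ U, ∀ w, tabs (above L S) w u = 1)
    (hn : LinearIndependent ℤ n) (hn0 : ∀ i, ∑ θ, n i θ = 0)
    (hchi : ∀ i, ∀ t ∈ integralT f S, chi f (n i) t ∈ U)
    (p : f.rootSet L → (Ad L S)ˣ) (hp : p ∈ curveA L f S) (hp' : p ∈ closure (torusF L f S)) :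
    p ∈ curveF L f S := by
  obtain ⟨t, ht, hclose⟩ := hAPX F L f S p hp hp'
  have hval : ∀ i k, chi f (n i) (t k) / chi f (n i) (t 0) ∈ U := by
    intro i k
    rw [← chi_div]
    exact hchi i _ (div_mem ht k)
  -- two different points
  obtain ⟨θ₀, θ₁, hθ⟩ := exists_ne (hn0 0) (hn.ne_zero 0)
  -- a convergent character
  have key : ∃ m : f.rootSet L → ℤ, m ≠ 0 ∧ ∑ θ, m θ = 0 ∧
      ∃ c, ∀ k, Near (above L S) k (chi f m (t k)) c := by
    rcases hVCY L (above L S) U hU hU1 hUd hP with hfin | ⟨ε, hε, hw, hZ⟩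
    · refine ⟨n 0, hn.ne_zero 0, hn0 0, ?_⟩
      have : Finite U := hfin
      obtain ⟨z, hz⟩ := Finite.exists_infinite_fiber
        (fun k : ℕ => (⟨_, hval 0 k⟩ : U))
      refine ⟨z.1 * chi f (n 0) (t 0), fun k => ?_⟩
      rw [Set.infinite_coe_iff] at hz
      obtain ⟨l, hl, hkl⟩ := hz.exists_gt k
      have h2 : chi f (n 0) (t l) / chi f (n 0) (t 0) = z.1 := congrArg Subtype.val hl
      have h3 := conv_chi ht (hn0 0) k l hkl.le
      rw [← h2, div_mul_cancel₀ _ (chi_ne_zero _ _)]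
      exact h3
    · have hr1 : r = 1 := by
        rcases Nat.lt_or_ge 0 r with h | h
        · omega
        · obtain ⟨w, hw⟩ := hw
          exact absurd (hr0 (by omega) ε hε w) hw.ne'
      subst hr1
      obtain ⟨I, α, d, hI, hα, hd, hrel⟩ := hREL F L f S t ht θ₀ θ₁ hθ (n 0) (n 1) (hn0 0) (hn0 1)
      obtain ⟨i, _, j, _, hij, c, hc⟩ := hRON L (above L S) U hU ⟨ε, hε, hw, hZ⟩
        (fun k => chi f (n 0) (t k)) (fun k => chi f (n 1) (t k)) (conv_chi ht (hn0 0))
        (conv_chi ht (hn0 1)) (fun k => hval 0 k) (fun k => hval 1 k) I α d hI hα hd hrel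
      refine ⟨((i.1 : ℤ) - j.1) • n 0 + ((i.2 : ℤ) - j.2) • n 1, ?_, ?_, c, fun k => ?_⟩
      · intro h0
        have h2 := Fintype.linearIndependent_iff.1 hn ![(i.1 : ℤ) - j.1, (i.2 : ℤ) - j.2] (by
          rw [Fin.sum_univ_two]
          exact h0)
        have h3 := h2 0
        have h4 := h2 1
        simp only [Matrix.cons_val_zero, Matrix.cons_val_one] at h3 h4
        exact hij (Prod.ext (by omega) (by omega))
      · simp only [Pi.add_apply, Pi.smul_apply, smul_eq_mul]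
        rw [Finset.sum_add_distrib, ← Finset.mul_sum, ← Finset.mul_sum, hn0, hn0]
        simp
      · rw [chi_add, chi_smul, chi_smul]
        exact hc k
  obtain ⟨m, hm, hm0, c, hc⟩ := key
  obtain ⟨P, hP0, d, hd, hPd⟩ := hALX F L f S t ht θ₀ θ₁ hθ m hm hm0 c hc
  obtain ⟨γ, hγ⟩ := hZED L (above L S) (fun k => (t k θ₀ : L) / t k θ₁) (ht.conv θ₀ θ₁) P hP0 d hd
    hPd
  obtain ⟨a, b, hab, hN⟩ := hKAP F L f S t ht θ₀ θ₁ hθ γ hγ
  exact hFNA F L f S p t hclose a b hab hN

theorem quot_le (G H : Subgroup (L ≃ₐ[F] L)) (hHG : H ≤ G) :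
    Nat.card (Quot (rel (above L S) G)) ≤ Nat.card (Quot (rel (above L S) H)) := by
  have : Finite (Quot (rel (above L S) H)) := Quot.finite _
  refine Nat.card_le_card_of_surjective
    (Quot.map id fun a b ⟨g, hg, h⟩ => ⟨g, hHG hg, h⟩) ?_
  intro q
  induction q using Quot.ind with
  | mk w => exact ⟨Quot.mk _ w, rfl⟩

theorem quot_pos (G : Subgroup (L ≃ₐ[F] L)) : 0 < Nat.card (Quot (rel (above L S) G)) := by
  have : Finite (Quot (rel (above L S) G)) := Quot.finite _
  have : Nonempty (TPlace (above L S)) := ⟨Sum.inr (Classical.arbitrary _)⟩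
  have : Nonempty (Quot (rel (above L S) G)) := ⟨Quot.mk _ (Classical.arbitrary _)⟩
  exact Nat.card_pos

end

end MainM

open MainM in
/-- the theorem from the specifications -/
theorem statement_of (hPLC : SpecPlc) (hRNK : SpecRnk) (hVCY : SpecVcy) (hCHA : SpecCha)
    (hCHB : SpecChb) (hABS : SpecAbs) (hAPX : SpecApx) (hFNA : SpecFna) (hREV : SpecRev)
    (hREL : SpecRel) (hALX : SpecAlx) (hKAP : SpecKap) (hRON : SpecRon) (hZED : SpecZed) :
    Statement := by
  intro F L _ _ _ _ _ _ f S hf _ hcrit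
  refine Set.Subset.antisymm ?_ (hREV F L f S)
  rintro p ⟨hp, hp'⟩
  rcases hcrit with ⟨k, hk2, hk⟩ | ⟨k, K, hkK, hrel, h1, h2⟩ | ⟨r, n, hr, hn, hn0, hdep⟩
  · -- case A
    have hpl := hPLC F L S k
    have hpos := quot_pos (S := S) k.fixingSubgroup
    rw [← hpl] at hpos
    obtain ⟨r, hr⟩ : ∃ r, numPlaces F S k = r + 1 := ⟨numPlaces F S k - 1, by omega⟩
    obtain ⟨n, hn, hchar⟩ := hCHA F L f k r hf.ne_zero (by omega)
    obtain ⟨hr0, hP⟩ := hRNK F L S k.fixingSubgroup k.fixingSubgroup r le_rfl (by omega)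
      (Or.inl ⟨rfl, by rw [← hpl]; omega⟩)
    exact core hVCY hAPX hFNA hREL hALX hKAP hRON hZED (UU (above L S) _ _) (fun u hu => hu.1)
      (UU_one _ _) (fun u hu u' hu' => UU_div _ _ hu hu') hP r (by omega) n hr0 hn
      (fun i => (hchar i).1) (fun i t ht => chi_mem (hchar i) ht) p hp hp'
  · -- case B
    have hplk := hPLC F L S k
    have hplK := hPLC F L S K
    have hHG : K.fixingSubgroup ≤ k.fixingSubgroup := by
      intro g hg x
      exact hg ⟨x.1, hkK x.2⟩
    have hle := quot_le (S := S) k.fixingSubgroup K.fixingSubgroup hHG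
    rw [← hplk, ← hplK] at hle
    obtain ⟨r, hr⟩ : ∃ r, numPlaces F S K = numPlaces F S k + r :=
      ⟨numPlaces F S K - numPlaces F S k, by omega⟩
    obtain ⟨_, hidx, n, hn, hchar⟩ := hCHB F L f k K r hf.ne_zero hkK hrel (by omega)
    obtain ⟨hr0, hP⟩ := hRNK F L S k.fixingSubgroup K.fixingSubgroup r hHG (by omega)
      (Or.inr ⟨hidx, by rw [← hplk, ← hplK]; omega⟩)
    exact core hVCY hAPX hFNA hREL hALX hKAP hRON hZED (UU (above L S) _ _) (fun u hu => hu.1)
      (UU_one _ _) (fun u hu u' hu' => UU_div _ _ hu hu') hP r (by omega) n hr0 hn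
      (fun i => (hchar i).1) (fun i t ht => chi_mem (hchar i) ht) p hp hp'
  · -- case C
    obtain ⟨U, hU, hU1, hUd, hP, hr0, hchi⟩ := hABS F L f S r n hr hn0 hdep
    exact core hVCY hAPX hFNA hREL hALX hKAP hRON hZED U hU hU1 hUd hP r hr n hr0 hn hn0 hchi p
      hp hp'

end Pool.Agent.Lib.MP_78b700_nt.HV
end

section
/-!
# The group of values of characters of rank at most one
-/
set_option autoImplicit false
set_option linter.unusedSectionVars false

open IsDedekindDomain NumberField Polynomial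

namespace Pool.Agent.Lib.MP_78b700_nt.HV

namespace AbsM

section

variable {L : Type} [Field L] [NumberField L] {T : Finset (HeightOneSpectrum (𝓞 L))}

theorem tabs_pos (w : TPlace T) (u : Lˣ) : 0 < tabs T w (u : L) := (tabs T w).pos u.ne_zero

theorem log_dep {u e : Lˣ} {a b : ℤ} (h : u ^ a * e ^ b = 1) (w : TPlace T) :
    a * Real.log (tabs T w (u : L)) + b * Real.log (tabs T w (e : L)) = 0 := by
  have h1 : (tabs T w (u : L)) ^ a * (tabs T w (e : L)) ^ b = 1 := by
    have h2 : (u : L) ^ a * (e : L) ^ b = 1 := by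
      have := congrArg (Units.val) h
      simpa using this
    rw [← map_zpow₀, ← map_zpow₀, ← map_mul, h2, map_one]
  have h3 := congrArg Real.log h1
  rw [Real.log_mul (zpow_ne_zero _ (tabs_pos w u).ne') (zpow_ne_zero _ (tabs_pos w e).ne'),
    Real.log_zpow, Real.log_zpow, Real.log_one] at h3
  exact h3

end

theorem specAbs : SpecAbs := by
  intro F L _ _ _ _ _ f S r n hr hn hdep
  set T := above L S with hT
  set V : Set Lˣ := {u | ∃ i, ∃ t ∈ integralT f S, u = ∏ θ, t θ ^ n i θ} with hV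
  have hchi : ∀ i (t : f.rootSet L → Lˣ), ((∏ θ, t θ ^ n i θ : Lˣ) : L) = chi f (n i) t := by
    intro i t
    unfold chi
    simp
  have hVS : ∀ u ∈ V, IsSUnit T (u : L) := by
    rintro u ⟨i, t, ht, rfl⟩
    rw [hchi]
    exact MainM.isSUnit_chi ht (hn i)
  have hcS : ∀ u ∈ Subgroup.closure V, IsSUnit T (u : L) := by
    intro u hu
    induction hu using Subgroup.closure_induction with
    | mem u hu => exact hVS u hu
    | one => simpa using MainM.isSUnit_one T
    | mul x y _ _ hx hy => simpa using hx.mul hy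
    | inv x _ hx => simpa using MainM.isSUnit_inv hx
  have hV1 : ∀ u ∈ V, (r = 0) → ∀ w, tabs T w (u : L) = 1 := by
    intro u hu hr0 w
    subst hr0
    obtain ⟨a, ha, hprod⟩ := hdep (fun _ => u) fun _ => hu
    have ha0 : a 0 ≠ 0 := by
      intro h
      refine ha (funext fun j => ?_)
      fin_cases j
      exact h
    rw [Fin.prod_univ_one] at hprod
    have h1 := log_dep (T := T) (u := u) (e := 1) (a := a 0) (b := 0) (by simpa using hprod) w
    simp only [Int.cast_zero, zero_mul, add_zero, mul_eq_zero, Int.cast_eq_zero, ha0,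
      false_or] at h1
    exact Real.eq_one_of_pos_of_log_eq_zero (tabs_pos w u) h1
  have hall : (∀ u ∈ V, ∀ w, tabs T w (u : L) = 1) →
      ∀ u ∈ Subgroup.closure V, ∀ w, tabs T w (u : L) = 1 := by
    intro h u hu w
    induction hu using Subgroup.closure_induction with
    | mem u hu => exact h u hu w
    | one => simp
    | mul x y _ _ hx hy => rw [Units.val_mul, map_mul, hx, hy, one_mul]
    | inv x _ hx => rw [Units.val_inv_eq_inv_val, map_inv₀, hx, inv_one]
  refine ⟨{x | ∃ u ∈ Subgroup.closure V, x = (u : L)}, ?_, ⟨1, one_mem _, by simp⟩, ?_, ?_, ?_, ?_⟩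
  · rintro _ ⟨u, hu, rfl⟩
    exact hcS u hu
  · rintro _ ⟨u, hu, rfl⟩ _ ⟨u', hu', rfl⟩
    exact ⟨u * u'⁻¹, mul_mem hu (inv_mem hu'), by simp⟩
  · by_cases h : ∀ u ∈ V, ∀ w, tabs T w (u : L) = 1
    · refine ⟨Sum.inr (Classical.arbitrary _), ?_⟩
      rintro _ ⟨u, hu, rfl⟩ _ w
      rw [hall h u hu, hall h u hu]
    · push Not at h
      obtain ⟨ε, hε, w₀, hw₀⟩ := h
      have hr1 : r = 1 := by
        by_contra hne
        exact hw₀ (hV1 ε hε (by omega) w₀)
      subst hr1
      have hlog0 : Real.log (tabs T w₀ (ε : L)) ≠ 0 := by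
        intro h0
        exact hw₀ (Real.eq_one_of_pos_of_log_eq_zero (tabs_pos w₀ ε) h0)
      have hV2 : ∀ u ∈ V, ∃ lam : ℝ, ∀ w, Real.log (tabs T w (u : L)) =
          lam * Real.log (tabs T w (ε : L)) := by
        intro u hu
        obtain ⟨a, ha, hprod⟩ := hdep ![u, ε] (by
          intro j
          fin_cases j
          · exact hu
          · exact hε)
        rw [Fin.prod_univ_two] at hprod
        simp only [Matrix.cons_val_zero, Matrix.cons_val_one] at hprod
        have h1 := log_dep (T := T) hprod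
        have ha0 : a 0 ≠ 0 := by
          intro h0
          have h2 := h1 w₀
          rw [h0] at h2
          simp only [Int.cast_zero, zero_mul, zero_add, mul_eq_zero, Int.cast_eq_zero, hlog0,
            or_false] at h2
          refine ha (funext fun j => ?_)
          fin_cases j
          · exact h0
          · exact h2
        have ha0' : (a 0 : ℝ) ≠ 0 := by exact_mod_cast ha0
        refine ⟨-(a 1 : ℝ) / a 0, fun w => ?_⟩
        have h2 := h1 w
        field_simp
        linarith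
      have hV3 : ∀ u ∈ Subgroup.closure V, ∃ lam : ℝ, ∀ w, Real.log (tabs T w (u : L)) =
          lam * Real.log (tabs T w (ε : L)) := by
        intro u hu
        induction hu using Subgroup.closure_induction with
        | mem u hu => exact hV2 u hu
        | one => exact ⟨0, fun w => by simp⟩
        | mul x y _ _ hx hy =>
          obtain ⟨l, hl⟩ := hx
          obtain ⟨l', hl'⟩ := hy
          refine ⟨l + l', fun w => ?_⟩
          rw [Units.val_mul, map_mul, Real.log_mul (tabs_pos w x).ne' (tabs_pos w y).ne', hl, hl',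
            add_mul]
        | inv x _ hx =>
          obtain ⟨l, hl⟩ := hx
          refine ⟨-l, fun w => ?_⟩
          rw [Units.val_inv_eq_inv_val, map_inv₀, Real.log_inv, hl, neg_mul]
      have : Nonempty (TPlace T) := ⟨w₀⟩
      obtain ⟨w₁, hw₁⟩ := Finite.exists_max fun w : TPlace T => |Real.log (tabs T w (ε : L))|
      refine ⟨w₁, ?_⟩
      rintro _ ⟨u, hu, rfl⟩ h1 w
      obtain ⟨l, hl⟩ := hV3 u hu
      have h2 : 0 ≤ Real.log (tabs T w₁ (u : L)) := Real.log_nonneg h1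
      rw [← Real.log_le_log_iff (tabs_pos w u) (tabs_pos w₁ u)]
      calc Real.log (tabs T w (u : L)) ≤ |Real.log (tabs T w (u : L))| := le_abs_self _
        _ = |l| * |Real.log (tabs T w (ε : L))| := by rw [hl, abs_mul]
        _ ≤ |l| * |Real.log (tabs T w₁ (ε : L))| :=
          mul_le_mul_of_nonneg_left (hw₁ w) (abs_nonneg _)
        _ = |Real.log (tabs T w₁ (u : L))| := by rw [hl, abs_mul]
        _ = Real.log (tabs T w₁ (u : L)) := abs_of_nonneg h2
  · rintro hr0 _ ⟨u, hu, rfl⟩ w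
    exact hall (fun u hu w => hV1 u hu hr0 w) u hu w
  · intro i t ht
    exact ⟨∏ θ, t θ ^ n i θ, Subgroup.subset_closure ⟨i, t, ht, rfl⟩, (hchi i t).symm⟩

end AbsM

end Pool.Agent.Lib.MP_78b700_nt.HV
end

section
/-!
# ANG: simultaneous avoidance of `1` by powers of unimodular complex numbers
-/
set_option autoImplicit false

open scoped ComplexConjugate

namespace Pool.Agent.Lib.MP_78b700_nt.HV

namespace ANGM

theorem norm_geom (u : ℂ) (hu : ‖u‖ = 1) (h1 : u ≠ 1) (J : ℕ) :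
    ‖∑ j ∈ Finset.range J, u ^ j‖ ≤ 2 / ‖u - 1‖ := by
  rw [geom_sum_eq h1, norm_div]
  gcongr
  calc ‖u ^ J - 1‖ ≤ ‖u ^ J‖ + ‖(1 : ℂ)‖ := norm_sub_le _ _
    _ = 2 := by rw [norm_pow, hu, one_pow, norm_one]; norm_num

theorem mul_conj_self {z : ℂ} (hz : ‖z‖ = 1) : z * conj z = 1 := by
  rw [Complex.mul_conj, Complex.normSq_eq_norm_sq, hz]; simp

/-- mean value of the square of a geometric sum -/
theorem mean (q : ℕ) (z : ℂ) (hz : ‖z‖ = 1) (h1 : ∀ k : ℕ, 0 < k → z ^ k ≠ 1) :
    ∃ C : ℝ, 0 ≤ C ∧ ∀ J : ℕ,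
      ∑ j ∈ Finset.range J, ‖∑ a ∈ Finset.range q, (z ^ j) ^ a‖ ^ 2 ≤ J * q + C := by
  set u : ℕ → ℕ → ℂ := fun a b => z ^ a * (conj z) ^ b with hu
  have hun : ∀ a b, ‖u a b‖ = 1 := by
    intro a b
    simp [hu, hz]
  have hu1 : ∀ a b, a ≠ b → u a b ≠ 1 := by
    intro a b hab hone
    have key : ∀ c d : ℕ, c < d → z ^ c * (conj z) ^ d = 1 → False := by
      intro c d hcd h
      obtain ⟨k, rfl⟩ := Nat.exists_eq_add_of_lt hcd
      have h2 : z ^ (c + k + 1) * (z ^ c * (conj z) ^ (c + k + 1)) = z ^ (c + k + 1) := by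
        rw [h, mul_one]
      have h3 : z ^ (c + k + 1) * (z ^ c * (conj z) ^ (c + k + 1)) =
          (z * conj z) ^ (c + k + 1) * z ^ c := by rw [mul_pow]; ring
      rw [h3, mul_conj_self hz, one_pow, one_mul] at h2
      have h4 : z ^ c * (z ^ (k + 1) - 1) = 0 := by
        rw [mul_sub, mul_one, ← pow_add, ← add_assoc, ← h2, sub_self]
      have hz0 : z ≠ 0 := by
        intro h0; rw [h0] at hz; simp at hz
      rcases mul_eq_zero.mp h4 with h5 | h5
      · exact pow_ne_zero _ hz0 h5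
      · exact h1 (k + 1) (Nat.succ_pos k) (sub_eq_zero.mp h5)
    rcases lt_or_gt_of_ne hab with h | h
    · exact key a b h hone
    · refine key b a h ?_
      have h2 := congrArg (conj : ℂ → ℂ) hone
      simp only [hu, map_mul, map_pow, Complex.conj_conj, map_one] at h2
      rw [mul_comm]; exact h2
  refine ⟨∑ a ∈ Finset.range q, ∑ b ∈ Finset.range q, 2 / ‖u a b - 1‖, by positivity, fun J => ?_⟩
  have hexp : ((∑ j ∈ Finset.range J, ‖∑ a ∈ Finset.range q, (z ^ j) ^ a‖ ^ 2 : ℝ) : ℂ) =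
      ∑ a ∈ Finset.range q, ∑ b ∈ Finset.range q, ∑ j ∈ Finset.range J, (u a b) ^ j := by
    push_cast
    have h2 : ∀ j ∈ Finset.range J, ((‖∑ a ∈ Finset.range q, (z ^ j) ^ a‖ : ℝ) : ℂ) ^ 2 =
        ∑ a ∈ Finset.range q, ∑ b ∈ Finset.range q, (u a b) ^ j := by
      intro j _
      rw [← Complex.mul_conj' (∑ a ∈ Finset.range q, (z ^ j) ^ a), map_sum, Finset.sum_mul_sum]
      refine Finset.sum_congr rfl fun a _ => Finset.sum_congr rfl fun b _ => ?_
      simp only [hu, map_pow, mul_pow]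
      rw [← pow_mul, ← pow_mul, ← pow_mul, ← pow_mul, mul_comm j a, mul_comm j b]
    rw [Finset.sum_congr rfl h2, Finset.sum_comm]
    refine Finset.sum_congr rfl fun a _ => ?_
    rw [Finset.sum_comm]
  have hnn : 0 ≤ (∑ j ∈ Finset.range J, ‖∑ a ∈ Finset.range q, (z ^ j) ^ a‖ ^ 2 : ℝ) := by positivity
  calc (∑ j ∈ Finset.range J, ‖∑ a ∈ Finset.range q, (z ^ j) ^ a‖ ^ 2 : ℝ)
      = ‖((∑ j ∈ Finset.range J, ‖∑ a ∈ Finset.range q, (z ^ j) ^ a‖ ^ 2 : ℝ) : ℂ)‖ := by
        rw [Complex.norm_real, Real.norm_of_nonneg hnn]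
    _ = ‖∑ a ∈ Finset.range q, ∑ b ∈ Finset.range q, ∑ j ∈ Finset.range J, (u a b) ^ j‖ := by
        rw [hexp]
    _ ≤ ∑ a ∈ Finset.range q, ∑ b ∈ Finset.range q,
          ((if a = b then (J : ℝ) else 0) + 2 / ‖u a b - 1‖) := by
        refine (norm_sum_le _ _).trans (Finset.sum_le_sum fun a _ => ?_)
        refine (norm_sum_le _ _).trans (Finset.sum_le_sum fun b _ => ?_)
        by_cases hab : a = b
        · rw [if_pos hab]
          have h3 : ‖∑ j ∈ Finset.range J, (u a b) ^ j‖ ≤ J := by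
            refine (norm_sum_le _ _).trans ?_
            simp [hun]
          have h4 : 0 ≤ 2 / ‖u a b - 1‖ := by positivity
          linarith
        · rw [if_neg hab, zero_add]
          exact norm_geom _ (hun a b) (hu1 a b hab) J
    _ = J * q + ∑ a ∈ Finset.range q, ∑ b ∈ Finset.range q, 2 / ‖u a b - 1‖ := by
        simp only [Finset.sum_add_distrib]
        congr 1
        have h5 : ∀ a ∈ Finset.range q,
            (∑ b ∈ Finset.range q, if a = b then (J : ℝ) else 0) = J := by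
          intro a ha
          rw [Finset.sum_ite_eq, if_pos ha]
        rw [Finset.sum_congr rfl h5]
        simp [mul_comm]

theorem norm_pow_sub_one_le (w : ℂ) (hw : ‖w‖ = 1) (a : ℕ) : ‖w ^ a - 1‖ ≤ a * ‖w - 1‖ := by
  induction a with
  | zero => simp
  | succ a ih =>
    have h : w ^ (a + 1) - 1 = w ^ a * (w - 1) + (w ^ a - 1) := by ring
    rw [h]
    refine (norm_add_le _ _).trans ?_
    rw [norm_mul, norm_pow, hw, one_pow, one_mul]
    push_cast
    linarith

theorem large (q : ℕ) (c : ℝ) (hq : 0 < q) (hc : c * (4 * q) = 1) (w : ℂ) (hw : ‖w‖ = 1)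
    (h : ‖w - 1‖ < c) : 3 / 4 * q ≤ ‖∑ a ∈ Finset.range q, w ^ a‖ := by
  have h1 : ‖∑ a ∈ Finset.range q, (1 - w ^ a)‖ ≤ q / 4 := by
    refine (norm_sum_le _ _).trans ?_
    have h2 : ∀ a ∈ Finset.range q, ‖1 - w ^ a‖ ≤ 1 / 4 := by
      intro a ha
      rw [norm_sub_rev]
      refine (norm_pow_sub_one_le w hw a).trans ?_
      have h3 : (a : ℝ) ≤ q := by exact_mod_cast (Finset.mem_range.mp ha).le
      have hq' : (0 : ℝ) < q := by exact_mod_cast hq
      have h4 : (a : ℝ) * ‖w - 1‖ ≤ q * c := by gcongr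
      nlinarith
    refine (Finset.sum_le_sum h2).trans ?_
    simp; linarith
  have h2 : (q : ℂ) = ∑ a ∈ Finset.range q, w ^ a + ∑ a ∈ Finset.range q, (1 - w ^ a) := by
    rw [← Finset.sum_add_distrib]; simp
  have h3 : (q : ℝ) ≤ ‖∑ a ∈ Finset.range q, w ^ a‖ + ‖∑ a ∈ Finset.range q, (1 - w ^ a)‖ := by
    have h4 := norm_add_le (∑ a ∈ Finset.range q, w ^ a) (∑ a ∈ Finset.range q, (1 - w ^ a))
    rw [← h2] at h4
    simpa using h4
  linarith

end ANGM

open ANGM in
theorem specAng : SpecAng := by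
  intro n
  set q : ℕ := 4 * n + 1 with hqdef
  have hq : 0 < q := Nat.succ_pos _
  have hqR : (0 : ℝ) < q := by exact_mod_cast hq
  refine ⟨1 / (4 * q), by positivity, fun z hz h1 j₀ => ?_⟩
  set c : ℝ := 1 / (4 * q) with hc
  have hc' : c * (4 * q) = 1 := by rw [hc]; field_simp
  have hm : ∀ i, ∃ C : ℝ, 0 ≤ C ∧ ∀ J : ℕ,
      ∑ j ∈ Finset.range J, ‖∑ a ∈ Finset.range q, (z i ^ j) ^ a‖ ^ 2 ≤ J * q + C :=
    fun i => mean q (z i) (hz i) (h1 i)
  choose C hC0 hC using hm
  by_contra hcon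
  push Not at hcon
  -- bad sets
  have hcard : ∀ (J : ℕ) (i : Fin n),
      (((Finset.range J).filter fun j => ‖z i ^ j - 1‖ < c).card : ℝ) * (9 / 16 * q ^ 2) ≤
        J * q + C i := by
    intro J i
    refine le_trans ?_ (hC i J)
    calc (((Finset.range J).filter fun j => ‖z i ^ j - 1‖ < c).card : ℝ) * (9 / 16 * q ^ 2)
        = ∑ _j ∈ (Finset.range J).filter (fun j => ‖z i ^ j - 1‖ < c), (9 / 16 * q ^ 2 : ℝ) := by
          simp
      _ ≤ ∑ j ∈ (Finset.range J).filter (fun j => ‖z i ^ j - 1‖ < c),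
            ‖∑ a ∈ Finset.range q, (z i ^ j) ^ a‖ ^ 2 := by
          refine Finset.sum_le_sum fun j hj => ?_
          have h2 := large q c hq hc' (z i ^ j) (by rw [norm_pow, hz i, one_pow])
            (Finset.mem_filter.mp hj).2
          nlinarith
      _ ≤ _ := Finset.sum_le_sum_of_subset_of_nonneg (Finset.filter_subset _ _)
            (fun _ _ _ => by positivity)
  -- a large J
  obtain ⟨J, hJ⟩ := exists_nat_gt (max (j₀ : ℝ) (9 * (j₀ + ∑ i, C i)))
  have hJ1 : (j₀ : ℝ) < J := (le_max_left _ _).trans_lt hJ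
  have hJ2 : 9 * (j₀ + ∑ i, C i) < J := (le_max_right _ _).trans_lt hJ
  have hcover : (Finset.Ico j₀ J) ⊆
      Finset.univ.biUnion fun i : Fin n => (Finset.range J).filter fun j => ‖z i ^ j - 1‖ < c := by
    intro j hj
    rw [Finset.mem_Ico] at hj
    obtain ⟨i, hi⟩ := hcon j hj.1
    simp only [Finset.mem_biUnion, Finset.mem_filter, Finset.mem_range, Finset.mem_univ, true_and]
    exact ⟨i, hj.2, hi⟩
  have h2 := (Finset.card_le_card hcover).trans Finset.card_biUnion_le
  rw [Nat.card_Ico] at h2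
  have h3 : (J : ℝ) - j₀ ≤
      ∑ i : Fin n, (((Finset.range J).filter fun j => ‖z i ^ j - 1‖ < c).card : ℝ) := by
    have h4 : j₀ ≤ J := by exact_mod_cast hJ1.le
    have h5 : ((J - j₀ : ℕ) : ℝ) ≤
        ((∑ i : Fin n, ((Finset.range J).filter fun j => ‖z i ^ j - 1‖ < c).card : ℕ) : ℝ) := by
      exact_mod_cast h2
    rw [Nat.cast_sub h4] at h5
    push_cast at h5
    exact h5
  have h4 : ((J : ℝ) - j₀) * (9 / 16 * q ^ 2) ≤ n * (J * q) + ∑ i, C i := by
    calc ((J : ℝ) - j₀) * (9 / 16 * q ^ 2) ≤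
        (∑ i : Fin n, (((Finset.range J).filter fun j => ‖z i ^ j - 1‖ < c).card : ℝ)) *
          (9 / 16 * q ^ 2) := by gcongr
      _ = ∑ i : Fin n, (((Finset.range J).filter fun j => ‖z i ^ j - 1‖ < c).card : ℝ) *
          (9 / 16 * q ^ 2) := by rw [Finset.sum_mul]
      _ ≤ ∑ i : Fin n, (J * q + C i) := Finset.sum_le_sum fun i _ => hcard J i
      _ = _ := by rw [Finset.sum_add_distrib]; simp
  have hCs : 0 ≤ ∑ i, C i := Finset.sum_nonneg fun i _ => hC0 i
  have hq1 : (1 : ℝ) ≤ q := by exact_mod_cast hq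
  have hqn : (q : ℝ) = 4 * n + 1 := by rw [hqdef]; push_cast; ring
  have hJ0 : (0 : ℝ) ≤ J := Nat.cast_nonneg _
  have hj0 : (0 : ℝ) ≤ j₀ := Nat.cast_nonneg _
  -- n q ≤ q^2/4
  have h5 : (n : ℝ) * (J * q) ≤ J * q ^ 2 / 4 := by
    have h6 : (n : ℝ) ≤ q / 4 := by rw [hqn]; linarith
    calc (n : ℝ) * (J * q) ≤ q / 4 * (J * q) := by gcongr
      _ = J * q ^ 2 / 4 := by ring
  have h6 : ∑ i, C i ≤ (∑ i, C i) * q ^ 2 := by
    have : (1 : ℝ) ≤ (q : ℝ) ^ 2 := one_le_pow₀ hq1
    nlinarith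
  have h7 : ((J : ℝ) - j₀) * (9 / 16) * q ^ 2 ≤ (J / 4 + ∑ i, C i) * q ^ 2 := by
    calc ((J : ℝ) - j₀) * (9 / 16) * q ^ 2 = ((J : ℝ) - j₀) * (9 / 16 * q ^ 2) := by ring
      _ ≤ n * (J * q) + ∑ i, C i := h4
      _ ≤ J * q ^ 2 / 4 + (∑ i, C i) * q ^ 2 := add_le_add h5 h6
      _ = _ := by ring
  have h8 := le_of_mul_le_mul_right h7 (by positivity)
  linarith

end Pool.Agent.Lib.MP_78b700_nt.HV
end

section
/-!
# CHB: characters attached to a quadratic extension
-/
set_option autoImplicit false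

open IsDedekindDomain NumberField Polynomial

namespace Pool.Agent.Lib.MP_78b700_nt.HV

namespace CHBM

section

variable {F L : Type} [Field F] [Field L] [Algebra F L] {f : F[X]}

/-- automorphisms permute the zeros -/
def act (g : L ≃ₐ[F] L) (θ : f.rootSet L) : f.rootSet L :=
  ⟨g θ, by
    have h := mem_rootSet.1 θ.2
    refine mem_rootSet.2 ⟨h.1, ?_⟩
    have h2 := aeval_algHom_apply (g : L →ₐ[F] L) (θ : L) f
    rw [h.2, map_zero] at h2
    exact h2⟩

theorem act_coe (g : L ≃ₐ[F] L) (θ : f.rootSet L) : ((act g θ : f.rootSet L) : L) = g θ := rfl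

theorem act_eq_iff {g : L ≃ₐ[F] L} {θ θ' : f.rootSet L} : act g θ = θ' ↔ g θ = θ' :=
  Subtype.ext_iff

end

section

variable {F L : Type} [Field F] [NumberField F] [Field L] [NumberField L] [Algebra F L]
  {f : F[X]} (G H : Subgroup (L ≃ₐ[F] L))

open Classical in
/-- the sign of `g` -/
noncomputable def sgn (g : L ≃ₐ[F] L) : ℤ := if g ∈ H then 1 else -1

variable {G H}

theorem sgn_mul (hidx : H.relIndex G = 2) {a b : L ≃ₐ[F] L} (ha : a ∈ G) (hb : b ∈ G) :
    sgn H (a * b) = sgn H a * sgn H b := by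
  have h := Subgroup.mul_mem_iff_of_index_two (H := H.subgroupOf G) hidx (a := ⟨a, ha⟩)
    (b := ⟨b, hb⟩)
  simp only [Subgroup.mem_subgroupOf, Subgroup.coe_mul] at h
  unfold sgn
  by_cases h1 : a ∈ H <;> by_cases h2 : b ∈ H <;> simp [h, h1, h2]

variable (G H)

open Classical in
/-- the character attached to a zero -/
noncomputable def chr (θ₀ θ : f.rootSet L) : ℤ :=
  ∑ g : L ≃ₐ[F] L, if g ∈ G ∧ act g θ₀ = θ then sgn H g else 0

variable {G H}

theorem chr_act (hidx : H.relIndex G = 2) {g : L ≃ₐ[F] L} (hg : g ∈ G) (θ₀ θ : f.rootSet L) :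
    chr G H θ₀ (act g θ) = sgn H g * chr G H θ₀ θ := by
  classical
  unfold chr
  rw [Finset.mul_sum]
  refine (Fintype.sum_equiv (Equiv.mulLeft g) _ _ fun x => ?_).symm
  simp only [Equiv.coe_mulLeft]
  by_cases hx : x ∈ G
  · by_cases hθ : act x θ₀ = θ
    · rw [if_pos ⟨hx, hθ⟩, if_pos ⟨G.mul_mem hg hx, by rw [← hθ]; rfl⟩, sgn_mul hidx hg hx]
    · rw [if_neg (fun h => hθ h.2), if_neg, mul_zero]
      rintro ⟨-, h⟩
      refine hθ (Subtype.ext ?_)
      have h2 := congrArg Subtype.val h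
      exact g.injective h2
  · rw [if_neg (fun h => hx h.1), if_neg, mul_zero]
    rintro ⟨h, -⟩
    exact hx ((G.mul_mem_cancel_left hg).1 h)

theorem sum_chr (hidx : H.relIndex G = 2) {g : L ≃ₐ[F] L} (hg : g ∈ G) (hgH : g ∉ H)
    (θ₀ : f.rootSet L) : ∑ θ, chr G H θ₀ θ = 0 := by
  classical
  have h1 : ∑ θ, chr G H θ₀ (act g θ) = ∑ θ, chr G H θ₀ θ := by
    have hb : Function.Bijective (act g : f.rootSet L → f.rootSet L) := by
      refine (Finite.injective_iff_bijective).1 fun a b hab => ?_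
      exact Subtype.ext (g.injective (congrArg Subtype.val hab))
    exact Fintype.sum_bijective _ hb _ _ fun _ => rfl
  have h2 : ∑ θ, chr G H θ₀ (act g θ) = - ∑ θ, chr G H θ₀ θ := by
    rw [← Finset.sum_neg_distrib]
    refine Finset.sum_congr rfl fun θ _ => ?_
    rw [chr_act hidx hg, sgn, if_neg hgH, neg_one_mul]
  omega

theorem isChar_chr {k K : IntermediateField F L}
    (hidx : K.fixingSubgroup.relIndex k.fixingSubgroup = 2) (θ₀ : f.rootSet L) :
    IsChar f k.fixingSubgroup K.fixingSubgroup (chr k.fixingSubgroup K.fixingSubgroup θ₀) := by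
  obtain ⟨g₀, hg₀, hg₀'⟩ : ∃ g ∈ k.fixingSubgroup, g ∉ K.fixingSubgroup := by
    by_contra hcon
    push Not at hcon
    rw [Subgroup.relIndex_eq_one.2 (show k.fixingSubgroup ≤ K.fixingSubgroup from hcon)] at hidx
    omega
  refine ⟨sum_chr hidx hg₀ hg₀' θ₀, fun g hg θ θ' h => ?_⟩
  obtain rfl : act g θ = θ' := Subtype.ext h
  rw [chr_act hidx hg]
  constructor
  · intro hH
    rw [sgn, if_pos hH, one_mul]
  · intro hH
    rw [sgn, if_neg hH, neg_one_mul]

end

end CHBM

open CHBM in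
theorem specChb : SpecChb := by
  classical
  intro F L _ _ _ _ _ _ f k K r hf hkK hfin hcard
  have hle : K.fixingSubgroup ≤ k.fixingSubgroup := IntermediateField.fixingSubgroup_le hkK
  have hidx : K.fixingSubgroup.relIndex k.fixingSubgroup = 2 := by
    have h1 := IsGalois.card_fixingSubgroup_eq_finrank (F := F) (E := L) k
    have h2 := IsGalois.card_fixingSubgroup_eq_finrank (F := F) (E := L) K
    have h3 := IntermediateField.relfinrank_mul_finrank_top (E := L) hkK
    have h4 := Subgroup.relIndex_mul_relIndex (⊥ : Subgroup (L ≃ₐ[F] L)) K.fixingSubgroup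
      k.fixingSubgroup bot_le hle
    rw [Subgroup.relIndex_bot_left, Subgroup.relIndex_bot_left, h1, h2, ← h3, hfin] at h4
    have hpos : 0 < Module.finrank K L := Module.finrank_pos
    rw [mul_comm] at h4
    exact Nat.eq_of_mul_eq_mul_right hpos h4
  refine ⟨hle, hidx, ?_⟩
  -- zeros with different minimal polynomials
  obtain ⟨θ, hθK, hθm⟩ : ∃ θ : Fin (r + 1) → f.rootSet L,
      (∀ i, K ≤ k ⊔ IntermediateField.adjoin F {(θ i : L)}) ∧
      ∀ i j, minpoly k (θ i : L) = minpoly k (θ j : L) → i = j := by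
    obtain ⟨t, ht, htc⟩ := Set.exists_subset_card_eq hcard
    have htf : t.Finite := Set.finite_of_ncard_ne_zero (by omega)
    have : Fintype t := htf.fintype
    have hc : Fintype.card t = r + 1 := by
      rw [← htc, Set.ncard_eq_toFinset_card', Set.toFinset_card]
    let e : Fin (r + 1) ≃ t := (Fintype.equivFinOfCardEq hc).symm
    have hch : ∀ i, ∃ θ ∈ f.rootSet L, K ≤ k ⊔ IntermediateField.adjoin F {θ} ∧
        (e i : k[X]) = minpoly k θ := fun i => ht (e i).2
    choose θ h1 h2 h3 using hch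
    refine ⟨fun i => ⟨θ i, h1 i⟩, h2, fun i j hij => ?_⟩
    apply e.injective
    apply Subtype.ext
    rw [h3, h3]
    exact hij
  set G := k.fixingSubgroup with hG
  set H := K.fixingSubgroup with hH
  have hoff : ∀ i j, i ≠ j → chr G H (θ i) (θ j) = 0 := by
    intro i j hij
    unfold chr
    refine Finset.sum_eq_zero fun g _ => if_neg ?_
    rintro ⟨hg, h⟩
    refine hij (hθm i j ?_)
    rw [← act_eq_iff.1 h]
    let g' : L ≃ₐ[k] L := AlgEquiv.ofRingEquiv (f := g.toRingEquiv)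
      fun x => (IntermediateField.mem_fixingSubgroup_iff k g).1 hg x x.2
    exact (minpoly.algEquiv_eq g' (θ i : L)).symm
  have hdiag : ∀ i, 0 < chr G H (θ i) (θ i) := by
    intro i
    unfold chr
    have hnn : ∀ g : L ≃ₐ[F] L, 0 ≤ (if g ∈ G ∧ act g (θ i) = θ i then sgn H g else 0) := by
      intro g
      split_ifs with h
      · obtain ⟨hg, h⟩ := h
        have hgH : g ∈ H := by
          rw [hH, IntermediateField.mem_fixingSubgroup_iff]
          intro x hx
          have h1 : k ⊔ IntermediateField.adjoin F {(θ i : L)} ≤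
              IntermediateField.fixedField (Subgroup.zpowers g) := by
            refine sup_le ?_ (IntermediateField.adjoin_le_iff.2 ?_)
            · rw [IntermediateField.le_iff_le, Subgroup.zpowers_le]
              exact hg
            · rw [Set.singleton_subset_iff]
              have h2 : g • (θ i : L) = (θ i : L) := act_eq_iff.1 h
              rintro ⟨y, n, rfl⟩
              change g ^ n • (θ i : L) = (θ i : L)
              have h3 : g ∈ MulAction.stabilizer (L ≃ₐ[F] L) (θ i : L) := h2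
              exact Subgroup.zpow_mem _ h3 n
          have h2 := h1 (hθK i hx)
          exact h2 ⟨g, Subgroup.mem_zpowers g⟩
        rw [sgn, if_pos hgH]
        exact zero_le_one
      · exact le_rfl
    refine Finset.sum_pos' (fun g _ => hnn g) ⟨1, Finset.mem_univ _, ?_⟩
    rw [if_pos ⟨G.one_mem, Subtype.ext rfl⟩, sgn, if_pos H.one_mem]
    exact one_pos
  refine ⟨fun i => chr G H (θ i), ?_, fun i => isChar_chr hidx (θ i)⟩
  rw [Fintype.linearIndependent_iff]
  intro a ha j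
  have h1 := congrFun ha (θ j)
  simp only [Finset.sum_apply, Pi.smul_apply, smul_eq_mul, Pi.zero_apply] at h1
  rw [Finset.sum_eq_single j (fun i _ hij => by rw [hoff i j hij, mul_zero])
    (fun h => absurd (Finset.mem_univ j) h)] at h1
  rcases mul_eq_zero.1 h1 with h2 | h2
  · exact h2
  · exact absurd h2 (hdiag j).ne'

end Pool.Agent.Lib.MP_78b700_nt.HV
end

section
/-!
# CHE: primes which have few primes of degree one above them in several extensions
-/
set_option autoImplicit false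

open IsDedekindDomain NumberField

namespace Pool.Agent.Lib.MP_78b700_nt.HV

namespace CHEM

theorem finite_deg1 (M N : Type) [Field M] [NumberField M] [Field N] [NumberField N] [Algebra M N]
    (W : HeightOneSpectrum (𝓞 M)) : (deg1 M N W).Finite := by
  refine (Ring.HasFiniteQuotients.finite_absNorm_heightOneSpectrum_le (R := 𝓞 N)
    (Ideal.absNorm W.asIdeal)).subset ?_
  rintro W' ⟨-, h⟩
  exact h.le

end CHEM

open CHEM in
theorem specChe (hU : SpecZub) (hL : SpecZlb) : SpecChe := by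
  classical
  intro M _ _ J _ N _ _ _ c hc hsum T
  by_contra hcon
  push Not at hcon
  obtain ⟨C, hC⟩ := hL M
  choose D hD using fun j => hU (N j)
  -- the finite set of primes above
  set σ : ℝ := ∑ j, (1 : ℝ) / c j with hσ
  have key : ∀ X : ℝ, 0 ≤ X → X - C ≤ T.card + (σ * X + ∑ j, (1 : ℝ) / c j * D j) := by
    intro X hX
    set s : ℝ := 1 + Real.exp (-X) with hs
    have hs1 : 1 < s := by
      have := Real.exp_pos (-X)
      rw [hs]
      linarith
    have hs2 : s ≤ 2 := by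
      have : Real.exp (-X) ≤ 1 := Real.exp_le_one_iff.2 (by linarith)
      rw [hs]
      linarith
    have hlog : Real.log (1 / (s - 1)) = X := by
      rw [hs, add_sub_cancel_left, one_div, ← Real.exp_neg, neg_neg, Real.log_exp]
    obtain ⟨𝒲, h𝒲⟩ := hC s hs1 hs2
    rw [hlog] at h𝒲
    refine h𝒲.trans ?_
    rw [← Finset.sum_filter_add_sum_filter_not 𝒲 (· ∈ T)]
    have hle1 : ∀ W : HeightOneSpectrum (𝓞 M), (Ideal.absNorm W.asIdeal : ℝ) ^ (-s) ≤ 1 := by
      intro W
      refine Real.rpow_le_one_of_one_le_of_nonpos ?_ (by linarith)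
      exact_mod_cast (HeightOneSpectrum.one_lt_absNorm W).le
    refine add_le_add ?_ ?_
    · calc ∑ W ∈ 𝒲 with W ∈ T, (Ideal.absNorm W.asIdeal : ℝ) ^ (-s)
          ≤ ∑ W ∈ 𝒲 with W ∈ T, (1 : ℝ) := Finset.sum_le_sum fun W _ => hle1 W
        _ = ((𝒲.filter (· ∈ T)).card : ℝ) := by simp
        _ ≤ T.card := by
          exact_mod_cast Finset.card_le_card fun W hW => (Finset.mem_filter.1 hW).2
    · have h1 : ∀ W ∈ 𝒲.filter (fun W => W ∉ T), (Ideal.absNorm W.asIdeal : ℝ) ^ (-s) ≤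
          ∑ j, (1 : ℝ) / c j * ∑ W' ∈ (finite_deg1 M (N j) W).toFinset,
            (Ideal.absNorm W'.asIdeal : ℝ) ^ (-s) := by
        intro W hW
        obtain ⟨j, hj⟩ := hcon W (Finset.mem_filter.1 hW).2
        have hpos : (0 : ℝ) ≤ (Ideal.absNorm W.asIdeal : ℝ) ^ (-s) :=
          Real.rpow_nonneg (Nat.cast_nonneg _) _
        have h2 : ∀ i, ∑ W' ∈ (finite_deg1 M (N i) W).toFinset,
            (Ideal.absNorm W'.asIdeal : ℝ) ^ (-s) =
            (deg1 M (N i) W).ncard * (Ideal.absNorm W.asIdeal : ℝ) ^ (-s) := by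
          intro i
          rw [Set.ncard_eq_toFinset_card _ (finite_deg1 M (N i) W), ← nsmul_eq_mul,
            ← Finset.sum_const]
          refine Finset.sum_congr rfl fun W' hW' => ?_
          rw [Set.Finite.mem_toFinset] at hW'
          rw [hW'.2]
        have hcj : (0 : ℝ) < c j := by exact_mod_cast hc j
        have h3 : (Ideal.absNorm W.asIdeal : ℝ) ^ (-s) ≤
            (1 : ℝ) / c j * ∑ W' ∈ (finite_deg1 M (N j) W).toFinset,
            (Ideal.absNorm W'.asIdeal : ℝ) ^ (-s) := by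
          rw [h2 j, ← mul_assoc]
          refine le_mul_of_one_le_left hpos ?_
          rw [one_div, ← div_eq_inv_mul, one_le_div hcj]
          exact_mod_cast hj
        refine h3.trans (Finset.single_le_sum (f := fun i => (1 : ℝ) / c i *
          ∑ W' ∈ (finite_deg1 M (N i) W).toFinset, (Ideal.absNorm W'.asIdeal : ℝ) ^ (-s))
          (fun i _ => ?_) (Finset.mem_univ j))
        exact mul_nonneg (by positivity)
          (Finset.sum_nonneg fun W' _ => Real.rpow_nonneg (Nat.cast_nonneg _) _)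
      refine (Finset.sum_le_sum h1).trans ?_
      rw [Finset.sum_comm, Finset.sum_mul, ← Finset.sum_add_distrib]
      refine Finset.sum_le_sum fun j _ => ?_
      rw [← Finset.mul_sum, ← mul_add]
      refine mul_le_mul_of_nonneg_left ?_ (by positivity)
      rw [← Finset.sum_biUnion]
      · have h4 := hD j s hs1 hs2
          ((𝒲.filter (fun W => W ∉ T)).biUnion fun W => (finite_deg1 M (N j) W).toFinset)
        rwa [hlog] at h4
      · intro W _ W' _ hne
        refine Finset.disjoint_left.2 fun V hV hV' => hne ?_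
        rw [Set.Finite.mem_toFinset] at hV hV'
        exact HeightOneSpectrum.ext (hV.1.symm.trans hV'.1)
  have hσ1 : 0 < 1 - σ := by linarith
  have h := key (max 0 ((C + T.card + ∑ j, (1 : ℝ) / c j * D j + 1) / (1 - σ))) (le_max_left _ _)
  have h2 := le_max_right 0 ((C + T.card + ∑ j, (1 : ℝ) / c j * D j + 1) / (1 - σ))
  set X := max 0 ((C + T.card + ∑ j, (1 : ℝ) / c j * D j + 1) / (1 - σ))
  rw [div_le_iff₀ hσ1] at h2
  nlinarith

end Pool.Agent.Lib.MP_78b700_nt.HV
end

section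
/-!
# EXTV: extension of primes
-/
set_option autoImplicit false

open IsDedekindDomain NumberField Polynomial

namespace Pool.Agent.Lib.MP_78b700_nt.HV

namespace EXTVM

variable {L E : Type} [Field L] [NumberField L] [Field E] [NumberField E] [Algebra L E]

/-- comparison of absolute values -/
theorem fabs_le_iff (v : HeightOneSpectrum (𝓞 L)) (x y : L) :
    fabs v x ≤ fabs v y ↔ v.valuation L x ≤ v.valuation L y := by
  rw [fabs, NumberField.HeightOneSpectrum.adicAbv_def,
    NumberField.HeightOneSpectrum.adicAbv_def, NNReal.coe_le_coe]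
  exact (WithZeroMulInt.toNNReal_strictMono
    (HeightOneSpectrum.one_lt_absNorm_nnreal v)).le_iff_le

theorem cmp (w : HeightOneSpectrum (𝓞 E)) (v : HeightOneSpectrum (𝓞 L))
    (h : w.asIdeal.under (𝓞 L) = v.asIdeal) (x y : L) :
    fabs w (algebraMap L E x) ≤ fabs w (algebraMap L E y) ↔ fabs v x ≤ fabs v y := by
  have : w.asIdeal.LiesOver v.asIdeal := ⟨h.symm⟩
  have hn : v.asIdeal.ramificationIdx' w.asIdeal ≠ 0 :=
    Ideal.IsDedekindDomain.ramificationIdx'_ne_zero_of_liesOver w.asIdeal v.ne_bot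
  rw [fabs_le_iff, fabs_le_iff, ← HeightOneSpectrum.valuation_liesOver E v w,
    ← HeightOneSpectrum.valuation_liesOver E v w]
  exact pow_le_pow_iff_left₀ zero_le zero_le hn

omit [NumberField L] [NumberField E] in
theorem exists_below (w : HeightOneSpectrum (𝓞 E)) : ∃ v : HeightOneSpectrum (𝓞 L),
    w.asIdeal.under (𝓞 L) = v.asIdeal := by
  have := w.isPrime
  refine ⟨⟨w.asIdeal.under (𝓞 L), Ideal.comap_isPrime _ _, ?_⟩, rfl⟩
  exact Ideal.under_ne_bot _ w.ne_bot

omit [NumberField E] in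
theorem exists_above (v : HeightOneSpectrum (𝓞 L)) : ∃ w : HeightOneSpectrum (𝓞 E),
    w.asIdeal.under (𝓞 L) = v.asIdeal := by
  have := v.isPrime
  obtain ⟨P, hP, hPl⟩ := Ideal.exists_maximal_ideal_liesOver_of_isIntegral (S := 𝓞 E) v.asIdeal
  refine ⟨⟨P, hP.isPrime, ?_⟩, hPl.over.symm⟩
  rintro rfl
  apply v.ne_bot
  rw [hPl.over, Ideal.under_bot]

/-- comparison with one -/
theorem eq_one (w : HeightOneSpectrum (𝓞 E)) (v : HeightOneSpectrum (𝓞 L))
    (h : w.asIdeal.under (𝓞 L) = v.asIdeal) (x : L) :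
    fabs w (algebraMap L E x) = 1 ↔ fabs v x = 1 := by
  have h1 := cmp w v h x 1
  have h2 := cmp w v h 1 x
  rw [map_one, map_one, map_one] at h1 h2
  rw [le_antisymm_iff, le_antisymm_iff, h1, h2]

/-- transfer of closeness at one prime -/
theorem near_at (w : HeightOneSpectrum (𝓞 E)) (v : HeightOneSpectrum (𝓞 L))
    (h : w.asIdeal.under (𝓞 L) = v.asIdeal) (k : ℕ) (a b : L) :
    (fabs w (algebraMap L E a / algebraMap L E b) = 1 ∧
      fabs w (algebraMap L E a / algebraMap L E b - 1) ≤ fabs w ((k.factorial : ℕ) : E)) ↔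
    (fabs v (a / b) = 1 ∧ fabs v (a / b - 1) ≤ fabs v ((k.factorial : ℕ) : L)) := by
  have e1 : algebraMap L E a / algebraMap L E b = algebraMap L E (a / b) := by rw [map_div₀]
  have e2 : algebraMap L E (a / b) - 1 = algebraMap L E (a / b - 1) := by rw [map_sub, map_one]
  have e3 : ((k.factorial : ℕ) : E) = algebraMap L E ((k.factorial : ℕ) : L) := by
    rw [map_natCast]
  rw [e1, e2, e3, eq_one w v h, cmp w v h]

end EXTVM

theorem specExtv : SpecExtv := by
  intro L E _ _ _ _ _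
  refine ⟨EXTVM.cmp, EXTVM.exists_below, EXTVM.exists_above, fun S k a b => ?_⟩
  constructor
  · rintro ⟨ha, hb, h⟩
    refine ⟨fun h0 => ha (by rw [h0, map_zero]), fun h0 => hb (by rw [h0, map_zero]),
      fun v hv => ?_⟩
    obtain ⟨w, hw⟩ := EXTVM.exists_above (E := E) v
    refine (EXTVM.near_at w v hw k a b).1 (h w ?_)
    rw [mem_above]
    rintro ⟨v', hv', hw'⟩
    have : v' = v := HeightOneSpectrum.ext (hw'.symm.trans hw)
    exact hv (this ▸ hv')
  · rintro ⟨ha, hb, h⟩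
    refine ⟨fun h0 => ha ((map_eq_zero (algebraMap L E)).1 h0),
      fun h0 => hb ((map_eq_zero (algebraMap L E)).1 h0), fun w hw => ?_⟩
    obtain ⟨v, hv⟩ := EXTVM.exists_below (L := L) w
    refine (EXTVM.near_at w v hv k a b).2 (h v fun hvS => hw ?_)
    rw [mem_above]
    exact ⟨v, hvS, hv⟩

end Pool.Agent.Lib.MP_78b700_nt.HV
end

section
/-!
# From approximations of a point by a global point to the point
-/
set_option autoImplicit false

open IsDedekindDomain NumberField Polynomial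
open scoped RestrictedProduct

namespace Pool.Agent.Lib.MP_78b700_nt.HV

theorem specFna : SpecFna := by
  intro F L _ _ _ _ _ f S p t happ a b hne hnear
  -- the components are proportional
  have key : ∀ (v : {v : HeightOneSpectrum (𝓞 L) // v ∉ above L S}) (θ θ' : f.rootSet L),
      (((algebraMap F L a - θ * algebraMap F L b) / (algebraMap F L a - θ' * algebraMap F L b) : L) :
        v.1.adicCompletion L) * (p θ').1 v = (p θ).1 v := by
    intro v θ θ'
    set c : L := (algebraMap F L a - θ * algebraMap F L b) /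
      (algebraMap F L a - θ' * algebraMap F L b) with hc
    by_contra hcon
    have hpos : 0 < ‖((c : L) : v.1.adicCompletion L) * (p θ').1 v - (p θ).1 v‖ :=
      norm_pos_iff.2 (sub_ne_zero.2 hcon)
    set B : ℝ := fabs v.1 c * ‖(p θ').1 v‖ + ‖(p θ).1 v‖ + 1 with hB
    have hB0 : 0 < B := by
      have h1 := (fabs v.1).nonneg c
      positivity
    obtain ⟨k, hk⟩ := exists_factorial_lt v.1 (div_pos hpos hB0)
    have hk := hk k le_rfl
    rw [lt_div_iff₀ hB0] at hk
    set z : L := (t k θ : L) / t k θ' with hz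
    have e1 : ((c : L) : v.1.adicCompletion L) * (p θ').1 v - (p θ).1 v =
        (((c - z : L)) : v.1.adicCompletion L) * (p θ').1 v +
          (((z : L) : v.1.adicCompletion L) * (p θ').1 v - (p θ).1 v) := by
      have : (((c - z : L)) : v.1.adicCompletion L) =
          ((c : L) : v.1.adicCompletion L) - ((z : L) : v.1.adicCompletion L) :=
        map_sub (algebraMap L (v.1.adicCompletion L)) c z
      rw [this]
      ring
    obtain ⟨hz0, hc0, hn⟩ := hnear k θ θ'
    have hn2 := (hn v.1 v.2).2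
    have h1 : ‖(((c - z : L)) : v.1.adicCompletion L) * (p θ').1 v‖ ≤
        fabs v.1 ((k.factorial : ℕ) : L) * (fabs v.1 c * ‖(p θ').1 v‖) := by
      rw [norm_mul, norm_coe_eq]
      have e2 : c - z = -(c * (z / c - 1)) := by
        have hc00 : c ≠ 0 := hc0
        field_simp
        ring
      rw [e2, map_neg_eq_map, map_mul]
      calc fabs v.1 c * fabs v.1 (z / c - 1) * ‖(p θ').1 v‖
          ≤ fabs v.1 c * fabs v.1 ((k.factorial : ℕ) : L) * ‖(p θ').1 v‖ := by
            gcongr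
        _ = _ := by ring
    have h2 : ‖((z : L) : v.1.adicCompletion L) * (p θ').1 v - (p θ).1 v‖ ≤
        fabs v.1 ((k.factorial : ℕ) : L) * ‖(p θ).1 v‖ := happ k v θ θ'
    have h3 := norm_add_le_max' v.1
      ((((c - z : L)) : v.1.adicCompletion L) * (p θ').1 v)
      (((z : L) : v.1.adicCompletion L) * (p θ').1 v - (p θ).1 v)
    rw [← e1] at h3
    have hk0 : 0 ≤ fabs v.1 ((k.factorial : ℕ) : L) := (fabs v.1).nonneg _
    have hc1 : 0 ≤ fabs v.1 c * ‖(p θ').1 v‖ := mul_nonneg ((fabs v.1).nonneg _) (norm_nonneg _)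
    have h4 : max ‖(((c - z : L)) : v.1.adicCompletion L) * (p θ').1 v‖
        ‖((z : L) : v.1.adicCompletion L) * (p θ').1 v - (p θ).1 v‖ ≤
        fabs v.1 ((k.factorial : ℕ) : L) * B := by
      refine max_le (h1.trans ?_) (h2.trans ?_)
      · refine mul_le_mul_of_nonneg_left ?_ hk0
        rw [hB]
        have := norm_nonneg ((p θ).1 v)
        linarith
      · refine mul_le_mul_of_nonneg_left ?_ hk0
        rw [hB]
        linarith
    linarith
  by_cases hemp : IsEmpty (f.rootSet L)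
  · exact ⟨1, a, b, fun θ => (hemp.false θ).elim⟩
  · rw [not_isEmpty_iff] at hemp
    obtain ⟨θ₀⟩ := hemp
    refine ⟨p θ₀ * (Units.map (diag L (above L S) : L →* Ad L S) (Units.mk0 _ (hne θ₀)))⁻¹, a, b,
      fun θ => ?_⟩
    rw [Units.val_mul, ← map_inv, mul_assoc]
    have e1 : ((Units.map (diag L (above L S) : L →* Ad L S)
        (Units.mk0 _ (hne θ₀))⁻¹ : (Ad L S)ˣ) : Ad L S) *
        diag L (above L S) (algebraMap F L a - θ * algebraMap F L b) =
        diag L (above L S) ((algebraMap F L a - θ * algebraMap F L b) /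
          (algebraMap F L a - θ₀ * algebraMap F L b)) := by
      rw [div_eq_mul_inv, mul_comm (algebraMap F L a - θ * algebraMap F L b), map_mul]
      rfl
    rw [e1]
    refine RestrictedProduct.ext _ _ fun v => ?_
    have h1 := key v θ θ₀
    rw [← h1, mul_comm]
    rfl

end Pool.Agent.Lib.MP_78b700_nt.HV
end

section
/-!
# GALN: closeness is stable under automorphisms
-/
set_option autoImplicit false

open IsDedekindDomain NumberField Polynomial

namespace Pool.Agent.Lib.MP_78b700_nt.HV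

theorem specGALN (hGALV : SpecGalv) : SpecGaln := by
  intro F L _ _ _ _ _ S g k a b h
  obtain ⟨ha, hb, h⟩ := h
  refine ⟨?_, ?_, fun v hv => ?_⟩
  · exact (map_ne_zero_iff g g.injective).2 ha
  · exact (map_ne_zero_iff g g.injective).2 hb
  · obtain ⟨v', h1, -, h3, -⟩ := hGALV F L g v
    have hv' : v' ∉ above L S := fun h4 => hv ((h3 S).1 h4)
    obtain ⟨h5, h6⟩ := h v' hv'
    rw [h1] at h5 h6
    rw [map_div₀] at h5
    rw [map_sub, map_div₀, map_one] at h6
    refine ⟨h5, ?_⟩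
    rw [h1, map_natCast] at h6
    exact h6

end Pool.Agent.Lib.MP_78b700_nt.HV
end

section
/-!
# GALV: automorphisms and primes
-/
set_option autoImplicit false

open IsDedekindDomain NumberField Polynomial

namespace Pool.Agent.Lib.MP_78b700_nt.HV

namespace GALVM

variable {F L : Type} [Field F] [NumberField F] [Field L] [NumberField L] [Algebra F L]

theorem int_eq (σ : 𝓞 L ≃+* 𝓞 L) (v v' : HeightOneSpectrum (𝓞 L))
    (h : v'.asIdeal = v.asIdeal.comap σ) (x : 𝓞 L) :
    v'.intValuation x = v.intValuation (σ x) := by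
  have hpow : ∀ (n : ℕ) (x : 𝓞 L), x ∈ v'.asIdeal ^ n ↔ σ x ∈ v.asIdeal ^ n := by
    intro n x
    have : v'.asIdeal ^ n = (v.asIdeal ^ n).comap σ := by
      rw [h, ← Ideal.map_symm, ← Ideal.map_symm, Ideal.map_pow]
    rw [this, Ideal.mem_comap]
  by_cases hx : x = 0
  · subst hx
    rw [map_zero, map_zero, map_zero]
  have hx' : σ x ≠ 0 := by
    intro h0
    exact hx (σ.injective (by rw [h0, map_zero]))
  apply le_antisymm
  · rw [v.intValuation_if_neg hx', HeightOneSpectrum.intValuation_le_pow_iff_mem, hpow,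
      ← HeightOneSpectrum.intValuation_le_pow_iff_mem, v.intValuation_if_neg hx']
  · rw [v'.intValuation_if_neg hx, HeightOneSpectrum.intValuation_le_pow_iff_mem, ← hpow,
      ← HeightOneSpectrum.intValuation_le_pow_iff_mem, v'.intValuation_if_neg hx]

omit [NumberField F] in
theorem val_eq (g : L ≃ₐ[F] L) (v v' : HeightOneSpectrum (𝓞 L))
    (h : v'.asIdeal = v.asIdeal.comap (RingOfIntegers.mapRingEquiv g.toRingEquiv)) (x : L) :
    v'.valuation L x = v.valuation L (g x) := by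
  obtain ⟨a, b, hb, rfl⟩ := IsFractionRing.div_surjective (A := 𝓞 L) x
  have e : ∀ a : 𝓞 L, g (algebraMap (𝓞 L) L a) =
    algebraMap (𝓞 L) L (RingOfIntegers.mapRingEquiv g.toRingEquiv a) := fun a => rfl
  rw [map_div₀, map_div₀ g, map_div₀, e, e, HeightOneSpectrum.valuation_of_algebraMap,
    HeightOneSpectrum.valuation_of_algebraMap, HeightOneSpectrum.valuation_of_algebraMap,
    HeightOneSpectrum.valuation_of_algebraMap, int_eq _ v v' h, int_eq _ v v' h]

theorem norm_eq (σ : 𝓞 L ≃+* 𝓞 L) (v v' : HeightOneSpectrum (𝓞 L))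
    (h : v'.asIdeal = v.asIdeal.comap σ) : v'.asIdeal.absNorm = v.asIdeal.absNorm := by
  have e : v.asIdeal = v'.asIdeal.map σ := by
    rw [h]
    exact (Ideal.map_comap_of_surjective σ σ.surjective _).symm
  rw [Ideal.absNorm_apply, Ideal.absNorm_apply, Submodule.cardQuot_apply, Submodule.cardQuot_apply]
  exact Nat.card_congr (Ideal.quotientEquiv v'.asIdeal v.asIdeal σ e).toEquiv

theorem toNNReal_congr {a b : NNReal} (ha : a ≠ 0) (hb : b ≠ 0) (hab : a = b)
    (x : WithZero (Multiplicative ℤ)) :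
    WithZeroMulInt.toNNReal ha x = WithZeroMulInt.toNNReal hb x := by
  subst hab
  rfl

omit [NumberField F] in
theorem fabs_eq (g : L ≃ₐ[F] L) (v v' : HeightOneSpectrum (𝓞 L))
    (h : v'.asIdeal = v.asIdeal.comap (RingOfIntegers.mapRingEquiv g.toRingEquiv)) (x : L) :
    fabs v' x = fabs v (g x) := by
  rw [fabs, fabs, NumberField.HeightOneSpectrum.adicAbv_def,
    NumberField.HeightOneSpectrum.adicAbv_def, val_eq g v v' h]
  congr 1
  exact toNNReal_congr _ _ (by rw [norm_eq _ v v' h]) _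

end GALVM

theorem specGalv : SpecGalv := by
  intro F L _ _ _ _ _ g v
  set σ : 𝓞 L ≃+* 𝓞 L := RingOfIntegers.mapRingEquiv g.toRingEquiv with hσ
  have hne : v.asIdeal.comap σ ≠ ⊥ := by
    intro h0
    obtain ⟨x, hx, hx0⟩ := Submodule.exists_mem_ne_zero_of_ne_bot v.ne_bot
    have h1 : σ.symm x ∈ v.asIdeal.comap σ := by
      rw [Ideal.mem_comap, RingEquiv.apply_symm_apply]
      exact hx
    rw [h0, Ideal.mem_bot] at h1
    apply hx0
    rw [← σ.apply_symm_apply x, h1, map_zero]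
  have := v.isPrime
  set v' : HeightOneSpectrum (𝓞 L) := ⟨v.asIdeal.comap σ, Ideal.comap_isPrime σ _, hne⟩ with hv'
  have hI : v'.asIdeal = v.asIdeal.comap σ := rfl
  have hf : ∀ x, fabs v' x = fabs v (g x) := GALVM.fabs_eq g v v' hI
  have hu : v'.asIdeal.under (𝓞 F) = v.asIdeal.under (𝓞 F) := by
    ext x
    have e : σ (algebraMap (𝓞 F) (𝓞 L) x) = algebraMap (𝓞 F) (𝓞 L) x := by
      apply RingOfIntegers.ext
      exact g.commutes _
    show σ (algebraMap (𝓞 F) (𝓞 L) x) ∈ v.asIdeal ↔ algebraMap (𝓞 F) (𝓞 L) x ∈ v.asIdeal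
    rw [e]
  refine ⟨v', hf, hu, fun S => ?_, fun w hw => ?_⟩
  · rw [mem_above, mem_above, hu]
  · apply HeightOneSpectrum.ext
    ext x
    rw [← fabs_coe_lt_iff, ← fabs_coe_lt_iff, hw, hf]

end Pool.Agent.Lib.MP_78b700_nt.HV
end

section
/-!
# GAP: complement of the largest gap between points on a cycle
-/
set_option autoImplicit false

namespace Pool.Agent.Lib.MP_78b700_nt.HV

namespace GAPM

/-- In a finite set with `n` elements, if every point has a predecessor at a distance `d` with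
`0 < n d < m` modulo `m`, we get a contradiction. -/
theorem no_cycle (I : Type) [Fintype I] [Nonempty I] (m : ℕ) (e : I → ℤ) (σ : I → I) (d : I → ℕ)
    (hd : ∀ i, 0 < d i) (hdm : ∀ i, Fintype.card I * d i < m)
    (hdiv : ∀ i, (m : ℤ) ∣ e (σ i) - e i + d i) : False := by
  classical
  obtain ⟨i0⟩ : Nonempty I := inferInstance
  set n := Fintype.card I with hn
  have hnpos : 0 < n := Fintype.card_pos
  let s : ℕ → I := fun k => σ^[k] i0
  have hs : ∀ k, s (k + 1) = σ (s k) := fun k => Function.iterate_succ_apply' σ k i0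
  have hsum : ∀ a k, (m : ℤ) ∣ e (s (a + k)) - e (s a) + ((∑ l ∈ Finset.range k, d (s (a + l)) : ℕ) : ℤ) := by
    intro a k
    induction k with
    | zero => simp
    | succ k ih =>
      have h1 := hdiv (s (a + k))
      rw [← hs] at h1
      have h2 := dvd_add ih h1
      rw [Finset.sum_range_succ]
      push_cast at h2 ⊢
      have h3 : e (s (a + (k + 1))) - e (s a) + (∑ l ∈ Finset.range k, (d (s (a + l)) : ℤ) + (d (s (a + k)) : ℤ))
          = e (s (a + k)) - e (s a) + ∑ l ∈ Finset.range k, (d (s (a + l)) : ℤ) +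
            (e (s (a + k + 1)) - e (s (a + k)) + (d (s (a + k)) : ℤ)) := by
        rw [← add_assoc a k 1]; ring
      rw [h3]; exact h2
  have hlt : ∀ a k, 0 < k → n * (∑ l ∈ Finset.range k, d (s (a + l))) < k * m := by
    intro a k hk
    rw [Finset.mul_sum]
    calc ∑ l ∈ Finset.range k, n * d (s (a + l)) < ∑ _l ∈ Finset.range k, m :=
          Finset.sum_lt_sum_of_nonempty (by simpa using hk.ne') (fun l _ => hdm _)
      _ = k * m := by simp
  have hpos : ∀ a k, 0 < k → 0 < (∑ l ∈ Finset.range k, d (s (a + l))) := by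
    intro a k hk
    exact Finset.sum_pos (fun l _ => hd _) (by simpa using hk.ne')
  -- pigeonhole
  obtain ⟨a, b, hab, heq⟩ : ∃ a b : ℕ, a < b ∧ b ≤ n ∧ s a = s b := by
    have h1 : ¬ Function.Injective (fun k : Fin (n + 1) => s k) := by
      intro hinj
      have := Fintype.card_le_of_injective _ hinj
      simp [← hn] at this
    rw [Function.not_injective_iff] at h1
    obtain ⟨a, b, hab, hne⟩ := h1
    rcases lt_or_gt_of_ne (fun h => hne (Fin.ext h) : (a : ℕ) ≠ b) with h | h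
    · exact ⟨a, b, h, Nat.lt_succ_iff.mp b.2, hab⟩
    · exact ⟨b, a, h, Nat.lt_succ_iff.mp a.2, hab.symm⟩
  obtain ⟨hbn, heq⟩ := heq
  obtain ⟨k, rfl⟩ := Nat.exists_eq_add_of_lt hab
  have hk : 0 < k + 1 := Nat.succ_pos k
  have h1 := hsum a (k + 1)
  rw [← add_assoc, ← heq, sub_self, zero_add] at h1
  have h2 : m ∣ ∑ l ∈ Finset.range (k + 1), d (s (a + l)) := by exact_mod_cast h1
  have h3 := hlt a (k + 1) hk
  have h4 := hpos a (k + 1) hk
  have h5 := Nat.le_of_dvd h4 h2
  have h6 : (k + 1) * m ≤ n * m := Nat.mul_le_mul_right m (by omega)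
  have h7 : n * m ≤ n * (∑ l ∈ Finset.range (k + 1), d (s (a + l))) := Nat.mul_le_mul_left n h5
  omega

end GAPM

theorem specGap : SpecGap := by
  intro I _ _ m e hm
  by_contra hcon
  push Not at hcon
  have hn : 0 < Fintype.card I := Fintype.card_pos
  have hm' : (0 : ℤ) < m := by exact_mod_cast hm
  have key : ∀ i : I, ∃ i' : I, ∃ d : ℕ, 0 < d ∧ Fintype.card I * d < m ∧
      (m : ℤ) ∣ e i' - e i + d := by
    intro i
    obtain ⟨i', hi'⟩ := hcon (- e i) (fun i' => ((e i' - e i) % m).toNat) (by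
      intro i'
      have h1 : 0 ≤ (e i' - e i) % (m : ℤ) := Int.emod_nonneg _ hm'.ne'
      rw [Int.toNat_of_nonneg h1]
      have h2 := Int.emod_add_mul_ediv (e i' - e i) m
      exact ⟨(e i' - e i) / m, by linarith⟩)
    have h1 : 0 ≤ (e i' - e i) % (m : ℤ) := Int.emod_nonneg _ hm'.ne'
    have h2 : (e i' - e i) % (m : ℤ) < m := Int.emod_lt_of_pos _ hm'
    have h3 := Int.emod_add_mul_ediv (e i' - e i) m
    obtain ⟨x, hx⟩ := Int.eq_ofNat_of_zero_le h1
    simp only [hx, Int.toNat_natCast] at hi'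
    rw [hx] at h2 h3
    have h2' : x < m := by exact_mod_cast h2
    refine ⟨i', m - x, by omega, ?_, ?_⟩
    · obtain ⟨n, hn'⟩ : ∃ n, Fintype.card I = n + 1 := ⟨_, (Nat.succ_pred_eq_of_pos hn).symm⟩
      rw [hn'] at hi' ⊢
      obtain ⟨y, rfl⟩ := Nat.exists_eq_add_of_lt h2'
      have h4 : x + y + 1 - x = y + 1 := by omega
      rw [h4]
      simp only [Nat.add_sub_cancel] at hi'
      nlinarith
    · rw [Nat.cast_sub h2'.le]
      refine ⟨(e i' - e i) / m + 1, ?_⟩
      rw [mul_add, mul_one]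
      linarith
  choose σ d h1 h2 h3 using key
  exact GAPM.no_cycle I m e σ d h1 h2 h3

end Pool.Agent.Lib.MP_78b700_nt.HV
end

section
/-!
# KAP: the rational point from the value at one pair
-/
set_option autoImplicit false

open IsDedekindDomain NumberField Polynomial

namespace Pool.Agent.Lib.MP_78b700_nt.HV

namespace KAPM

section

variable {L : Type} [Field L] [NumberField L] {S : Finset (HeightOneSpectrum (𝓞 L))}

theorem fabs_eq_one_of_sub_lt (v : HeightOneSpectrum (𝓞 L)) {x : L} (h : fabs v (x - 1) < 1) :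
    fabs v x = 1 := by
  refine le_antisymm ?_ ?_
  · have h1 := fabs_add_le v (x - 1) 1
    rw [sub_add_cancel, map_one] at h1
    exact h1.trans (max_le h.le le_rfl)
  · by_contra hcon
    push Not at hcon
    have h1 := fabs_sub_le v x (x - 1)
    rw [sub_sub_cancel, map_one] at h1
    exact absurd h1 (not_le.2 (max_lt hcon h))

/-- A multiplicatively convergent sequence with limit `g` (up to a denominator). -/
theorem near_of_limit {a : ℕ → L} (ha : Conv S a) {g d : L} (hd : d ≠ 0)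
    (h : ∀ k, ∀ v ∉ S, fabs v (d * (a k - g)) ≤ fabs v ((k.factorial : ℕ) : L)) (k : ℕ) :
    Near S k (a k) g := by
  have ha0 : ∀ k, a k ≠ 0 := fun k => (ha k k le_rfl).1
  -- `g ≠ 0`
  have hg : g ≠ 0 := by
    obtain ⟨v, hv⟩ := exists_notMem S
    intro hg
    have hpos : 0 < fabs v (d * a 0) := (fabs v).pos (mul_ne_zero hd (ha0 0))
    obtain ⟨l, hl⟩ := exists_factorial_lt v hpos
    have h1 := h l v hv
    rw [hg, sub_zero, map_mul, RELM.fabs_conv ha l 0 v hv, ← map_mul] at h1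
    exact absurd h1 (not_le.2 (hl l le_rfl))
  refine ⟨ha0 k, hg, fun v hv => ?_⟩
  have hk0 : 0 < fabs v ((k.factorial : ℕ) : L) :=
    (fabs v).pos (by exact_mod_cast (Nat.factorial_pos k).ne')
  have hdg : 0 < fabs v (d * g) := (fabs v).pos (mul_ne_zero hd hg)
  have hδ : 0 < fabs v (d * g) * (fabs v ((k.factorial : ℕ) : L) * (1 / 2)) := by positivity
  obtain ⟨l, hl⟩ := exists_factorial_lt v hδ
  set m := max k l with hm
  have h1 := (h m v hv).trans_lt (hl m (le_max_right _ _))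
  have e : d * (a m - g) = d * g * (a m / g - 1) := by field_simp
  rw [e, map_mul (fabs v) (d * g)] at h1
  have h2 : fabs v (a m / g - 1) < fabs v ((k.factorial : ℕ) : L) * (1 / 2) :=
    lt_of_mul_lt_mul_left h1 hdg.le
  have hk1 : fabs v ((k.factorial : ℕ) : L) ≤ 1 := fabs_natCast_le v _
  have h3 : fabs v (a m / g) = 1 := fabs_eq_one_of_sub_lt v (by linarith)
  obtain ⟨-, -, h4⟩ := ha k m (le_max_left _ _)
  obtain ⟨h5, h6⟩ := h4 v hv
  have e2 : a k / g = a k / a m * (a m / g) := by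
    have := ha0 m
    field_simp
  have e3 : a k / g - 1 = a k / a m * (a m / g - 1) + (a k / a m - 1) := by
    rw [e2]; ring
  refine ⟨by rw [e2, map_mul, h5, h3, one_mul], ?_⟩
  rw [e3]
  refine (fabs_add_le v _ _).trans (max_le ?_ h6)
  rw [map_mul, h5, one_mul]
  linarith

end

theorem map_mem {F L : Type} [Field F] [Field L] [Algebra F L] {f : F[X]} (g : L ≃ₐ[F] L)
    (θ : f.rootSet L) : g θ ∈ f.rootSet L := by
  have h := θ.2
  rw [mem_rootSet] at h ⊢
  refine ⟨h.1, ?_⟩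
  have h1 := aeval_algHom_apply (g : L →ₐ[F] L) (θ : L) f
  rw [h.2, map_zero] at h1
  exact h1

theorem ratio_inj {L : Type} [Field L] {x y a b : L} (hab : a ≠ b) (hx : x - b ≠ 0)
    (hy : y - b ≠ 0) (h : (x - a) / (x - b) = (y - a) / (y - b)) : x = y := by
  rw [div_eq_div_iff hx hy] at h
  have h1 : (x - y) * (a - b) = 0 := by linear_combination h
  rcases mul_eq_zero.1 h1 with h2 | h2
  · exact sub_eq_zero.1 h2
  · exact absurd (sub_eq_zero.1 h2) hab

end KAPM

theorem specKap (hGaln : SpecGaln) : SpecKap := by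
  classical
  intro F L _ _ _ _ _ _ f S t ht θ₀ θ₁ hne γ hγ
  have hne' : (θ₀ : L) ≠ θ₁ := fun h => hne (Subtype.ext h)
  have hne0 : (θ₀ : L) - θ₁ ≠ 0 := sub_ne_zero.2 hne'
  have hγ0 : γ ≠ 0 := (hγ 0).2.1
  obtain ⟨d, hd, hdk⟩ := ht.lin
  -- the limits
  set γ' : f.rootSet L → L := fun θ => (((θ : L) - θ₁) * γ + ((θ₀ : L) - θ)) / ((θ₀ : L) - θ₁)
    with hγ'
  have hlim : ∀ θ k, Near (above L S) k ((t k θ : L) / t k θ₁) (γ' θ) := by
    intro θ
    -- common denominator
    by_cases hθ : (θ : L) = θ₁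
    · have hθ' : θ = θ₁ := Subtype.ext hθ
      intro k
      have e1 : γ' θ = 1 := by
        rw [hγ']
        simp only
        rw [hθ, sub_self, zero_mul, zero_add, div_self hne0]
      rw [e1, hθ', div_self (t k θ₁).ne_zero]
      exact Near.refl _ k one_ne_zero
    have hθ0 : (θ : L) - θ₁ ≠ 0 := sub_ne_zero.2 hθ
    obtain ⟨D, hD0, hD⟩ := ALXM.exists_common (d * ((θ₀ : L) - θ₁))
      (((θ : L) - θ₁) / ((θ₀ : L) - θ₁) * γ)⁻¹ (mul_ne_zero hd hne0)
      (inv_ne_zero (mul_ne_zero (div_ne_zero hθ0 hne0) hγ0))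
    refine KAPM.near_of_limit (ht.conv θ θ₁) hD0 fun k v hv => ?_
    have h1 := hdk k v hv θ θ₁ θ₀
    have h2 := ((hγ k).2.2 v hv).2
    set z : L := (t k θ : L) / t k θ₁ with hz
    set z₀ : L := (t k θ₀ : L) / t k θ₁ with hz₀
    have e1 : (((θ : L) - θ₁) * (t k θ₀ : L) + ((θ₁ : L) - θ₀) * t k θ +
        ((θ₀ : L) - θ) * t k θ₁) / t k θ₁ =
        ((θ : L) - θ₁) * z₀ + ((θ₁ : L) - θ₀) * z + ((θ₀ : L) - θ) := by
      have := (t k θ₁).ne_zero
      rw [hz, hz₀]
      field_simp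
    rw [e1] at h1
    have e2 : D * (z - γ' θ) = D * (((θ : L) - θ₁) / ((θ₀ : L) - θ₁) * γ * (z₀ / γ - 1)) -
        D * (((θ : L) - θ₁) * z₀ + ((θ₁ : L) - θ₀) * z + ((θ₀ : L) - θ)) / ((θ₀ : L) - θ₁) := by
      rw [hγ']
      field_simp
      ring
    rw [e2]
    refine (fabs_sub_le v _ _).trans (max_le ?_ ?_)
    · rw [map_mul, map_mul]
      have h3 := (hD v).2
      rw [map_inv₀] at h3
      have hpos : 0 < fabs v (((θ : L) - θ₁) / ((θ₀ : L) - θ₁) * γ) :=
        (fabs v).pos (mul_ne_zero (div_ne_zero hθ0 hne0) hγ0)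
      rw [← mul_assoc]
      have h4 : fabs v D * fabs v (((θ : L) - θ₁) / ((θ₀ : L) - θ₁) * γ) ≤ 1 := by
        calc _ ≤ (fabs v (((θ : L) - θ₁) / ((θ₀ : L) - θ₁) * γ))⁻¹ *
              fabs v (((θ : L) - θ₁) / ((θ₀ : L) - θ₁) * γ) :=
              mul_le_mul_of_nonneg_right h3 hpos.le
          _ = 1 := inv_mul_cancel₀ hpos.ne'
      exact (mul_le_of_le_one_left ((fabs v).nonneg _) h4).trans h2
    · have h3 := (hD v).1
      have hpos : 0 < fabs v ((θ₀ : L) - θ₁) := (fabs v).pos hne0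
      rw [map_div₀, map_mul, div_le_iff₀ hpos]
      rw [map_mul] at h1 h3
      calc fabs v D * fabs v (((θ : L) - θ₁) * z₀ + ((θ₁ : L) - θ₀) * z + ((θ₀ : L) - θ))
          ≤ (fabs v d * fabs v ((θ₀ : L) - θ₁)) *
            fabs v (((θ : L) - θ₁) * z₀ + ((θ₁ : L) - θ₀) * z + ((θ₀ : L) - θ)) :=
            mul_le_mul_of_nonneg_right h3 ((fabs v).nonneg _)
        _ = (fabs v d * fabs v (((θ : L) - θ₁) * z₀ + ((θ₁ : L) - θ₀) * z + ((θ₀ : L) - θ))) *
            fabs v ((θ₀ : L) - θ₁) := by ring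
        _ ≤ _ := mul_le_mul_of_nonneg_right h1 hpos.le
  have hγ'0 : ∀ θ, γ' θ ≠ 0 := fun θ => (hlim θ 0).2.1
  have hlim2 : ∀ k θ θ', Near (above L S) k ((t k θ : L) / t k θ') (γ' θ / γ' θ') := by
    intro k θ θ'
    have h := (hlim θ k).div (hlim θ' k)
    have e : (t k θ : L) / t k θ₁ / ((t k θ' : L) / t k θ₁) = (t k θ : L) / t k θ' := by
      have h1 := (t k θ₁).ne_zero
      have h2 := (t k θ').ne_zero
      field_simp
    rw [e] at h
    exact h
  by_cases hone : γ = 1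
  · refine ⟨1, 0, fun θ => ?_, fun k θ θ' => ?_⟩
    · rw [map_one, map_zero, mul_zero, sub_zero]
      exact one_ne_zero
    · have h1 : ∀ θ, γ' θ = 1 := by
        intro θ
        rw [hγ']
        simp only
        rw [hone, div_eq_one_iff_eq hne0]
        ring
      have h := hlim2 k θ θ'
      rw [h1, h1] at h
      rw [map_one, map_zero, mul_zero, mul_zero, sub_zero]
      exact h
  · have h1γ : 1 - γ ≠ 0 := sub_ne_zero.2 (Ne.symm hone)
    set κ : L := ((θ₀ : L) - γ * θ₁) / (1 - γ) with hκ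
    have hκθ : ∀ θ : f.rootSet L, κ - θ = γ' θ * (((θ₀ : L) - θ₁) / (1 - γ)) := by
      intro θ
      rw [hκ, hγ']
      field_simp
      ring
    have hκ0 : ∀ θ : f.rootSet L, κ - θ ≠ 0 := by
      intro θ
      rw [hκθ]
      exact mul_ne_zero (hγ'0 θ) (div_ne_zero hne0 h1γ)
    have hlim3 : ∀ k (θ θ' : f.rootSet L),
        Near (above L S) k ((t k θ : L) / t k θ') ((κ - θ) / (κ - θ')) := by
      intro k θ θ'
      rw [hκθ, hκθ, mul_div_mul_right _ _ (div_ne_zero hne0 h1γ)]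
      exact hlim2 k θ θ'
    have hfix : ∀ g : L ≃ₐ[F] L, g κ = κ := by
      intro g
      set θ₀' : f.rootSet L := ⟨g θ₀, KAPM.map_mem g θ₀⟩ with hθ₀'
      set θ₁' : f.rootSet L := ⟨g θ₁, KAPM.map_mem g θ₁⟩ with hθ₁'
      have h1 : ∀ k, Near (above L S) k ((t k θ₀' : L) / t k θ₁') (g ((κ - θ₀) / (κ - θ₁))) := by
        intro k
        have h2 := hGaln F L S g k _ _ (hlim3 k θ₀ θ₁)
        rw [map_div₀ g (t k θ₀ : L), ht.equi k g θ₀ θ₀' rfl, ht.equi k g θ₁ θ₁' rfl] at h2
        exact h2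
      have h2 : g ((κ - θ₀) / (κ - θ₁)) = (κ - θ₀') / (κ - θ₁') :=
        Near.eq fun k => (h1 k).symm.trans (hlim3 k θ₀' θ₁')
      rw [map_div₀, map_sub, map_sub] at h2
      refine KAPM.ratio_inj (a := g θ₀) (b := g θ₁) ?_ ?_ ?_ h2
      · exact fun h => hne' (g.injective h)
      · rw [← map_sub]
        exact (map_ne_zero_iff g g.injective).2 (hκ0 θ₁)
      · exact hκ0 θ₁'
    obtain ⟨a, ha⟩ := (IsGalois.mem_range_algebraMap_iff_fixed κ).2 hfix
    refine ⟨a, 1, fun θ => ?_, fun k θ θ' => ?_⟩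
    · rw [map_one, mul_one, ha]
      exact hκ0 θ
    · rw [map_one, mul_one, mul_one, ha]
      exact hlim3 k θ θ'

end Pool.Agent.Lib.MP_78b700_nt.HV
end

section
/-!
# SAH: powers in cyclotomic extensions (Sah's trick)
-/
set_option autoImplicit false

open NumberField Polynomial

namespace Pool.Agent.Lib.MP_78b700_nt.HV

namespace SAHM

/-- if `ω^a` is a `q`-th power and `a` is prime to `q` then `ω` is a `q`-th power -/
theorem coprime_power {E : Type} [Field E] {ω T : E} (hω : ω ≠ 0) {a q : ℕ} (hq : 0 < q)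
    (hc : a.Coprime q) (h : ω ^ a = T ^ q) : ∃ T' : E, ω = T' ^ q := by
  rcases Nat.lt_or_ge 1 q with h1 | h1
  · obtain ⟨u, hu⟩ := Nat.exists_mul_mod_eq_one_of_coprime hc h1
    obtain ⟨w, hw⟩ : ∃ w, a * u = 1 + w * q := by
      refine ⟨a * u / q, ?_⟩
      have := Nat.mod_add_div (a * u) q
      rw [hu.2] at this
      rw [mul_comm (a * u / q) q]; exact this.symm
    refine ⟨T ^ u * (ω ^ w)⁻¹, ?_⟩
    have h3 : ω ^ (a * u) = (T ^ u) ^ q := by
      rw [pow_mul, h, ← pow_mul, ← pow_mul, mul_comm]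
    rw [hw, pow_add, pow_one, pow_mul] at h3
    rw [mul_pow, ← h3, inv_pow, mul_assoc, mul_inv_cancel₀, mul_one]
    exact pow_ne_zero _ (pow_ne_zero _ hω)
  · have : q = 1 := by omega
    subst this
    exact ⟨ω, (pow_one ω).symm⟩

theorem no_root (E : Type) [Field E] [NumberField E] (ℓ : ℕ) (hℓ : ℓ.Prime) :
    ∃ h : ℕ, ∀ ζ : E, ¬ IsPrimitiveRoot ζ (ℓ ^ (h + 1)) := by
  refine ⟨Module.finrank ℚ E, fun ζ hζ => ?_⟩
  have hpos : 0 < ℓ ^ (Module.finrank ℚ E + 1) := pow_pos hℓ.pos _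
  have h1 := Polynomial.cyclotomic_eq_minpoly_rat hζ hpos
  have h2 := congrArg Polynomial.natDegree h1
  rw [Polynomial.natDegree_cyclotomic, Nat.totient_prime_pow_succ hℓ] at h2
  have h3 : (minpoly ℚ ζ).natDegree ≤ Module.finrank ℚ E := minpoly.natDegree_le ζ
  have h4 : Module.finrank ℚ E < ℓ ^ Module.finrank ℚ E := Nat.lt_pow_self hℓ.one_lt
  have h5 : 1 ≤ ℓ - 1 := by have := hℓ.two_le; omega
  have h6 : ℓ ^ Module.finrank ℚ E ≤ ℓ ^ Module.finrank ℚ E * (ℓ - 1) := Nat.le_mul_of_pos_right _ h5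
  omega

end SAHM

open SAHM in
theorem specSah : SpecSah := by
  intro E _ _ ℓ hℓ
  obtain ⟨h, hh⟩ := no_root E ℓ hℓ
  refine ⟨h, fun m K hm hdvd M _ _ _ ω t hω ht => ?_⟩
  rcases Nat.lt_or_ge h K with hK | hK
  swap
  · refine ⟨ω ^ (ℓ ^ (h - K)), ?_⟩
    rw [← pow_mul, ← pow_add, Nat.sub_add_cancel hK]
  have : NeZero m := ⟨hm.ne'⟩
  have hgal : IsGalois E M := IsCyclotomicExtension.isGalois {m} E M
  have hfd : FiniteDimensional E M := IsCyclotomicExtension.finiteDimensional {m} E M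
  have hcomm : IsMulCommutative (M ≃ₐ[E] M) := IsCyclotomicExtension.isMulCommutative {m} E M
  have hm0 : (m : M) ≠ 0 := by
    have : CharZero M := charZero_of_injective_algebraMap (algebraMap E M).injective
    exact_mod_cast hm.ne'
  -- a primitive root
  have hζm := IsCyclotomicExtension.zeta_spec m E M
  obtain ⟨m', rfl⟩ := hdvd
  have hm'pos : 0 < m' := Nat.pos_of_mul_pos_left hm
  have hlK : 0 < ℓ ^ K := pow_pos hℓ.pos _
  obtain ⟨ζ, hζ⟩ : ∃ ζ : M, IsPrimitiveRoot ζ (ℓ ^ K) := ⟨_, hζm.pow hm (mul_comm _ _)⟩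
  have hη : IsPrimitiveRoot (ζ ^ (ℓ ^ (K - h - 1))) (ℓ ^ (h + 1)) := by
    refine hζ.pow hlK ?_
    rw [← pow_add]; congr 1; omega
  -- an automorphism which moves it
  obtain ⟨g₀, hg₀⟩ : ∃ g₀ : M ≃ₐ[E] M, g₀ (ζ ^ (ℓ ^ (K - h - 1))) ≠ ζ ^ (ℓ ^ (K - h - 1)) := by
    by_contra hcon
    push Not at hcon
    have h1 : ζ ^ (ℓ ^ (K - h - 1)) ∈ (⊥ : IntermediateField E M) := by
      rw [IsGalois.mem_bot_iff_fixed]
      exact hcon
    rw [IntermediateField.mem_bot] at h1
    obtain ⟨e, he⟩ := h1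
    refine hh e ?_
    rw [← he] at hη
    exact (IsPrimitiveRoot.map_iff_of_injective (f := algebraMap E M) (algebraMap E M).injective).mp hη
  have hroot : ∀ x : M, x ^ (ℓ ^ K) = 1 → ∃ b : ℕ, x = ζ ^ b := by
    intro x hx
    have : NeZero (ℓ ^ K) := ⟨hlK.ne'⟩
    obtain ⟨b, _, hb⟩ := hζ.eq_pow_of_pow_eq_one hx
    exact ⟨b, hb.symm⟩
  obtain ⟨a, ha⟩ := hroot (g₀ ζ) (by rw [← map_pow, hζ.pow_eq_one, map_one])
  -- replace `a` by `a + ℓ^K` to get `a ≥ 1`
  obtain ⟨A, hA⟩ : ∃ A : ℕ, g₀ ζ = ζ ^ (A + 1) := by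
    refine ⟨a + ℓ ^ K - 1, ?_⟩
    have : a + ℓ ^ K - 1 + 1 = a + ℓ ^ K := by omega
    rw [this, pow_add, hζ.pow_eq_one, mul_one]; exact ha
  have hAη : ¬ ℓ ^ (h + 1) ∣ A := by
    intro hdiv
    apply hg₀
    obtain ⟨A', rfl⟩ := hdiv
    rw [map_pow, hA, ← pow_mul, mul_comm, pow_mul, pow_add, pow_one, pow_mul, hη.pow_eq_one,
      one_pow, one_mul]
  have hA0 : A ≠ 0 := fun h0 => hAη (h0 ▸ dvd_zero _)
  have hg₀pow : ∀ x : M, x ^ (ℓ ^ K) = 1 → g₀ x = x ^ (A + 1) := by
    intro x hx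
    obtain ⟨b, rfl⟩ := hroot x hx
    rw [map_pow, hA, ← pow_mul, ← pow_mul, mul_comm]
  have ht0 : t ≠ 0 := by
    intro h0
    rw [h0, zero_pow hlK.ne'] at ht
    exact hω ((algebraMap E M).injective (by rw [ht, map_zero]))
  have hxi : ∀ g : M ≃ₐ[E] M, (g t / t) ^ (ℓ ^ K) = 1 := by
    intro g
    rw [div_pow, ← map_pow, ← ht, AlgEquiv.commutes, ht, div_self (pow_ne_zero _ ht0)]
  set ξ₀ := g₀ t / t with hξ₀
  have hg₀t0 : g₀ t ≠ 0 := by simpa using ht0
  have hξ₀0 : ξ₀ ≠ 0 := div_ne_zero hg₀t0 ht0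
  -- t' is fixed
  have hfix : ∀ g : M ≃ₐ[E] M, g (t ^ A / ξ₀) = t ^ A / ξ₀ := by
    intro g
    have hc : g (g₀ t) = g₀ (g t) := by
      have := congrArg (fun k : M ≃ₐ[E] M => k t) (hcomm.is_comm.comm g g₀)
      simpa using this
    set ξ := g t / t with hξ
    have hgt0 : g t ≠ 0 := by simpa using ht0
    have hξ0 : ξ ≠ 0 := div_ne_zero hgt0 ht0
    have e1 : g₀ t = ξ₀ * t := by rw [hξ₀, div_mul_cancel₀ _ ht0]
    have e2 : g t = ξ * t := by rw [hξ, div_mul_cancel₀ _ ht0]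
    have e3 : g ξ₀ * (ξ * t) = ξ ^ (A + 1) * (ξ₀ * t) := by
      have h1 : g (g₀ t) = g ξ₀ * (ξ * t) := by rw [e1, map_mul, e2]
      have h2 : g₀ (g t) = ξ ^ (A + 1) * (ξ₀ * t) := by
        rw [e2, map_mul, hg₀pow ξ (hxi g), e1]
      rw [← h1, ← h2, hc]
    have e4 : g ξ₀ = ξ ^ A * ξ₀ := by
      have h1 : g ξ₀ * (ξ * t) = (ξ ^ A * ξ₀) * (ξ * t) := by rw [e3]; ring
      exact mul_right_cancel₀ (mul_ne_zero hξ0 ht0) h1
    rw [map_div₀, map_pow, e2, e4, mul_pow]
    rw [mul_div_mul_left _ _ (pow_ne_zero _ hξ0)]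
  obtain ⟨τ, hτ⟩ : ∃ τ : E, algebraMap E M τ = t ^ A / ξ₀ := by
    have h1 : t ^ A / ξ₀ ∈ (⊥ : IntermediateField E M) := by
      rw [IsGalois.mem_bot_iff_fixed]
      exact hfix
    rw [IntermediateField.mem_bot] at h1
    exact h1
  have hτpow : ω ^ A = τ ^ (ℓ ^ K) := by
    apply (algebraMap E M).injective
    rw [map_pow, map_pow, hτ, div_pow, hxi g₀, div_one, ht, ← pow_mul, ← pow_mul, mul_comm]
  -- split off the power of `ℓ` in `A`
  obtain ⟨h', A', hnd, hA'⟩ := Nat.exists_eq_pow_mul_and_not_dvd hA0 ℓ hℓ.ne_one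
  have hh' : h' ≤ h := by
    by_contra hlt
    push Not at hlt
    exact hAη (hA' ▸ (pow_dvd_pow ℓ hlt).mul_right A')
  have hcop : A'.Coprime (ℓ ^ K) :=
    Nat.Coprime.pow_right K ((Nat.Prime.coprime_iff_not_dvd hℓ).mpr hnd).symm
  obtain ⟨T', hT'⟩ := coprime_power (ω := ω ^ (ℓ ^ h')) (T := τ) (pow_ne_zero _ hω) hlK hcop
    (by rw [← pow_mul, ← hA', hτpow])
  refine ⟨T' ^ (ℓ ^ (h - h')), ?_⟩
  rw [← pow_mul, mul_comm (ℓ ^ (h - h')) (ℓ ^ K), pow_mul, ← hT', ← pow_mul, ← pow_add,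
    Nat.add_sub_cancel' hh']

end Pool.Agent.Lib.MP_78b700_nt.HV
end

section
/-!
# KUM: degrees of Kummer extensions of cyclotomic extensions
-/
set_option autoImplicit false

open NumberField Polynomial

namespace Pool.Agent.Lib.MP_78b700_nt.HV

open SAHM in
theorem specKum (hSah : SpecSah) : SpecKum := by
  intro E _ _ b B P hP
  have hex : ∀ ℓ : ℕ, ∃ h : ℕ, ℓ ∈ P → ∀ m K : ℕ, 0 < m →
      ℓ ^ K ∣ m → ∀ (M : Type) [Field M] [Algebra E M] [IsCyclotomicExtension {m} E M]
        (ω : E) (t : M), ω ≠ 0 → algebraMap E M ω = t ^ (ℓ ^ K) →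
        ∃ T : E, ω ^ (ℓ ^ h) = T ^ (ℓ ^ K) := by
    intro ℓ
    by_cases hℓ : ℓ ∈ P
    · obtain ⟨h, hh⟩ := hSah E ℓ (hP ℓ hℓ)
      exact ⟨h, fun _ => hh⟩
    · exact ⟨0, fun h => absurd h hℓ⟩
  choose h hh using hex
  refine ⟨b + P.sup h + B + 1, by omega, ?_⟩
  intro M _ _ _ _ N _ _ _ ℓ hℓ ω y hω hexc hy htop
  set K := b + P.sup h + B + 1 with hK
  have hprime := hP ℓ hℓ
  have hhle : h ℓ ≤ P.sup h := Finset.le_sup (f := h) hℓ
  have hlK : 0 < ℓ ^ K := pow_pos hprime.pos _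
  -- degree
  have hfd : FiniteDimensional M N := by
    have h1 : FiniteDimensional ℚ N := inferInstance
    exact Module.Finite.right ℚ M N
  set c := Module.finrank M N with hc
  have hcpos : 0 < c := Module.finrank_pos
  have hnorm : algebraMap E M (ω ^ c) = (Algebra.norm M y) ^ (ℓ ^ K) := by
    have h1 := congrArg (Algebra.norm M) hy
    rw [map_pow, Algebra.norm_algebraMap] at h1
    rw [h1, map_pow]
  obtain ⟨T, hT⟩ := hh ℓ hℓ (∏ ℓ ∈ P, ℓ ^ K) K
    (Finset.prod_pos fun q hq => pow_pos (hP q hq).pos _)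
    (Finset.dvd_prod_of_mem (fun q => q ^ K) hℓ) M (ω ^ c) (Algebra.norm M y)
    (pow_ne_zero _ hω) hnorm
  obtain ⟨v, c', hnd, hc'⟩ := Nat.exists_eq_pow_mul_and_not_dvd hcpos.ne' ℓ hprime.ne_one
  have hcop : c'.Coprime (ℓ ^ K) :=
    Nat.Coprime.pow_right K ((Nat.Prime.coprime_iff_not_dvd hprime).mpr hnd).symm
  obtain ⟨T', hT'⟩ := coprime_power (ω := ω ^ (ℓ ^ (v + h ℓ))) (T := T) (pow_ne_zero _ hω) hlK hcop
    (by rw [← hT, ← pow_mul, ← pow_mul, hc', pow_add]; ring_nf)
  have hT'0 : T' ≠ 0 := by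
    intro h0
    rw [h0, zero_pow hlK.ne'] at hT'
    exact pow_ne_zero _ hω hT'
  have hv : B < v := by
    by_contra hle
    push Not at hle
    have h1 : v + h ℓ + b ≤ K := by omega
    set X := T' ^ (ℓ ^ (K - v - h ℓ)) with hX
    have hX0 : X ≠ 0 := pow_ne_zero _ hT'0
    refine hexc (ω / X) (T' ^ (ℓ ^ (K - v - h ℓ - b))) (ℓ ^ (v + h ℓ)) (pow_pos hprime.pos _) ?_ ?_
    · rw [div_pow, hT', hX, ← pow_mul, ← pow_add]
      have : K - v - h ℓ + (v + h ℓ) = K := by omega
      rw [this, div_self (pow_ne_zero _ hT'0)]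
    · rw [← pow_mul, ← pow_add]
      have : K - v - h ℓ - b + b = K - v - h ℓ := by omega
      rw [this, ← hX, div_mul_cancel₀ _ hX0]
  calc B < v := hv
    _ < ℓ ^ v := Nat.lt_pow_self hprime.one_lt
    _ ≤ ℓ ^ v * c' := Nat.le_mul_of_pos_right _ (Nat.pos_of_ne_zero fun h0 => hcpos.ne' (by rw [hc', h0, mul_zero]))
    _ = c := hc'.symm

end Pool.Agent.Lib.MP_78b700_nt.HV
end

section
/-!
# LMQ: a prime of a cyclotomic extension at which none of the `ω j` is an `ℓ j ^ K`-th power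
-/
set_option autoImplicit false

open IsDedekindDomain NumberField Polynomial

namespace Pool.Agent.Lib.MP_78b700_nt.HV

theorem specLmq (hKum : SpecKum) (hSpl : SpecSpl) (hChe : SpecChe) : SpecLmq := by
  intro E _ _ J _ ℓ b hℓ
  classical
  set P : Finset ℕ := Finset.univ.image ℓ with hP
  set b₀ : ℕ := Finset.univ.sup b with hb₀
  obtain ⟨K, hbK, hK⟩ := hKum E b₀ (Fintype.card J) P (by
    intro l hl
    obtain ⟨j, -, rfl⟩ := Finset.mem_image.1 hl
    exact hℓ j)
  set m : ℕ := ∏ ℓ ∈ P, ℓ ^ K with hm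
  have hm0 : m ≠ 0 := by
    rw [hm]
    refine Finset.prod_ne_zero_iff.2 fun l hl => ?_
    obtain ⟨j, -, rfl⟩ := Finset.mem_image.1 hl
    exact pow_ne_zero _ (hℓ j).ne_zero
  have : NeZero m := ⟨hm0⟩
  have : NeZero ((m : ℕ) : E) := ⟨by exact_mod_cast hm0⟩
  have hcyc : IsCyclotomicExtension {m} E (CyclotomicField m E) := inferInstance
  have : NumberField (CyclotomicField m E) :=
    IsCyclotomicExtension.numberField {m} E (CyclotomicField m E)
  refine ⟨K, CyclotomicField m E, inferInstance, inferInstance, inferInstance, ?_⟩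
  set M := CyclotomicField m E with hM
  intro ω hω T
  have hq : ∀ j, 0 < ℓ j ^ K := fun j => pow_pos (hℓ j).pos _
  have hy : ∀ j, ∃ y : AlgebraicClosure M,
      y ^ (ℓ j ^ K) = algebraMap M (AlgebraicClosure M) (algebraMap E M (ω j)) :=
    fun j => IsAlgClosed.exists_pow_nat_eq _ (hq j)
  choose y hy using hy
  have hint : ∀ j, IsIntegral M (y j) := fun j => Algebra.IsIntegral.isIntegral _
  let N : J → Type := fun j => IntermediateField.adjoin M {y j}
  let iF : ∀ j, Field (N j) := fun j =>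
    inferInstanceAs (Field (IntermediateField.adjoin M {y j}))
  let iA : ∀ j, Algebra M (N j) := fun j =>
    inferInstanceAs (Algebra M (IntermediateField.adjoin M {y j}))
  have iD : ∀ j, FiniteDimensional M (N j) := fun j =>
    IntermediateField.adjoin.finiteDimensional (hint j)
  have iN : ∀ j, NumberField (N j) := fun j => NumberField.of_module_finite M (N j)
  let y' : ∀ j, N j := fun j => IntermediateField.AdjoinSimple.gen M (y j)
  have hy' : ∀ j, y' j ^ (ℓ j ^ K) = algebraMap M (N j) (algebraMap E M (ω j)) := by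
    intro j
    apply Subtype.ext
    exact hy j
  have htop : ∀ j, IntermediateField.adjoin M {y' j} = ⊤ := fun j =>
    IntermediateField.lift_injective (IntermediateField.adjoin M {y j})
      (by rw [IntermediateField.lift_adjoin_simple, IntermediateField.lift_top]; rfl)
  have hω' : ∀ j, algebraMap E M (ω j) ≠ 0 := fun j => by
    rw [Ne, map_eq_zero]; exact (hω j).1
  have hdeg : ∀ j, Fintype.card J < Module.finrank M (N j) := by
    intro j
    refine hK M (N j) (ℓ j) (Finset.mem_image_of_mem _ (Finset.mem_univ j)) (ω j) (y' j)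
      (hω j).1 ?_ (hy' j) (htop j)
    intro ξ T n hn hξ he
    have hbj : b j ≤ b₀ := Finset.le_sup (f := b) (Finset.mem_univ j)
    refine (hω j).2 ξ (T ^ (ℓ j ^ (b₀ - b j))) n hn hξ ?_
    rw [he, ← pow_mul, ← pow_add]
    congr 3
    omega
  obtain ⟨ζ, hζ⟩ := IsCyclotomicExtension.exists_isPrimitiveRoot E M (Set.mem_singleton m) hm0
  have hζ' : ∀ j, ∃ ζ' : M, IsPrimitiveRoot ζ' (ℓ j ^ K) := by
    intro j
    have hd : ℓ j ^ K ∣ m := by
      rw [hm]
      exact Finset.dvd_prod_of_mem (fun l => l ^ K)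
        (Finset.mem_image_of_mem _ (Finset.mem_univ j))
    obtain ⟨a, ha⟩ := hd
    exact ⟨ζ ^ a, hζ.pow (Nat.pos_of_ne_zero hm0) (by rw [ha, mul_comm])⟩
  choose ζ' hζ' using hζ'
  have hT := fun j => hSpl M (N j) (ℓ j ^ K) (ζ' j) (hq j) (hζ' j) (algebraMap E M (ω j)) (y' j)
    (hω' j) (hy' j) (htop j)
  choose T' hT' using hT
  obtain ⟨W, hW, hc⟩ := hChe M J N (fun j => Module.finrank M (N j)) (fun j => Module.finrank_pos)
    (by
      rcases isEmpty_or_nonempty J with h | h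
      · simp
      · have hJ : (0 : ℝ) < Fintype.card J := by exact_mod_cast Fintype.card_pos
        calc ∑ j, (1 : ℝ) / Module.finrank M (N j) < ∑ j : J, (1 : ℝ) / Fintype.card J := by
              refine Finset.sum_lt_sum_of_nonempty Finset.univ_nonempty fun j _ => ?_
              exact one_div_lt_one_div_of_lt hJ (by exact_mod_cast hdeg j)
          _ = 1 := by
              rw [Finset.sum_const, Finset.card_univ, nsmul_eq_mul]
              field_simp) (T ∪ Finset.univ.biUnion T')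
  rw [Finset.mem_union, not_or, Finset.mem_biUnion] at hW
  refine ⟨W, hW.1, fun j hr => ?_⟩
  have hWj : W ∉ T' j := fun h => hW.2 ⟨j, Finset.mem_univ j, h⟩
  exact absurd (hT' j W hWj hr) (not_le.2 (hc j))

end Pool.Agent.Lib.MP_78b700_nt.HV
end

section
/-!
# Module LOW: lower bound at the places where `ε` has absolute value one
-/
set_option autoImplicit false

open IsDedekindDomain NumberField

namespace Pool.Agent.Lib.MP_78b700_nt.HV

theorem specLow (hAng : SpecAng) (hLte : SpecLte) : SpecLow := by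
  rintro L _ _ S ε hε ⟨w₀, hw₀⟩
  have hroot : ∀ n : ℕ, 0 < n → ε ^ n ≠ 1 := by
    intro n hn h
    have := congrArg (tabs S w₀) h
    rw [map_pow, map_one] at this
    exact absurd this (one_lt_pow₀ hw₀ hn.ne').ne'
  let I := {w : InfinitePlace L // w ε = 1}
  obtain ⟨c, hc, hang⟩ := hAng (Fintype.card I)
  have key : ∀ w : TPlace S, ∃ K : ℕ, 0 < K ∧ ∀ m : ℕ, 0 < m →
      (∀ w : InfinitePlace L, w ε = 1 → c ≤ w (ε ^ m - 1)) →
      1 / ((K : ℝ) * m ^ K) ≤ if tabs S w ε = 1 then tabs S w (ε ^ m - 1) ^ texp S w else 1 := by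
    intro w
    by_cases hw : tabs S w ε = 1
    · rcases w with v | w
      · obtain ⟨C, hC, h⟩ := hLte L v.1 ε hw hroot
        refine ⟨C, hC, fun m hm _ => ?_⟩
        rw [if_pos hw]
        have := h m hm
        simpa [tabs, texp] using this
      · have hc' : 0 < min c 1 := lt_min hc one_pos
        obtain ⟨K, hK⟩ := exists_nat_gt (1 / (min c 1) ^ 2)
        have hK0' : (0 : ℝ) < K := (by positivity : (0 : ℝ) < 1 / (min c 1) ^ 2).trans hK
        have hK0 : 0 < K := by exact_mod_cast hK0'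
        refine ⟨K, hK0, fun m hm hg => ?_⟩
        rw [if_pos hw]
        have h1 : c ≤ w (ε ^ m - 1) := hg w hw
        have h2 : (min c 1) ^ 2 ≤ w (ε ^ m - 1) ^ w.mult := by
          have hm2 : w.mult ≤ 2 := by
            rw [InfinitePlace.mult]
            split_ifs <;> norm_num
          calc (min c 1) ^ 2 ≤ (min c 1) ^ w.mult :=
                pow_le_pow_of_le_one hc'.le (min_le_right _ _) hm2
            _ ≤ _ := pow_le_pow_left₀ hc'.le ((min_le_left _ _).trans h1) _
        have hm1 : (1 : ℝ) ≤ m := by exact_mod_cast hm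
        have h3 : (1 : ℝ) / (K * m ^ K) ≤ 1 / K := by
          refine one_div_le_one_div_of_le hK0' ?_
          exact le_mul_of_one_le_right hK0'.le (one_le_pow₀ hm1)
        have h4 : (1 : ℝ) / K ≤ (min c 1) ^ 2 := by
          rw [div_lt_iff₀ (by positivity)] at hK
          rw [div_le_iff₀ hK0', mul_comm]
          exact hK.le
        exact h3.trans (h4.trans h2)
    · refine ⟨1, one_pos, fun m hm _ => ?_⟩
      have hm1 : (1 : ℝ) ≤ m := by exact_mod_cast hm
      rw [if_neg hw, Nat.cast_one, one_mul, pow_one]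
      exact (div_le_one (by linarith)).2 hm1
  choose K hK0 hK using key
  have hprod : 0 < ∏ w, K w := Finset.prod_pos fun w _ => hK0 w
  refine ⟨∏ w, K w + ∑ w, K w, by omega, ?_⟩
  intro R hR m₀
  let e := Fintype.equivFin I
  obtain ⟨j, hj, hgood⟩ := hang (fun i => (e.symm i).1.embedding ε ^ R) (by
    intro i
    rw [norm_pow, InfinitePlace.norm_embedding_eq, (e.symm i).2, one_pow]) (by
    intro i k hk h
    rw [← pow_mul, ← map_pow, map_eq_one_iff _ (RingHom.injective _)] at h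
    exact hroot _ (Nat.mul_pos hR hk) h) (m₀ + 1)
  have hj0 : 0 < j := by omega
  have hm : 0 < R * j := Nat.mul_pos hR hj0
  have hg : ∀ w : InfinitePlace L, w ε = 1 → c ≤ w (ε ^ (R * j) - 1) := by
    intro w hw
    have h := hgood (e ⟨w, hw⟩)
    simp only [Equiv.symm_apply_apply] at h
    rwa [← pow_mul, ← map_pow, ← map_one w.embedding, ← map_sub, w.norm_embedding_eq] at h
  refine ⟨R * j, ?_, dvd_mul_right _ _, ?_⟩
  · have : j ≤ R * j := Nat.le_mul_of_pos_left j hR
    omega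
  · have hm1 : (1 : ℝ) ≤ ((R * j : ℕ) : ℝ) := by exact_mod_cast hm
    have hm0 : (0 : ℝ) < ((R * j : ℕ) : ℝ) := one_pos.trans_le hm1
    have hp0 : (0 : ℝ) < ((∏ w, K w : ℕ) : ℝ) := by exact_mod_cast hprod
    calc (1 : ℝ) / (((∏ w, K w + ∑ w, K w : ℕ) : ℝ) *
          ((R * j : ℕ) : ℝ) ^ (∏ w, K w + ∑ w, K w))
        ≤ 1 / (((∏ w, K w : ℕ) : ℝ) * ((R * j : ℕ) : ℝ) ^ (∑ w, K w)) := by
          refine one_div_le_one_div_of_le (mul_pos hp0 (pow_pos hm0 _)) ?_
          refine mul_le_mul ?_ (pow_le_pow_right₀ hm1 (by omega)) (pow_pos hm0 _).le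
            (Nat.cast_nonneg _)
          exact_mod_cast Nat.le_add_right _ _
      _ = ∏ w : TPlace S, (1 : ℝ) / ((K w : ℝ) * ((R * j : ℕ) : ℝ) ^ (K w)) := by
          rw [Finset.prod_div_distrib, Finset.prod_mul_distrib, Finset.prod_pow_eq_pow_sum,
            Finset.prod_const_one, Nat.cast_prod]
      _ ≤ prod1 S ε (ε ^ (R * j) - 1) := by
          unfold prod1
          exact Finset.prod_le_prod (fun w _ => by positivity) fun w _ => hK w _ hm hg

end Pool.Agent.Lib.MP_78b700_nt.HV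
end

section
/-!
# Module LTE: lifting the exponent
-/
set_option autoImplicit false

open IsDedekindDomain NumberField NumberField.HeightOneSpectrum

namespace Pool.Agent.Lib.MP_78b700_nt.HV

namespace LTEM

variable {L : Type} [Field L] [NumberField L]

/-- every prime of `L` contains a prime number -/
theorem exists_prime (v : HeightOneSpectrum (𝓞 L)) : ∃ p : ℕ, p.Prime ∧ fabs v (p : L) < 1 := by
  have key : ∀ n : ℕ, n ≠ 0 → fabs v (n : L) < 1 → ∃ p : ℕ, p.Prime ∧ fabs v (p : L) < 1 := by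
    intro n
    induction n using Nat.recOnMul with
    | zero => intro h; exact absurd rfl h
    | one => intro _ h; rw [Nat.cast_one, map_one] at h; exact absurd h (lt_irrefl _)
    | prime p hp => intro _ h; exact ⟨p, hp, h⟩
    | mul a b ha hb =>
      intro hab h
      have ha0 : a ≠ 0 := left_ne_zero_of_mul hab
      have hb0 : b ≠ 0 := right_ne_zero_of_mul hab
      rw [Nat.cast_mul, map_mul] at h
      by_cases h1 : fabs v (a : L) < 1
      · exact ha ha0 h1
      · refine hb hb0 ?_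
        by_contra h2
        have h3 : 1 ≤ fabs v (a : L) * fabs v (b : L) :=
          one_le_mul_of_one_le_of_one_le (not_lt.1 h1) (not_lt.1 h2)
        exact absurd h (not_lt.2 h3)
  refine key (Ideal.absNorm v.asIdeal) ?_ ?_
  · exact (zero_lt_one.trans (HeightOneSpectrum.one_lt_absNorm v)).ne'
  · have h1 : ((Ideal.absNorm v.asIdeal : ℕ) : 𝓞 L) ∈ v.asIdeal := Ideal.absNorm_mem _
    have := (fabs_coe_lt_iff v _).2 h1
    rwa [map_natCast] at this

theorem coprime_one (v : HeightOneSpectrum (𝓞 L)) {p n : ℕ} (hp : fabs v (p : L) < 1)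
    (h : n.Coprime p) : fabs v (n : L) = 1 := by
  refine le_antisymm (fabs_natCast_le v n) ?_
  by_contra hlt
  rw [not_le] at hlt
  have hz := Nat.isCoprime_iff_coprime.2 h
  obtain ⟨a, b, hab⟩ := hz
  have e : algebraMap (𝓞 L) L (a : 𝓞 L) * (n : L) + algebraMap (𝓞 L) L (b : 𝓞 L) * (p : L) = 1 := by
    have := congrArg (fun z : ℤ => (z : L)) hab
    push_cast at this
    rw [map_intCast, map_intCast]
    exact this
  have h1 : fabs v (1 : L) < 1 := by
    rw [← e]
    refine (fabs_add_le v _ _).trans_lt (max_lt ?_ ?_)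
    · rw [map_mul]
      exact (mul_le_of_le_one_left ((fabs v).nonneg _) (fabs_coe_le v _)).trans_lt hlt
    · rw [map_mul]
      exact (mul_le_of_le_one_left ((fabs v).nonneg _) (fabs_coe_le v _)).trans_lt hp
  rw [map_one] at h1
  exact absurd h1 (lt_irrefl _)

theorem fabs_sum_le (v : HeightOneSpectrum (𝓞 L)) {c : ℝ} (hc : 0 ≤ c) (f : ℕ → L) (n : ℕ)
    (h : ∀ i < n, fabs v (f i) ≤ c) : fabs v (∑ i ∈ Finset.range n, f i) ≤ c := by
  induction n with
  | zero => simpa using hc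
  | succ n ih =>
    rw [Finset.sum_range_succ]
    exact (fabs_add_le v _ _).trans (max_le (ih fun i hi => h i (by omega)) (h n (by omega)))

theorem one_of_lt (v : HeightOneSpectrum (𝓞 L)) {y : L} (h : fabs v (y - 1) < 1) :
    fabs v y = 1 := by
  refine le_antisymm ?_ ?_
  · have e : y = (y - 1) + 1 := by ring
    rw [e]
    refine (fabs_add_le v _ _).trans (max_le h.le ?_)
    rw [map_one]
  · by_contra h2
    rw [not_le] at h2
    have h3 : fabs v (1 : L) < 1 := by
      have e : (1 : L) = y - (y - 1) := by ring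
      rw [e]
      exact (fabs_sub_le v _ _).trans_lt (max_lt h2 h)
    rw [map_one] at h3
    exact absurd h3 (lt_irrefl _)

theorem step (v : HeightOneSpectrum (𝓞 L)) {y : L} {n : ℕ} (h1 : fabs v (y - 1) < 1)
    (h : fabs v (y - 1) < fabs v (n : L)) :
    fabs v (y ^ n - 1) = fabs v (n : L) * fabs v (y - 1) := by
  have hy := one_of_lt v h1
  have e : y ^ n - 1 = ((n : L) + ∑ i ∈ Finset.range n, (y ^ i - 1)) * (y - 1) := by
    rw [← geom_sum_mul y n]
    congr 1
    rw [Finset.sum_sub_distrib]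
    simp
  have hs : fabs v (∑ i ∈ Finset.range n, (y ^ i - 1)) ≤ fabs v (y - 1) :=
    fabs_sum_le v ((fabs v).nonneg _) _ n fun i _ => pow_sub_one_le v hy i
  have h2 : fabs v ((n : L) + ∑ i ∈ Finset.range n, (y ^ i - 1)) = fabs v (n : L) := by
    refine le_antisymm ?_ ?_
    · exact (fabs_add_le v _ _).trans (max_le le_rfl (hs.trans h.le))
    · by_contra hlt
      rw [not_le] at hlt
      have h3 : fabs v (n : L) < fabs v (n : L) := by
        nth_rewrite 1 [show (n : L) = ((n : L) + ∑ i ∈ Finset.range n, (y ^ i - 1)) -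
          ∑ i ∈ Finset.range n, (y ^ i - 1) by ring]
        exact (fabs_sub_le v _ _).trans_lt (max_lt hlt (hs.trans_lt h))
      exact absurd h3 (lt_irrefl _)
  rw [e, map_mul, h2]

theorem lte (v : HeightOneSpectrum (𝓞 L)) {p : ℕ} (hp : p.Prime) (hpv : fabs v (p : L) < 1) :
    ∀ n : ℕ, n ≠ 0 → ∀ y : L, fabs v (y - 1) < fabs v (p : L) →
      fabs v (y ^ n - 1) = fabs v (n : L) * fabs v (y - 1) := by
  intro n
  induction n using Nat.recOnMul with
  | zero => intro h; exact absurd rfl h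
  | one => intro _ y _; simp
  | prime q hq =>
    intro _ y hy
    refine step v (hy.trans hpv) ?_
    by_cases hqp : q = p
    · rw [hqp]; exact hy
    · rw [coprime_one v hpv ((Nat.coprime_primes hq hp).2 hqp)]
      exact hy.trans hpv
  | mul a b ha hb =>
    intro hab y hy
    have ha0 : a ≠ 0 := left_ne_zero_of_mul hab
    have hb0 : b ≠ 0 := right_ne_zero_of_mul hab
    have h1 := ha ha0 y hy
    have h2 : fabs v (y ^ a - 1) < fabs v (p : L) := by
      rw [h1]
      exact (mul_le_of_le_one_left ((fabs v).nonneg _) (fabs_natCast_le v a)).trans_lt hy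
    rw [pow_mul, hb hb0 _ h2, h1, Nat.cast_mul, map_mul]
    ring

/-- lower bound for the absolute value of a natural number -/
theorem natCast_lower (v : HeightOneSpectrum (𝓞 L)) :
    ∃ d : ℕ, ∀ n : ℕ, n ≠ 0 → 1 ≤ fabs v (n : L) * (n : ℝ) ^ d := by
  refine ⟨∑ w : InfinitePlace L, w.mult, fun n hn => ?_⟩
  have hn0 : (n : L) ≠ 0 := Nat.cast_ne_zero.2 hn
  have h := one_le_tprod {v} hn0 fun w _ => fabs_natCast_le w n
  rw [tprod_eq, Finset.prod_singleton] at h
  refine h.trans (le_of_eq ?_)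
  congr 1
  rw [← Finset.prod_pow_eq_pow_sum]
  refine Finset.prod_congr rfl fun w _ => ?_
  congr 1
  have : w (n : L) = ‖w.embedding (n : L)‖ := by rw [w.norm_embedding_eq]
  rw [this, map_natCast, Complex.norm_natCast]

end LTEM

open LTEM in
theorem specLte : SpecLte := by
  intro L _ _ v ε hε hroot
  obtain ⟨p, hp, hpv⟩ := exists_prime v
  have hp0 : 0 < fabs v (p : L) := (fabs v).pos (Nat.cast_ne_zero.2 hp.ne_zero)
  obtain ⟨q, hq, hq2⟩ := exists_exponent v hε (half_pos hp0)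
  have hy : fabs v (ε ^ q - 1) < fabs v (p : L) :=
    (hq2 q dvd_rfl).trans_lt (half_lt_self hp0)
  have hy0 : 0 < fabs v (ε ^ q - 1) := (fabs v).pos (sub_ne_zero.2 (hroot q hq))
  obtain ⟨d, hd⟩ := natCast_lower v
  obtain ⟨c, hc⟩ := exists_nat_gt (1 / fabs v (ε ^ q - 1))
  refine ⟨c + d + 1, by omega, fun m hm => ?_⟩
  have hm1 : (1 : ℝ) ≤ m := by exact_mod_cast hm
  have h1 : fabs v (ε ^ (q * m) - 1) ≤ fabs v (ε ^ m - 1) := by
    have e1 : fabs v (ε ^ m) = 1 := by rw [map_pow, hε, one_pow]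
    have := pow_sub_one_le v e1 q
    rwa [← pow_mul, mul_comm m q] at this
  have h2 : fabs v (ε ^ (q * m) - 1) = fabs v (m : L) * fabs v (ε ^ q - 1) := by
    rw [pow_mul]
    exact lte v hp hpv m hm.ne' _ hy
  have h3 := hd m hm.ne'
  rw [h2] at h1
  refine le_trans ?_ h1
  rw [div_le_iff₀ (by positivity)]
  have h4 : 1 ≤ (((c + d + 1 : ℕ) : ℝ)) * fabs v (ε ^ q - 1) := by
    rw [div_lt_iff₀ hy0] at hc
    refine hc.le.trans ?_
    refine mul_le_mul_of_nonneg_right ?_ hy0.le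
    push_cast
    have : (0 : ℝ) ≤ d := Nat.cast_nonneg d
    linarith
  have h5 : (m : ℝ) ^ d ≤ (m : ℝ) ^ (c + d + 1) := pow_le_pow_right₀ hm1 (by omega)
  have h6 : 1 ≤ fabs v (m : L) * (m : ℝ) ^ (c + d + 1) :=
    h3.trans (mul_le_mul_of_nonneg_left h5 ((fabs v).nonneg _))
  calc (1 : ℝ) ≤ (fabs v (m : L) * (m : ℝ) ^ (c + d + 1)) *
        (((c + d + 1 : ℕ) : ℝ) * fabs v (ε ^ q - 1)) := one_le_mul_of_one_le_of_one_le h6 h4
    _ = _ := by ring

end Pool.Agent.Lib.MP_78b700_nt.HV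
end

section
/-!
# Factorials and `ε ^ m - 1`
-/
set_option autoImplicit false

open IsDedekindDomain NumberField

namespace Pool.Agent.Lib.MP_78b700_nt.HV

namespace MODM

theorem fabs_pow_sub_one_le {L : Type} [Field L] [NumberField L] (v : HeightOneSpectrum (𝓞 L))
    {ε : L} (hε : fabs v ε = 1) (m : ℕ) : fabs v (ε ^ m - 1) ≤ 1 := by
  refine (fabs_sub_le v _ _).trans (max_le ?_ ?_)
  · rw [map_pow, hε, one_pow]
  · rw [map_one]

end MODM

open MODM in
theorem specMod : SpecMod := by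
  classical
  intro L _ _ S ε hε hnt
  refine ⟨fun m hm => ?_, fun l => ?_⟩
  · have h0 : ε ^ m - 1 ≠ 0 := sub_ne_zero.2 (hnt m hm)
    have hfin := finite_fabs_ne_one h0
    choose K hK using fun v : HeightOneSpectrum (𝓞 L) =>
      exists_factorial_lt v ((fabs v).pos h0)
    refine ⟨hfin.toFinset.sup K, fun v hv => ?_⟩
    by_cases h1 : fabs v (ε ^ m - 1) = 1
    · rw [h1]; exact fabs_natCast_le v _
    · exact (hK v _ (Finset.le_sup (f := K) (hfin.mem_toFinset.2 h1))).le
  · have h0 : ((l.factorial : ℕ) : L) ≠ 0 := by exact_mod_cast l.factorial_ne_zero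
    have hfin := finite_fabs_ne_one h0
    have hfin' : {v : {v : HeightOneSpectrum (𝓞 L) // v ∉ S} |
        fabs v.1 ((l.factorial : ℕ) : L) ≠ 1}.Finite :=
      hfin.preimage Subtype.val_injective.injOn
    obtain ⟨R, hR0, hR⟩ := exists_common_exponent (S := S) hfin'.toFinset hε
      (δ := fun v => fabs v.1 ((l.factorial : ℕ) : L)) (fun v => (fabs v.1).pos h0)
    refine ⟨R, hR0, fun m hm v hv => ?_⟩
    by_cases h1 : fabs v ((l.factorial : ℕ) : L) = 1
    · rw [h1]; exact fabs_pow_sub_one_le v (hε.2 v hv) m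
    · exact hR ⟨v, hv⟩ (hfin'.mem_toFinset.2 h1) m hm

end Pool.Agent.Lib.MP_78b700_nt.HV
end

section
/-!
# PLA: automorphisms permute the places above `S` and `∞`
-/
set_option autoImplicit false

open IsDedekindDomain NumberField Polynomial

namespace Pool.Agent.Lib.MP_78b700_nt.HV

theorem specPla (hGalv : SpecGalv) : SpecPla := by
  intro F L _ _ _ _ _ S g w
  rcases w with ⟨v, hv⟩ | w
  · obtain ⟨v', hf, -, hS, -⟩ := hGalv F L g v
    exact ⟨Sum.inl ⟨v', (hS S).2 hv⟩, fun x => (hf x).symm, rfl⟩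
  · refine ⟨Sum.inr (w.comap (g : L →+* L)), fun x => ?_, ?_⟩
    · show w (g x) = (w.comap (g : L →+* L)) x
      rw [InfinitePlace.comap_apply]
      rfl
    · show w.mult = (w.comap (g : L →+* L)).mult
      unfold InfinitePlace.mult
      have : (w.comap (g : L →+* L)).IsReal ↔ w.IsReal :=
        InfinitePlace.isReal_comap_iff (f := g.toRingEquiv)
      by_cases h : w.IsReal
      · rw [if_pos h, if_pos (this.2 h)]
      · rw [if_neg h, if_neg (fun h' => h (this.1 h'))]

end Pool.Agent.Lib.MP_78b700_nt.HV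
end

section
/-!
# PLC: the places of `k` above `S` and `∞` are the orbits of `Gal(L/k)` on those of `L`
-/
set_option autoImplicit false
set_option linter.unusedSectionVars false

open IsDedekindDomain NumberField Polynomial

namespace Pool.Agent.Lib.MP_78b700_nt.HV

namespace PLCM

variable {F L : Type} [Field F] [NumberField F] [Field L] [NumberField L] [Algebra F L]

theorem coe_algebraMap (k : IntermediateField F L) (x : 𝓞 k) :
    algebraMap (𝓞 L) L (algebraMap (𝓞 k) (𝓞 L) x) = algebraMap k L (algebraMap (𝓞 k) k x) :=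
  rfl

/-- restriction of scalars maps `Gal(L/k)` to the fixing subgroup -/
theorem restrictScalars_mem (k : IntermediateField F L) (g : L ≃ₐ[k] L) :
    g.restrictScalars F ∈ k.fixingSubgroup := by
  rw [IntermediateField.mem_fixingSubgroup_iff]
  intro x hx
  exact g.commutes ⟨x, hx⟩

theorem fix_algebraMap (k : IntermediateField F L) {g : L ≃ₐ[F] L} (hg : g ∈ k.fixingSubgroup)
    (x : k) : g (algebraMap k L x) = algebraMap k L x :=
  (IntermediateField.mem_fixingSubgroup_iff k g).1 hg _ x.2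

theorem under_eq_of_rel (k : IntermediateField F L) {g : L ≃ₐ[F] L} (hg : g ∈ k.fixingSubgroup)
    {v v' : HeightOneSpectrum (𝓞 L)} (h : ∀ x, fabs v (g x) = fabs v' x) :
    v.asIdeal.under (𝓞 k) = v'.asIdeal.under (𝓞 k) := by
  ext x
  rw [Ideal.under_def, Ideal.under_def, Ideal.mem_comap, Ideal.mem_comap, ← fabs_coe_lt_iff,
    ← fabs_coe_lt_iff, coe_algebraMap, ← h, fix_algebraMap k hg]

theorem rel_of_under_eq (hGalv : SpecGalv) [IsGalois F L] (k : IntermediateField F L)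
    {v v' : HeightOneSpectrum (𝓞 L)} (h : v.asIdeal.under (𝓞 k) = v'.asIdeal.under (𝓞 k)) :
    ∃ g ∈ k.fixingSubgroup, ∀ x, fabs v (g x) = fabs v' x := by
  have := v.isPrime
  have := v'.isPrime
  obtain ⟨g, hg⟩ := Algebra.IsInvariant.exists_smul_of_under_eq (𝓞 k) (𝓞 L) (L ≃ₐ[k] L)
    v.asIdeal v'.asIdeal h
  refine ⟨(g⁻¹).restrictScalars F, restrictScalars_mem k _, ?_⟩
  obtain ⟨v'', h1, -⟩ := hGalv F L ((g⁻¹).restrictScalars F) v
  have h2 : v'' = v' := by
    apply HeightOneSpectrum.ext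
    ext x
    rw [← fabs_coe_lt_iff, h1, hg, Ideal.mem_pointwise_smul_iff_inv_smul_mem, ← fabs_coe_lt_iff]
    rfl
  rw [← h2]
  exact fun x => (h1 x).symm

theorem comap_eq_of_rel (k : IntermediateField F L) {g : L ≃ₐ[F] L} (hg : g ∈ k.fixingSubgroup)
    {w w' : InfinitePlace L} (h : ∀ x, w.1 (g x) = w'.1 x) :
    w.comap (algebraMap k L) = w'.comap (algebraMap k L) := by
  apply DFunLike.ext
  intro x
  rw [InfinitePlace.comap_apply, InfinitePlace.comap_apply]
  have := h (algebraMap k L x)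
  rw [fix_algebraMap k hg] at this
  exact this

theorem rel_of_comap_eq [IsGalois F L] (k : IntermediateField F L)
    {w w' : InfinitePlace L} (h : w.comap (algebraMap k L) = w'.comap (algebraMap k L)) :
    ∃ g ∈ k.fixingSubgroup, ∀ x, w.1 (g x) = w'.1 x := by
  obtain ⟨σ, rfl⟩ := InfinitePlace.exists_smul_eq_of_comap_eq h
  exact ⟨σ.symm.restrictScalars F, restrictScalars_mem k _, fun x => rfl⟩

theorem inf_two (w : InfinitePlace L) : w.1 (2 : L) = 2 := by
  have h : w (2 : L) = 2 := by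
    have h1 : w.embedding (2 : L) = 2 := map_ofNat _ 2
    rw [← InfinitePlace.norm_embedding_eq w 2, h1, Complex.norm_two]
  exact h

theorem ne_inf (v : HeightOneSpectrum (𝓞 L)) (w : InfinitePlace L) (g : L ≃ₐ[F] L)
    (h : fabs v (g 2) = w.1 2) : False := by
  have h1 : g (2 : L) = ((2 : ℕ) : L) := by rw [Nat.cast_ofNat]; exact map_ofNat g 2
  rw [inf_two, h1] at h
  have := fabs_natCast_le v 2
  linarith

end PLCM

open PLCM

theorem specPlc (hGalv : SpecGalv) (hExtv : SpecExtv) : SpecPlc := by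
  intro F L _ _ _ _ _ _ S k
  classical
  obtain ⟨-, hdown, hup, -⟩ := hExtv k L
  choose res hres using hdown
  have hmem : ∀ v ∈ above L S, ∃ v₀ ∈ S, (res v).asIdeal.under (𝓞 F) = v₀.asIdeal := by
    intro v hv
    obtain ⟨v₀, h₀, h⟩ := mem_above.1 hv
    refine ⟨v₀, h₀, ?_⟩
    rw [← hres, Ideal.under_under, h]
  let φ : TPlace (above L S) → InfinitePlace k ⊕
      {w : HeightOneSpectrum (𝓞 k) // ∃ v ∈ S, w.asIdeal.under (𝓞 F) = v.asIdeal} := fun w =>
    Sum.elim (fun v => Sum.inr ⟨res v.1, hmem v.1 v.2⟩)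
      (fun w => Sum.inl (w.comap (algebraMap k L))) w
  have hsurj : Function.Surjective φ := by
    rintro (w | ⟨w, v₀, hv₀, hw⟩)
    · obtain ⟨w', hw'⟩ := InfinitePlace.comap_surjective (K := L) w
      exact ⟨Sum.inr w', congrArg Sum.inl hw'⟩
    · obtain ⟨v, hv⟩ := hup w
      have hmv : v ∈ above L S := by
        refine mem_above.2 ⟨v₀, hv₀, ?_⟩
        rw [← hw, ← hv, Ideal.under_under]
      refine ⟨Sum.inl ⟨v, hmv⟩, congrArg Sum.inr (Subtype.ext (HeightOneSpectrum.ext ?_))⟩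
      change (res v).asIdeal = w.asIdeal
      rw [← hres, hv]
  have hker : ∀ w w', φ w = φ w' ↔ rel (above L S) k.fixingSubgroup w w' := by
    rintro (v | w) (v' | w')
    · constructor
      · intro h
        have h1 : res v.1 = res v'.1 := congrArg Subtype.val (Sum.inr.inj h)
        exact rel_of_under_eq hGalv k (by rw [hres, hres, h1])
      · rintro ⟨g, hg, h⟩
        have h1 := under_eq_of_rel k hg h
        rw [hres, hres] at h1
        exact congrArg Sum.inr (Subtype.ext (HeightOneSpectrum.ext h1))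
    · refine ⟨fun h => absurd h Sum.inr_ne_inl, ?_⟩
      rintro ⟨g, hg, h⟩
      exact (ne_inf v.1 w' g (h 2)).elim
    · refine ⟨fun h => absurd h Sum.inl_ne_inr, ?_⟩
      rintro ⟨g, hg, h⟩
      refine (ne_inf v'.1 w g⁻¹ ?_).elim
      have := h (g⁻¹ 2)
      rw [← AlgEquiv.mul_apply, mul_inv_cancel, AlgEquiv.one_apply] at this
      exact this.symm
    · constructor
      · intro h
        exact rel_of_comap_eq k (Sum.inl.inj h)
      · rintro ⟨g, hg, h⟩
        exact congrArg Sum.inl (comap_eq_of_rel k hg h)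
  have e : Quot (rel (above L S) k.fixingSubgroup) ≃ InfinitePlace k ⊕
      {w : HeightOneSpectrum (𝓞 k) // ∃ v ∈ S, w.asIdeal.under (𝓞 F) = v.asIdeal} :=
    Equiv.ofBijective (Quot.lift φ fun a b h => (hker a b).2 h) (by
      constructor
      · rintro ⟨a⟩ ⟨b⟩ h
        exact Quot.sound ((hker a b).1 h)
      · intro y
        obtain ⟨x, hx⟩ := hsurj y
        exact ⟨Quot.mk _ x, hx⟩)
  have : Finite {w : HeightOneSpectrum (𝓞 k) // ∃ v ∈ S, w.asIdeal.under (𝓞 F) = v.asIdeal} :=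
    (finite_above k S).to_subtype
  rw [Nat.card_congr e, Nat.card_sum, numPlaces]

end Pool.Agent.Lib.MP_78b700_nt.HV
end

section
/-!
# Module PWR: a convergent sequence which is `γ` times an `n`-th power, for all `n`, tends to `γ`
-/
set_option autoImplicit false

open IsDedekindDomain NumberField NumberField.HeightOneSpectrum

namespace Pool.Agent.Lib.MP_78b700_nt.HV

namespace PWRM

variable {E : Type} [Field E] [NumberField E]

/-- Elements which are integral at `v` are fractions with denominator prime to `v`. -/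
theorem exists_frac (v : HeightOneSpectrum (𝓞 E)) {x : E} (hx : fabs v x ≤ 1) :
    ∃ n d : 𝓞 E, d ∉ v.asIdeal ∧ x * algebraMap (𝓞 E) E d = algebraMap (𝓞 E) E n := by
  have hval : v.valuation E x ≤ 1 := by
    have h := hx
    rw [fabs, adicAbv_def] at h
    have h2 : WithZeroMulInt.toNNReal (absNorm_ne_zero v) (v.valuation E x) ≤ 1 := by
      exact_mod_cast h
    exact (WithZeroMulInt.toNNReal_le_one_iff (one_lt_absNorm_nnreal v)).1 h2
  obtain ⟨n, ⟨d, hd⟩, hnd⟩ := v.exists_primeCompl_mul_eq_of_integer x hval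
  exact ⟨n, d, hd, hnd⟩

/-- A uniform exponent for all units at `v`. -/
theorem exists_uniform (v : HeightOneSpectrum (𝓞 E)) {δ : ℝ} (hδ : 0 < δ) :
    ∃ R : ℕ, 0 < R ∧ ∀ y : E, fabs v y = 1 → ∀ n, R ∣ n → fabs v (y ^ n - 1) ≤ δ := by
  classical
  obtain ⟨c, hc0, hc1, hc⟩ := fabs_le_pow_of_mem v
  obtain ⟨k, hk⟩ := exists_pow_lt_of_lt_one hδ hc1
  have hfin : Finite (𝓞 E ⧸ v.asIdeal ^ k) :=
    (v.asIdeal ^ k).finiteQuotientOfFreeOfNeBot (pow_ne_zero k v.ne_bot)
  cases nonempty_fintype (𝓞 E ⧸ v.asIdeal ^ k)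
  set m := Fintype.card (𝓞 E ⧸ v.asIdeal ^ k) with hm
  have aux : ∀ x : 𝓞 E, fabs v (algebraMap (𝓞 E) E x) = 1 →
      fabs v (algebraMap (𝓞 E) E x ^ (m.factorial) - 1) ≤ δ := by
    intro x hx
    obtain ⟨i, j, hij, heq⟩ := Fintype.exists_ne_map_eq_of_card_lt
      (fun i : Fin (m + 1) => Ideal.Quotient.mk (v.asIdeal ^ k) (x ^ (i : ℕ)))
      (by rw [Fintype.card_fin]; omega)
    wlog hlt : i < j generalizing i j
    · exact this j i hij.symm heq.symm (lt_of_le_of_ne (not_lt.1 hlt) hij.symm)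
    have hlt' : (i : ℕ) < j := hlt
    have h1 : x ^ (j : ℕ) - x ^ (i : ℕ) ∈ v.asIdeal ^ k := Ideal.Quotient.eq.1 heq.symm
    have h2 := hc k _ h1
    have h3 : algebraMap (𝓞 E) E (x ^ (j : ℕ) - x ^ (i : ℕ)) =
        algebraMap (𝓞 E) E x ^ (i : ℕ) * (algebraMap (𝓞 E) E x ^ ((j : ℕ) - i) - 1) := by
      rw [map_sub, map_pow, map_pow, mul_sub, ← pow_add, Nat.add_sub_cancel' hlt'.le, mul_one]
    rw [h3, map_mul, map_pow, hx, one_pow, one_mul] at h2
    have h4 : (j : ℕ) - i ∣ m.factorial :=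
      Nat.dvd_factorial (by omega) (by have := j.2; omega)
    obtain ⟨s, hs⟩ := h4
    rw [hs, pow_mul]
    exact ((pow_sub_one_le v (by rw [map_pow, hx, one_pow]) s).trans h2).trans hk.le
  refine ⟨m.factorial, Nat.factorial_pos m, fun y hy n hn => ?_⟩
  obtain ⟨n₁, d, hd, hnd⟩ := exists_frac v hy.le
  have hdv : fabs v (algebraMap (𝓞 E) E d) = 1 := fabs_eq_one_of_notMem v hd
  have hnv : fabs v (algebraMap (𝓞 E) E n₁) = 1 := by
    rw [← hnd, map_mul, hy, one_mul]; exact hdv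
  have b1 := aux n₁ hnv
  have b2 := aux d hdv
  have hd0 : algebraMap (𝓞 E) E d ≠ 0 := by
    intro h0; rw [h0, map_zero] at hdv; exact zero_ne_one hdv
  have b3 : fabs v (y ^ m.factorial - 1) ≤ δ := by
    have e3 : y ^ m.factorial - 1 = ((algebraMap (𝓞 E) E n₁ ^ m.factorial - 1) -
        (algebraMap (𝓞 E) E d ^ m.factorial - 1)) / algebraMap (𝓞 E) E d ^ m.factorial := by
      rw [← hnd, mul_pow]
      field_simp
      ring
    rw [e3, map_div₀, map_pow, hdv, one_pow, div_one]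
    exact (fabs_sub_le v _ _).trans (max_le b1 b2)
  obtain ⟨s, rfl⟩ := hn
  rw [pow_mul]
  exact (pow_sub_one_le v (by rw [map_pow, hy, one_pow]) s).trans b3

theorem gap (v : HeightOneSpectrum (𝓞 E)) :
    ∃ c : ℝ, 0 ≤ c ∧ c < 1 ∧ ∀ y : E, fabs v y < 1 → fabs v y ≤ c := by
  obtain ⟨c, hc0, hc1, hc⟩ := fabs_le_pow_of_mem v
  refine ⟨c, hc0, hc1, fun y hy => ?_⟩
  obtain ⟨n₁, d, hd, hnd⟩ := exists_frac v hy.le
  have hdv : fabs v (algebraMap (𝓞 E) E d) = 1 := fabs_eq_one_of_notMem v hd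
  have h1 : fabs v (algebraMap (𝓞 E) E n₁) = fabs v y := by
    rw [← hnd, map_mul, hdv, mul_one]
  have h2 : n₁ ∈ v.asIdeal := (fabs_coe_lt_iff v n₁).1 (by rw [h1]; exact hy)
  have h3 := hc 1 n₁ (by rwa [pow_one])
  rw [pow_one, h1] at h3
  exact h3

/-- An element whose absolute value is an `n`-th power for all `n` is a unit at `v`. -/
theorem eq_one_of_pow (v : HeightOneSpectrum (𝓞 E)) {b : ℝ} (hb : 0 < b)
    (h : ∀ n : ℕ, 0 < n → ∃ y : E, b = fabs v y ^ n) : b = 1 := by
  obtain ⟨c, hc0, hc1, hc⟩ := gap v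
  have key : ∀ b' : ℝ, 0 < b' → (∀ n : ℕ, 0 < n → ∃ y : E, b' = fabs v y ^ n) → 1 ≤ b' := by
    intro b' hb' h'
    by_contra hlt
    push Not at hlt
    obtain ⟨n, hn⟩ := exists_pow_lt_of_lt_one hb' hc1
    obtain ⟨y, hy⟩ := h' (n + 1) (Nat.succ_pos n)
    have h1 : fabs v y < 1 := by
      by_contra hge
      push Not at hge
      exact absurd (one_le_pow₀ hge (n := n + 1)) (not_le.2 (hy ▸ hlt))
    have h2 := hc y h1
    have h3 : b' ≤ c ^ (n + 1) := by
      rw [hy]
      exact pow_le_pow_left₀ ((fabs v).nonneg _) h2 _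
    have h4 : c ^ (n + 1) ≤ c ^ n := pow_le_pow_of_le_one hc0 hc1.le (Nat.le_succ n)
    linarith
  refine le_antisymm ?_ (key b hb h)
  have h1 : 1 ≤ b⁻¹ := by
    refine key b⁻¹ (inv_pos.2 hb) fun n hn => ?_
    obtain ⟨y, hy⟩ := h n hn
    exact ⟨y⁻¹, by rw [hy, map_inv₀, inv_pow]⟩
  exact (one_le_inv₀ hb).1 h1

end PWRM

open PWRM in
theorem specPWR (hGaln : SpecGaln) (hExtv : SpecExtv) : SpecPwr := by
  intro L E _ _ _ _ _ _ S a ha γ hγ h
  classical
  obtain ⟨hE1, hE2, hE3, hE4⟩ := hExtv L E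
  have ha0 : ∀ k, a k ≠ 0 := fun k => (ha k k le_rfl).1
  have hinj : Function.Injective (algebraMap L E) := FaithfulSMul.algebraMap_injective L E
  have haE : ∀ k, algebraMap L E (a k) ≠ 0 := fun k h0 =>
    ha0 k (hinj (by rw [h0, map_zero]))
  -- the absolute value of `a k` does not depend on `k`
  have hconst : ∀ w ∉ above E S, ∀ k, fabs w (algebraMap L E (a k)) = fabs w (algebraMap L E (a 0)) := by
    intro w hw k
    have h1 := ((hE4 S 0 (a 0) (a k)).2 (ha 0 k (Nat.zero_le k))).2.2 w hw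
    have h2 := h1.1
    rw [map_div₀, div_eq_one_iff_eq ((map_ne_zero _).2 (haE k))] at h2
    exact h2.symm
  have hone : ∀ w ∉ above E S, ∀ k, fabs w (algebraMap L E (a k) / γ) = 1 := by
    intro w hw k
    have hb : fabs w (algebraMap L E (a 0) / γ) = 1 := by
      refine eq_one_of_pow w ((fabs w).pos (div_ne_zero (haE 0) hγ)) fun n hn => ?_
      obtain ⟨k, -, y, hy⟩ := h n hn 0
      refine ⟨y, ?_⟩
      rw [map_div₀, ← hconst w hw k, hy, map_mul, map_pow, mul_div_assoc, mul_comm,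
        div_mul_cancel₀ _ ((map_ne_zero _).2 hγ)]
    rw [map_div₀, hconst w hw k, ← map_div₀]
    exact hb
  have hnear : ∀ l, Near (above E S) l (algebraMap L E (a l)) γ := by
    intro l
    have hl0 : ((l.factorial : ℕ) : E) ≠ 0 := by exact_mod_cast l.factorial_ne_zero
    have hex := fun w : HeightOneSpectrum (𝓞 E) => exists_uniform w ((fabs w).pos hl0)
    choose R hR0 hR using hex
    obtain ⟨k, hk, y, hy⟩ := h (∏ w ∈ (finite_fabs_ne_one hl0).toFinset, R w)
      (Finset.prod_pos fun w _ => hR0 w) l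
    have hyk : algebraMap L E (a k) / γ =
        y ^ (∏ w ∈ (finite_fabs_ne_one hl0).toFinset, R w) := by
      rw [hy]; field_simp
    have h1 : Near (above E S) l (algebraMap L E (a k)) γ := by
      refine ⟨haE k, hγ, fun w hw => ⟨hone w hw k, ?_⟩⟩
      have hy1 : fabs w y = 1 := by
        have h2 := hone w hw k
        rw [hyk, map_pow] at h2
        exact (pow_eq_one_iff_of_nonneg ((fabs w).nonneg _)
          (Finset.prod_pos fun w _ => hR0 w).ne').1 h2
      by_cases hwl : fabs w ((l.factorial : ℕ) : E) = 1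
      · rw [hwl]
        refine (fabs_sub_le w _ _).trans (max_le (hone w hw k).le ?_)
        rw [map_one]
      · rw [hyk]
        exact hR w y hy1 _ (Finset.dvd_prod_of_mem R ((finite_fabs_ne_one hl0).mem_toFinset.2 hwl))
    exact ((hE4 S l (a l) (a k)).2 (ha l k hk)).trans h1
  have hfix : ∀ g : E ≃ₐ[L] E, g γ = γ := by
    intro g
    refine (Near.eq (S := above E S) fun k => ?_).symm
    have h1 := hGaln L E S g k _ _ (hnear k)
    rw [AlgEquiv.commutes] at h1
    exact (hnear k).symm.trans h1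
  have hfd : FiniteDimensional L E := Module.Finite.of_restrictScalars_finite ℚ L E
  obtain ⟨γ', hγ'⟩ := (IsGalois.mem_range_algebraMap_iff_fixed γ).2 hfix
  refine ⟨γ', fun k => ?_⟩
  rw [← hE4 S k (a k) γ', hγ']
  exact hnear k

end Pool.Agent.Lib.MP_78b700_nt.HV
end

section
/-!
# The easy inclusion
-/
set_option autoImplicit false

open IsDedekindDomain NumberField Polynomial
open scoped RestrictedProduct

namespace Pool.Agent.Lib.MP_78b700_nt.HV

theorem specRev : SpecRev := by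
  intro F L _ _ _ _ _ f S p hp
  obtain ⟨l, a, b, h⟩ := hp
  have hne : ∀ θ : f.rootSet L, algebraMap F L a - θ * algebraMap F L b ≠ 0 := by
    intro θ h0
    have h1 := h θ
    rw [h0, map_zero, mul_zero] at h1
    obtain ⟨v, hv⟩ := exists_notMem (above L S)
    have h2 : (p θ : Ad L S) * ((p θ)⁻¹ : (Ad L S)ˣ) = 1 := Units.mul_inv _
    rw [h1, zero_mul] at h2
    have h3 : (0 : Ad L S) ⟨v, hv⟩ = (1 : Ad L S) ⟨v, hv⟩ := by rw [h2]
    exact zero_ne_one h3
  refine ⟨⟨l * diag L (above L S) (algebraMap F L a), l * diag L (above L S) (algebraMap F L b),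
    fun θ => ?_⟩, subset_closure ⟨l, fun θ => Units.mk0 _ (hne θ), ?_, fun θ => ?_⟩⟩
  · rw [h θ, map_sub, map_mul]
    ring
  · intro g θ θ' hg
    simp only [Units.val_mk0, map_sub, map_mul, AlgEquiv.commutes, hg]
  · apply Units.ext
    rw [h θ]
    rfl

end Pool.Agent.Lib.MP_78b700_nt.HV
end

section
/-!
# RNK: the absolute values of the elements of `UU`
-/
set_option autoImplicit false

open IsDedekindDomain NumberField Polynomial

namespace Pool.Agent.Lib.MP_78b700_nt.HV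

namespace RNKM

section

variable {F L : Type} [Field F] [NumberField F] [Field L] [NumberField L] [Algebra F L]
  {T : Finset (HeightOneSpectrum (𝓞 L))} {G H : Subgroup (L ≃ₐ[F] L)}

theorem rel_refl (w : TPlace T) : rel T G w w := ⟨1, G.one_mem, fun _ => rfl⟩

theorem rel_symm {w w' : TPlace T} (h : rel T G w w') : rel T G w' w := by
  obtain ⟨g, hg, h⟩ := h
  refine ⟨g⁻¹, G.inv_mem hg, fun x => ?_⟩
  rw [← h, ← AlgEquiv.mul_apply, mul_inv_cancel, AlgEquiv.one_apply]

theorem rel_trans {w w' w'' : TPlace T} (h : rel T G w w') (h' : rel T G w' w'') :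
    rel T G w w'' := by
  obtain ⟨g, hg, h⟩ := h
  obtain ⟨g', hg', h'⟩ := h'
  refine ⟨g * g', G.mul_mem hg hg', fun x => ?_⟩
  rw [AlgEquiv.mul_apply, h, h']

theorem rel_equiv : Equivalence (rel (F := F) T G) :=
  ⟨rel_refl, rel_symm, rel_trans⟩

theorem mk_eq {w w' : TPlace T} : Quot.mk (rel T G) w = Quot.mk (rel T G) w' ↔ rel T G w w' :=
  rel_equiv.quot_mk_eq_iff w w'

/-- an `S`-unit with all absolute values `≥ 1` -/
theorem le_one {u : L} (hu : IsSUnit T u) (h1 : ∀ t, 1 ≤ tabs T t u) (w : TPlace T) :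
    tabs T w u ≤ 1 := by
  classical
  by_contra hcon
  push Not at hcon
  have hp := tprod_eq_one T hu.1 hu.2
  have : 1 < tprod T u := by
    unfold tprod
    rw [← Finset.mul_prod_erase Finset.univ _ (Finset.mem_univ w)]
    have ha : 1 < tabs T w u ^ texp T w := one_lt_pow₀ hcon (texp_pos T w).ne'
    have hb : 1 ≤ ∏ t ∈ Finset.univ.erase w, tabs T t u ^ texp T t := by
      have := Finset.prod_le_prod (s := Finset.univ.erase w) (f := fun _ => (1 : ℝ))
        (g := fun t => tabs T t u ^ texp T t) (fun _ _ => zero_le_one)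
        (fun t _ => one_le_pow₀ (h1 t))
      simpa using this
    nlinarith
  linarith

theorem isSUnit_inv {u : L} (hu : IsSUnit T u) : IsSUnit T u⁻¹ := by
  have := hu.zpow (-1)
  rwa [zpow_neg_one] at this

theorem eq_one_of_const {u : L} (hu : IsSUnit T u) (h : ∀ w w', tabs T w u = tabs T w' u)
    (w : TPlace T) : tabs T w u = 1 := by
  have hpos : ∀ t, 0 < tabs T t u := fun t => (tabs T t).pos hu.1
  rcases le_total 1 (tabs T w u) with h1 | h1
  · exact le_antisymm (le_one hu (fun t => by rw [h t w]; exact h1) w) h1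
  · refine le_antisymm h1 ?_
    have h2 : tabs T w u⁻¹ ≤ 1 := by
      refine le_one (isSUnit_inv hu) (fun t => ?_) w
      rw [map_inv₀, h t w]
      exact (one_le_inv₀ (hpos w)).2 h1
    rw [map_inv₀, inv_le_one₀ (hpos w)] at h2
    exact h2

/-- the absolute values are constant on the orbits if `u` is fixed by `G` -/
theorem const_of_rel {u : L} (hu : ∀ g ∈ G, g u = u) {w w' : TPlace T} (h : rel T G w w') :
    tabs T w u = tabs T w' u := by
  obtain ⟨g, hg, h⟩ := h
  rw [← h, hu g hg]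

theorem card_succ_le {α β : Type} [Finite α] (π : α → β) (hπ : Function.Surjective π) {a a' : α}
    (hne : a ≠ a') (h : π a = π a') : Nat.card β + 1 ≤ Nat.card α := by
  classical
  have : Fintype α := Fintype.ofFinite α
  have : Finite β := Finite.of_surjective π hπ
  have : Fintype β := Fintype.ofFinite β
  rw [Nat.card_eq_fintype_card, Nat.card_eq_fintype_card]
  exact Fintype.card_lt_of_surjective_not_injective π hπ fun hi => hne (hi h)

theorem card_add_two_le {α β : Type} [Finite α] (π : α → β) (hπ : Function.Surjective π)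
    {a a' b b' : α} (hne : a ≠ a') (h : π a = π a') (hne' : b ≠ b') (h' : π b = π b')
    (hab : π a ≠ π b) : Nat.card β + 2 ≤ Nat.card α := by
  classical
  have : Fintype α := Fintype.ofFinite α
  have hba : b ≠ a' := by rintro rfl; exact hab h
  have hba' : b' ≠ a' := by rintro rfl; exact hab (h.trans h'.symm)
  have h1 : Nat.card β + 1 ≤ Nat.card {x : α // x ≠ a'} := by
    refine card_succ_le (fun x : {x : α // x ≠ a'} => π x.1) (fun y => ?_)
      (a := ⟨b, hba⟩) (a' := ⟨b', hba'⟩) (fun e => hne' (congrArg Subtype.val e)) h'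
    obtain ⟨x, rfl⟩ := hπ y
    by_cases hx : x = a'
    · exact ⟨⟨a, hne⟩, by rw [hx]; exact h⟩
    · exact ⟨⟨x, hx⟩, rfl⟩
  have h2 : Nat.card {x : α // x ≠ a'} + 1 ≤ Nat.card α := by
    rw [Nat.card_eq_fintype_card, Nat.card_eq_fintype_card]
    have := Fintype.card_subtype_lt (p := fun x : α => x ≠ a') (x := a') (by simp)
    omega
  omega

end

end RNKM

open RNKM in
theorem specRnk (hPla : SpecPla) : SpecRnk := by
  classical
  intro F L _ _ _ _ _ S G H r hHG hr hc
  set T := above L S with hT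
  have hfin : ∀ K : Subgroup (L ≃ₐ[F] L), Finite (Quot (rel T K)) := fun K =>
    Finite.of_surjective (Quot.mk (rel T K)) Quot.mk_surjective
  obtain ⟨w₀⟩ : Nonempty (TPlace T) := ⟨Sum.inr (Classical.arbitrary _)⟩
  rcases hc with ⟨rfl, hc⟩ | ⟨hidx, hc⟩
  · -- `H = G`
    have hfix : ∀ u ∈ UU T H H, ∀ g ∈ H, g u = u := fun u hu g hg => (hu.2 g hg).1 hg
    constructor
    · rintro rfl u hu w
      refine eq_one_of_const hu.1 (fun w w' => const_of_rel (hfix u hu) (mk_eq.1 ?_)) w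
      have := hfin H
      have h1 : Nat.card (Quot (rel T H)) ≤ 1 := by simpa using hc
      have := Finite.card_le_one_iff_subsingleton.1 h1
      exact Subsingleton.elim _ _
    · refine ⟨w₀, fun u hu h1 w => ?_⟩
      by_contra hcon
      push Not at hcon
      have hall : ∀ t, 1 ≤ tabs T t u := by
        intro t
        have hne : Quot.mk (rel T H) w₀ ≠ Quot.mk (rel T H) w := by
          intro e
          rw [const_of_rel (hfix u hu) (mk_eq.1 e)] at hcon
          exact lt_irrefl _ hcon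
        by_contra ht
        push Not at ht
        have hne1 : Quot.mk (rel T H) t ≠ Quot.mk (rel T H) w₀ := by
          intro e
          rw [const_of_rel (hfix u hu) (mk_eq.1 e)] at ht
          linarith
        have hne2 : Quot.mk (rel T H) t ≠ Quot.mk (rel T H) w := by
          intro e
          rw [const_of_rel (hfix u hu) (mk_eq.1 e)] at ht
          linarith
        have := hfin H
        have : Fintype (Quot (rel T H)) := Fintype.ofFinite _
        rw [Nat.card_eq_fintype_card] at hc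
        have h3 : 2 < Fintype.card (Quot (rel T H)) := by
          rw [Fintype.two_lt_card_iff]
          exact ⟨_, _, _, hne1, hne2, hne⟩
        omega
      have := le_one hu.1 hall w
      linarith
  · -- index 2
    obtain ⟨g₀, hg₀, hg₀'⟩ : ∃ g ∈ G, g ∉ H := by
      by_contra hcon
      push Not at hcon
      rw [Subgroup.relIndex_eq_one.2 (show G ≤ H from hcon)] at hidx
      omega
    let π : Quot (rel T H) → Quot (rel T G) := Quot.map id fun a b ⟨g, hg, h⟩ => ⟨g, hHG hg, h⟩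
    have hπmk : ∀ w, π (Quot.mk _ w) = Quot.mk _ w := fun w => rfl
    have hπ : Function.Surjective π := by
      intro y
      obtain ⟨w, rfl⟩ := Quot.mk_surjective y
      exact ⟨Quot.mk _ w, rfl⟩
    have hpos : ∀ u ∈ UU T G H, ∀ w, 0 < tabs T w u := fun u hu w => (tabs T w).pos hu.1.1
    -- good places
    have hgood : ∀ w, (∃ g ∈ G, g ∉ H ∧ ∀ x, tabs T w (g x) = tabs T w x) →
        ∀ u ∈ UU T G H, tabs T w u = 1 := by
      rintro w ⟨g, hg, hgH, h⟩ u hu
      have h1 := h u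
      rw [(hu.2 g hg).2 hgH, map_inv₀] at h1
      have h0 := hpos u hu w
      have h2 : tabs T w u * tabs T w u = 1 := by
        nth_rewrite 1 [← h1]
        exact inv_mul_cancel₀ h0.ne'
      nlinarith
    -- bad places
    have hbad : ∀ w, (¬ ∃ g ∈ G, g ∉ H ∧ ∀ x, tabs T w (g x) = tabs T w x) →
        ∃ a', Quot.mk (rel T H) w ≠ a' ∧ π (Quot.mk (rel T H) w) = π a' := by
      intro w hw
      obtain ⟨w', hw', _⟩ := hPla F L S g₀ w
      refine ⟨Quot.mk _ w', fun e => hw ?_, ?_⟩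
      · obtain ⟨h, hh, h1⟩ := mk_eq.1 e
        refine ⟨g₀ * h⁻¹, G.mul_mem hg₀ (G.inv_mem (hHG hh)), fun hcon => hg₀' ?_, fun x => ?_⟩
        · have := H.mul_mem hcon hh
          rwa [inv_mul_cancel_right] at this
        · rw [AlgEquiv.mul_apply, hw', ← h1, ← AlgEquiv.mul_apply, mul_inv_cancel,
            AlgEquiv.one_apply]
      · rw [hπmk, hπmk, mk_eq]
        exact ⟨g₀, hg₀, hw'⟩
    have hHfin := hfin H
    constructor
    · rintro rfl u hu w
      by_cases hw : ∃ g ∈ G, g ∉ H ∧ ∀ x, tabs T w (g x) = tabs T w x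
      · exact hgood w hw u hu
      · obtain ⟨a', h1, h2⟩ := hbad w hw
        have := card_succ_le π hπ h1 h2
        omega
    · by_cases hex : ∃ w, ¬ ∃ g ∈ G, g ∉ H ∧ ∀ x, tabs T w (g x) = tabs T w x
      · obtain ⟨w₁, hw₁⟩ := hex
        refine ⟨w₁, fun u hu h1 w => ?_⟩
        by_cases hw : ∃ g ∈ G, g ∉ H ∧ ∀ x, tabs T w (g x) = tabs T w x
        · rw [hgood w hw u hu]
          exact h1
        · obtain ⟨a, ha1, ha2⟩ := hbad w₁ hw₁
          obtain ⟨b, hb1, hb2⟩ := hbad w hw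
          have hsame : π (Quot.mk (rel T H) w₁) = π (Quot.mk (rel T H) w) := by
            by_contra hne
            have := card_add_two_le π hπ ha1 ha2 hb1 hb2 hne
            omega
          rw [hπmk, hπmk, mk_eq] at hsame
          obtain ⟨g, hg, h⟩ := hsame
          rw [← h]
          by_cases hgH : g ∈ H
          · rw [(hu.2 g hg).1 hgH]
          · rw [(hu.2 g hg).2 hgH, map_inv₀]
            exact (inv_le_one_of_one_le₀ h1).trans h1
      · push Not at hex
        refine ⟨w₀, fun u hu h1 w => ?_⟩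
        obtain ⟨g, hg, hgH, h⟩ := hex w
        rw [hgood w ⟨g, hg, hgH, h⟩ u hu]
        exact h1

end Pool.Agent.Lib.MP_78b700_nt.HV
end
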