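import Pool.Agent.Lib.MP_78b700_nt.HV.Near

/-!
# Specifications (text: /team-store/MP_78b700_HV.md)

Available: `Places.lean` (`fabs`, `TPlace`, `tabs`, `texp`, `tprod`, `one_le_tprod`, `tprod_eq_one`,
`tprod_mul`, `finite_bounded`, `finite_fabs_ne_one`), `RankOne.lean` (`IsSUnit`, `zpow_sub_zpow_le`,
`pow_sub_one_le`), `Approx.lean` (`exists_exponent`, `exists_common_exponent`, `norm_coe_eq`,
`limit_in_finite`), `Closure.lean` (`nbhd`, `isOpen_nbhd`, `closure_approx`), `Final.lean`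
(`norm_add_le_max'`, `exists_small_place`, `exists_small`, `exists_notMem`), `Near.lean`.
-/

set_option autoImplicit false

open IsDedekindDomain NumberField Polynomial

namespace Pool.Agent.Lib.MP_78b700_nt.HV

/-! ## Part A: places -/

/-- GALV (100 lines). `v'` = inverse image of `v` under the automorphism of `𝓞 L` given by `g`:
`x ∈ v'^n ↔ g x ∈ v^n`, so the valuations agree (`intValuation_le_pow_iff_mem`), and
`𝓞 L / v' ≅ 𝓞 L / v`. -/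
def SpecGalv : Prop :=
  ∀ (F L : Type) [Field F] [NumberField F] [Field L] [NumberField L] [Algebra F L]
    (g : L ≃ₐ[F] L) (v : HeightOneSpectrum (𝓞 L)), ∃ v' : HeightOneSpectrum (𝓞 L),
    (∀ x, fabs v' x = fabs v (g x)) ∧
      v'.asIdeal.under (𝓞 F) = v.asIdeal.under (𝓞 F) ∧
      (∀ S : Finset (HeightOneSpectrum (𝓞 F)), v' ∈ above L S ↔ v ∈ above L S) ∧
      ∀ w : HeightOneSpectrum (𝓞 L), (∀ x, fabs w x = fabs v (g x)) → w = v'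

/-- GALN (20 lines, from GALV): closeness is stable under automorphisms. -/
def SpecGaln : Prop :=
  ∀ (F L : Type) [Field F] [NumberField F] [Field L] [NumberField L] [Algebra F L]
    (S : Finset (HeightOneSpectrum (𝓞 F))) (g : L ≃ₐ[F] L) (k : ℕ) (a b : L),
    Near (above L S) k a b → Near (above L S) k (g a) (g b)

/-- EXTV (100 lines): `Mathlib/NumberTheory/RamificationInertia/Valuation.lean`, or:
`fabs v x ≤ 1` iff `x = n / d` with `d ∉ v`. -/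
def SpecExtv : Prop :=
  ∀ (L E : Type) [Field L] [NumberField L] [Field E] [NumberField E] [Algebra L E],
    (∀ (w : HeightOneSpectrum (𝓞 E)) (v : HeightOneSpectrum (𝓞 L)),
      w.asIdeal.under (𝓞 L) = v.asIdeal → ∀ x y : L,
        fabs w (algebraMap L E x) ≤ fabs w (algebraMap L E y) ↔ fabs v x ≤ fabs v y) ∧
    (∀ w : HeightOneSpectrum (𝓞 E), ∃ v : HeightOneSpectrum (𝓞 L),
      w.asIdeal.under (𝓞 L) = v.asIdeal) ∧
    (∀ v : HeightOneSpectrum (𝓞 L), ∃ w : HeightOneSpectrum (𝓞 E),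
      w.asIdeal.under (𝓞 L) = v.asIdeal) ∧
    ∀ (S : Finset (HeightOneSpectrum (𝓞 L))) (k : ℕ) (a b : L),
      Near (above E S) k (algebraMap L E a) (algebraMap L E b) ↔ Near S k a b

/-- PLA (60 lines, from GALV): automorphisms permute the places above `S` and `∞`. -/
def SpecPla : Prop :=
  ∀ (F L : Type) [Field F] [NumberField F] [Field L] [NumberField L] [Algebra F L]
    (S : Finset (HeightOneSpectrum (𝓞 F))) (g : L ≃ₐ[F] L) (w : TPlace (above L S)),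
    ∃ w' : TPlace (above L S), (∀ x, tabs _ w (g x) = tabs _ w' x) ∧ texp _ w = texp _ w'

/-- conjugate places -/
def rel {F L : Type} [Field F] [NumberField F] [Field L] [NumberField L] [Algebra F L]
    (S : Finset (HeightOneSpectrum (𝓞 L))) (G : Subgroup (L ≃ₐ[F] L)) (w w' : TPlace S) : Prop :=
  ∃ g ∈ G, ∀ x, tabs S w (g x) = tabs S w' x

/-- PLC (250 lines, from GALV, PLA, EXTV): the places of `k` above `S` and `∞` are the orbits of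
`Gal(L/k)` on the places of `L` above `S` and `∞`. Restriction of places (`Ideal.under`,
`InfinitePlace.comap`) is surjective; the fibres are the orbits: transitivity on primes above a
prime (Mathlib: the Galois group acts transitively on `primesOver`), on infinite places
`InfinitePlace.exists_smul_eq_of_comap_eq`; a finite place is not conjugate to an infinite one
(value at 2). `rel` is an equivalence relation. -/
def SpecPlc : Prop :=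
  ∀ (F L : Type) [Field F] [NumberField F] [Field L] [NumberField L] [Algebra F L] [IsGalois F L]
    (S : Finset (HeightOneSpectrum (𝓞 F))) (k : IntermediateField F L),
    numPlaces F S k = Nat.card (Quot (rel (above L S) k.fixingSubgroup))

/-- the `S`-units `u` with `g u = u` for `g ∈ H` and `g u = u⁻¹` for `g ∈ G`, `g ∉ H` -/
def UU {F L : Type} [Field F] [NumberField F] [Field L] [NumberField L] [Algebra F L]
    (S : Finset (HeightOneSpectrum (𝓞 L))) (G H : Subgroup (L ≃ₐ[F] L)) : Set L :=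
  {u | IsSUnit S u ∧ ∀ g ∈ G, (g ∈ H → g u = u) ∧ (g ∉ H → g u = u⁻¹)}

/-- RNK (200 lines, from PLA). `|u|_w` for `u ∈ UU`. `H = G`: constant on the orbits of `G`; one
orbit: product formula (`tprod_eq_one`): 1; two orbits with values `a`, `b`: `a^e b^e' = 1`,
`e, e' > 0`. `H ≠ G`: if some `g ∈ G`, `g ∉ H` fixes `w` (`|g x|_w = |x|_w`) then `|u|_w = 1`.
Otherwise choose `g ∈ G`, `g ∉ H`, `w'` with `|g x|_w = |x|_w'`: `w'` is in the `G`-orbit of `w`,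
not in the `H`-orbit: the fibre of `Quot (rel H) → Quot (rel G)` at `w` has `≥ 2` elements. So for
`r = 0` there is no such `w`, for `r = 1` all such `w` are in one `G`-orbit (of `w₁`), where
`|u|_w = |u|_{w₁}^{±1}`. -/
def SpecRnk : Prop :=
  ∀ (F L : Type) [Field F] [NumberField F] [Field L] [NumberField L] [Algebra F L]
    (S : Finset (HeightOneSpectrum (𝓞 F))) (G H : Subgroup (L ≃ₐ[F] L)) (r : ℕ), H ≤ G → r ≤ 1 →
    ((H = G ∧ Nat.card (Quot (rel (above L S) G)) ≤ r + 1) ∨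
      (H.relIndex G = 2 ∧
        Nat.card (Quot (rel (above L S) H)) ≤ Nat.card (Quot (rel (above L S) G)) + r)) →
    (r = 0 → ∀ u ∈ UU (above L S) G H, ∀ w, tabs (above L S) w u = 1) ∧
    ∃ w₁, ∀ u ∈ UU (above L S) G H, 1 ≤ tabs (above L S) w₁ u →
      ∀ w, tabs (above L S) w u ≤ tabs (above L S) w₁ u

/-- VCY (80 lines): if no `u ∈ U` has `|u|_{w₁} > 1` then all `|u|_w ≤ 1` (`u` and `u⁻¹`), finite by
`finite_bounded`. Otherwise `ε` with `E = |ε|_{w₁} > 1`, and `u ε^(-n)` has `1 ≤ |.|_{w₁} < E`: `Z` =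
the elements of `U` with all `|.|_w ≤ E` (cf. `virt_cyclic`). -/
def SpecVcy : Prop :=
  ∀ (L : Type) [Field L] [NumberField L] (S : Finset (HeightOneSpectrum (𝓞 L))) (U : Set L),
    (∀ u ∈ U, IsSUnit S u) → 1 ∈ U → (∀ u ∈ U, ∀ u' ∈ U, u * u'⁻¹ ∈ U) →
    (∃ w₁, ∀ u ∈ U, 1 ≤ tabs S w₁ u → ∀ w, tabs S w u ≤ tabs S w₁ u) →
    U.Finite ∨ ∃ ε ∈ U, (∃ w, 1 < tabs S w ε) ∧ ∃ Z : Set L, Z.Finite ∧ Z ⊆ U ∧
      ∀ u ∈ U, ∃ z ∈ Z, ∃ n : ℤ, u = z * ε ^ n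

/-! ## Part B: the group of characters -/

section

variable {F L : Type} [Field F] [NumberField F] [Field L] [NumberField L] [Algebra F L]
  (f : F[X]) (S : Finset (HeightOneSpectrum (𝓞 F)))

/-- characters of the torus which behave under `G` like the elements of `UU` -/
def IsChar (G H : Subgroup (L ≃ₐ[F] L)) (n : f.rootSet L → ℤ) : Prop :=
  ∑ θ, n θ = 0 ∧ ∀ g ∈ G, ∀ θ θ' : f.rootSet L, g θ = θ' →
    (g ∈ H → n θ' = n θ) ∧ (g ∉ H → n θ' = - n θ)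

/-- the value of a character -/
noncomputable def chi (n : f.rootSet L → ℤ) (t : f.rootSet L → Lˣ) : L := ∏ θ, (t θ : L) ^ n θ

/-- approximations in `T(F)` of a point of `X` -/
structure Appr (t : ℕ → f.rootSet L → Lˣ) : Prop where
  equi : ∀ k, Equi f (t k)
  conv : ∀ θ θ', Conv (above L S) fun k => (t k θ : L) / t k θ'
  lin : ∃ d : L, d ≠ 0 ∧ ∀ k, ∀ v ∉ above L S, ∀ θ θ' θ'' : f.rootSet L,
    fabs v (d * (((θ - θ' : L) * t k θ'' + (θ' - θ'' : L) * t k θ + (θ'' - θ : L) * t k θ') /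
      t k θ')) ≤ fabs v ((k.factorial : ℕ) : L)

end

/-- CHA (150 lines): `O_i` = orbit of `θ_i` under `G = Gal(L/k)`, `θ_0, .., θ_{r+1}` with different
minimal polynomials over `k`: `n_i(θ) = #{g ∈ G : g θ_i = θ} - #{g ∈ G : g θ_0 = θ}`,
`i = 1, .., r + 1`. Independent: value at `θ_j`. -/
def SpecCha : Prop :=
  ∀ (F L : Type) [Field F] [NumberField F] [Field L] [NumberField L] [Algebra F L] [IsGalois F L]
    (f : F[X]) (k : IntermediateField F L) (r : ℕ), f ≠ 0 → r + 2 ≤ (closedPts f k).ncard →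
    ∃ n : Fin (r + 1) → f.rootSet L → ℤ, LinearIndependent ℤ n ∧
      ∀ i, IsChar f k.fixingSubgroup k.fixingSubgroup (n i)

/-- CHB (200 lines): `G = Gal(L/k)`, `H = Gal(L/K)`, `η(g) = 1` if `g ∈ H`, `-1` if `g ∈ G`, `g ∉ H`
(a homomorphism on `G`, as the index is `2`): `n_i(θ) = ∑_{g ∈ G, g θ_i = θ} η(g)`.
`n_i(θ_i) = #Stab(θ_i)`, as `Stab(θ_i) = Gal(L/k(θ_i)) ≤ H`; `∑ n_i = ∑ η(g) = 0`. Index:
`#k.fixingSubgroup = [L:k]`, `#K.fixingSubgroup = [L:K]`. -/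
def SpecChb : Prop :=
  ∀ (F L : Type) [Field F] [NumberField F] [Field L] [NumberField L] [Algebra F L] [IsGalois F L]
    (f : F[X]) (k K : IntermediateField F L) (r : ℕ), f ≠ 0 → k ≤ K →
    IntermediateField.relfinrank k K = 2 → r + 1 ≤ (closedPtsOver f k K).ncard →
    K.fixingSubgroup ≤ k.fixingSubgroup ∧ K.fixingSubgroup.relIndex k.fixingSubgroup = 2 ∧
    ∃ n : Fin (r + 1) → f.rootSet L → ℤ, LinearIndependent ℤ n ∧
      ∀ i, IsChar f k.fixingSubgroup K.fixingSubgroup (n i)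

/-- ABS (100 lines). `r = 0`: `u^a = 1`, `a ≠ 0`, so `|u|_w = 1`. `r = 1`: if all `|u|_w = 1` for the
values `u = n_i(t)`, then also on the group generated by them. Otherwise let `ε` be a value with
`|ε|_w ≠ 1` for some `w`: `log |u|_w = λ_u log |ε|_w` for all `w`, for all values `u`, so also on the
group generated by them; `w₁` with `|log |ε|_w|` maximal. -/
def SpecAbs : Prop :=
  ∀ (F L : Type) [Field F] [NumberField F] [Field L] [NumberField L] [Algebra F L]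
    (f : F[X]) (S : Finset (HeightOneSpectrum (𝓞 F))) (r : ℕ)
    (n : Fin (r + 1) → f.rootSet L → ℤ), r ≤ 1 → (∀ i, ∑ θ, n i θ = 0) →
    (∀ u : Fin (r + 1) → Lˣ, (∀ j, ∃ i, ∃ t ∈ integralT f S, u j = ∏ θ, t θ ^ n i θ) →
      ∃ a : Fin (r + 1) → ℤ, a ≠ 0 ∧ ∏ j, u j ^ a j = 1) →
    ∃ U : Set L, (∀ u ∈ U, IsSUnit (above L S) u) ∧ 1 ∈ U ∧ (∀ u ∈ U, ∀ u' ∈ U, u * u'⁻¹ ∈ U) ∧
      (∃ w₁, ∀ u ∈ U, 1 ≤ tabs (above L S) w₁ u →
        ∀ w, tabs (above L S) w u ≤ tabs (above L S) w₁ u) ∧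
      (r = 0 → ∀ u ∈ U, ∀ w, tabs (above L S) w u = 1) ∧
      ∀ i, ∀ t ∈ integralT f S, chi f (n i) t ∈ U

/-! ## Part C: adeles -/

/-- APX (200 lines): as `closure_approx`, for finite families. From `p ∈ closure` take `l, t` with
`l t(θ) / p(θ)` and its inverse in `1 + k! ∏ O_v` for all `θ`: so `|l t(θ)/p(θ)|_v = 1` and the
quotients `t(θ)/t(θ')` and `p(θ)/p(θ')` are close. `lin`: with `p(θ) = x - θ y` one has
`(θ-θ')p(θ'') + (θ'-θ'')p(θ) + (θ''-θ)p(θ') = 0`; divide by `p(θ')`, replace the quotients of `p` by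
those of `t`: error `≤ |k!|_v C_v`, `C_v = max |θ-θ'|_v |p(θ'')/p(θ')|_v ≤ 1` for almost all `v`;
choose `d` with `|d|_v C_v ≤ 1` (`exists_small`). -/
def SpecApx : Prop :=
  ∀ (F L : Type) [Field F] [NumberField F] [Field L] [NumberField L] [Algebra F L]
    (f : F[X]) (S : Finset (HeightOneSpectrum (𝓞 F))) (p : f.rootSet L → (Ad L S)ˣ),
    p ∈ curveA L f S → p ∈ closure (torusF L f S) → ∃ t, Appr f S t ∧
      ∀ (k : ℕ) (v : {v : HeightOneSpectrum (𝓞 L) // v ∉ above L S}) (θ θ' : f.rootSet L),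
        ‖(((t k θ : L) / t k θ' : L) : v.1.adicCompletion L) * (p θ').1 v - (p θ).1 v‖ ≤
          fabs v.1 ((k.factorial : ℕ) : L) * ‖(p θ).1 v‖

/-- FNA (80 lines): `p(θ)/p(θ') = (a - θ b)/(a - θ' b)` at all `v` (limit), so
`p(θ) = l (a - θ b)`, `l = p(θ₀) (a - θ₀ b)⁻¹`. -/
def SpecFna : Prop :=
  ∀ (F L : Type) [Field F] [NumberField F] [Field L] [NumberField L] [Algebra F L]
    (f : F[X]) (S : Finset (HeightOneSpectrum (𝓞 F))) (p : f.rootSet L → (Ad L S)ˣ)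
    (t : ℕ → f.rootSet L → Lˣ),
    (∀ (k : ℕ) (v : {v : HeightOneSpectrum (𝓞 L) // v ∉ above L S}) (θ θ' : f.rootSet L),
        ‖(((t k θ : L) / t k θ' : L) : v.1.adicCompletion L) * (p θ').1 v - (p θ).1 v‖ ≤
          fabs v.1 ((k.factorial : ℕ) : L) * ‖(p θ).1 v‖) →
    ∀ a b : F, (∀ θ : f.rootSet L, algebraMap F L a - θ * algebraMap F L b ≠ 0) →
      (∀ k (θ θ' : f.rootSet L), Near (above L S) k ((t k θ : L) / t k θ')
        ((algebraMap F L a - θ * algebraMap F L b) / (algebraMap F L a - θ' * algebraMap F L b))) →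
      p ∈ curveF L f S

/-- REV (60 lines): the easy inclusion: `l (a - θ b)` is a unit, so `a - θ b ≠ 0` (`A_L^S` is not
the zero ring: `exists_notMem`), `x = l a`, `y = l b`, `t(θ) = a - θ b`. -/
def SpecRev : Prop :=
  ∀ (F L : Type) [Field F] [NumberField F] [Field L] [NumberField L] [Algebra F L]
    (f : F[X]) (S : Finset (HeightOneSpectrum (𝓞 F))),
    curveF L f S ⊆ curveA L f S ∩ closure (torusF L f S)

/-! ## Part D: algebra -/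

/-- the linear function with `x - θ y = (x - θ₁ y) * lf θ₀ θ₁ θ ((x - θ₀ y)/(x - θ₁ y))` -/
noncomputable def lf {L : Type} [Field L] (θ₀ θ₁ θ : L) : L[X] :=
  C ((θ - θ₁) / (θ₀ - θ₁)) * X + C ((θ₀ - θ) / (θ₀ - θ₁))

/-- SUB (120 lines): `z_k(θ) = t_k(θ)/t_k(θ₁)`, `y_k(θ) = lf θ₀ θ₁ θ (z_k(θ₀))`. `lin` gives
`|d (z_k(θ) - y_k(θ))|_v ≤ |k!|_v`; the `|z_k(θ)|_v` do not depend on `k` (`conv`) and are `1` for
almost all `v`; so `|z_k|_v, |y_k|_v ≤ C_v` with `C_v = 1` for almost all `v`; monomials by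
induction on the degree; common denominator `d'`. -/
def SpecSub : Prop :=
  ∀ (F L : Type) [Field F] [NumberField F] [Field L] [NumberField L] [Algebra F L]
    (f : F[X]) (S : Finset (HeightOneSpectrum (𝓞 F))) (t : ℕ → f.rootSet L → Lˣ), Appr f S t →
    ∀ θ₀ θ₁ : f.rootSet L, θ₀ ≠ θ₁ → ∀ Ψ : MvPolynomial (f.rootSet L) L, ∃ d : L, d ≠ 0 ∧
      ∀ k, ∀ v ∉ above L S,
        fabs v (d * (MvPolynomial.eval (fun θ : f.rootSet L => (t k θ : L) / t k θ₁) Ψ -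
          MvPolynomial.eval (fun θ : f.rootSet L =>
            (lf (θ₀ : L) (θ₁ : L) (θ : L)).eval ((t k θ₀ : L) / t k θ₁)) Ψ)) ≤
          fabs v ((k.factorial : ℕ) : L)

/-- DEP (120 lines): for `i, j ≤ B`, `N = B * max (|n₁| + |n₂|)`, the polynomials
`∏ ℓ_θ ^ (i n₁(θ) + j n₂(θ) + N)` have degree `≤ #D N` (the sum of the exponents), there are
`(B + 1)^2 > #D N + 1` of them for large `B`: a non-trivial linear relation. -/
def SpecDep : Prop :=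
  ∀ (L D : Type) [Field L] [Fintype D] (ℓ : D → L[X]) (n₁ n₂ : D → ℤ),
    (∀ θ, (ℓ θ).natDegree ≤ 1) → ∑ θ, n₁ θ = 0 → ∑ θ, n₂ θ = 0 →
    ∃ (I : Finset (ℕ × ℕ)) (α : ℕ × ℕ → L) (N : ℕ), I.Nonempty ∧ (∀ i ∈ I, α i ≠ 0) ∧
      (∀ i ∈ I, ∀ θ, 0 ≤ i.1 * n₁ θ + i.2 * n₂ θ + N) ∧
      ∑ i ∈ I, C (α i) * ∏ θ, ℓ θ ^ (i.1 * n₁ θ + i.2 * n₂ θ + N).toNat = 0

/-- REL (120 lines, from SUB, DEP with `ℓ_θ = lf θ₀ θ₁ θ`): `Ψ = ∑ α_i ∏ z_θ ^ (i.1 n₁ + i.2 n₂ + N)`: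
`Ψ(z_k) = (∏ z_k(θ))^N ∑ α_i chi(n₁)^(i.1) chi(n₂)^(i.2)` as `∑ n = 0`; `|∏ z_k(θ)|_v` does not
depend on `k`. -/
def SpecRel : Prop :=
  ∀ (F L : Type) [Field F] [NumberField F] [Field L] [NumberField L] [Algebra F L]
    (f : F[X]) (S : Finset (HeightOneSpectrum (𝓞 F))) (t : ℕ → f.rootSet L → Lˣ), Appr f S t →
    ∀ θ₀ θ₁ : f.rootSet L, θ₀ ≠ θ₁ → ∀ n₁ n₂ : f.rootSet L → ℤ, ∑ θ, n₁ θ = 0 → ∑ θ, n₂ θ = 0 →
    ∃ (I : Finset (ℕ × ℕ)) (α : ℕ × ℕ → L) (d : L), I.Nonempty ∧ (∀ i ∈ I, α i ≠ 0) ∧ d ≠ 0 ∧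
      ∀ k, ∀ v ∉ above L S,
        fabs v (d * ∑ i ∈ I, α i * chi f n₁ (t k) ^ i.1 * chi f n₂ (t k) ^ i.2) ≤
          fabs v ((k.factorial : ℕ) : L)

/-- ALX (150 lines, from SUB): `Ψ = ∏_{n(θ) > 0} z_θ ^ n(θ) - c ∏_{n(θ) < 0} z_θ ^ (-n(θ))`,
`P(T) = Ψ(lf θ₀ θ₁ θ (T))`. `P ≠ 0`: the roots of the `lf θ₀ θ₁ θ`, `θ ≠ θ₁`, are different (`lf` is
the constant `1` for `θ = θ₁`, and `x` for `θ = θ₀`), `n(θ) ≠ 0` for some `θ ≠ θ₁` (sum `0`): say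
`n(θ) > 0`, then the first product vanishes at the root of `lf θ₀ θ₁ θ`, the second does not. -/
def SpecAlx : Prop :=
  ∀ (F L : Type) [Field F] [NumberField F] [Field L] [NumberField L] [Algebra F L]
    (f : F[X]) (S : Finset (HeightOneSpectrum (𝓞 F))) (t : ℕ → f.rootSet L → Lˣ), Appr f S t →
    ∀ θ₀ θ₁ : f.rootSet L, θ₀ ≠ θ₁ → ∀ n : f.rootSet L → ℤ, n ≠ 0 → ∑ θ, n θ = 0 →
    ∀ c : L, (∀ k, Near (above L S) k (chi f n (t k)) c) →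
    ∃ P : L[X], P ≠ 0 ∧ ∃ d : L, d ≠ 0 ∧ ∀ k, ∀ v ∉ above L S,
      fabs v (d * P.eval ((t k θ₀ : L) / t k θ₁)) ≤ fabs v ((k.factorial : ℕ) : L)

/-- KAP (200 lines, from GALN). (1) For all `θ`: `γ(θ) := lf θ₀ θ₁ θ (γ)`: `lin` gives
`|d (t_l(θ)/t_l(θ₁) - γ(θ))|_v → 0` as `l → ∞`, `|t_l(θ)/t_l(θ₁)|_v` is constant, so `γ(θ) ≠ 0` and
(with `conv`, `l → ∞`) `Near k (t_k(θ)/t_k(θ₁)) γ(θ)`. (2) `γ = 1`: all `γ(θ) = 1`: `a = 1, b = 0`.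
`γ ≠ 1`: `κ := (θ₀ - γ θ₁)/(1 - γ)`: `γ(θ) = (κ - θ)/(κ - θ₁)`, `κ - θ₁ = (θ₀ - θ₁)/(1 - γ) ≠ 0`.
(3) `ρ(θ,θ') := (κ-θ)/(κ-θ')`: `Near k (t_k(θ)/t_k(θ')) ρ(θ,θ')`; apply `g` (GALN, `equi`):
`g(ρ(θ₀,θ₁))` and `ρ(gθ₀,gθ₁)` are `Near k` for all `k`, so equal:
`(gκ-gθ₀)/(gκ-gθ₁) = (κ-gθ₀)/(κ-gθ₁)`, `gκ = κ`. So `κ ∈ F`, `a = κ`, `b = 1`. -/
def SpecKap : Prop :=
  ∀ (F L : Type) [Field F] [NumberField F] [Field L] [NumberField L] [Algebra F L] [IsGalois F L]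
    (f : F[X]) (S : Finset (HeightOneSpectrum (𝓞 F))) (t : ℕ → f.rootSet L → Lˣ), Appr f S t →
    ∀ θ₀ θ₁ : f.rootSet L, θ₀ ≠ θ₁ →
    ∀ γ : L, (∀ k, Near (above L S) k ((t k θ₀ : L) / t k θ₁) γ) →
    ∃ a b : F, (∀ θ : f.rootSet L, algebraMap F L a - θ * algebraMap F L b ≠ 0) ∧
      ∀ k (θ θ' : f.rootSet L), Near (above L S) k ((t k θ : L) / t k θ')
        ((algebraMap F L a - θ * algebraMap F L b) / (algebraMap F L a - θ' * algebraMap F L b))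

/-! ## Part E: rank one -/

/-- GAP (100 lines): `n` points on a cycle of length `m` lie in an arc of length `≤ m - m / n`
(complement of the largest gap). Suppose not; take each point `i` as origin (`j = -e i`): some
`i' = σ(i)` has `(e i' - e i) mod m > m - m/n`, i.e. `0 < (e i - e (σ i)) mod m < m / n`. Follow a
cycle of `σ`, of length `≤ n`: the sum of the distances is a positive multiple of `m`, and
`< n * (m / n)`. -/
def SpecGap : Prop :=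
  ∀ (I : Type) [Fintype I] [Nonempty I] (m : ℕ) (e : I → ℤ), 0 < m →
    ∃ (j : ℤ) (x : I → ℕ), (∀ i, (m : ℤ) ∣ e i + j - x i) ∧
      ∀ i, Fintype.card I * x i ≤ (Fintype.card I - 1) * m

/-- TOP (80 lines): if all differences are `> C` then the term with the largest `x i` dominates. -/
def SpecTop : Prop :=
  ∀ (L : Type) [Field L] (w : AbsoluteValue L ℝ) (ε : L), 1 < w ε → ∀ Z : Set L, Z.Finite →
    0 ∉ Z → ∀ n : ℕ, ∃ C : ℕ, ∀ (I : Type) [Fintype I] [Nonempty I], Fintype.card I ≤ n →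
    ∀ (β : I → L) (x : I → ℕ), (∀ i, β i ∈ Z) → ∑ i, β i * ε ^ x i = 0 →
    ∃ i j, i ≠ j ∧ x i ≤ x j + C ∧ x j ≤ x i + C

/-- ANG (150 lines). `q = 16 n + 2`, `c = 1/(4q)`. If `|z^j - 1| < c` then
`|∑_{i<q} z^(ij)| ≥ 3q/4`, so its square is `≥ q²/2`. Average over `j ≤ J`:
`(1/J) ∑_j |∑_{i<q} z^(ij)|² = q + (1/J) ∑_{i≠i'} ∑_j z^((i-i')j) ≤ q + q² C/J` (geometric sums are
bounded, as `z^(i-i') ≠ 1`). So for large `J` at most `(2q+1)J/(q²/2) .. < J/(2n)` of the `j ≤ J` are bad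
for a given `z`; in total less than `J/2` are bad. -/
def SpecAng : Prop :=
  ∀ n : ℕ, ∃ c : ℝ, 0 < c ∧ ∀ z : Fin n → ℂ, (∀ i, ‖z i‖ = 1) →
    (∀ i, ∀ k : ℕ, 0 < k → z i ^ k ≠ 1) → ∀ j₀ : ℕ, ∃ j ≥ j₀, ∀ i, c ≤ ‖z i ^ j - 1‖

/-- LTE (120 lines): `p` = a prime number in `v`, `y = ε^q₀` with `|y - 1|_v < |p|_v`
(`exists_exponent`). `|y^n - 1|_v ≥ |n|_v |y - 1|_v`: for `n` prime to `p`, `(y^n-1)/(y-1) ≡ n`; for
`n = p`, `(y^p-1)/(y-1) = p + ∑_{i<p} (y^i - 1)`, absolute value `|p|_v`; induction. `|n|_v ≥ n^(-d)`,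
`d = [L:ℚ]` (product formula for `n`). `|ε^m - 1|_v ≥ |ε^(q₀ m) - 1|_v = |y^m - 1|_v`. -/
def SpecLte : Prop :=
  ∀ (L : Type) [Field L] [NumberField L] (v : HeightOneSpectrum (𝓞 L)) (ε : L),
    fabs v ε = 1 → (∀ n : ℕ, 0 < n → ε ^ n ≠ 1) →
    ∃ C : ℕ, 0 < C ∧ ∀ m : ℕ, 0 < m → 1 / ((C : ℝ) * m ^ C) ≤ fabs v (ε ^ m - 1)

/-- the product of the `|x|_w` over the places with `|ε|_w = 1` -/
noncomputable def prod1 {L : Type} [Field L] [NumberField L]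
    (S : Finset (HeightOneSpectrum (𝓞 L))) (ε x : L) : ℝ :=
  ∏ w : TPlace S, if tabs S w ε = 1 then tabs S w x ^ texp S w else 1

/-- LOW (120 lines, from ANG, LTE): ANG for the `σ_w(ε)^R` (`w` infinite with `|ε|_w = 1`, `σ_w` an
embedding), `m = R j`; LTE for the finite `w`. `ε` is not a root of unity. -/
def SpecLow : Prop :=
  ∀ (L : Type) [Field L] [NumberField L] (S : Finset (HeightOneSpectrum (𝓞 L))) (ε : L),
    IsSUnit S ε → (∃ w, 1 < tabs S w ε) →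
    ∃ C : ℕ, 0 < C ∧ ∀ R : ℕ, 0 < R → ∀ m₀ : ℕ, ∃ m ≥ m₀, R ∣ m ∧
      1 / ((C : ℝ) * m ^ C) ≤ prod1 S ε (ε ^ m - 1)

/-- SIZ (200 lines): `g = ∑ β i ε^(x i) ≠ 0`, `h = d g / (ε^m - 1)`: `|h|_v ≤ 1` outside `S`, so
`1 ≤ tprod h` (`one_le_tprod`). `|ε|_w > 1`: `|d g|_w ≤ C₁ |ε|_w^((n-1)m/n)` (real exponent; or take
`n`-th powers), `|ε^m - 1|_w ≥ |ε|_w^m / 2`; `|ε|_w < 1`: `|d g|_w ≤ C₁`, `|ε^m - 1|_w ≥ 1/2`;
`|ε|_w = 1`: `|d g|_w ≤ C₁` and the assumption on `prod1`. So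
`tprod h ≤ C₂ (∏_{|ε|_w>1} |ε|_w^{e_w})^(-m/n) C m^C → 0`. -/
def SpecSiz : Prop :=
  ∀ (L : Type) [Field L] [NumberField L] (S : Finset (HeightOneSpectrum (𝓞 L))) (ε : L),
    IsSUnit S ε → (∃ w, 1 < tabs S w ε) → ∀ Z : Set L, Z.Finite → ∀ n : ℕ, 0 < n →
    ∀ d : L, d ≠ 0 → ∀ C : ℕ, 0 < C → ∃ m₀ : ℕ, ∀ m ≥ m₀,
      1 / ((C : ℝ) * m ^ C) ≤ prod1 S ε (ε ^ m - 1) →
    ∀ (I : Type) [Fintype I], Fintype.card I = n → ∀ (β : I → L) (x : I → ℕ), (∀ i, β i ∈ Z) →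
      (∀ i, n * x i ≤ (n - 1) * m) →
      (∀ v ∉ S, fabs v (d * ∑ i, β i * ε ^ x i) ≤ fabs v (ε ^ m - 1)) →
      ∑ i, β i * ε ^ x i = 0

/-- MOD (60 lines): only finitely many `v` have `|ε^m - 1|_v < 1`; the second part from
`exists_common_exponent` (only finitely many `v` have `|l!|_v < 1`). -/
def SpecMod : Prop :=
  ∀ (L : Type) [Field L] [NumberField L] (S : Finset (HeightOneSpectrum (𝓞 L))) (ε : L),
    IsSUnit S ε → (∀ n : ℕ, 0 < n → ε ^ n ≠ 1) →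
    (∀ m : ℕ, 0 < m → ∃ k : ℕ, ∀ v ∉ S, fabs v ((k.factorial : ℕ) : L) ≤ fabs v (ε ^ m - 1)) ∧
    ∀ l : ℕ, ∃ R : ℕ, 0 < R ∧ ∀ m, R ∣ m → ∀ v ∉ S,
      fabs v (ε ^ m - 1) ≤ fabs v ((l.factorial : ℕ) : L)

/-- RON (250 lines, from GAP, TOP, LOW, SIZ, MOD). For `m` from LOW choose `k = k(m)` (MOD),
`a_k = a_0 z ε^n₁`, `b_k = b_0 z' ε^n₂`. Terms `α_i a_0^i.1 b_0^i.2 z^i.1 z'^i.2 ε^(e_i)`,
`e_i = i.1 n₁ + i.2 n₂`. GAP: `j`, `x i ≡ e_i + j mod m`. `g = ∑ β_i ε^(x i)`,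
`β_i = α_i a_0^i.1 b_0^i.2 z^i.1 z'^i.2` (finite set): `|D g|_v ≤ |ε^m - 1|_v` for all `v ∉ S`, where
`D = d d'`, `|d' β_i|_v ≤ 1` (`zpow_sub_zpow_le`; `|k!|_v ≤ |ε^m - 1|_v`). SIZ: `g = 0`. TOP: `i ≠ j'`
with `|x i - x j'| ≤ C`. So `(i.1 - j'.1) n₁ + (i.2 - j'.2) n₂ ≡ δ mod m`, `|δ| ≤ C`, and
`A_k := a_k^(i.1-j'.1) b_k^(i.2-j'.2)` is `c ε^(multiple of m)`, `c` in a finite set:
`|A_k/c - 1|_v ≤ |ε^m - 1|_v`. For `l`: `R` from MOD, `m` a multiple of `R`, `k(m) ≥ l`: `Near l A_l c`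
(`a_l`, `a_k` are `Near l`). `i, j', c` depend on `l`; pigeonhole over `l` (finite set), `Near` is
monotone. -/
def SpecRon : Prop :=
  ∀ (L : Type) [Field L] [NumberField L] (S : Finset (HeightOneSpectrum (𝓞 L))) (U : Set L),
    (∀ u ∈ U, IsSUnit S u) → (∃ ε ∈ U, (∃ w, 1 < tabs S w ε) ∧ ∃ Z : Set L, Z.Finite ∧ Z ⊆ U ∧
      ∀ u ∈ U, ∃ z ∈ Z, ∃ n : ℤ, u = z * ε ^ n) →
    ∀ a b : ℕ → L, Conv S a → Conv S b → (∀ k, a k / a 0 ∈ U) → (∀ k, b k / b 0 ∈ U) →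
    ∀ (I : Finset (ℕ × ℕ)) (α : ℕ × ℕ → L) (d : L), I.Nonempty → (∀ i ∈ I, α i ≠ 0) → d ≠ 0 →
      (∀ k, ∀ v ∉ S, fabs v (d * ∑ i ∈ I, α i * a k ^ i.1 * b k ^ i.2) ≤
        fabs v ((k.factorial : ℕ) : L)) →
    ∃ i ∈ I, ∃ j ∈ I, i ≠ j ∧ ∃ c : L, ∀ k,
      Near S k (a k ^ ((i.1 : ℤ) - j.1) * b k ^ ((i.2 : ℤ) - j.2)) c

/-! ## Part F: zero-dimensional subschemes (Theorem Z) -/

/-- ZUB (150 lines). For subsets `T ⊆ 𝒲` the ideals `∏_{W ∈ T} W` are different: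
`∏_{W ∈ 𝒲} (1 + N(W)^(-s)) = ∑_T N(∏ T)^(-s) ≤ ζ_M(s)`; `log (1 + x) ≥ x - x²/2`;
`∑ N(W)^(-2s) ≤ ζ_M(2)`; `(s - 1) ζ_M(s)` is bounded on `(1, 2]`
(`NumberField.tendsto_sub_one_mul_dedekindZeta_nhdsGT`, and `ζ_M` is decreasing). -/
def SpecZub : Prop :=
  ∀ (M : Type) [Field M] [NumberField M], ∃ C : ℝ, ∀ s : ℝ, 1 < s → s ≤ 2 →
    ∀ 𝒲 : Finset (HeightOneSpectrum (𝓞 M)),
      ∑ W ∈ 𝒲, (Ideal.absNorm W.asIdeal : ℝ) ^ (-s) ≤ Real.log (1 / (s - 1)) + C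

/-- ZLB (250 lines). `ζ_M(s) ≥ c/(s-1)` on `(1, 2]`, `c > 0`. Choose `x` with
`∑_{N(I) ≤ x} N(I)^(-s) ≥ ζ_M(s)/2`, `𝒲` = primes of norm `≤ x`. Every `I` with `N(I) ≤ x` is
`∏ W^(e_W)`, `W ∈ 𝒲`, `e_W ≤ B`: `∑_{N(I) ≤ x} N(I)^(-s) ≤ ∏_{W ∈ 𝒲} ∑_{e ≤ B} N(W)^(-se)`
(`Finset.prod_univ_sum`) `≤ ∏ (1 - N(W)^(-s))⁻¹`; `-log (1 - x) ≤ x + x²` for `x ≤ 1/2`. -/
def SpecZlb : Prop :=
  ∀ (M : Type) [Field M] [NumberField M], ∃ C : ℝ, ∀ s : ℝ, 1 < s → s ≤ 2 →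
    ∃ 𝒲 : Finset (HeightOneSpectrum (𝓞 M)),
      Real.log (1 / (s - 1)) - C ≤ ∑ W ∈ 𝒲, (Ideal.absNorm W.asIdeal : ℝ) ^ (-s)

/-- the primes of `N` above `W` with the same norm -/
def deg1 (M N : Type) [Field M] [NumberField M] [Field N] [NumberField N] [Algebra M N]
    (W : HeightOneSpectrum (𝓞 M)) : Set (HeightOneSpectrum (𝓞 N)) :=
  {W' | W'.asIdeal.under (𝓞 M) = W.asIdeal ∧
    Ideal.absNorm W'.asIdeal = Ideal.absNorm W.asIdeal}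

/-- CHE (150 lines, from ZUB, ZLB). Otherwise for each `W ∉ T` some `j` has `c j ≤ #deg1 W`:
`log(1/(s-1)) - C ≤ ∑_{W ∈ 𝒲} N(W)^(-s) ≤ #T + ∑_j (1/c j) ∑_{W' ∈ deg1 W, W ∈ 𝒲} N(W')^(-s)
≤ #T + ∑_j (1/c j) (log(1/(s-1)) + C_j)`; contradiction as `s → 1`. -/
def SpecChe : Prop :=
  ∀ (M : Type) [Field M] [NumberField M] (J : Type) [Fintype J] (N : J → Type)
    [∀ j, Field (N j)] [∀ j, NumberField (N j)] [∀ j, Algebra M (N j)] (c : J → ℕ),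
    (∀ j, 0 < c j) → ∑ j, (1 : ℝ) / c j < 1 →
    ∀ T : Finset (HeightOneSpectrum (𝓞 M)), ∃ W ∉ T, ∀ j, (deg1 M (N j) W).ncard < c j

/-- SPL (300 lines). Replace `y, ω, r` by `e y, e^q ω, e r` (`e` a positive integer) so that `y` is
integral. `g` = minimal polynomial of `y` over `M`, degree `c = [N : M]`, coefficients in `𝓞 M`,
divides `Y^q - ω`. `D ∈ 𝓞 M`, `D ≠ 0`, `D 𝓞 N ⊆ ⊕_{i<c} 𝓞 M y^i` (`𝓞 N` is finitely generated).
`T` := the `W` which contain `q`, `ω` or `D` (or `e`). For `W ∉ T`, `ω ≡ r^q mod W`: over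
`𝓞 M / W`, `Y^q - ω = ∏ (Y - ζ^i r)` with different roots, so `g` has `c` different roots `ρ` in
`𝓞 M / W`; each gives `φ : 𝓞 M[y] = 𝓞 M[Y]/(g) → 𝓞 M / W`, `y ↦ ρ`, and `φ(z) := φ(D z)/D` is a ring
homomorphism on `𝓞 N`. Its kernel is a prime above `W` with residue field `𝓞 M / W`; if `m ∈ 𝓞 M`
lifts `ρ` then `y - m` is in the kernel, so different `ρ` have different kernels. -/
def SpecSpl : Prop :=
  ∀ (M N : Type) [Field M] [NumberField M] [Field N] [NumberField N] [Algebra M N] (q : ℕ)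
    (ζ : M), 0 < q → IsPrimitiveRoot ζ q → ∀ (ω : M) (y : N), ω ≠ 0 → y ^ q = algebraMap M N ω →
    IntermediateField.adjoin M {y} = ⊤ →
    ∃ T : Finset (HeightOneSpectrum (𝓞 M)), ∀ W ∉ T,
      (∃ r : M, fabs W r = 1 ∧ fabs W (ω - r ^ q) < 1) →
      Module.finrank M N ≤ (deg1 M N W).ncard

/-- SAH (150 lines; Sah's trick). `h` with: `E` contains no primitive `ℓ^(h+1)`-th root of unity.
`K ≤ h`: clear. Otherwise `M` contains a primitive `ℓ^K`-th root of unity `ζ`, and some `g₀ ∈ Gal(M/E)`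
moves `ζ^(ℓ^(K-h-1))`: `g₀ ζ = ζ^a`, `a ≢ 1 mod ℓ^(h+1)`. `Gal(M/E)` is commutative
(`IsPrimitiveRoot.autToPow_injective`). `g t = ξ_g t`, `ξ_g^(ℓ^K) = 1`. `g g₀ t = g₀ g t` gives
`ξ_g^(a-1) = g(ξ₀)/ξ₀` (`ξ₀ = ξ_{g₀}`), so `t' := t^(a-1)/ξ₀` is fixed by all `g`: `t' ∈ E`, and
`ω^(a-1) = t'^(ℓ^K)`. `a - 1 = ℓ^h' a'`, `h' ≤ h`, `a'` prime to `ℓ`: `u a' = 1 + w ℓ^K`:
`ω^(ℓ^h')` is an `ℓ^K`-th power in `E`. -/
def SpecSah : Prop :=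
  ∀ (E : Type) [Field E] [NumberField E] (ℓ : ℕ), ℓ.Prime → ∃ h : ℕ, ∀ m K : ℕ, 0 < m →
    ℓ ^ K ∣ m → ∀ (M : Type) [Field M] [Algebra E M] [IsCyclotomicExtension {m} E M]
      (ω : E) (t : M), ω ≠ 0 → algebraMap E M ω = t ^ (ℓ ^ K) →
      ∃ T : E, ω ^ (ℓ ^ h) = T ^ (ℓ ^ K)

/-- KUM (150 lines, from SAH). `c = [N : M]`, `t` = norm of `y` to `M`: `t^(ℓ^K) = ω^c` (norm of
`ω`). SAH for `ω^c`: `ω^(c ℓ^h) = T^(ℓ^K)`, `T ∈ E`. `c = ℓ^v c'`: `ω^(ℓ^(v+h)) = T'^(ℓ^K)`. If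
`v + h + b ≤ K`: `ξ := ω / T'^(ℓ^(K-v-h))` has `ξ^(ℓ^(v+h)) = 1`, so `ω = ξ (..)^(ℓ^b)`, excluded. So
`c ≥ ℓ^v ≥ 2^(K-b-h)`. -/
def SpecKum : Prop :=
  ∀ (E : Type) [Field E] [NumberField E] (b B : ℕ) (P : Finset ℕ), (∀ ℓ ∈ P, ℓ.Prime) →
    ∃ K : ℕ, b ≤ K ∧ ∀ (M : Type) [Field M] [NumberField M] [Algebra E M]
      [IsCyclotomicExtension {∏ ℓ ∈ P, ℓ ^ K} E M] (N : Type) [Field N] [NumberField N]
      [Algebra M N], ∀ ℓ ∈ P, ∀ (ω : E) (y : N), ω ≠ 0 →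
      (∀ (ξ T : E) (n : ℕ), 0 < n → ξ ^ n = 1 → ω ≠ ξ * T ^ ℓ ^ b) →
      y ^ ℓ ^ K = algebraMap M N (algebraMap E M ω) → IntermediateField.adjoin M {y} = ⊤ →
      B < Module.finrank M N

/-- LMQ (150 lines, from KUM, SPL, CHE). `P` = the set of the `ℓ j`, `b` = max of the `b j`,
`B = #J`, `M = CyclotomicField (∏ ℓ^K) E`, `N j = M(y_j)` inside `AlgebraicClosure M`,
`y_j^(ℓ j^K) = ω j`, `c j = [N j : M] > #J`. -/
def SpecLmq : Prop :=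
  ∀ (E : Type) [Field E] [NumberField E] (J : Type) [Fintype J] (ℓ b : J → ℕ),
    (∀ j, (ℓ j).Prime) →
    ∃ (K : ℕ) (M : Type) (_ : Field M) (_ : NumberField M) (_ : Algebra E M), ∀ ω : J → E,
      (∀ j, ω j ≠ 0 ∧ ∀ (ξ T : E) (n : ℕ), 0 < n → ξ ^ n = 1 → ω j ≠ ξ * T ^ ℓ j ^ b j) →
      ∀ T : Finset (HeightOneSpectrum (𝓞 M)), ∃ W ∉ T, ∀ j,
        ¬ ∃ r : M, fabs W r = 1 ∧ fabs W (algebraMap E M (ω j) - r ^ ℓ j ^ K) < 1

/-- SUF (150 lines): `𝔭^h = (π_𝔭)` for `𝔭 ∈ S` (`h` = class number). Two `S`-units whose valuations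
at `S` agree modulo `N h` differ by `∏ π_𝔭^(N e_𝔭)` times a unit of `𝓞 L`; `(𝓞 L)ˣ` is finitely
generated (Dirichlet), so finite modulo `N`-th powers. -/
def SpecSuf : Prop :=
  ∀ (L : Type) [Field L] [NumberField L] (S : Finset (HeightOneSpectrum (𝓞 L))) (N : ℕ), 0 < N →
    ∃ Z : Set L, Z.Finite ∧ (∀ z ∈ Z, IsSUnit S z) ∧
      ∀ u, IsSUnit S u → ∃ z ∈ Z, ∃ y, IsSUnit S y ∧ u = z * y ^ N

/-- PWR (200 lines, from EXTV, GALN). `w` a prime of `E` not above `S`. `|a_k/γ|_w` does not depend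
on `k` and is `|y|_w^n` for arbitrarily divisible `n`: it is `1` (values in `N(w)^ℤ`), so `|y|_w = 1`.
Fix `l`; `n` such that `|y^n - 1|_w ≤ |l!|_w` for all `w`-units `y` and the finitely many `w ∣ l!`
(finite groups `(𝓞 E / w^j)ˣ`); `k ≥ l` with `a_k = γ y^n`: `|a_k/γ - 1|_w ≤ |l!|_w`. So
`Near l a_l γ` in `E` for all `l`. `g ∈ Gal(E/L)`: `Near l a_l (gγ)` (GALN), so `gγ = γ`: `γ ∈ L`;
EXTV. -/
def SpecPwr : Prop :=
  ∀ (L E : Type) [Field L] [NumberField L] [Field E] [NumberField E] [Algebra L E] [IsGalois L E]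
    (S : Finset (HeightOneSpectrum (𝓞 L))) (a : ℕ → L), Conv S a → ∀ γ : E, γ ≠ 0 →
    (∀ n : ℕ, 0 < n → ∀ k₀, ∃ k ≥ k₀, ∃ y : E, algebraMap L E (a k) = γ * y ^ n) →
    ∃ γ' : L, ∀ k, Near S k (a k) γ'

/-- ZED (300 lines, from LMQ, SUF, PWR, EXTV). `E` = splitting field of `P` over `L`, `J` = set of
non-zero roots `γ_j`. If for some root `γ_j` and root of unity `ζ ∈ E`, for all `n`, infinitely many
`a_k` are in `ζ γ_j (Eˣ)^n`: PWR. Otherwise (finitely many `ζ`) for each `j` there is `n_j` with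
`a_k/γ_j ∉ μ (Eˣ)^(n_j)` for all large `k`, so for one of the prime powers `ℓ^b ∥ n_j`:
`a_k/γ_j ∉ μ (Eˣ)^(ℓ^b)` [if `ω = ζ_i y_i^(q_i)` for coprime `q_i` with product `n` then, with
`e_i ≡ 1 mod q_i`, `e_i ≡ 0 mod n/q_i`, `∑ e_i = 1 + n t`: `ω = ω^(∑ e_i) ω^(-nt) ∈ μ (Eˣ)^n`].
Pigeonhole: `(ℓ_j, b_j)_j` the same for infinitely many `k`. LMQ: `K, M`. `N = ∏_j ℓ_j^K`. SUF: for
infinitely many of these `k`, `a_k = a_{k₀} u_k^N`, `u_k` an `S`-unit. LMQ for `ω_j = a_{k₀}/γ_j` and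
`T` = the primes of `M` above `S` or at which one of `d`, the leading coefficient of `P`, `a_{k₀}`,
the `γ_j` is not a unit: `W`. Choose such a `k` with `|k!|_W < 1`: `|P(a_k)|_W < 1`,
`P(a_k) = lc a_k^(m₀) ∏ (a_k - γ_j)^(m_j)`, `|a_k|_W = |a_{k₀}|_W = 1`: some `|a_k - γ_j|_W < 1`, so
`|ω_j u_k^N - 1|_W < 1`, contradiction with `r = u_k^(-N/ℓ_j^K)`. (`E` need not be a subfield of `M`
in the notation: LMQ gives `Algebra E M`.) -/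
def SpecZed : Prop :=
  ∀ (L : Type) [Field L] [NumberField L] (S : Finset (HeightOneSpectrum (𝓞 L))) (a : ℕ → L),
    Conv S a → ∀ P : L[X], P ≠ 0 → ∀ d : L, d ≠ 0 →
    (∀ k, ∀ v ∉ S, fabs v (d * P.eval (a k)) ≤ fabs v ((k.factorial : ℕ) : L)) →
    ∃ γ : L, ∀ k, Near S k (a k) γ

end Pool.Agent.Lib.MP_78b700_nt.HV
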