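import Pool.Agent.Lib.MP_78b700_nt.HV.Defs

/-!
# The statement of the theorem, over named definitions
-/

set_option autoImplicit false

open IsDedekindDomain NumberField Polynomial

namespace Pool.Agent.Lib.MP_78b700_nt.HV

section

variable (L : Type) [Field L] [NumberField L] (T : Finset (HeightOneSpectrum (𝓞 L)))

/-- The ring `A_L^T`: the adeles of `L` without the components at the archimedean places and at
the primes in `T` (restricted product of the completions at the other primes). -/
def AdS : Type := SAdele L T

/-- The usual ring structure. -/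
noncomputable def ringS : CommRing (SAdele L T) := inferInstance

/-- The usual topology. -/
noncomputable def topS : TopologicalSpace (SAdele L T) := inferInstance

noncomputable instance AdS.ring : CommRing (AdS L T) := ringS L T

noncomputable instance AdS.top : TopologicalSpace (AdS L T) := topS L T

/-- The diagonal map `L → A_L^T`. -/
noncomputable def diagS : L →+* AdS L T := diag L T

end

section

variable {F : Type} (L : Type) [Field F] [NumberField F] [Field L] [NumberField L] [Algebra F L]
  (f : F[X]) (S : Finset (HeightOneSpectrum (𝓞 F)))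

/-- The group `∏_D (A_L^S)ˣ`, `D` the set of zeros of `f` in `L`, which maps onto
`T(A_L^S) = ∏_D (A_L^S)ˣ / (A_L^S)ˣ`. -/
abbrev RA : Type := f.rootSet L → (AdS L (above L S))ˣ

/-- The group `T(F)` inside `T(A_L^S)`, more precisely its inverse image in `∏_D (A_L^S)ˣ`:
`T(F)` consists of the classes of the Galois-equivariant maps `t : D → Lˣ`. -/
def pointsTF : Set (RA L f S) :=
  {p | ∃ (l : (AdS L (above L S))ˣ) (t : f.rootSet L → Lˣ),
    Equi f t ∧ ∀ θ, (p θ : AdS L (above L S)) = l * diagS L (above L S) (t θ)}

/-- The points of `X = P^1 - D` over `A_L^S` in `T(A_L^S)` (inverse image in `∏_D (A_L^S)ˣ`): the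
point with homogeneous coordinates `(x : y)` is mapped to the class of `(x - θ y)_θ`. -/
def pointsXA : Set (RA L f S) :=
  {p | ∃ x y : AdS L (above L S), ∀ θ, (p θ : AdS L (above L S)) = x - diagS L (above L S) θ * y}

/-- The points of `X(F)` in `T(A_L^S)` (inverse image in `∏_D (A_L^S)ˣ`). -/
def pointsXF : Set (RA L f S) :=
  {p | ∃ (l : (AdS L (above L S))ˣ) (a b : F), ∀ θ, (p θ : AdS L (above L S)) =
    l * diagS L (above L S) (algebraMap F L a - θ * algebraMap F L b)}

end

/-- The theorem. Let `F` be a number field, `S` a finite set of primes of `F`, `D` the set of zeros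
of a separable polynomial `f` over `F` which splits in the Galois extension `L` of `F`,
`X = P^1 - D` and `T` the torus with character module `Div^0_D`. Assume `CritA`, `CritB` or
`CritC`. Then `X(A_L^S) ∩ closure T(F) = X(F)` inside `T(A_L^S)`. -/
def MainStatement : Prop :=
  ∀ (F L : Type) [Field F] [NumberField F] [Field L] [NumberField L] [Algebra F L] [IsGalois F L]
    (f : F[X]) (S : Finset (HeightOneSpectrum (𝓞 F))), f.Separable →
    (f.map (algebraMap F L)).Splits → Crit L f S →
    pointsXA L f S ∩ closure (pointsTF L f S) = pointsXF L f S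

theorem mainStatement_of (h : Statement) : MainStatement := by
  intro F L _ _ _ _ _ _ f S hf hs hc
  have h1 := h F L f S hf hs hc
  have e1 : pointsXA L f S = (curveA L f S : Set _) := rfl
  have e2 : pointsXF L f S = (curveF L f S : Set _) := rfl
  have e3 : pointsTF L f S = (torusF L f S : Set _) := by
    ext p
    constructor
    · rintro ⟨l, t, ht, hp⟩
      exact ⟨l, t, ht, fun θ => Units.ext (hp θ)⟩
    · rintro ⟨l, t, ht, hp⟩
      exact ⟨l, t, ht, fun θ => congrArg Units.val (hp θ)⟩
  rw [e3, e1, e2]
  exact h1

end Pool.Agent.Lib.MP_78b700_nt.HV
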