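import Pool.Agent.Lib.MP_78b700_nt.HV.Spec

section
/-!
# RON: the rank one argument
-/
set_option autoImplicit false

open IsDedekindDomain NumberField

namespace Pool.Agent.Lib.MP_78b700_nt.HV

namespace RONM

variable {L : Type} [Field L] [NumberField L]

theorem denom (Y : Finset L) : ∃ N : L, N ≠ 0 ∧ (∀ v : HeightOneSpectrum (𝓞 L), fabs v N ≤ 1) ∧
    ∀ y ∈ Y, ∀ v : HeightOneSpectrum (𝓞 L), fabs v (N * y) ≤ 1 := by
  obtain ⟨b, hb⟩ := IsLocalization.exist_integer_multiples_of_finset (nonZeroDivisors (𝓞 L)) Y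
  refine ⟨algebraMap (𝓞 L) L b.1, ?_, fun v => fabs_coe_le v _, fun y hy v => ?_⟩
  · have h0 : b.1 ≠ 0 := nonZeroDivisors.coe_ne_zero b
    simp
  · obtain ⟨z, hz⟩ := hb y hy
    have h1 : algebraMap (𝓞 L) L b.1 * y = algebraMap (𝓞 L) L z := by
      rw [hz, Algebra.smul_def]
    rw [h1]
    exact fabs_coe_le v z

theorem fabs_sum_le {ι : Type} (s : Finset ι) (v : HeightOneSpectrum (𝓞 L)) (g : ι → L) {B : ℝ}
    (hB : 0 ≤ B) (h : ∀ i ∈ s, fabs v (g i) ≤ B) : fabs v (∑ i ∈ s, g i) ≤ B := by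
  classical
  induction s using Finset.induction_on with
  | empty => simpa using hB
  | insert i s hi ih =>
    rw [Finset.sum_insert hi]
    exact (fabs_add_le v _ _).trans (max_le (h i (Finset.mem_insert_self _ _))
      (ih fun j hj => h j (Finset.mem_insert_of_mem hj)))

end RONM

open RONM in
theorem specRon (hGap : SpecGap) (hTop : SpecTop) (hLow : SpecLow) (hSiz : SpecSiz)
    (hMod : SpecMod) : SpecRon := by
  classical
  intro L _ _ S U hU hε a b ha hb haU hbU I α d hI hα hd hrel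
  obtain ⟨ε, hεU, ⟨w, hw⟩, Z, hZfin, hZU, hZ⟩ := hε
  have hεS := hU ε hεU
  have hε0 : ε ≠ 0 := hεS.1
  have hroot : ∀ n : ℕ, 0 < n → ε ^ n ≠ 1 := by
    intro n hn h
    have h1 : tabs S w ε ^ n = 1 := by rw [← map_pow, h, map_one]
    exact absurd h1 (one_lt_pow₀ hw hn.ne').ne'
  have ha0 : ∀ k, a k ≠ 0 := fun k => (ha k k le_rfl).1
  have hb0 : ∀ k, b k ≠ 0 := fun k => (hb k k le_rfl).1
  choose za hza na hna using fun k => hZ _ (haU k)
  choose zb hzb nb hnb using fun k => hZ _ (hbU k)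
  have hak : ∀ k, a k = a 0 * (za k * ε ^ na k) := fun k => by
    rw [← hna k, mul_div_cancel₀ _ (ha0 0)]
  have hbk : ∀ k, b k = b 0 * (zb k * ε ^ nb k) := fun k => by
    rw [← hnb k, mul_div_cancel₀ _ (hb0 0)]
  have hZ0 : ∀ z ∈ Z, z ≠ 0 := fun z hz => (hU z (hZU hz)).1
  -- the coefficients
  set bt : (ℕ × ℕ) → L → L → L := fun i z z' => α i * a 0 ^ i.1 * b 0 ^ i.2 * z ^ i.1 * z' ^ i.2
    with hbt
  set ZB : Set L := (fun q : (ℕ × ℕ) × L × L => bt q.1 q.2.1 q.2.2) ''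
    ((I : Set (ℕ × ℕ)) ×ˢ (Z ×ˢ Z)) with hZB
  have hZBfin : ZB.Finite := ((I.finite_toSet).prod (hZfin.prod hZfin)).image _
  have hZB0 : (0 : L) ∉ ZB := by
    rintro ⟨⟨i, z, z'⟩, ⟨hi, hz, hz'⟩, h⟩
    refine absurd h ?_
    simp only [hbt]
    exact mul_ne_zero (mul_ne_zero (mul_ne_zero (mul_ne_zero (hα i hi) (pow_ne_zero _ (ha0 0)))
      (pow_ne_zero _ (hb0 0))) (pow_ne_zero _ (hZ0 z hz))) (pow_ne_zero _ (hZ0 z' hz'))
  obtain ⟨N, hN0, hN1, hN⟩ := denom (insert d hZBfin.toFinset)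
  have hNd : ∀ v : HeightOneSpectrum (𝓞 L), fabs v (N * d) ≤ 1 :=
    hN d (Finset.mem_insert_self _ _)
  have hNβ : ∀ β ∈ ZB, ∀ v : HeightOneSpectrum (𝓞 L), fabs v (N * β) ≤ 1 := fun β hβ =>
    hN β (Finset.mem_insert_of_mem ((Set.Finite.mem_toFinset _).2 hβ))
  set n := I.card with hn
  have hn0 : 0 < n := Finset.card_pos.2 hI
  have hcard : Fintype.card I = n := Fintype.card_coe I
  have : Nonempty I := hI.to_subtype
  obtain ⟨CT, hCT⟩ := hTop L (tabs S w) ε hw ZB hZBfin hZB0 n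
  obtain ⟨CL, hCL0, hCL⟩ := hLow L S ε hεS ⟨w, hw⟩
  obtain ⟨m₀, hm₀⟩ := hSiz L S ε hεS ⟨w, hw⟩ ZB hZBfin n hn0 (N * N * d)
    (mul_ne_zero (mul_ne_zero hN0 hN0) hd) CL hCL0
  obtain ⟨hM1, hM2⟩ := hMod L S ε hεS hroot
  -- the limits
  set cc : (ℕ × ℕ) → (ℕ × ℕ) → L → L → ℤ → L := fun i j z z' δ =>
    a 0 ^ ((i.1 : ℤ) - j.1) * b 0 ^ ((i.2 : ℤ) - j.2) * z ^ ((i.1 : ℤ) - j.1) *
      z' ^ ((i.2 : ℤ) - j.2) * ε ^ δ with hcc
  set A : (ℕ × ℕ) → (ℕ × ℕ) → ℕ → L := fun i j k =>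
    a k ^ ((i.1 : ℤ) - j.1) * b k ^ ((i.2 : ℤ) - j.2) with hA
  set K : Set ((ℕ × ℕ) × (ℕ × ℕ) × L) :=
    (fun q : ((ℕ × ℕ) × (ℕ × ℕ)) × L × L × ℤ =>
      (q.1.1, q.1.2, cc q.1.1 q.1.2 q.2.1 q.2.2.1 q.2.2.2)) ''
      (((I : Set (ℕ × ℕ)) ×ˢ (I : Set (ℕ × ℕ))) ×ˢ (Z ×ˢ (Z ×ˢ Set.Icc (-(CT : ℤ)) CT))) with hK
  have hKfin : K.Finite :=
    ((I.finite_toSet.prod I.finite_toSet).prod
      (hZfin.prod (hZfin.prod (Set.finite_Icc _ _)))).image _
  have hANear : ∀ i j k l, k ≤ l → Near S k (A i j k) (A i j l) := fun i j k l hkl =>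
    ((ha k l hkl).zpow _).mul ((hb k l hkl).zpow _)
  have step : ∀ l : ℕ, ∃ κ ∈ K, κ.1 ∈ I ∧ κ.2.1 ∈ I ∧ κ.1 ≠ κ.2.1 ∧
      Near S l (A κ.1 κ.2.1 l) κ.2.2 := by
    intro l
    obtain ⟨R, hR0, hR⟩ := hM2 l
    obtain ⟨m, hm, hRm, hlow⟩ := hCL R hR0 (max m₀ 1)
    have hmm₀ : m₀ ≤ m := (le_max_left _ _).trans hm
    have hm1 : 0 < m := (le_max_right _ _).trans hm
    obtain ⟨k₀, hk₀⟩ := hM1 m hm1
    set k := max k₀ l with hk
    have hkm : ∀ v ∉ S, fabs v ((k.factorial : ℕ) : L) ≤ fabs v (ε ^ m - 1) := fun v hv =>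
      (fabs_factorial_anti v (le_max_left k₀ l)).trans (hk₀ v hv)
    obtain ⟨j, x, hjx, hx⟩ := hGap I m (fun i => (i.1.1 : ℤ) * na k + (i.1.2 : ℤ) * nb k) hm1
    rw [hcard] at hx
    have hβ : ∀ i : I, bt i.1 (za k) (zb k) ∈ ZB := fun i =>
      ⟨(i.1, za k, zb k), ⟨i.2, hza k, hzb k⟩, rfl⟩
    have hmono : ∀ i : I, α i.1 * a k ^ i.1.1 * b k ^ i.1.2 =
        bt i.1 (za k) (zb k) * ε ^ ((i.1.1 : ℤ) * na k + (i.1.2 : ℤ) * nb k) := by
      intro i
      rw [hak k, hbk k, zpow_add₀ hε0]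
      simp only [hbt, mul_pow]
      rw [← zpow_natCast (ε ^ na k), ← zpow_natCast (ε ^ nb k), ← zpow_mul, ← zpow_mul,
        mul_comm (na k), mul_comm (nb k)]
      ring
    have hbound : ∀ v ∉ S, fabs v (N * N * d * ∑ i : I, bt i.1 (za k) (zb k) * ε ^ x i) ≤
        fabs v (ε ^ m - 1) := by
      intro v hv
      have hεv : fabs v ε = 1 := hεS.2 v hv
      have e1 : N * N * d * ∑ i : I, bt i.1 (za k) (zb k) * ε ^ x i =
          N * N * (ε ^ j * (d * ∑ i ∈ I, α i * a k ^ i.1 * b k ^ i.2)) +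
          N * d * ∑ i : I, N * bt i.1 (za k) (zb k) *
            (ε ^ (x i : ℤ) - ε ^ ((i.1.1 : ℤ) * na k + (i.1.2 : ℤ) * nb k + j)) := by
        rw [← Finset.sum_coe_sort I]
        simp only [Finset.mul_sum]
        rw [← Finset.sum_add_distrib]
        refine Finset.sum_congr rfl fun i _ => ?_
        rw [hmono i, zpow_natCast, zpow_add₀ hε0 _ j]
        ring
      rw [e1]
      refine (fabs_add_le v _ _).trans (max_le ?_ ?_)
      · rw [map_mul, map_mul, map_mul, map_zpow₀, hεv, one_zpow, one_mul]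
        have h1 := hrel k v hv
        have h2 := hN1 v
        calc fabs v N * fabs v N * fabs v (d * ∑ i ∈ I, α i * a k ^ i.1 * b k ^ i.2)
            ≤ 1 * fabs v (d * ∑ i ∈ I, α i * a k ^ i.1 * b k ^ i.2) :=
              mul_le_mul_of_nonneg_right
                (mul_le_one₀ h2 ((fabs v).nonneg _) h2) ((fabs v).nonneg _)
          _ = fabs v (d * ∑ i ∈ I, α i * a k ^ i.1 * b k ^ i.2) := one_mul _
          _ ≤ _ := h1.trans (hkm v hv)
      · rw [map_mul]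
        refine (mul_le_of_le_one_left ((fabs v).nonneg _) (hNd v)).trans ?_
        refine fabs_sum_le _ v _ ((fabs v).nonneg _) fun i _ => ?_
        rw [map_mul]
        refine (mul_le_of_le_one_left ((fabs v).nonneg _) (hNβ _ (hβ i) v)).trans ?_
        refine zpow_sub_zpow_le v hε0 hεv m ?_
        have := hjx i
        rw [← dvd_neg] at this
        refine (dvd_of_eq rfl).trans ?_
        have e : (x i : ℤ) - ((i.1.1 : ℤ) * na k + (i.1.2 : ℤ) * nb k + j) =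
            -((i.1.1 : ℤ) * na k + (i.1.2 : ℤ) * nb k + j - x i) := by ring
        rw [e]
        exact this
    have hzero := hm₀ m hmm₀ hlow I hcard (fun i => bt i.1 (za k) (zb k)) x hβ hx hbound
    obtain ⟨i, i', hne, hd1, hd2⟩ := hCT I hcard.le (fun i => bt i.1 (za k) (zb k)) x hβ hzero
    refine ⟨(i.1, i'.1, cc i.1 i'.1 (za k) (zb k) ((x i : ℤ) - x i')),
      ⟨((i.1, i'.1), za k, zb k, (x i : ℤ) - x i'), ⟨⟨i.2, i'.2⟩, hza k, hzb k, ?_, ?_⟩, rfl⟩,
      i.2, i'.2, fun h => hne (Subtype.ext h), ?_⟩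
    · simp only
      omega
    · simp only
      omega
    · simp only
      refine (hANear i.1 i'.1 l k (le_max_right _ _)).trans ?_
      obtain ⟨t₁, ht₁⟩ := hjx i
      obtain ⟨t₂, ht₂⟩ := hjx i'
      have hc0 : cc i.1 i'.1 (za k) (zb k) ((x i : ℤ) - x i') ≠ 0 := by
        simp only [hcc]
        exact mul_ne_zero (mul_ne_zero (mul_ne_zero (mul_ne_zero (zpow_ne_zero _ (ha0 0))
          (zpow_ne_zero _ (hb0 0))) (zpow_ne_zero _ (hZ0 _ (hza k))))
          (zpow_ne_zero _ (hZ0 _ (hzb k)))) (zpow_ne_zero _ hε0)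
      have hAc : A i.1 i'.1 k = cc i.1 i'.1 (za k) (zb k) ((x i : ℤ) - x i') *
          ε ^ ((m : ℤ) * (t₁ - t₂)) := by
        simp only [hA, hcc]
        rw [hak k, hbk k, mul_assoc _ (ε ^ ((x i : ℤ) - x i')), ← zpow_add₀ hε0]
        have e2 : ((x i : ℤ) - x i') + (m : ℤ) * (t₁ - t₂) =
            na k * ((i.1.1 : ℤ) - i'.1.1) + nb k * ((i.1.2 : ℤ) - i'.1.2) := by
          linear_combination (-1 : ℤ) * ht₁ + ht₂
        rw [e2, zpow_add₀ hε0, zpow_mul, zpow_mul, mul_zpow, mul_zpow, mul_zpow, mul_zpow]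
        ring
      refine ⟨?_, hc0, fun v hv => ?_⟩
      · rw [hAc]
        exact mul_ne_zero hc0 (zpow_ne_zero _ hε0)
      · have hεv : fabs v ε = 1 := hεS.2 v hv
        rw [hAc, mul_div_cancel_left₀ _ hc0, map_zpow₀, hεv, one_zpow]
        refine ⟨rfl, ?_⟩
        refine le_trans ?_ (hR m hRm v hv)
        have h := zpow_sub_zpow_le v hε0 hεv m (m := (m : ℤ) * (t₁ - t₂)) (m' := 0)
          (by rw [sub_zero]; exact dvd_mul_right _ _)
        rwa [zpow_zero] at h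
  by_contra hcon
  push Not at hcon
  have h1 : ∀ κ : (ℕ × ℕ) × (ℕ × ℕ) × L, ∃ l, κ.1 ∈ I → κ.2.1 ∈ I → κ.1 ≠ κ.2.1 →
      ¬ Near S l (A κ.1 κ.2.1 l) κ.2.2 := by
    intro κ
    by_cases h : κ.1 ∈ I ∧ κ.2.1 ∈ I ∧ κ.1 ≠ κ.2.1
    · obtain ⟨l, hl⟩ := hcon κ.1 h.1 κ.2.1 h.2.1 h.2.2 κ.2.2
      exact ⟨l, fun _ _ _ => hl⟩
    · exact ⟨0, fun h1 h2 h3 => absurd ⟨h1, h2, h3⟩ h⟩
  choose lf hlf using h1
  obtain ⟨κ, hκ, hκ1, hκ2, hκ3, hnear⟩ := step (hKfin.toFinset.sup lf)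
  have hle : lf κ ≤ hKfin.toFinset.sup lf := Finset.le_sup ((Set.Finite.mem_toFinset _).2 hκ)
  exact hlf κ hκ1 hκ2 hκ3 ((hANear _ _ _ _ hle).trans (hnear.mono hle))

end Pool.Agent.Lib.MP_78b700_nt.HV
end

section
/-!
# SIZ: an exponential sum with small size is zero
-/
set_option autoImplicit false

open IsDedekindDomain NumberField Filter

namespace Pool.Agent.Lib.MP_78b700_nt.HV

namespace SIZM

variable {L : Type} [Field L] [NumberField L]

/-- the size of the sum -/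
theorem sum_le {S : Finset (HeightOneSpectrum (𝓞 L))} {ε d : L} {t : TPlace S} {B : ℝ}
    (hB : 1 ≤ B) {I : Type} [Fintype I] {β : I → L} {x : I → ℕ} {X : ℕ}
    (h : ∀ i, tabs S t (d * β i) ≤ B) (hx : ∀ i, x i ≤ X) {M : ℝ} (hM : 1 ≤ M)
    (hM' : tabs S t ε ≤ M) :
    tabs S t (d * ∑ i, β i * ε ^ x i) ≤ Fintype.card I * B * M ^ X := by
  rw [Finset.mul_sum]
  refine ((tabs S t).sum_le _ _).trans ?_
  have h1 : ∀ i ∈ Finset.univ, tabs S t (d * (β i * ε ^ x i)) ≤ B * M ^ X := by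
    intro i _
    rw [← mul_assoc, map_mul, map_pow]
    refine mul_le_mul (h i) ?_ (pow_nonneg ((tabs S t).nonneg _) _) (by linarith)
    exact (pow_le_pow_left₀ ((tabs S t).nonneg _) hM' _).trans (pow_le_pow_right₀ hM (hx i))
  refine (Finset.sum_le_sum h1).trans (le_of_eq ?_)
  rw [Finset.sum_const, Finset.card_univ, nsmul_eq_mul, mul_assoc]

theorem ev_one (A : ℝ) (hA : 0 ≤ A) : ∀ᶠ m : ℕ in atTop, (1 < A → 2 ≤ A ^ m) ∧
    (A < 1 → A ^ m ≤ 1 / 2) := by
  by_cases h1 : 1 < A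
  · filter_upwards [(tendsto_pow_atTop_atTop_of_one_lt h1).eventually_ge_atTop 2] with m hm
    exact ⟨fun _ => hm, fun h => absurd h (not_lt.2 h1.le)⟩
  · by_cases h2 : A < 1
    · filter_upwards [(tendsto_pow_atTop_nhds_zero_of_lt_one hA h2).eventually_le_const
        (by norm_num : (0 : ℝ) < 1 / 2)] with m hm
      exact ⟨fun h => absurd h h1, fun _ => hm⟩
    · exact Eventually.of_forall fun m => ⟨fun h => absurd h h1, fun h => absurd h h2⟩

end SIZM

open SIZM in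
theorem specSiz : SpecSiz := by
  intro L _ _ S ε hε hw Z hZ n hn d hd C hC
  classical
  obtain ⟨w₀, hw₀⟩ := hw
  -- the bound for the coefficients
  obtain ⟨B, hB1, hB⟩ : ∃ B : ℝ, 1 ≤ B ∧ ∀ t : TPlace S, ∀ b ∈ Z, tabs S t (d * b) ≤ B := by
    have hf : ((fun p : L × TPlace S => tabs S p.2 (d * p.1)) '' (Z ×ˢ Set.univ)).Finite :=
      (hZ.prod Set.finite_univ).image _
    obtain ⟨B, hB⟩ := hf.bddAbove
    refine ⟨max B 1, le_max_right _ _, fun t b hb => ?_⟩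
    exact (hB ⟨(b, t), ⟨hb, Set.mem_univ _⟩, rfl⟩).trans (le_max_left _ _)
  set C₁ : ℝ := n * B with hC₁
  have hn1 : (1 : ℝ) ≤ n := by exact_mod_cast hn
  have hC₁1 : 1 ≤ C₁ := by nlinarith
  set A : ℝ := tabs S w₀ ε with hA
  set K : ℝ := (∏ t : TPlace S, (2 * C₁) ^ texp S t) * (C * (n : ℝ) ^ C) with hK
  -- the choice of `y₀`
  have hlim : ∀ᶠ y : ℕ in atTop, K * ((y : ℝ) ^ C * (A⁻¹) ^ y) < 1 := by
    have h1 : |A⁻¹| < 1 := by
      rw [abs_of_nonneg (inv_nonneg.2 (by linarith))]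
      exact inv_lt_one_of_one_lt₀ hw₀
    have h2 := (tendsto_pow_const_mul_const_pow_of_abs_lt_one C h1).const_mul K
    rw [mul_zero] at h2
    exact h2.eventually_lt_const one_pos
  obtain ⟨y₀, hy₀⟩ := eventually_atTop.1 hlim
  have hev : ∀ᶠ m : ℕ in atTop, ∀ t : TPlace S, (1 < tabs S t ε → 2 ≤ tabs S t ε ^ m) ∧
      (tabs S t ε < 1 → tabs S t ε ^ m ≤ 1 / 2) :=
    eventually_all.2 fun t => ev_one _ ((tabs S t).nonneg _)
  obtain ⟨m₁, hm₁⟩ := eventually_atTop.1 hev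
  refine ⟨max (max m₁ (n * y₀)) 1, fun m hm hp I _ hI β x hβ hx hout => ?_⟩
  by_contra hg
  have hmm₁ : m₁ ≤ m := (le_max_left _ _).trans ((le_max_left _ _).trans hm)
  have hmy : n * y₀ ≤ m := (le_max_right _ _).trans ((le_max_left _ _).trans hm)
  have hm1 : 1 ≤ m := (le_max_right _ _).trans hm
  set X : ℕ := (n - 1) * m / n with hX
  have hxX : ∀ i, x i ≤ X := by
    intro i
    rw [hX, Nat.le_div_iff_mul_le hn, mul_comm]
    exact hx i
  have hnX : n * X ≤ (n - 1) * m := Nat.mul_div_le _ _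
  have hXm : X ≤ m := by
    have h1 : (n - 1) * m ≤ n * m := Nat.mul_le_mul_right _ (Nat.sub_le _ _)
    exact Nat.le_of_mul_le_mul_left (hnX.trans h1) hn
  set y : ℕ := m - X with hy
  have hyX : y + X = m := Nat.sub_add_cancel hXm
  have hny : m ≤ n * y := by
    have h1 : n * y + n * X = n * m := by rw [← mul_add, hyX]
    have h2 : (n - 1) * m + m = n * m := by
      have : n = (n - 1) + 1 := (Nat.sub_add_cancel hn).symm
      conv_rhs => rw [this]
      ring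
    omega
  have hyy : y₀ ≤ y := Nat.le_of_mul_le_mul_left (hmy.trans hny) hn
  -- `ε ^ m ≠ 1`
  have hεm : ε ^ m - 1 ≠ 0 := by
    intro h
    have h1 : ε ^ m = 1 := sub_eq_zero.1 h
    have h2 := ((hm₁ m hmm₁) w₀).1 hw₀
    rw [← map_pow, h1, map_one] at h2
    norm_num at h2
  set g : L := ∑ i, β i * ε ^ x i with hgdef
  set h : L := d * g / (ε ^ m - 1) with hhdef
  have hh : h ≠ 0 := div_ne_zero (mul_ne_zero hd hg) hεm
  have h1 : 1 ≤ tprod S h := by
    refine one_le_tprod S hh fun v hv => ?_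
    rw [hhdef, map_div₀]
    exact div_le_one_of_le₀ (hout v hv) ((fabs v).nonneg _)
  -- the bounds at the places
  have hpos : ∀ t : TPlace S, 0 < tabs S t (ε ^ m - 1) := fun t => (tabs S t).pos hεm
  have hup : ∀ t : TPlace S, ∀ M : ℝ, 1 ≤ M → tabs S t ε ≤ M → tabs S t (d * g) ≤ C₁ * M ^ X := by
    intro t M hM hM'
    have := sum_le (ε := ε) (d := d) (t := t) hB1 (fun i => hB t (β i) (hβ i)) hxX hM hM'
    rw [hI] at this
    exact this
  have hgt : ∀ t : TPlace S, 1 < tabs S t ε → tabs S t h ≤ 2 * C₁ * ((tabs S t ε) ^ y)⁻¹ := by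
    intro t ht
    have h2 := ((hm₁ m hmm₁) t).1 ht
    have h3 : tabs S t ε ^ m / 2 ≤ tabs S t (ε ^ m - 1) := by
      have := (tabs S t).le_sub (ε ^ m) 1
      rw [map_pow, map_one] at this
      linarith
    have h4 := hup t _ ht.le le_rfl
    have h0 : 0 < tabs S t ε := by linarith
    rw [hhdef, map_div₀, div_le_iff₀ (hpos t)]
    have h5 : 2 * C₁ * ((tabs S t ε) ^ y)⁻¹ * (tabs S t ε ^ m / 2) = C₁ * tabs S t ε ^ X := by
      rw [← hyX, pow_add]
      field_simp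
    calc tabs S t (d * g) ≤ C₁ * tabs S t ε ^ X := h4
      _ = 2 * C₁ * ((tabs S t ε) ^ y)⁻¹ * (tabs S t ε ^ m / 2) := h5.symm
      _ ≤ 2 * C₁ * ((tabs S t ε) ^ y)⁻¹ * tabs S t (ε ^ m - 1) := by
          refine mul_le_mul_of_nonneg_left h3 ?_
          positivity
  have hlt : ∀ t : TPlace S, tabs S t ε < 1 → tabs S t h ≤ 2 * C₁ := by
    intro t ht
    have h2 := ((hm₁ m hmm₁) t).2 ht
    have h3 : 1 / 2 ≤ tabs S t (ε ^ m - 1) := by
      have := (tabs S t).le_sub 1 (ε ^ m)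
      rw [map_pow, map_one] at this
      rw [(tabs S t).map_sub]
      linarith
    have h4 := hup t 1 le_rfl ht.le
    rw [one_pow, mul_one] at h4
    rw [hhdef, map_div₀, div_le_iff₀ (hpos t)]
    nlinarith
  have heq : ∀ t : TPlace S, tabs S t ε = 1 → tabs S t h ≤ 2 * C₁ * (tabs S t (ε ^ m - 1))⁻¹ := by
    intro t ht
    have h4 := hup t 1 le_rfl ht.le
    rw [one_pow, mul_one] at h4
    rw [hhdef, map_div₀, div_eq_mul_inv]
    refine mul_le_mul_of_nonneg_right ?_ (inv_nonneg.2 (hpos t).le)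
    linarith
  have hfac : ∀ t ∈ (Finset.univ : Finset (TPlace S)), tabs S t h ^ texp S t ≤
      (2 * C₁) ^ texp S t * (if t = w₀ then (A ^ y)⁻¹ else 1) *
        (if tabs S t ε = 1 then tabs S t (ε ^ m - 1) ^ texp S t else 1)⁻¹ := by
    intro t _
    have hn0 : 0 ≤ tabs S t h := (tabs S t).nonneg _
    have h2C : 0 ≤ 2 * C₁ := by linarith
    rcases lt_trichotomy (tabs S t ε) 1 with ht | ht | ht
    · have hne : t ≠ w₀ := by
        rintro rfl
        linarith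
      rw [if_neg hne, if_neg ht.ne, inv_one, mul_one, mul_one]
      exact pow_le_pow_left₀ hn0 (hlt t ht) _
    · have hne : t ≠ w₀ := by
        rintro rfl
        linarith
      rw [if_neg hne, if_pos ht, mul_one, ← inv_pow, ← mul_pow]
      exact pow_le_pow_left₀ hn0 (heq t ht) _
    · rw [if_neg ht.ne', inv_one, mul_one]
      have h5 : (tabs S t ε ^ y)⁻¹ ≤ 1 := inv_le_one_of_one_le₀ (one_le_pow₀ ht.le)
      have h6 : 0 ≤ (tabs S t ε ^ y)⁻¹ := inv_nonneg.2 (pow_nonneg (by linarith) _)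
      have h7 := pow_le_pow_left₀ hn0 (hgt t ht) (texp S t)
      rw [mul_pow] at h7
      refine h7.trans (mul_le_mul_of_nonneg_left ?_ (pow_nonneg h2C _))
      by_cases hne : t = w₀
      · rw [if_pos hne]
        subst hne
        exact pow_le_of_le_one h6 h5 (texp_pos S t).ne'
      · rw [if_neg hne]
        exact pow_le_one₀ h6 h5
  have h2 : tprod S h ≤ (∏ t : TPlace S, (2 * C₁) ^ texp S t) * (A ^ y)⁻¹ *
      (prod1 S ε (ε ^ m - 1))⁻¹ := by
    unfold tprod prod1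
    refine (Finset.prod_le_prod (fun t _ => pow_nonneg ((tabs S t).nonneg _) _) hfac).trans
      (le_of_eq ?_)
    rw [Finset.prod_mul_distrib, Finset.prod_mul_distrib, Finset.prod_inv_distrib,
      Finset.prod_ite_eq' Finset.univ w₀, if_pos (Finset.mem_univ _)]
  have hCm : 0 < (C : ℝ) * m ^ C := by
    have : (0 : ℝ) < C := by exact_mod_cast hC
    have : (0 : ℝ) < m := by exact_mod_cast hm1
    positivity
  have h3 : (prod1 S ε (ε ^ m - 1))⁻¹ ≤ C * (m : ℝ) ^ C := by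
    have := inv_anti₀ (by positivity) hp
    rwa [one_div, inv_inv] at this
  have h4 : (m : ℝ) ^ C ≤ (n : ℝ) ^ C * (y : ℝ) ^ C := by
    rw [← mul_pow]
    exact pow_le_pow_left₀ (Nat.cast_nonneg _) (by exact_mod_cast hny) _
  have hPi : 0 ≤ ∏ t : TPlace S, (2 * C₁) ^ texp S t :=
    Finset.prod_nonneg fun t _ => pow_nonneg (by linarith) _
  have hAy : 0 ≤ (A ^ y)⁻¹ := inv_nonneg.2 (pow_nonneg (by linarith) _)
  have h5 : tprod S h ≤ K * ((y : ℝ) ^ C * (A⁻¹) ^ y) := by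
    calc tprod S h ≤ (∏ t : TPlace S, (2 * C₁) ^ texp S t) * (A ^ y)⁻¹ *
          (prod1 S ε (ε ^ m - 1))⁻¹ := h2
      _ ≤ (∏ t : TPlace S, (2 * C₁) ^ texp S t) * (A ^ y)⁻¹ * (C * ((n : ℝ) ^ C * (y : ℝ) ^ C)) := by
          refine mul_le_mul_of_nonneg_left (h3.trans ?_) (mul_nonneg hPi hAy)
          exact mul_le_mul_of_nonneg_left h4 (Nat.cast_nonneg _)
      _ = K * ((y : ℝ) ^ C * (A⁻¹) ^ y) := by
          rw [hK, inv_pow]
          ring
  exact absurd (h1.trans h5) (not_le.2 (hy₀ y hyy))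

end Pool.Agent.Lib.MP_78b700_nt.HV
end

section
/-!
# Module SPL: primes `W` modulo which `ω` is a `q`-th power split completely in `M(ω^(1/q))`
-/
set_option autoImplicit false

open IsDedekindDomain NumberField Polynomial

namespace Pool.Agent.Lib.MP_78b700_nt.HV

namespace SPLM

variable {M N : Type} [Field M] [NumberField M] [Field N] [NumberField N] [Algebra M N]

/-- Lying over with residue degree one. -/
theorem exists_prime (W : HeightOneSpectrum (𝓞 M)) (y : 𝓞 N) (D : 𝓞 M) (hD : D ∉ W.asIdeal)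
    (hDy : ∀ z : 𝓞 N, ∃ h : (𝓞 M)[X], algebraMap (𝓞 M) (𝓞 N) D * z = aeval y h)
    (m : 𝓞 M) (hm : (minpoly (𝓞 M) y).eval m ∈ W.asIdeal) :
    ∃ W' ∈ deg1 M N W, y - algebraMap (𝓞 M) (𝓞 N) m ∈ W'.asIdeal := by
  classical
  have hmax : W.asIdeal.IsMaximal := W.isMaximal
  let θ : (𝓞 M)[X] →+* (𝓞 M ⧸ W.asIdeal) :=
    (Ideal.Quotient.mk W.asIdeal).comp (evalRingHom m)
  have hθ : ∀ p, θ p = Ideal.Quotient.mk W.asIdeal (p.eval m) := fun _ => rfl
  have hθ0 : ∀ p, p ∈ RingHom.ker θ ↔ p.eval m ∈ W.asIdeal := fun p => by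
    rw [RingHom.mem_ker, hθ, Ideal.Quotient.eq_zero_iff_mem]
  have hθs : Function.Surjective θ := by
    intro x
    obtain ⟨a, rfl⟩ := Ideal.Quotient.mk_surjective x
    exact ⟨C a, by rw [hθ, eval_C]⟩
  let _ : Field (𝓞 M ⧸ W.asIdeal) := Ideal.Quotient.field _
  have hker : (RingHom.ker θ).IsMaximal := RingHom.ker_isMaximal_of_surjective θ hθs
  let ψ : (𝓞 M)[X] →+* 𝓞 N := (aeval y : (𝓞 M)[X] →ₐ[𝓞 M] 𝓞 N).toRingHom
  let _ : Algebra (𝓞 M)[X] (𝓞 N) := ψ.toAlgebra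
  have hψ : ∀ p : (𝓞 M)[X], algebraMap (𝓞 M)[X] (𝓞 N) p = aeval y p := fun _ => rfl
  have _ : IsScalarTower (𝓞 M) (𝓞 M)[X] (𝓞 N) := IsScalarTower.of_algebraMap_eq fun x => by
    rw [hψ, Polynomial.algebraMap_apply, Algebra.algebraMap_self_apply, aeval_C]
  have _ : Algebra.IsIntegral (𝓞 M)[X] (𝓞 N) := Algebra.IsIntegral.tower_top (𝓞 M)
  have hint : IsIntegral (𝓞 M) y := Algebra.IsIntegral.isIntegral y
  have hle : RingHom.ker (algebraMap (𝓞 M)[X] (𝓞 N)) ≤ RingHom.ker θ := by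
    intro p hp
    rw [RingHom.mem_ker, hψ] at hp
    obtain ⟨c, hc⟩ := minpoly.isIntegrallyClosed_dvd hint hp
    rw [hθ0, hc, eval_mul]
    exact Ideal.mul_mem_right _ _ hm
  obtain ⟨Q, hQ, hQc⟩ := Ideal.exists_ideal_over_maximal_of_isIntegral (RingHom.ker θ) hle
  have hmem : ∀ p : (𝓞 M)[X], aeval y p ∈ Q ↔ p.eval m ∈ W.asIdeal := by
    intro p
    rw [← hθ0, ← hQc, Ideal.mem_comap, hψ]
  have hmemC : ∀ x : 𝓞 M, algebraMap (𝓞 M) (𝓞 N) x ∈ Q ↔ x ∈ W.asIdeal := by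
    intro x
    rw [← eval_C (x := m) (a := x), ← hmem, aeval_C, eval_C]
  have hQ0 : Q ≠ ⊥ := by
    intro h0
    obtain ⟨x, hx, hx0⟩ := Submodule.exists_mem_ne_zero_of_ne_bot W.ne_bot
    have h1 := (hmemC x).2 hx
    rw [h0, Ideal.mem_bot] at h1
    exact hx0 (FaithfulSMul.algebraMap_injective (𝓞 M) (𝓞 N) (by rw [h1, map_zero]))
  have hunder : Q.under (𝓞 M) = W.asIdeal := by
    ext x
    rw [Ideal.under_def, Ideal.mem_comap]
    exact hmemC x
  have hyQ : y - algebraMap (𝓞 M) (𝓞 N) m ∈ Q := by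
    have h1 := (hmem (X - C m)).2 (by rw [eval_sub, eval_X, eval_C, sub_self]; exact zero_mem _)
    rwa [map_sub, aeval_X, aeval_C] at h1
  refine ⟨⟨Q, hQ.isPrime, hQ0⟩, ⟨hunder, ?_⟩, hyQ⟩
  -- the residue fields agree
  obtain ⟨D', hD'⟩ : ∃ D', D * D' - 1 ∈ W.asIdeal := by
    obtain ⟨x, hx⟩ := Ideal.Quotient.exists_inv (I := W.asIdeal)
      (a := Ideal.Quotient.mk W.asIdeal D) (by rwa [Ne, Ideal.Quotient.eq_zero_iff_mem])
    obtain ⟨D', rfl⟩ := Ideal.Quotient.mk_surjective x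
    exact ⟨D', by rw [← Ideal.Quotient.eq_zero_iff_mem, map_sub, map_mul, hx, map_one, sub_self]⟩
  let φ : 𝓞 M →+* 𝓞 N ⧸ Q := (Ideal.Quotient.mk Q).comp (algebraMap (𝓞 M) (𝓞 N))
  have hφs : Function.Surjective φ := by
    intro x
    obtain ⟨z, rfl⟩ := Ideal.Quotient.mk_surjective x
    obtain ⟨h, hh⟩ := hDy z
    refine ⟨D' * h.eval m, ?_⟩
    change Ideal.Quotient.mk Q (algebraMap (𝓞 M) (𝓞 N) (D' * h.eval m)) = Ideal.Quotient.mk Q z
    rw [Ideal.Quotient.eq]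
    have h1 : aeval y (C D' * h - C (D' * h.eval m)) ∈ Q := by
      rw [hmem, eval_sub, eval_mul, eval_C, eval_C, sub_self]
      exact zero_mem _
    rw [map_sub, map_mul, aeval_C, aeval_C, ← hh] at h1
    have h2 : algebraMap (𝓞 M) (𝓞 N) (D * D' - 1) ∈ Q := (hmemC _).2 hD'
    have h3 := Ideal.mul_mem_right z Q h2
    have h4 := Ideal.sub_mem Q h3 h1
    convert h4 using 1
    simp only [map_sub, map_mul, map_one]
    ring
  have hφk : RingHom.ker φ = W.asIdeal := by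
    ext x
    rw [RingHom.mem_ker]
    change Ideal.Quotient.mk Q (algebraMap (𝓞 M) (𝓞 N) x) = 0 ↔ _
    rw [Ideal.Quotient.eq_zero_iff_mem]
    exact hmemC x
  have e1 := (RingHom.quotientKerEquivOfSurjective hφs).toEquiv
  change Ideal.absNorm Q = Ideal.absNorm W.asIdeal
  rw [Ideal.absNorm_apply, Ideal.absNorm_apply, Submodule.cardQuot_apply,
    Submodule.cardQuot_apply, ← hφk]
  exact (Nat.card_congr e1).symm

theorem finite_deg1 (W : HeightOneSpectrum (𝓞 M)) : (deg1 M N W).Finite := by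
  classical
  refine (finite_above N ({W} : Finset (HeightOneSpectrum (𝓞 M)))).subset ?_
  intro w hw
  exact ⟨W, Finset.mem_singleton_self _, hw.1⟩

/-- the integral case at one prime -/
theorem key (W : HeightOneSpectrum (𝓞 M)) {q : ℕ} (hq : 0 < q) {ζ : 𝓞 M}
    (hζ : IsPrimitiveRoot ζ q) (y : 𝓞 N) (ω r D : 𝓞 M) (hy : y ^ q = algebraMap (𝓞 M) (𝓞 N) ω)
    (hqW : (q : 𝓞 M) ∉ W.asIdeal) (hωW : ω ∉ W.asIdeal) (hD : D ∉ W.asIdeal)
    (hDy : ∀ z : 𝓞 N, ∃ h : (𝓞 M)[X], algebraMap (𝓞 M) (𝓞 N) D * z = aeval y h)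
    (hr : ω - r ^ q ∈ W.asIdeal) : (minpoly (𝓞 M) y).natDegree ≤ (deg1 M N W).ncard := by
  classical
  have hmax : W.asIdeal.IsMaximal := W.isMaximal
  let _ : Field (𝓞 M ⧸ W.asIdeal) := Ideal.Quotient.field _
  set π := Ideal.Quotient.mk W.asIdeal with hπ
  set g := minpoly (𝓞 M) y with hg
  have hint : IsIntegral (𝓞 M) y := Algebra.IsIntegral.isIntegral y
  have hgm : g.Monic := minpoly.monic hint
  have hdvd : g ∣ X ^ q - C ω := by
    refine minpoly.isIntegrallyClosed_dvd hint ?_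
    rw [map_sub, map_pow, aeval_X, aeval_C, hy, sub_self]
  have hmap : (X ^ q - C ω : (𝓞 M)[X]).map π = X ^ q - C (π ω) := by simp
  have hωr : π ω = π (r ^ q) := Ideal.Quotient.eq.2 hr
  have hsplit : (X ^ q - C (π ω)).Splits := by
    have h1 := congrArg (Polynomial.map π) (X_pow_sub_C_eq_prod hζ hq (rfl : r ^ q = r ^ q))
    have h2 : (X ^ q - C (r ^ q) : (𝓞 M)[X]).map π = X ^ q - C (π ω) := by
      rw [hωr]; simp
    rw [← h2, h1, Polynomial.map_prod]
    refine Splits.prod fun i _ => ?_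
    rw [Polynomial.map_sub, map_X, map_C]
    exact Splits.X_sub_C _
  have hsep : (X ^ q - C (π ω)).Separable := by
    refine separable_X_pow_sub_C _ ?_ ?_
    · rw [← map_natCast π, Ne, hπ, Ideal.Quotient.eq_zero_iff_mem]
      exact hqW
    · rw [Ne, hπ, Ideal.Quotient.eq_zero_iff_mem]
      exact hωW
  have hdvd' : g.map π ∣ X ^ q - C (π ω) := by
    rw [← hmap]
    exact Polynomial.map_dvd π hdvd
  have hgs : (g.map π).Splits := hsplit.of_dvd hsep.ne_zero hdvd'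
  have hgsep : (g.map π).Separable := hsep.of_dvd hdvd'
  have hcard : (g.map π).roots.toFinset.card = g.natDegree := by
    rw [Multiset.toFinset_card_of_nodup (nodup_roots hgsep), ← hgs.natDegree_eq_card_roots,
      hgm.natDegree_map]
  have hex : ∀ ρ : 𝓞 M ⧸ W.asIdeal, ρ ∈ (g.map π).roots.toFinset →
      ∃ m : 𝓞 M, π m = ρ ∧ ∃ W' ∈ deg1 M N W, y - algebraMap (𝓞 M) (𝓞 N) m ∈ W'.asIdeal := by
    intro ρ hρ
    obtain ⟨m, rfl⟩ := Ideal.Quotient.mk_surjective ρ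
    refine ⟨m, rfl, exists_prime W y D hD hDy m ?_⟩
    have h1 := (mem_roots'.1 (Multiset.mem_toFinset.1 hρ)).2
    rw [IsRoot.def, eval_map, eval₂_at_apply, ← RingHom.mem_ker, hπ, Ideal.mk_ker] at h1
    exact h1
  have : Nonempty (HeightOneSpectrum (𝓞 N)) := ⟨(exists_notMem ∅).choose⟩
  choose! m hm W' hW' hyW' using hex
  have hinj : Set.InjOn W' ((g.map π).roots.toFinset : Set (𝓞 M ⧸ W.asIdeal)) := by
    intro ρ hρ ρ' hρ' he
    have h1 := hyW' ρ hρ
    have h2 := hyW' ρ' hρ'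
    rw [← he] at h2
    have h3 := Ideal.sub_mem _ h2 h1
    have h4 : algebraMap (𝓞 M) (𝓞 N) (m ρ - m ρ') ∈ (W' ρ).asIdeal := by
      rw [map_sub]
      convert h3 using 1
      ring
    have h5 : m ρ - m ρ' ∈ W.asIdeal := by
      rw [← (hW' ρ hρ).1, Ideal.under_def, Ideal.mem_comap]
      exact h4
    rw [← hm ρ hρ, ← hm ρ' hρ']
    exact Ideal.Quotient.eq.2 h5
  rw [← hcard, ← Finset.card_image_of_injOn hinj, ← Set.ncard_coe_finset]
  refine Set.ncard_le_ncard ?_ (finite_deg1 W)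
  intro w hw
  obtain ⟨ρ, hρ, rfl⟩ := Finset.mem_image.1 (Finset.mem_coe.1 hw)
  exact hW' ρ hρ

/-- the primes where `x` is not a unit -/
noncomputable def bad (x : M) : Finset (HeightOneSpectrum (𝓞 M)) := by
  classical
  exact if hx : x = 0 then ∅ else (finite_fabs_ne_one hx).toFinset

theorem fabs_eq_one_of_bad {x : M} (hx : x ≠ 0)
    {W : HeightOneSpectrum (𝓞 M)} (hW : W ∉ bad x) : fabs W x = 1 := by
  classical
  rw [bad, dif_neg hx, Set.Finite.mem_toFinset] at hW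
  by_contra h
  exact hW h

/-- Elements which are integral at `v` are fractions with denominator prime to `v`. -/
theorem exists_frac (v : HeightOneSpectrum (𝓞 M)) {x : M} (hx : fabs v x ≤ 1) :
    ∃ n d : 𝓞 M, d ∉ v.asIdeal ∧ x * algebraMap (𝓞 M) M d = algebraMap (𝓞 M) M n := by
  have hval : v.valuation M x ≤ 1 := by
    have h := hx
    rw [fabs, NumberField.HeightOneSpectrum.adicAbv_def] at h
    have h2 : WithZeroMulInt.toNNReal (NumberField.HeightOneSpectrum.absNorm_ne_zero v)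
        (v.valuation M x) ≤ 1 := by
      exact_mod_cast h
    exact (WithZeroMulInt.toNNReal_le_one_iff
      (NumberField.HeightOneSpectrum.one_lt_absNorm_nnreal v)).1 h2
  obtain ⟨n, ⟨d, hd⟩, hnd⟩ := v.exists_primeCompl_mul_eq_of_integer x hval
  exact ⟨n, d, hd, hnd⟩

end SPLM

open SPLM in
theorem specSPL : SpecSpl := by
  intro M N _ _ _ _ _ q ζ hq hζ ω y hω hy hadj
  classical
  have : NeZero q := ⟨hq.ne'⟩
  have hfd : FiniteDimensional M N := Module.Finite.of_restrictScalars_finite ℚ M N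
  have hinj : Function.Injective (algebraMap M N) := (algebraMap M N).injective
  -- make `y` integral
  obtain ⟨e, he⟩ := IsIntegral.exists_multiple_integral_of_isLocalization
    (nonZeroDivisors (𝓞 M)) (Rₘ := M) y (Algebra.IsIntegral.isIntegral y)
  have he0 : algebraMap (𝓞 M) M e.1 ≠ 0 := by
    simp
  set e' : M := algebraMap (𝓞 M) M e.1 with he'
  have hex : (e • y : N) = algebraMap M N e' * y := by
    rw [Submonoid.smul_def, Algebra.smul_def, he', ← IsScalarTower.algebraMap_apply]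
  rw [hex] at he
  have he2 : IsIntegral ℤ (algebraMap M N e' * y) := isIntegral_trans (R := ℤ) (A := 𝓞 M) _ he
  set y₀ : 𝓞 N := ⟨algebraMap M N e' * y, he2⟩ with hy₀
  have hy₀c : algebraMap (𝓞 N) N y₀ = algebraMap M N e' * y := rfl
  have hω1 : IsIntegral ℤ (e' ^ q * ω) := by
    rw [← isIntegral_algebraMap_iff hinj, map_mul, map_pow, ← hy, ← mul_pow]
    exact he2.pow q
  set ω₀ : 𝓞 M := ⟨e' ^ q * ω, hω1⟩ with hω₀
  have hω₀c : algebraMap (𝓞 M) M ω₀ = e' ^ q * ω := rfl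
  have hyq : y₀ ^ q = algebraMap (𝓞 M) (𝓞 N) ω₀ := by
    apply FaithfulSMul.algebraMap_injective (𝓞 N) N
    rw [map_pow, hy₀c, ← IsScalarTower.algebraMap_apply (𝓞 M) (𝓞 N) N,
      IsScalarTower.algebraMap_apply (𝓞 M) M N, hω₀c, mul_pow, hy, map_mul, map_pow]
  -- the power basis
  have hxint : IsIntegral M (algebraMap (𝓞 N) N y₀) := Algebra.IsIntegral.isIntegral _
  have hadj2 : Algebra.adjoin M {algebraMap (𝓞 N) N y₀} = ⊤ := by
    have h1 : Algebra.adjoin M {y} = ⊤ := by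
      rw [← IntermediateField.adjoin_simple_toSubalgebra_of_isAlgebraic
        (IsAlgebraic.of_finite M y), hadj, IntermediateField.top_toSubalgebra]
    rw [eq_top_iff, ← h1]
    refine Algebra.adjoin_le (Set.singleton_subset_iff.2 ?_)
    have h2 : y = (e'⁻¹) • algebraMap (𝓞 N) N y₀ := by
      rw [hy₀c, Algebra.smul_def, ← mul_assoc, ← map_mul, inv_mul_cancel₀ he0, map_one, one_mul]
    have h3 : e'⁻¹ • algebraMap (𝓞 N) N y₀ ∈ Algebra.adjoin M {algebraMap (𝓞 N) N y₀} :=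
      Subalgebra.smul_mem _ (Algebra.self_mem_adjoin_singleton M _) _
    rwa [← h2] at h3
  set B := PowerBasis.ofAdjoinEqTop hxint hadj2 with hB
  have hBgen : B.gen = algebraMap (𝓞 N) N y₀ := PowerBasis.ofAdjoinEqTop_gen hxint hadj2
  have hgint : IsIntegral (𝓞 M) B.gen := by
    rw [hBgen]
    exact he
  have hDint : IsIntegral (𝓞 M) (Algebra.discr M B.basis) := by
    refine Algebra.discr_isIntegral (R := 𝓞 M) M fun i => ?_
    rw [B.coe_basis]
    exact hgint.pow _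
  have hD0 : Algebra.discr M B.basis ≠ 0 := Algebra.discr_not_zero_of_basis M B.basis
  obtain ⟨D, hD⟩ := IsIntegrallyClosed.isIntegral_iff.1 hDint
  have hDy : ∀ z : 𝓞 N, ∃ h : (𝓞 M)[X], algebraMap (𝓞 M) (𝓞 N) D * z = aeval y₀ h := by
    intro z
    have hz : IsIntegral (𝓞 M) (algebraMap (𝓞 N) N z) :=
      IsIntegral.algebraMap (Algebra.IsIntegral.isIntegral (R := 𝓞 M) z)
    have h1 := Algebra.discr_mul_isIntegral_mem_adjoin M (B := B) hgint hz
    rw [hBgen, Algebra.adjoin_singleton_eq_range_aeval] at h1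
    obtain ⟨h, hh⟩ := h1
    refine ⟨h, ?_⟩
    apply FaithfulSMul.algebraMap_injective (𝓞 N) N
    have h2 : aeval (algebraMap (𝓞 N) N y₀) h = algebraMap (𝓞 N) N (aeval y₀ h) :=
      aeval_algebraMap_apply N y₀ h
    rw [← h2, map_mul, ← IsScalarTower.algebraMap_apply (𝓞 M) (𝓞 N) N,
      IsScalarTower.algebraMap_apply (𝓞 M) M N, hD]
    have h3 : aeval (algebraMap (𝓞 N) N y₀) h =
      Algebra.discr M B.basis • algebraMap (𝓞 N) N z := hh
    rw [h3, Algebra.smul_def]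
  have hdeg : Module.finrank M N = (minpoly (𝓞 M) y₀).natDegree := by
    have hi : IsIntegral (𝓞 M) y₀ := Algebra.IsIntegral.isIntegral y₀
    have h1 : minpoly M (algebraMap (𝓞 N) N y₀) =
        (minpoly (𝓞 M) y₀).map (algebraMap (𝓞 M) M) :=
      minpoly.isIntegrallyClosed_eq_field_fractions M N hi
    have h2 : B.dim = (minpoly M (algebraMap (𝓞 N) N y₀)).natDegree :=
      PowerBasis.ofAdjoinEqTop_dim hxint hadj2
    rw [B.finrank, h2, h1]
    exact (minpoly.monic hi).natDegree_map _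
  refine ⟨bad (q : M) ∪ bad (e' ^ q * ω) ∪ bad (Algebra.discr M B.basis) ∪ bad e', ?_⟩
  intro W hW hr
  simp only [Finset.mem_union, not_or] at hW
  obtain ⟨⟨⟨hWq, hWω⟩, hWD⟩, hWe⟩ := hW
  have e1 := fabs_eq_one_of_bad (Nat.cast_ne_zero.2 hq.ne') hWq
  have e2 := fabs_eq_one_of_bad (mul_ne_zero (pow_ne_zero q he0) hω) hWω
  have e3 := fabs_eq_one_of_bad hD0 hWD
  have e4 := fabs_eq_one_of_bad he0 hWe
  obtain ⟨r, hr1, hr2⟩ := hr
  have her : fabs W (e' * r) ≤ 1 := by rw [map_mul, e4, hr1, one_mul]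
  obtain ⟨n, d, hdW, hnd⟩ := exists_frac W her
  have hd1 : fabs W (algebraMap (𝓞 M) M d) = 1 := (fabs_coe_eq_iff W d).2 hdW
  have hmax : W.asIdeal.IsMaximal := W.isMaximal
  obtain ⟨d', hd'⟩ : ∃ d', d * d' - 1 ∈ W.asIdeal := by
    let _ : Field (𝓞 M ⧸ W.asIdeal) := Ideal.Quotient.field _
    obtain ⟨x, hx⟩ := Ideal.Quotient.exists_inv (I := W.asIdeal)
      (a := Ideal.Quotient.mk W.asIdeal d) (by rwa [Ne, Ideal.Quotient.eq_zero_iff_mem])
    obtain ⟨d', rfl⟩ := Ideal.Quotient.mk_surjective x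
    exact ⟨d', by rw [← Ideal.Quotient.eq_zero_iff_mem, map_sub, map_mul, hx, map_one, sub_self]⟩
  have hmem : d ^ q * ω₀ - n ^ q ∈ W.asIdeal := by
    rw [← fabs_coe_lt_iff]
    have h1 : algebraMap (𝓞 M) M (d ^ q * ω₀ - n ^ q) =
        algebraMap (𝓞 M) M d ^ q * e' ^ q * (ω - r ^ q) := by
      rw [map_sub, map_mul, map_pow, map_pow, hω₀c, ← hnd]
      ring
    rw [h1, map_mul, map_mul, map_pow, map_pow, hd1, e4, one_pow, one_mul, one_mul]
    exact hr2
  have hmem2 : ω₀ - (n * d') ^ q ∈ W.asIdeal := by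
    have h1 := Ideal.mul_mem_left _ (d' ^ q) hmem
    have h2 : (d * d') ^ q - 1 ∈ W.asIdeal := by
      have h3 : (d * d' - 1) ∣ (d * d') ^ q - 1 := by
        have := sub_dvd_pow_sub_pow (d * d') 1 q
        rwa [one_pow] at this
      exact Ideal.mem_of_dvd _ h3 hd'
    have h4 := Ideal.mul_mem_right ω₀ _ h2
    have h5 := Ideal.sub_mem _ h1 h4
    convert h5 using 1
    rw [mul_pow, mul_pow]
    ring
  rw [hdeg]
  refine key W hq hζ.toInteger_isPrimitiveRoot y₀ ω₀ (n * d') D hyq ?_ ?_ ?_ hDy hmem2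
  · rw [← fabs_coe_eq_iff, map_natCast]; exact e1
  · rw [← fabs_coe_eq_iff, hω₀c]; exact e2
  · rw [← fabs_coe_eq_iff, hD]; exact e3

end Pool.Agent.Lib.MP_78b700_nt.HV
end

section
/-!
# Polynomials in the approximations
-/
set_option autoImplicit false

open IsDedekindDomain NumberField Polynomial

namespace Pool.Agent.Lib.MP_78b700_nt.HV

namespace SUBM

variable {L : Type} [Field L] [NumberField L] (S : Finset (HeightOneSpectrum (𝓞 L)))

theorem denom (a : L) : ∃ e : L, e ≠ 0 ∧ ∀ v : HeightOneSpectrum (𝓞 L),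
    fabs v e ≤ 1 ∧ fabs v (e * a) ≤ 1 := by
  obtain ⟨n, d, hd, rfl⟩ := IsFractionRing.div_surjective (A := 𝓞 L) a
  have hd0 : algebraMap (𝓞 L) L d ≠ 0 := by
    simpa using nonZeroDivisors.ne_zero hd
  refine ⟨algebraMap (𝓞 L) L d, hd0, fun v => ⟨fabs_coe_le v d, ?_⟩⟩
  rw [mul_div_cancel₀ _ hd0]
  exact fabs_coe_le v n

/-- families with bounded denominators -/
def Bd (X : ℕ → L) : Prop := ∃ e : L, e ≠ 0 ∧ ∀ k, ∀ v ∉ S, fabs v e ≤ 1 ∧ fabs v (e * X k) ≤ 1

variable {S}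

theorem bd_const (a : L) : Bd S fun _ => a := by
  obtain ⟨e, he, h⟩ := denom a
  exact ⟨e, he, fun _ v _ => h v⟩

theorem Bd.add {X Y : ℕ → L} (hX : Bd S X) (hY : Bd S Y) : Bd S fun k => X k + Y k := by
  obtain ⟨e, he, h⟩ := hX
  obtain ⟨e', he', h'⟩ := hY
  refine ⟨e * e', mul_ne_zero he he', fun k v hv => ?_⟩
  obtain ⟨a1, a2⟩ := h k v hv
  obtain ⟨b1, b2⟩ := h' k v hv
  refine ⟨by rw [map_mul]; exact mul_le_one₀ a1 ((fabs v).nonneg _) b1, ?_⟩
  rw [show e * e' * (X k + Y k) = (e * X k) * e' + e * (e' * Y k) by ring]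
  refine (fabs_add_le v _ _).trans (max_le ?_ ?_)
  · rw [map_mul]; exact mul_le_one₀ a2 ((fabs v).nonneg _) b1
  · rw [map_mul]; exact mul_le_one₀ a1 ((fabs v).nonneg _) b2

theorem Bd.mul {X Y : ℕ → L} (hX : Bd S X) (hY : Bd S Y) : Bd S fun k => X k * Y k := by
  obtain ⟨e, he, h⟩ := hX
  obtain ⟨e', he', h'⟩ := hY
  refine ⟨e * e', mul_ne_zero he he', fun k v hv => ?_⟩
  obtain ⟨a1, a2⟩ := h k v hv
  obtain ⟨b1, b2⟩ := h' k v hv
  refine ⟨by rw [map_mul]; exact mul_le_one₀ a1 ((fabs v).nonneg _) b1, ?_⟩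
  rw [show e * e' * (X k * Y k) = (e * X k) * (e' * Y k) by ring, map_mul]
  exact mul_le_one₀ a2 ((fabs v).nonneg _) b2

/-- two families which are close -/
def Pr (S : Finset (HeightOneSpectrum (𝓞 L))) (X Y : ℕ → L) : Prop :=
  ∃ d : L, d ≠ 0 ∧ ∀ k, ∀ v ∉ S, fabs v d ≤ 1 ∧ fabs v (d * X k) ≤ 1 ∧ fabs v (d * Y k) ≤ 1 ∧
    fabs v (d * (X k - Y k)) ≤ fabs v ((k.factorial : ℕ) : L)

theorem pr_const (a : L) : Pr S (fun _ => a) fun _ => a := by
  obtain ⟨e, he, h⟩ := denom a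
  refine ⟨e, he, fun k v _ => ⟨(h v).1, (h v).2, (h v).2, ?_⟩⟩
  rw [sub_self, mul_zero, map_zero]
  exact (fabs v).nonneg _

theorem Pr.add {X Y X' Y' : ℕ → L} (h : Pr S X Y) (h' : Pr S X' Y') :
    Pr S (fun k => X k + X' k) fun k => Y k + Y' k := by
  obtain ⟨d, hd, h⟩ := h
  obtain ⟨d', hd', h'⟩ := h'
  refine ⟨d * d', mul_ne_zero hd hd', fun k v hv => ?_⟩
  obtain ⟨a1, a2, a3, a4⟩ := h k v hv
  obtain ⟨b1, b2, b3, b4⟩ := h' k v hv
  have n0 := (fabs v).nonneg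
  refine ⟨by rw [map_mul]; exact mul_le_one₀ a1 (n0 _) b1, ?_, ?_, ?_⟩
  · rw [show d * d' * (X k + X' k) = (d * X k) * d' + d * (d' * X' k) by ring]
    refine (fabs_add_le v _ _).trans (max_le ?_ ?_)
    · rw [map_mul]; exact mul_le_one₀ a2 (n0 _) b1
    · rw [map_mul]; exact mul_le_one₀ a1 (n0 _) b2
  · rw [show d * d' * (Y k + Y' k) = (d * Y k) * d' + d * (d' * Y' k) by ring]
    refine (fabs_add_le v _ _).trans (max_le ?_ ?_)
    · rw [map_mul]; exact mul_le_one₀ a3 (n0 _) b1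
    · rw [map_mul]; exact mul_le_one₀ a1 (n0 _) b3
  · rw [show d * d' * (X k + X' k - (Y k + Y' k)) =
      (d * (X k - Y k)) * d' + d * (d' * (X' k - Y' k)) by ring]
    refine (fabs_add_le v _ _).trans (max_le ?_ ?_)
    · rw [map_mul]; exact (mul_le_of_le_one_right (n0 _) b1).trans a4
    · rw [map_mul]; exact (mul_le_of_le_one_left (n0 _) a1).trans b4

theorem Pr.mul {X Y X' Y' : ℕ → L} (h : Pr S X Y) (h' : Pr S X' Y') :
    Pr S (fun k => X k * X' k) fun k => Y k * Y' k := by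
  obtain ⟨d, hd, h⟩ := h
  obtain ⟨d', hd', h'⟩ := h'
  refine ⟨d * d', mul_ne_zero hd hd', fun k v hv => ?_⟩
  obtain ⟨a1, a2, a3, a4⟩ := h k v hv
  obtain ⟨b1, b2, b3, b4⟩ := h' k v hv
  have n0 := (fabs v).nonneg
  refine ⟨by rw [map_mul]; exact mul_le_one₀ a1 (n0 _) b1, ?_, ?_, ?_⟩
  · rw [show d * d' * (X k * X' k) = (d * X k) * (d' * X' k) by ring, map_mul]
    exact mul_le_one₀ a2 (n0 _) b2
  · rw [show d * d' * (Y k * Y' k) = (d * Y k) * (d' * Y' k) by ring, map_mul]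
    exact mul_le_one₀ a3 (n0 _) b3
  · rw [show d * d' * (X k * X' k - Y k * Y' k) =
      (d * (X k - Y k)) * (d' * X' k) + (d * Y k) * (d' * (X' k - Y' k)) by ring]
    refine (fabs_add_le v _ _).trans (max_le ?_ ?_)
    · rw [map_mul]; exact (mul_le_of_le_one_right (n0 _) b2).trans a4
    · rw [map_mul]; exact (mul_le_of_le_one_left (n0 _) a3).trans b4

theorem pr_of {X Y : ℕ → L} (hX : Bd S X) (hY : Bd S Y)
    (h : ∃ d : L, d ≠ 0 ∧ ∀ k, ∀ v ∉ S,
      fabs v (d * (X k - Y k)) ≤ fabs v ((k.factorial : ℕ) : L)) : Pr S X Y := by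
  obtain ⟨e, he, hX⟩ := hX
  obtain ⟨e', he', hY⟩ := hY
  obtain ⟨d, hd, h⟩ := h
  obtain ⟨c, hc, hcd⟩ := denom d
  refine ⟨e * e' * (c * d), mul_ne_zero (mul_ne_zero he he') (mul_ne_zero hc hd),
    fun k v hv => ?_⟩
  obtain ⟨a1, a2⟩ := hX k v hv
  obtain ⟨b1, b2⟩ := hY k v hv
  obtain ⟨c1, c2⟩ := hcd v
  have n0 := (fabs v).nonneg
  refine ⟨?_, ?_, ?_, ?_⟩
  · rw [map_mul, map_mul]
    exact mul_le_one₀ (mul_le_one₀ a1 (n0 _) b1) (n0 _) c2
  · rw [show e * e' * (c * d) * X k = (e * X k) * e' * (c * d) by ring, map_mul, map_mul]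
    exact mul_le_one₀ (mul_le_one₀ a2 (n0 _) b1) (n0 _) c2
  · rw [show e * e' * (c * d) * Y k = e * (e' * Y k) * (c * d) by ring, map_mul, map_mul]
    exact mul_le_one₀ (mul_le_one₀ a1 (n0 _) b2) (n0 _) c2
  · rw [show e * e' * (c * d) * (X k - Y k) = e * e' * c * (d * (X k - Y k)) by ring, map_mul]
    refine (mul_le_of_le_one_left (n0 _) ?_).trans (h k v hv)
    rw [map_mul, map_mul]
    exact mul_le_one₀ (mul_le_one₀ a1 (n0 _) b1) (n0 _) c1

end SUBM

open SUBM in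
theorem specSub : SpecSub := by
  intro F L _ _ _ _ _ f S t ht θ₀ θ₁ hne Ψ
  set z : ℕ → f.rootSet L → L := fun k θ => (t k θ : L) / t k θ₁ with hz
  set y : ℕ → f.rootSet L → L := fun k θ => (lf (θ₀ : L) (θ₁ : L) (θ : L)).eval (z k θ₀) with hy
  have hne' : (θ₀ : L) - θ₁ ≠ 0 := sub_ne_zero.2 fun h => hne (Subtype.ext h)
  have hz1 : ∀ k θ, (t k θ : L) ≠ 0 := fun k θ => (t k θ).ne_zero
  -- bounded denominators
  have hbz : ∀ θ, Bd (above L S) fun k => z k θ := by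
    intro θ
    obtain ⟨e, he, h⟩ := denom (z 0 θ)
    refine ⟨e, he, fun k v hv => ⟨(h v).1, ?_⟩⟩
    have hc := ht.conv θ θ₁ 0 k (Nat.zero_le k)
    obtain ⟨h0, hk0, hc⟩ := hc
    have h1 := (hc v hv).1
    rw [map_div₀, div_eq_one_iff_eq ((fabs v).ne_zero hk0)] at h1
    have h2 : fabs v (z k θ) = fabs v (z 0 θ) := h1.symm
    rw [map_mul, h2, ← map_mul]
    exact (h v).2
  have hye : ∀ k θ, y k θ = (θ - θ₁ : L) / (θ₀ - θ₁) * z k θ₀ + (θ₀ - θ : L) / (θ₀ - θ₁) := by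
    intro k θ
    simp [hy, lf]
  have hby : ∀ θ, Bd (above L S) fun k => y k θ := by
    intro θ
    simp only [hye]
    exact ((bd_const _).mul (hbz θ₀)).add (bd_const _)
  obtain ⟨d, hd, hlin⟩ := ht.lin
  have hvar : ∀ θ, Pr (above L S) (fun k => z k θ) fun k => y k θ := by
    intro θ
    refine pr_of (hbz θ) (hby θ) ⟨d * (θ₀ - θ₁), mul_ne_zero hd hne', fun k v hv => ?_⟩
    have h := hlin k v hv θ₀ θ₁ θ
    have e : d * (θ₀ - θ₁ : L) * (z k θ - y k θ) =
        d * (((θ₀ - θ₁ : L) * t k θ + (θ₁ - θ : L) * t k θ₀ + (θ - θ₀ : L) * t k θ₁) /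
          t k θ₁) := by
      rw [hye]
      have h1 := hz1 k θ₁
      simp only [hz]
      field_simp
      ring
    rw [e]
    exact h
  have hall : Pr (above L S) (fun k => MvPolynomial.eval (z k) Ψ)
      fun k => MvPolynomial.eval (y k) Ψ := by
    induction Ψ using MvPolynomial.induction_on with
    | C a => simpa using pr_const (S := above L S) a
    | add p q hp hq => simpa using hp.add hq
    | mul_X p i hp => simpa using hp.mul (hvar i)
  obtain ⟨d', hd', h'⟩ := hall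
  exact ⟨d', hd', fun k v hv => (h' k v hv).2.2.2⟩

end Pool.Agent.Lib.MP_78b700_nt.HV
end

section
/-!
# Module SUF: the group of `S`-units modulo `N`-th powers is finite
-/
set_option autoImplicit false

open IsDedekindDomain NumberField NumberField.HeightOneSpectrum

namespace Pool.Agent.Lib.MP_78b700_nt.HV

namespace SUFM

variable {L : Type} [Field L] [NumberField L] (S : Finset (HeightOneSpectrum (𝓞 L)))

/-- The `S`-units as a subgroup of `Lˣ`. -/
def sunits : Subgroup Lˣ where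
  carrier := {u | IsSUnit S (u : L)}
  mul_mem' := by
    intro a b ha hb
    simp only [Set.mem_ofPred_eq, Units.val_mul] at *
    exact ha.mul hb
  one_mem' := ⟨by simp, fun v _ => by simp⟩
  inv_mem' := by
    intro a ha
    simp only [Set.mem_ofPred_eq] at *
    rw [Units.val_inv_eq_inv_val]
    have := IsSUnit.zpow ha (-1)
    simpa using this

theorem mem_sunits {u : Lˣ} : u ∈ sunits S ↔ IsSUnit S (u : L) := Iff.rfl

/-- The valuations at the primes in `S`. -/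
noncomputable def val : Additive (sunits S) →+ (S → ℤ) where
  toFun u v := Multiplicative.toAdd (v.1.valuationOfNeZero ((Additive.toMul u : sunits S) : Lˣ))
  map_zero' := by
    funext v
    simp
  map_add' a b := by
    funext v
    simp

/-- A unit of the ring of integers is an `S`-unit. -/
theorem unit_mem (u : (𝓞 L)ˣ) : Units.map (algebraMap (𝓞 L) L : 𝓞 L →* L) u ∈ sunits S := by
  rw [mem_sunits]
  refine ⟨Units.ne_zero _, fun v _ => ?_⟩
  rw [Units.coe_map]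
  exact (fabs_coe_eq_iff v (u : 𝓞 L)).2 (fun h => v.isPrime.ne_top (Ideal.eq_top_of_isUnit_mem _ h
    u.isUnit))

/-- The inclusion of the units. -/
noncomputable def inc : Additive (𝓞 L)ˣ →+ Additive (sunits S) where
  toFun u := Additive.ofMul
    ⟨Units.map (algebraMap (𝓞 L) L : 𝓞 L →* L) (Additive.toMul u), unit_mem S _⟩
  map_zero' := by
    rw [← ofMul_one]
    congr 1
  map_add' a b := by
    rw [← ofMul_mul]
    congr 1

theorem fabs_eq_one_iff (v : HeightOneSpectrum (𝓞 L)) (x : L) :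
    fabs v x = 1 ↔ v.valuation L x = 1 := by
  have h1 := one_lt_absNorm_nnreal v
  rw [fabs, adicAbv_def]
  constructor
  · intro h
    have h2 : WithZeroMulInt.toNNReal (absNorm_ne_zero v) (v.valuation L x) = 1 := by
      exact_mod_cast h
    have h3 : WithZeroMulInt.toNNReal (absNorm_ne_zero v) (v.valuation L x) =
        WithZeroMulInt.toNNReal (absNorm_ne_zero v) 1 := by rw [h2, map_one]
    exact (WithZeroMulInt.toNNReal_strictMono h1).injective h3
  · intro h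
    rw [h, map_one]
    rfl

theorem exists_unit {u : Lˣ} (h : ∀ v : HeightOneSpectrum (𝓞 L), fabs v (u : L) = 1) :
    ∃ w : (𝓞 L)ˣ, Units.map (algebraMap (𝓞 L) L : 𝓞 L →* L) w = u := by
  have h1 : (u : L) ∈ (algebraMap (𝓞 L) L).range :=
    HeightOneSpectrum.mem_integers_of_valuation_le_one (R := 𝓞 L) L (u : L)
      fun v => ((fabs_eq_one_iff v _).1 (h v)).le
  have h2 : ((u⁻¹ : Lˣ) : L) ∈ (algebraMap (𝓞 L) L).range :=
    HeightOneSpectrum.mem_integers_of_valuation_le_one (R := 𝓞 L) L ((u⁻¹ : Lˣ) : L) fun v => by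
      refine ((fabs_eq_one_iff v _).1 ?_).le
      rw [Units.val_inv_eq_inv_val, map_inv₀, h v, inv_one]
  obtain ⟨a, ha⟩ := h1
  obtain ⟨b, hb⟩ := h2
  have hab : a * b = 1 := by
    apply FaithfulSMul.algebraMap_injective (𝓞 L) L
    rw [map_mul, ha, hb, map_one, Units.mul_inv]
  have hba : b * a = 1 := by rw [mul_comm]; exact hab
  exact ⟨⟨a, b, hab, hba⟩, by ext; exact ha⟩

instance finite_sunits : Module.Finite ℤ (Additive (sunits S)) := by
  rw [Module.finite_def]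
  refine Submodule.fg_of_fg_map_of_fg_inf_ker (val S).toIntLinearMap ?_ ?_
  · exact IsNoetherian.noetherian _
  · have h : (⊤ ⊓ LinearMap.ker (val S).toIntLinearMap : Submodule ℤ (Additive (sunits S))) =
        LinearMap.range (inc S).toIntLinearMap := by
      rw [top_inf_eq]
      ext x
      rw [LinearMap.mem_ker, LinearMap.mem_range]
      constructor
      · intro hx
        have hx2 : ∀ v ∈ S, fabs v ((Additive.toMul x : sunits S) : Lˣ).1 = 1 := by
          intro v hv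
          have h1 : (val S) x ⟨v, hv⟩ = 0 := by
            have := congrFun hx ⟨v, hv⟩
            exact this
          have h2 : v.valuationOfNeZero ((Additive.toMul x : sunits S) : Lˣ) = 1 := by
            have h3 : Multiplicative.toAdd (v.valuationOfNeZero
              ((Additive.toMul x : sunits S) : Lˣ)) = 0 := h1
            exact toAdd_eq_zero.1 h3
          rw [fabs_eq_one_iff, ← HeightOneSpectrum.valuationOfNeZero_eq, h2]
          rfl
        have hx3 : ∀ v, fabs v ((Additive.toMul x : sunits S) : Lˣ).1 = 1 := by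
          intro v
          by_cases hv : v ∈ S
          · exact hx2 v hv
          · exact (Additive.toMul x : sunits S).2.2 v hv
        obtain ⟨w, hw⟩ := exists_unit hx3
        refine ⟨Additive.ofMul w, ?_⟩
        change (inc S) (Additive.ofMul w) = x
        rw [← ofMul_toMul x]
        change Additive.ofMul _ = Additive.ofMul _
        congr 1
        ext1
        exact hw
      · rintro ⟨w, rfl⟩
        change (val S) ((inc S) w) = 0
        funext v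
        change Multiplicative.toAdd (v.1.valuationOfNeZero
          (Units.map (algebraMap (𝓞 L) L : 𝓞 L →* L) (Additive.toMul w))) = 0
        rw [toAdd_eq_zero, HeightOneSpectrum.valuation_of_unit_eq]
    rw [h, LinearMap.range_eq_map]
    exact Submodule.FG.map _ (Module.Finite.fg_top)

end SUFM

open SUFM in
theorem specSUF : SpecSuf := by
  intro L _ _ S N hN
  classical
  have hfg : Group.FG (sunits S) := by
    rw [GroupFG.iff_add_fg]
    exact Module.Finite.iff_addGroup_fg.1 (finite_sunits S)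
  let Q := sunits S ⧸ (powMonoidHom N : sunits S →* sunits S).range
  have hQ : Finite Q := by
    refine CommGroup.finite_of_fg_isMulTorsion Q ?_
    intro q
    obtain ⟨u, rfl⟩ := QuotientGroup.mk_surjective q
    rw [isOfFinOrder_iff_pow_eq_one]
    refine ⟨N, hN, ?_⟩
    rw [← QuotientGroup.mk_pow, QuotientGroup.eq_one_iff]
    exact ⟨u, rfl⟩
  refine ⟨Set.range fun q : Q => ((q.out : sunits S) : Lˣ).1, Set.finite_range _, ?_, ?_⟩
  · rintro _ ⟨q, rfl⟩
    exact (q.out : sunits S).2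
  · intro u hu
    let u' : sunits S := ⟨Units.mk0 u hu.1, hu⟩
    have h1 : ((u' : Q).out : Q) = (u' : Q) := Quotient.out_eq _
    rw [QuotientGroup.eq] at h1
    obtain ⟨y, hy⟩ := h1
    refine ⟨_, ⟨(u' : Q), rfl⟩, ((y : sunits S) : Lˣ).1, y.2, ?_⟩
    have h2 : (u' : Q).out * y ^ N = u' := by
      have : y ^ N = (u' : Q).out⁻¹ * u' := hy
      rw [this, mul_inv_cancel_left]
    have h3 := congrArg (fun z : sunits S => ((z : Lˣ) : L)) h2
    have h4 : ((u' : sunits S) : Lˣ).1 = u := rfl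
    rw [h4] at h3
    simpa using h3.symm

end Pool.Agent.Lib.MP_78b700_nt.HV
end

section
/-!
# TOP: if all differences are large then the term with the largest exponent dominates
-/
set_option autoImplicit false

namespace Pool.Agent.Lib.MP_78b700_nt.HV

theorem specTop : SpecTop := by
  intro L _ w ε hε Z hZ h0 n
  obtain ⟨b, hb, hbZ⟩ : ∃ b : ℝ, 0 < b ∧ ∀ z ∈ Z, b ≤ w z := by
    rcases Z.eq_empty_or_nonempty with rfl | hne
    · exact ⟨1, one_pos, fun z hz => absurd hz (Set.notMem_empty z)⟩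
    · obtain ⟨z, hz, hmin⟩ := Set.exists_min_image Z w hZ hne
      exact ⟨w z, w.pos fun h => h0 (h ▸ hz), hmin⟩
  obtain ⟨B, hB, hBZ⟩ : ∃ B : ℝ, 0 < B ∧ ∀ z ∈ Z, w z ≤ B := by
    rcases Z.eq_empty_or_nonempty with rfl | hne
    · exact ⟨1, one_pos, fun z hz => absurd hz (Set.notMem_empty z)⟩
    · obtain ⟨z, hz, hmax⟩ := Set.exists_max_image Z w hZ hne
      exact ⟨w z, w.pos fun h => h0 (h ▸ hz), hmax⟩
  have hE : 0 < w ε := one_pos.trans hε
  obtain ⟨C, hC⟩ : ∃ C : ℕ, n * B / b < w ε ^ C := pow_unbounded_of_one_lt _ hε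
  refine ⟨C, fun I _ _ hI β x hβ hs => ?_⟩
  classical
  by_contra hcon
  push Not at hcon
  obtain ⟨i₀, -, hi₀⟩ := Finset.exists_max_image (Finset.univ : Finset I) x
    ⟨Classical.arbitrary I, Finset.mem_univ _⟩
  have h1 : ∀ i, i ≠ i₀ → x i + C < x i₀ := by
    intro i hi
    have h2 : x i ≤ x i₀ := hi₀ i (Finset.mem_univ i)
    exact hcon i i₀ hi (by omega)
  rw [← Finset.add_sum_erase _ _ (Finset.mem_univ i₀)] at hs
  have h2 : w (β i₀ * ε ^ x i₀) = w (∑ i ∈ Finset.univ.erase i₀, β i * ε ^ x i) := by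
    rw [eq_neg_of_add_eq_zero_left hs, map_neg_eq_map]
  have h3 : w (∑ i ∈ Finset.univ.erase i₀, β i * ε ^ x i) * w ε ^ C ≤
      ∑ i ∈ Finset.univ.erase i₀, B * w ε ^ x i₀ := by
    refine (mul_le_mul_of_nonneg_right (w.sum_le _ _) (by positivity)).trans ?_
    rw [Finset.sum_mul]
    refine Finset.sum_le_sum fun i hi => ?_
    rw [map_mul, map_pow, mul_assoc, ← pow_add]
    exact mul_le_mul (hBZ _ (hβ i))
      (pow_le_pow_right₀ hε.le (h1 i (Finset.ne_of_mem_erase hi)).le) (by positivity) hB.le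
  have h4 : ∑ i ∈ Finset.univ.erase i₀, B * w ε ^ x i₀ ≤ n * (B * w ε ^ x i₀) := by
    rw [Finset.sum_const, nsmul_eq_mul]
    refine mul_le_mul_of_nonneg_right ?_ (by positivity)
    exact_mod_cast (Finset.card_le_univ _).trans hI
  rw [← h2, map_mul, map_pow] at h3
  have h5 : b * w ε ^ x i₀ * w ε ^ C ≤ n * (B * w ε ^ x i₀) := by
    refine le_trans ?_ (h3.trans h4)
    have := hbZ _ (hβ i₀)
    gcongr
  have h6 : n * B < w ε ^ C * b := (div_lt_iff₀ hb).1 hC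
  have h7 : 0 < w ε ^ x i₀ := by positivity
  nlinarith

end Pool.Agent.Lib.MP_78b700_nt.HV
end

section
/-!
# Groups of `S`-units dominated by one place are virtually cyclic
-/
set_option autoImplicit false

open IsDedekindDomain NumberField

namespace Pool.Agent.Lib.MP_78b700_nt.HV

theorem specVcy : SpecVcy := by
  intro L _ _ S U hU h1 hdiv hw
  obtain ⟨w₁, hw⟩ := hw
  have hinv : ∀ u ∈ U, u⁻¹ ∈ U := fun u hu => by
    have := hdiv 1 h1 u hu
    rwa [one_mul] at this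
  have hmul : ∀ u ∈ U, ∀ u' ∈ U, u * u' ∈ U := fun u hu u' hu' => by
    have := hdiv u hu _ (hinv u' hu')
    rwa [inv_inv] at this
  have hpow : ∀ u ∈ U, ∀ n : ℕ, u ^ n ∈ U := by
    intro u hu n
    induction n with
    | zero => rw [pow_zero]; exact h1
    | succ n ih => rw [pow_succ]; exact hmul _ ih _ hu
  have hzpow : ∀ u ∈ U, ∀ n : ℤ, u ^ n ∈ U := by
    intro u hu n
    rcases Int.eq_nat_or_neg n with ⟨m, rfl | rfl⟩
    · rw [zpow_natCast]; exact hpow u hu m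
    · rw [zpow_neg, zpow_natCast]; exact hinv _ (hpow u hu m)
  by_cases hE : ∃ ε ∈ U, 1 < tabs S w₁ ε
  · obtain ⟨ε, hεU, hε⟩ := hE
    have hεS := hU ε hεU
    have hE0 : 0 < tabs S w₁ ε := (tabs S w₁).pos hεS.1
    right
    refine ⟨ε, hεU, ⟨w₁, hε⟩, {z | z ∈ U ∧ ∀ t, tabs S t z ≤ tabs S w₁ ε}, ?_, fun z hz => hz.1,
      fun u hu => ?_⟩
    · exact (finite_bounded S (tabs S w₁ ε)).subset fun z hz =>
        ⟨fun v hv => ((hU z hz.1).2 v hv).le, hz.2⟩
    · have huS := hU u hu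
      obtain ⟨n, hn1, hn2⟩ := exists_mem_Ico_zpow ((tabs S w₁).pos huS.1) hε
      have hz : u * ε ^ (-n) ∈ U := hmul _ hu _ (hzpow ε hεU _)
      have a1 : 1 ≤ tabs S w₁ (u * ε ^ (-n)) := by
        rw [map_mul, map_zpow₀, zpow_neg, ← div_eq_mul_inv, one_le_div (zpow_pos hE0 _)]
        exact hn1
      have a2 : tabs S w₁ (u * ε ^ (-n)) ≤ tabs S w₁ ε := by
        rw [map_mul, map_zpow₀, zpow_neg, ← div_eq_mul_inv, div_le_iff₀ (zpow_pos hE0 _)]
        rw [zpow_add_one₀ hE0.ne'] at hn2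
        linarith
      refine ⟨u * ε ^ (-n), ⟨hz, fun t => (hw _ hz a1 t).trans a2⟩, n, ?_⟩
      rw [mul_assoc, ← zpow_add₀ hεS.1]; simp
  · left
    push Not at hE
    refine (finite_bounded S 1).subset fun u hu => ⟨fun v hv => ((hU u hu).2 v hv).le, fun t => ?_⟩
    have huS := hU u hu
    have h2 : 1 ≤ tabs S w₁ u := by
      have h3 := hE _ (hinv u hu)
      rw [map_inv₀] at h3
      have h4 := (tabs S w₁).pos huS.1
      rwa [inv_le_one₀ h4] at h3
    exact (hw u hu h2 t).trans (hE u hu)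

end Pool.Agent.Lib.MP_78b700_nt.HV
end

section
/-!
# Module ZED: Theorem Z (a convergent sequence near a zero-dimensional subscheme converges to a
point)
-/
set_option autoImplicit false

open IsDedekindDomain NumberField Polynomial

namespace Pool.Agent.Lib.MP_78b700_nt.HV

namespace ZEDM

section Mu

variable {E : Type} [Field E]

/-- `x` is a root of unity times an `n`-th power. -/
def MuPow (x : E) (n : ℕ) : Prop := ∃ (ξ T : E) (m : ℕ), 0 < m ∧ ξ ^ m = 1 ∧ x = ξ * T ^ n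

theorem MuPow.one (x : E) : MuPow x 1 := ⟨1, x, 1, one_pos, one_pow _, by simp⟩

theorem MuPow.mul {x : E} (hx : x ≠ 0) {a b : ℕ} (hab : Nat.Coprime a b) (ha : MuPow x a)
    (hb : MuPow x b) : MuPow x (a * b) := by
  obtain ⟨ξ₁, T₁, m₁, hm₁, h₁, e₁⟩ := ha
  obtain ⟨ξ₂, T₂, m₂, hm₂, h₂, e₂⟩ := hb
  obtain ⟨u, v, huv⟩ := (Nat.isCoprime_iff_coprime.2 hab : IsCoprime (a : ℤ) b)
  refine ⟨ξ₂ ^ (u * a) * ξ₁ ^ (v * b), T₂ ^ u * T₁ ^ v, m₁ * m₂, by positivity, ?_, ?_⟩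
  · have a1 : (ξ₂ ^ (u * a)) ^ (m₁ * m₂) = 1 := by
      rw [mul_comm m₁ m₂, pow_mul, ← zpow_natCast (ξ₂ ^ (u * a)) m₂, ← zpow_mul, mul_comm, zpow_mul,
        zpow_natCast, h₂, one_zpow, one_pow]
    have a2 : (ξ₁ ^ (v * b)) ^ (m₁ * m₂) = 1 := by
      rw [pow_mul, ← zpow_natCast (ξ₁ ^ (v * b)) m₁, ← zpow_mul, mul_comm, zpow_mul,
        zpow_natCast, h₁, one_zpow, one_pow]
    rw [mul_pow, a1, a2, one_mul]
  · have b1 : x ^ (u * a) = ξ₂ ^ (u * a) * (T₂ ^ u) ^ (a * b) := by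
      conv_lhs => rw [e₂, mul_zpow]
      congr 1
      rw [← zpow_natCast T₂ b, ← zpow_mul, ← zpow_natCast (T₂ ^ u), ← zpow_mul]
      congr 1
      push_cast
      ring
    have b2 : x ^ (v * b) = ξ₁ ^ (v * b) * (T₁ ^ v) ^ (a * b) := by
      conv_lhs => rw [e₁, mul_zpow]
      congr 1
      rw [← zpow_natCast T₁ a, ← zpow_mul, ← zpow_natCast (T₁ ^ v), ← zpow_mul]
      congr 1
      push_cast
      ring
    calc x = x ^ (1 : ℤ) := (zpow_one x).symm
      _ = x ^ (u * a) * x ^ (v * b) := by rw [← huv, zpow_add₀ hx]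
      _ = _ := by rw [b1, b2, mul_pow]; ring

theorem MuPow.of_prime_pow {x : E} (hx : x ≠ 0) {n : ℕ} (hn : 0 < n)
    (h : ∀ ℓ b : ℕ, ℓ.Prime → ℓ ^ b ∣ n → MuPow x (ℓ ^ b)) : MuPow x n := by
  induction n using Nat.recOnPosPrimePosCoprime with
  | prime_pow p n hp _ => exact h p n hp dvd_rfl
  | zero => omega
  | one => exact MuPow.one x
  | coprime a b ha hb hab iha ihb =>
    exact MuPow.mul hx hab (iha (by omega) fun ℓ c hℓ hd => h ℓ c hℓ (hd.trans (dvd_mul_right _ _)))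
      (ihb (by omega) fun ℓ c hℓ hd => h ℓ c hℓ (hd.trans (dvd_mul_left _ _)))

theorem exists_prime_pow {x : E} (hx : x ≠ 0) {n : ℕ} (hn : 0 < n) (h : ¬ MuPow x n) :
    ∃ ℓ b : ℕ, ℓ.Prime ∧ ℓ < n + 1 ∧ b < n + 1 ∧ ¬ MuPow x (ℓ ^ b) := by
  by_contra hcon
  push Not at hcon
  apply h
  refine MuPow.of_prime_pow hx hn fun ℓ b hℓ hd => ?_
  rcases Nat.eq_zero_or_pos b with rfl | hb
  · rw [pow_zero]; exact MuPow.one x
  · have h1 : ℓ ^ b ≤ n := Nat.le_of_dvd hn hd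
    refine hcon ℓ b hℓ ?_ ?_
    · have := Nat.le_self_pow hb.ne' ℓ
      omega
    · have := Nat.lt_pow_self hℓ.one_lt (n := b)
      omega

end Mu

theorem finite_mu (E : Type) [Field E] [NumberField E] :
    {ξ : E | ∃ m : ℕ, 0 < m ∧ ξ ^ m = 1}.Finite := by
  refine (finite_bounded (∅ : Finset (HeightOneSpectrum (𝓞 E))) 1).subset ?_
  rintro ξ ⟨m, hm, h⟩
  have key : ∀ f : AbsoluteValue E ℝ, f ξ ≤ 1 := by
    intro f
    have h1 : f ξ ^ m = 1 := by rw [← map_pow, h, map_one]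
    exact ((pow_eq_one_iff_of_nonneg (f.nonneg _) hm.ne').1 h1).le
  exact ⟨fun v _ => key _, fun t => key _⟩

/-- infinite pigeonhole -/
theorem pigeon {I : Type} [Infinite I] {J : Type} [Finite J] (f : I → J) :
    ∃ y, Infinite {i // f i = y} := by
  obtain ⟨y, hy⟩ := Finite.exists_infinite_fiber f
  exact ⟨y, hy⟩

/-- the alternative in the proof of Theorem Z -/
theorem alternative {L E : Type} [Field L] [NumberField L] [Field E] [NumberField E] [Algebra L E]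
    (a : ℕ → L) (ha0 : ∀ k, a k ≠ 0) (J : Type) [Fintype J] (γ : J → E) (hγ : ∀ j, γ j ≠ 0)
    (hno : ∀ j, ∀ ξ : E, (∃ m : ℕ, 0 < m ∧ ξ ^ m = 1) →
      ¬ ∀ n : ℕ, 0 < n → ∀ k₀, ∃ k ≥ k₀, ∃ y : E, algebraMap L E (a k) = (ξ * γ j) * y ^ n) :
    ∃ ℓ b : J → ℕ, (∀ j, (ℓ j).Prime) ∧
      Infinite {k : ℕ // ∀ j, ¬ MuPow (algebraMap L E (a k) / γ j) (ℓ j ^ b j)} := by
  classical
  have haE : ∀ k, algebraMap L E (a k) ≠ 0 := fun k => (_root_.map_ne_zero _).2 (ha0 k)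
  set Ξ := (finite_mu E).toFinset with hΞ
  have h1 : ∀ (j : J) (ξ : E), ∃ n : ℕ, 0 < n ∧ ∃ k₀ : ℕ, ξ ∈ Ξ → ∀ k ≥ k₀, ∀ y : E,
      algebraMap L E (a k) ≠ (ξ * γ j) * y ^ n := by
    intro j ξ
    by_cases hξ : ξ ∈ Ξ
    · have h2 := hno j ξ ((finite_mu E).mem_toFinset.1 hξ)
      push Not at h2
      obtain ⟨n, hn, k₀, hk⟩ := h2
      exact ⟨n, hn, k₀, fun _ => hk⟩
    · exact ⟨1, one_pos, 0, fun h => absurd h hξ⟩
  choose n hn k₀ hk₀ using h1
  set N : J → ℕ := fun j => ∏ ξ ∈ Ξ, n j ξ with hN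
  have hN0 : ∀ j, 0 < N j := fun j => Finset.prod_pos fun ξ _ => hn j ξ
  set B : ℕ := ∑ j, N j with hB
  set K : ℕ := ∑ j, ∑ ξ ∈ Ξ, k₀ j ξ with hK
  have hNB : ∀ j, N j ≤ B := fun j =>
    Finset.single_le_sum (f := N) (fun _ _ => Nat.zero_le _) (Finset.mem_univ j)
  have hkK : ∀ j, ∀ ξ ∈ Ξ, k₀ j ξ ≤ K := fun j ξ hξ =>
    (Finset.single_le_sum (f := fun ξ => k₀ j ξ) (fun _ _ => Nat.zero_le _) hξ).trans
      (Finset.single_le_sum (f := fun j => ∑ ξ ∈ Ξ, k₀ j ξ) (fun _ _ => Nat.zero_le _)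
        (Finset.mem_univ j))
  have h2 : ∀ k ≥ K, ∀ j, ¬ MuPow (algebraMap L E (a k) / γ j) (N j) := by
    rintro k hk j ⟨ξ, T, m, hm, hξ, e⟩
    have hξΞ : ξ ∈ Ξ := (finite_mu E).mem_toFinset.2 ⟨m, hm, hξ⟩
    obtain ⟨c, hc⟩ := Finset.dvd_prod_of_mem (fun ξ => n j ξ) hξΞ
    refine hk₀ j ξ hξΞ k ((hkK j ξ hξΞ).trans hk) (T ^ c) ?_
    rw [div_eq_iff (hγ j)] at e
    rw [e, ← pow_mul, mul_comm c, ← hc]
    ring
  have h3 : ∀ (i : ℕ) (j : J), ∃ p : Fin (B + 1) × Fin (B + 1), (p.1 : ℕ).Prime ∧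
      ¬ MuPow (algebraMap L E (a (K + i)) / γ j) ((p.1 : ℕ) ^ (p.2 : ℕ)) := by
    intro i j
    obtain ⟨ℓ, b, hℓ, h4, h5, h6⟩ := exists_prime_pow (div_ne_zero (haE (K + i)) (hγ j)) (hN0 j)
      (h2 (K + i) (Nat.le_add_right _ _) j)
    have := hNB j
    exact ⟨(⟨ℓ, by omega⟩, ⟨b, by omega⟩), hℓ, h6⟩
  choose p hp1 hp2 using h3
  obtain ⟨y, hy⟩ := pigeon p
  refine ⟨fun j => (y j).1, fun j => (y j).2, ?_, ?_⟩
  · obtain ⟨⟨i, hi⟩⟩ := hy.nonempty
    intro j
    have := hp1 i j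
    rw [hi] at this
    exact this
  · refine Infinite.of_injective (f := fun i : {i // p i = y} =>
      (⟨K + i.1, fun j => ?_⟩ : {k : ℕ // ∀ j, ¬ MuPow (algebraMap L E (a k) / γ j)
        (((y j).1 : ℕ) ^ ((y j).2 : ℕ))})) ?_
    · have := hp2 i.1 j
      rw [i.2] at this
      exact this
    · intro i i' h
      have h' := congrArg Subtype.val h
      exact Subtype.ext (by simpa using h')

/-- the primes where `x` is not a unit -/
noncomputable def bad {M : Type} [Field M] [NumberField M] (x : M) :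
    Finset (HeightOneSpectrum (𝓞 M)) := by
  classical
  exact if hx : x = 0 then ∅ else (finite_fabs_ne_one hx).toFinset

theorem fabs_eq_one_of_bad {M : Type} [Field M] [NumberField M] {x : M} (hx : x ≠ 0)
    {W : HeightOneSpectrum (𝓞 M)} (hW : W ∉ bad x) : fabs W x = 1 := by
  classical
  rw [bad, dif_neg hx, Set.Finite.mem_toFinset] at hW
  by_contra h
  exact hW h

theorem one_le_prod {E : Type} [Field E] (g : E → ℝ) (hg1 : g 1 = 1)
    (hg : ∀ x y, g (x * y) = g x * g y) (s : Multiset E) (h : ∀ x ∈ s, 1 ≤ g x) :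
    1 ≤ g s.prod := by
  induction s using Multiset.induction_on with
  | empty => rw [Multiset.prod_zero, hg1]
  | cons a s ih =>
    rw [Multiset.prod_cons, hg]
    have h1 := h a (Multiset.mem_cons_self _ _)
    have h2 := ih fun x hx => h x (Multiset.mem_cons_of_mem hx)
    nlinarith

theorem core (hLmq : SpecLmq) (hSuf : SpecSuf) (hPwr : SpecPwr) (hExtv : SpecExtv)
    (L E : Type) [Field L] [NumberField L] [Field E] [NumberField E] [Algebra L E] [IsGalois L E]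
    (S : Finset (HeightOneSpectrum (𝓞 L))) (a : ℕ → L) (ha : Conv S a) (P : L[X]) (hP : P ≠ 0)
    (hs : (P.map (algebraMap L E)).Splits) (d : L) (hd : d ≠ 0)
    (h : ∀ k, ∀ v ∉ S, fabs v (d * P.eval (a k)) ≤ fabs v ((k.factorial : ℕ) : L)) :
    ∃ γ : L, ∀ k, Near S k (a k) γ := by
  classical
  have ha0 : ∀ k, a k ≠ 0 := fun k => (ha k k le_rfl).1
  have hconst : ∀ v ∉ S, ∀ k, fabs v (a k) = fabs v (a 0) := by
    intro v hv k
    have h1 := ((ha 0 k (Nat.zero_le k)).2.2 v hv).1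
    rw [map_div₀, div_eq_one_iff_eq ((_root_.map_ne_zero _).2 (ha0 k))] at h1
    exact h1.symm
  set Q := P.map (algebraMap L E) with hQ
  have hQ0 : Q ≠ 0 := by
    rw [hQ, Ne, Polynomial.map_eq_zero]
    exact hP
  let J := {γ : E // γ ∈ Q.roots.toFinset.erase 0}
  have hJ0 : ∀ j : J, j.1 ≠ 0 := fun j => (Finset.mem_erase.1 j.2).1
  by_cases hA : ∃ (j : J) (ξ : E), (∃ m : ℕ, 0 < m ∧ ξ ^ m = 1) ∧ ∀ n : ℕ, 0 < n → ∀ k₀,
      ∃ k ≥ k₀, ∃ y : E, algebraMap L E (a k) = (ξ * j.1) * y ^ n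
  · obtain ⟨j, ξ, ⟨m, hm, hξ⟩, hj⟩ := hA
    have hξ0 : ξ ≠ 0 := by
      rintro rfl
      rw [zero_pow hm.ne'] at hξ
      exact zero_ne_one hξ
    exact hPwr L E S a ha (ξ * j.1) (mul_ne_zero hξ0 (hJ0 j)) hj
  exfalso
  push Not at hA
  obtain ⟨ℓ, b, hℓ, hinf⟩ := alternative a ha0 J (fun j => j.1) hJ0 (by
    intro j ξ hξ hcon
    obtain ⟨n, hn, k₀, hk⟩ := hA j ξ hξ
    obtain ⟨k, hk1, y, hy⟩ := hcon n hn k₀
    exact hk k hk1 y hy)
  obtain ⟨K, M, _, _, _, hM⟩ := hLmq E J ℓ b hℓ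
  set N : ℕ := ∏ j, ℓ j ^ K with hN
  have hN0 : 0 < N := Finset.prod_pos fun j _ => pow_pos (hℓ j).pos _
  obtain ⟨Z, hZ, hZu, hZs⟩ := hSuf L S N hN0
  obtain ⟨⟨k₁, hk₁⟩⟩ := hinf.nonempty
  have hsu : ∀ k, IsSUnit S (a k / a k₁) := fun k =>
    ⟨div_ne_zero (ha0 k) (ha0 k₁), fun v hv => by
      rw [map_div₀, hconst v hv k, hconst v hv k₁]
      exact div_self ((_root_.map_ne_zero _).2 (ha0 0))⟩
  choose z hz y hy hzy using fun k => hZs (a k / a k₁) (hsu k)
  have hZfin : Finite Z := hZ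
  obtain ⟨z₀, hz₀⟩ := pigeon (fun i : {k : ℕ // ∀ j, ¬ MuPow (algebraMap L E (a k) / (j : J).1)
    (ℓ j ^ b j)} => (⟨z i.1, hz i.1⟩ : Z))
  obtain ⟨⟨⟨k₂, hk₂⟩, hzk₂⟩⟩ := hz₀.nonempty
  let _ : Algebra L M := ((algebraMap E M).comp (algebraMap L E)).toAlgebra
  have htower : ∀ x : L, algebraMap L M x = algebraMap E M (algebraMap L E x) := fun _ => rfl
  obtain ⟨hM1, hM2, -, -⟩ := hExtv L M
  have hEM : Function.Injective (algebraMap E M) := (algebraMap E M).injective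
  have hlc : Q.leadingCoeff ≠ 0 := Polynomial.leadingCoeff_ne_zero.2 hQ0
  obtain ⟨W, hWT, hW⟩ := hM (fun j => algebraMap L E (a k₂) / j.1) (by
    intro j
    refine ⟨div_ne_zero ((_root_.map_ne_zero _).2 (ha0 k₂)) (hJ0 j), fun ξ T n hn hξ he => ?_⟩
    exact hk₂ j ⟨ξ, T, n, hn, hξ, he⟩)
    (above M S ∪ bad (algebraMap L M d) ∪ bad (algebraMap E M Q.leadingCoeff) ∪
      bad (algebraMap L M (a k₂)) ∪ Finset.univ.biUnion fun j : J => bad (algebraMap E M j.1))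
  simp only [Finset.mem_union, not_or, Finset.mem_biUnion, Finset.mem_univ, true_and,
    not_exists] at hWT
  obtain ⟨⟨⟨⟨hWS, hWd⟩, hWlc⟩, hWa⟩, hWJ⟩ := hWT
  have e1 : fabs W (algebraMap L M d) = 1 := fabs_eq_one_of_bad ((_root_.map_ne_zero _).2 hd) hWd
  have e2 : fabs W (algebraMap E M Q.leadingCoeff) = 1 :=
    fabs_eq_one_of_bad ((_root_.map_ne_zero _).2 hlc) hWlc
  have e3 : fabs W (algebraMap L M (a k₂)) = 1 :=
    fabs_eq_one_of_bad ((_root_.map_ne_zero _).2 (ha0 k₂)) hWa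
  have e4 : ∀ j : J, fabs W (algebraMap E M j.1) = 1 := fun j =>
    fabs_eq_one_of_bad ((_root_.map_ne_zero _).2 (hJ0 j)) (hWJ j)
  obtain ⟨v, hv⟩ := hM2 W
  have hvS : v ∉ S := fun hvS => hWS (mem_above.2 ⟨v, hvS, hv⟩)
  have hunit : ∀ x : L, fabs v x = 1 → fabs W (algebraMap L M x) = 1 := by
    intro x hx
    have h1 := (hM1 W v hv x 1).2 (by rw [hx, map_one])
    have h2 := (hM1 W v hv 1 x).2 (by rw [hx, map_one])
    rw [map_one, map_one] at h1 h2
    exact le_antisymm h1 h2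
  -- choose the index
  obtain ⟨k', hk'⟩ := exists_factorial_lt W one_pos
  have hrange : (Set.range fun i : {i : {k : ℕ // ∀ j, ¬ MuPow (algebraMap L E (a k) / (j : J).1)
      (ℓ j ^ b j)} // (⟨z i.1, hz i.1⟩ : Z) = z₀} => (i.1.1 : ℕ)).Infinite :=
    Set.infinite_range_of_injective fun i i' hii => Subtype.ext (Subtype.ext hii)
  obtain ⟨n, ⟨i, hi⟩, hn⟩ := hrange.exists_gt k'
  obtain ⟨⟨k, hk⟩, hzk⟩ := i
  simp only at hi
  subst hi
  have hzz : z k = z k₂ := by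
    have h1 : (⟨z k, hz k⟩ : Z) = ⟨z k₂, hz k₂⟩ := hzk.trans hzk₂.symm
    exact congrArg Subtype.val h1
  set u : L := y k / y k₂ with hu
  have hu0 : u ≠ 0 := div_ne_zero (hy k).1 (hy k₂).1
  have hau : a k = a k₂ * u ^ N := by
    have h1 := hzy k
    have h2 := hzy k₂
    rw [div_eq_iff (ha0 k₁)] at h1 h2
    rw [h1, h2, hzz, hu, div_pow]
    have := (hy k₂).1
    field_simp
  have huW : fabs W (algebraMap L M u) = 1 := hunit u (by
    rw [hu, map_div₀, (hy k).2 v hvS, (hy k₂).2 v hvS, div_one])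
  have hval : fabs W (algebraMap L M (P.eval (a k))) < 1 := by
    have h1 := (hM1 W v hv _ _).2 (h k v hvS)
    rw [map_mul, map_mul, e1, one_mul, map_natCast] at h1
    exact h1.trans_lt (hk' k hn.le)
  have hval2 : algebraMap L M (P.eval (a k)) = algebraMap E M
      (Q.leadingCoeff * (Q.roots.map (algebraMap L E (a k) - ·)).prod) := by
    rw [← hs.eval_eq_prod_roots, htower, hQ, Polynomial.eval_map_algebraMap,
      Polynomial.aeval_algebraMap_apply]
    rfl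
  have hroot : ∃ ρ ∈ Q.roots, fabs W (algebraMap E M (algebraMap L E (a k) - ρ)) < 1 := by
    by_contra hcon
    push Not at hcon
    have h1 : 1 ≤ fabs W (algebraMap E M ((Q.roots.map (algebraMap L E (a k) - ·)).prod)) := by
      refine one_le_prod (fun x => fabs W (algebraMap E M x)) (by rw [map_one, map_one])
        (fun x y => by rw [map_mul, map_mul]) _ ?_
      intro x hx
      obtain ⟨ρ, hρ, rfl⟩ := Multiset.mem_map.1 hx
      exact hcon ρ hρ
    rw [hval2, map_mul, map_mul, e2, one_mul] at hval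
    linarith
  obtain ⟨ρ, hρ, hρ1⟩ := hroot
  have hakW : fabs W (algebraMap L M (a k)) = 1 := by
    rw [hau, map_mul, map_pow, map_mul, map_pow, e3, huW, one_pow, one_mul]
  have hρ0 : ρ ≠ 0 := by
    rintro rfl
    rw [sub_zero, ← htower, hakW] at hρ1
    exact lt_irrefl _ hρ1
  let j : J := ⟨ρ, Finset.mem_erase.2 ⟨hρ0, Multiset.mem_toFinset.2 hρ⟩⟩
  obtain ⟨c, hc⟩ : ℓ j ^ K ∣ N := Finset.dvd_prod_of_mem (fun j => ℓ j ^ K) (Finset.mem_univ j)
  refine hW j ⟨((algebraMap L M u)⁻¹) ^ c, by rw [map_pow, map_inv₀, huW, inv_one, one_pow], ?_⟩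
  have hρM : algebraMap E M ρ ≠ 0 := (_root_.map_ne_zero _).2 hρ0
  have huM : algebraMap L M u ≠ 0 := (_root_.map_ne_zero _).2 hu0
  have key : algebraMap E M (algebraMap L E (a k₂) / ρ) - ((algebraMap L M u)⁻¹ ^ c) ^ (ℓ j ^ K) =
      algebraMap E M (algebraMap L E (a k) - ρ) / (algebraMap E M ρ * algebraMap L M u ^ N) := by
    have hkey : ∀ A R U : M, R ≠ 0 → U ≠ 0 → A / R - U⁻¹ ^ N = (A * U ^ N - R) / (R * U ^ N) := by
      intro A R U hR hU
      rw [inv_pow]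
      field_simp
    rw [← pow_mul, mul_comm c, ← hc, map_sub, ← htower, hau, map_mul, map_pow, map_div₀, ← htower]
    exact hkey _ _ _ hρM huM
  change fabs W (algebraMap E M (algebraMap L E (a k₂) / ρ) -
    ((algebraMap L M u)⁻¹ ^ c) ^ (ℓ j ^ K)) < 1
  rw [key, map_div₀, map_mul, map_pow, huW, one_pow, mul_one, e4 j, div_one]
  exact hρ1

end ZEDM

open ZEDM in
theorem specZED (hLmq : SpecLmq) (hSuf : SpecSuf) (hPwr : SpecPwr) (hExtv : SpecExtv) :
    SpecZed := by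
  intro L _ _ S a ha P hP d hd h
  have : NumberField P.SplittingField := NumberField.of_module_finite L P.SplittingField
  have : IsGalois L P.SplittingField := { }
  exact core hLmq hSuf hPwr hExtv L P.SplittingField S a ha P hP (SplittingField.splits P) d hd h

end Pool.Agent.Lib.MP_78b700_nt.HV
end

section
/-!
# ZUB: upper bound for the sum over the primes of `N(W)^(-s)`
-/
set_option autoImplicit false

open IsDedekindDomain NumberField Filter Topology

namespace Pool.Agent.Lib.MP_78b700_nt.HV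

namespace ZUBM

variable (M : Type) [Field M] [NumberField M]

/-- the number of ideals of norm `n` -/
noncomputable def cf (n : ℕ) : ℝ := (Nat.card {I : Ideal (𝓞 M) // Ideal.absNorm I = n} : ℝ)

theorem cf_nonneg (n : ℕ) : 0 ≤ cf M n := Nat.cast_nonneg _

theorem tendsto_cf : Tendsto (fun n : ℕ => (∑ k ∈ Finset.Icc 1 n, cf M k) / (n : ℝ)) atTop
    (𝓝 (dedekindZeta_residue M)) := by
  refine ((Ideal.tendsto_norm_le_div_atTop₀ M).comp tendsto_natCast_atTop_atTop).congr fun n ↦ ?_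
  simp only [Function.comp_apply, Nat.cast_le, cf, ← Nat.cast_sum]
  congr
  rw [← add_left_inj 1, ← Ideal.card_norm_le_eq_card_norm_le_add_one,
    show Finset.Icc 1 n = Finset.Ioc 0 n from Finset.Icc_succ_left_eq_Ioc _ _,
    show 1 = Nat.card {I : Ideal (𝓞 M) // Ideal.absNorm I = 0} by
      simp [Ideal.absNorm_eq_zero_iff],
    Finset.sum_Ioc_add_eq_sum_Icc (n.zero_le),
    ← Finset.card_preimage_eq_sum_card_image_eq
      (fun k _ ↦ Ideal.finite_setOfPred_absNorm_eq k)]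
  simp [Set.coe_eq_subtype]

theorem lsummable {s : ℝ} (hs : 1 < s) : LSeriesSummable (fun n => (cf M n : ℂ)) (s : ℂ) := by
  refine LSeriesSummable_of_sum_norm_bigO_and_nonneg (r := 1) ?_ (cf_nonneg M) zero_le_one
    (by simpa using hs)
  exact Asymptotics.isBigO_atTop_natCast_rpow_of_tendsto_div_rpow (a := dedekindZeta_residue M)
    (by simpa using tendsto_cf M)

theorem term_eq {s : ℝ} (hs : 0 < s) (n : ℕ) :
    LSeries.term (fun n => (cf M n : ℂ)) (s : ℂ) n = ((cf M n * (n : ℝ) ^ (-s) : ℝ) : ℂ) := by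
  rcases eq_or_ne n 0 with rfl | hn
  · rw [LSeries.term_zero]
    rw [Nat.cast_zero, Real.zero_rpow (neg_ne_zero.2 hs.ne'), mul_zero, Complex.ofReal_zero]
  · rw [LSeries.term_of_ne_zero hn, Complex.ofReal_mul, Complex.ofReal_cpow (Nat.cast_nonneg n),
      div_eq_mul_inv, Complex.ofReal_neg, Complex.cpow_neg, Complex.ofReal_natCast]

/-- the Dedekind zeta function on the real axis -/
noncomputable def Z (s : ℝ) : ℝ := ∑' n : ℕ, cf M n * (n : ℝ) ^ (-s)

theorem summable_Z {s : ℝ} (hs : 1 < s) : Summable fun n : ℕ => cf M n * (n : ℝ) ^ (-s) := by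
  have h := lsummable M hs
  rw [LSeriesSummable] at h
  have h2 : LSeries.term (fun n => (cf M n : ℂ)) (s : ℂ) =
      fun n : ℕ => ((cf M n * (n : ℝ) ^ (-s) : ℝ) : ℂ) :=
    funext fun n => term_eq M (by linarith) n
  rw [h2] at h
  exact Complex.summable_ofReal.1 h

theorem term_nonneg (s : ℝ) (n : ℕ) : 0 ≤ cf M n * (n : ℝ) ^ (-s) :=
  mul_nonneg (cf_nonneg M n) (Real.rpow_nonneg (Nat.cast_nonneg n) _)

theorem LSeries_eq {s : ℝ} (hs : 1 < s) : LSeries (fun n => (cf M n : ℂ)) (s : ℂ) = (Z M s : ℂ) := by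
  rw [LSeries, Z, Complex.ofReal_tsum]
  exact tsum_congr fun n => term_eq M (by linarith) n

theorem tendsto_Z : Tendsto (fun s : ℝ => (s - 1) * Z M s) (𝓝[>] 1)
    (𝓝 (dedekindZeta_residue M)) := by
  have h := LSeries_tendsto_sub_mul_nhds_one_of_tendsto_sum_div_and_nonneg (cf M)
    (tendsto_cf M) (cf_nonneg M)
  have h2 : Tendsto (fun s : ℝ => (((s - 1) * Z M s : ℝ) : ℂ)) (𝓝[>] 1)
      (𝓝 ((dedekindZeta_residue M : ℝ) : ℂ)) := by
    refine h.congr' ?_
    filter_upwards [self_mem_nhdsWithin] with s hs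
    rw [LSeries_eq M hs]
    push_cast
    ring
  have h3 := (Complex.continuous_re.tendsto _).comp h2
  simp only [Complex.ofReal_re] at h3
  exact h3

theorem cf_one : 1 ≤ cf M 1 := by
  have : Nonempty {I : Ideal (𝓞 M) // Ideal.absNorm I = 1} := ⟨⟨⊤, Ideal.absNorm_top⟩⟩
  have : Finite {I : Ideal (𝓞 M) // Ideal.absNorm I = 1} := Ideal.finite_setOfPred_absNorm_eq 1
  rw [cf]
  exact_mod_cast Nat.card_pos

theorem one_le_Z {s : ℝ} (hs : 1 < s) : 1 ≤ Z M s := by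
  have h := (summable_Z M hs).le_tsum 1 fun n _ => term_nonneg M s n
  rw [Nat.cast_one, Real.one_rpow, mul_one] at h
  exact (cf_one M).trans h

theorem Z_anti {s t : ℝ} (hs : 1 < s) (hst : s ≤ t) : Z M t ≤ Z M s := by
  refine (summable_Z M (hs.trans_le hst)).tsum_le_tsum (fun n => ?_) (summable_Z M hs)
  refine mul_le_mul_of_nonneg_left ?_ (cf_nonneg M n)
  rcases Nat.eq_zero_or_pos n with rfl | hn
  · rw [Nat.cast_zero, Real.zero_rpow (by linarith), Real.zero_rpow (by linarith)]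
  · exact Real.rpow_le_rpow_of_exponent_le (by exact_mod_cast hn) (by linarith)

theorem bounds_Z : ∃ c C : ℝ, 0 < c ∧ 0 < C ∧ ∀ s : ℝ, 1 < s → s ≤ 2 →
    c / (s - 1) ≤ Z M s ∧ Z M s ≤ C / (s - 1) := by
  set ρ := dedekindZeta_residue M with hρ
  have hρ0 : 0 < ρ := dedekindZeta_residue_pos M
  have h := tendsto_Z M
  have h1 : ∀ᶠ s in 𝓝[>] (1 : ℝ), ρ / 2 < (s - 1) * Z M s ∧ (s - 1) * Z M s < 2 * ρ :=
    (h.eventually_const_lt (by linarith : ρ / 2 < ρ)).and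
      (h.eventually_lt_const (by linarith : ρ < 2 * ρ))
  rw [eventually_nhdsWithin_iff, Metric.eventually_nhds_iff] at h1
  obtain ⟨δ, hδ, h1⟩ := h1
  have h2 : ∀ s, 1 < s → s < 1 + δ → ρ / 2 < (s - 1) * Z M s ∧ (s - 1) * Z M s < 2 * ρ := by
    intro s hs hs2
    refine h1 ?_ hs
    rw [Real.dist_eq, abs_lt]
    constructor <;> linarith
  have hδ2 := h2 (1 + δ / 2) (by linarith) (by linarith)
  have hmin : 0 < min (ρ / 2) (δ / 2) := by positivity
  refine ⟨min (ρ / 2) (δ / 2), 2 * ρ + Z M (1 + δ / 2), hmin, ?_, fun s hs hs2 => ?_⟩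
  · have := one_le_Z M (s := 1 + δ / 2) (by linarith)
    linarith
  have hs0 : 0 < s - 1 := by linarith
  rw [div_le_iff₀ hs0, le_div_iff₀ hs0]
  have hZ1 := one_le_Z M (s := 1 + δ / 2) (by linarith)
  rcases lt_or_ge s (1 + δ / 2) with h3 | h3
  · obtain ⟨h4, h5⟩ := h2 s hs (by linarith)
    refine ⟨?_, ?_⟩
    · rw [mul_comm]
      exact (min_le_left _ _).trans h4.le
    · rw [mul_comm]
      linarith
  · have h6 := one_le_Z M hs
    refine ⟨?_, ?_⟩
    · refine (min_le_right _ _).trans ?_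
      nlinarith
    · have h7 := Z_anti M (s := 1 + δ / 2) (t := s) (by linarith) h3
      nlinarith

/-- a sum over a finite set of ideals -/
theorem sum_le_Z (A : Finset (Ideal (𝓞 M))) {s : ℝ} (hs : 1 < s) :
    ∑ I ∈ A, (Ideal.absNorm I : ℝ) ^ (-s) ≤ Z M s := by
  classical
  have h1 : ∑ I ∈ A, (Ideal.absNorm I : ℝ) ^ (-s) =
      ∑ n ∈ A.image Ideal.absNorm, ∑ I ∈ A with Ideal.absNorm I = n, (n : ℝ) ^ (-s) := by
    rw [← Finset.sum_fiberwise_of_maps_to (t := A.image Ideal.absNorm)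
      (g := fun I => Ideal.absNorm I) (fun I hI => Finset.mem_image_of_mem _ hI)]
    refine Finset.sum_congr rfl fun n _ => Finset.sum_congr rfl fun I hI => ?_
    rw [(Finset.mem_filter.1 hI).2]
  rw [h1]
  have h2 : ∀ n, ∑ I ∈ A with Ideal.absNorm I = n, (n : ℝ) ^ (-s) ≤ cf M n * (n : ℝ) ^ (-s) := by
    intro n
    rw [Finset.sum_const, nsmul_eq_mul]
    refine mul_le_mul_of_nonneg_right ?_ (Real.rpow_nonneg (Nat.cast_nonneg n) _)
    have hfin : Finite {I : Ideal (𝓞 M) // Ideal.absNorm I = n} :=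
      Ideal.finite_setOfPred_absNorm_eq n
    rw [cf]
    have h3 : Nat.card {I // I ∈ A.filter fun I => Ideal.absNorm I = n} ≤
        Nat.card {I : Ideal (𝓞 M) // Ideal.absNorm I = n} := by
      refine Nat.card_le_card_of_injective
        (fun I => (⟨I.1, (Finset.mem_filter.1 I.2).2⟩ : {I : Ideal (𝓞 M) // Ideal.absNorm I = n}))
        ?_
      intro I J hIJ
      exact Subtype.ext (Subtype.mk.inj hIJ)
    rw [Nat.card_eq_fintype_card, Fintype.card_coe] at h3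
    exact_mod_cast h3
  exact (Finset.sum_le_sum fun n _ => h2 n).trans
    ((summable_Z M hs).sum_le_tsum _ fun n _ => term_nonneg M s n)

theorem sum_primes_le_Z (W : Finset (HeightOneSpectrum (𝓞 M))) {s : ℝ} (hs : 1 < s) :
    ∑ w ∈ W, (Ideal.absNorm w.asIdeal : ℝ) ^ (-s) ≤ Z M s := by
  classical
  have h := sum_le_Z M (W.image fun w => w.asIdeal) hs
  rwa [Finset.sum_image fun w _ w' _ h => HeightOneSpectrum.ext h] at h

theorem prod_inj (W : Finset (HeightOneSpectrum (𝓞 M))) :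
    Set.InjOn (fun T : Finset (HeightOneSpectrum (𝓞 M)) => ∏ w ∈ T, w.asIdeal)
      (W.powerset : Set (Finset (HeightOneSpectrum (𝓞 M)))) := by
  classical
  have key : ∀ (T : Finset (HeightOneSpectrum (𝓞 M))) (w : HeightOneSpectrum (𝓞 M)),
      w.asIdeal ∣ ∏ w' ∈ T, w'.asIdeal → w ∈ T := by
    intro T w h
    rw [Prime.dvd_finsetProd_iff w.prime] at h
    obtain ⟨w', hw', h'⟩ := h
    have h3 : w'.asIdeal ≤ w.asIdeal := Ideal.dvd_iff_le.1 h'
    have h4 : w' = w := HeightOneSpectrum.ext (w'.isMaximal.eq_of_le w.isPrime.ne_top h3)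
    rwa [← h4]
  intro T _ T' _ h
  simp only at h
  refine Finset.Subset.antisymm (fun w hw => key T' w ?_) (fun w hw => key T w ?_)
  · rw [← h]
    exact Finset.dvd_prod_of_mem _ hw
  · rw [h]
    exact Finset.dvd_prod_of_mem _ hw

theorem prod_le_Z (W : Finset (HeightOneSpectrum (𝓞 M))) {s : ℝ} (hs : 1 < s) :
    ∏ w ∈ W, (1 + (Ideal.absNorm w.asIdeal : ℝ) ^ (-s)) ≤ Z M s := by
  classical
  rw [Finset.prod_one_add]
  have h := sum_le_Z M (W.powerset.image fun T => ∏ w ∈ T, w.asIdeal) hs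
  rw [Finset.sum_image (prod_inj M W)] at h
  refine le_of_eq_of_le (Finset.sum_congr rfl fun T _ => ?_) h
  rw [map_prod, Nat.cast_prod, Real.finsetProd_rpow _ _ fun w _ => Nat.cast_nonneg _]

theorem two_le_norm (w : HeightOneSpectrum (𝓞 M)) : (2 : ℝ) ≤ Ideal.absNorm w.asIdeal := by
  exact_mod_cast HeightOneSpectrum.one_lt_absNorm w

theorem sum_sq_le (W : Finset (HeightOneSpectrum (𝓞 M))) {s : ℝ} (hs : 1 < s) :
    ∑ w ∈ W, ((Ideal.absNorm w.asIdeal : ℝ) ^ (-s)) ^ 2 ≤ Z M 2 := by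
  refine (Finset.sum_le_sum fun w _ => ?_).trans (sum_primes_le_Z M W one_lt_two)
  have h := two_le_norm M w
  rw [← Real.rpow_natCast, ← Real.rpow_mul (by linarith)]
  exact Real.rpow_le_rpow_of_exponent_le (by linarith) (by push_cast; linarith)

theorem log_lower {x : ℝ} (hx : 0 ≤ x) : x - x ^ 2 / 2 ≤ Real.log (1 + x) := by
  have h := Real.le_log_one_add_of_nonneg hx
  refine le_trans ?_ h
  rw [le_div_iff₀ (by linarith)]
  nlinarith [pow_nonneg hx 3]

end ZUBM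

open ZUBM in
theorem specZub : SpecZub := by
  intro M _ _
  obtain ⟨c, C, hc, hC, hb⟩ := bounds_Z M
  refine ⟨Real.log C + Z M 2 / 2, fun s hs hs2 W => ?_⟩
  have h1 := prod_le_Z M W hs
  have hpos : ∀ w ∈ W, 0 < 1 + (Ideal.absNorm w.asIdeal : ℝ) ^ (-s) := fun w _ => by
    have := Real.rpow_nonneg (Nat.cast_nonneg (Ideal.absNorm w.asIdeal) : (0 : ℝ) ≤ _) (-s)
    linarith
  have hs0 : 0 < s - 1 := by linarith
  have h2 : Real.log (∏ w ∈ W, (1 + (Ideal.absNorm w.asIdeal : ℝ) ^ (-s))) ≤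
      Real.log (C / (s - 1)) :=
    Real.log_le_log (Finset.prod_pos hpos) (h1.trans (hb s hs hs2).2)
  rw [Real.log_prod fun w hw => (hpos w hw).ne', div_eq_mul_one_div C,
    Real.log_mul hC.ne' (by positivity)] at h2
  have h3 : ∑ w ∈ W, ((Ideal.absNorm w.asIdeal : ℝ) ^ (-s) -
      ((Ideal.absNorm w.asIdeal : ℝ) ^ (-s)) ^ 2 / 2) ≤
      ∑ w ∈ W, Real.log (1 + (Ideal.absNorm w.asIdeal : ℝ) ^ (-s)) :=
    Finset.sum_le_sum fun w _ => log_lower (Real.rpow_nonneg (Nat.cast_nonneg _) _)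
  rw [Finset.sum_sub_distrib, ← Finset.sum_div] at h3
  have h4 := sum_sq_le M W hs
  linarith

end Pool.Agent.Lib.MP_78b700_nt.HV
end

section
/-!
# ZLB: lower bound for the sum over the primes of `N(W)^(-s)`
-/
set_option autoImplicit false

open IsDedekindDomain NumberField Filter Topology

namespace Pool.Agent.Lib.MP_78b700_nt.HV

namespace ZLBM

open ZUBM

variable (M : Type) [Field M] [NumberField M]

/-- the exponents of the factorisation -/
noncomputable def ex (I : Ideal (𝓞 M)) (w : HeightOneSpectrum (𝓞 M)) : ℕ :=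
  (Associates.mk w.asIdeal).count (Associates.mk I).factors

/-- the primes of norm at most `x` -/
noncomputable def Wx (x : ℕ) : Finset (HeightOneSpectrum (𝓞 M)) :=
  (Ring.HasFiniteQuotients.finite_absNorm_heightOneSpectrum_le (R := 𝓞 M) x).toFinset

theorem mem_Wx {x : ℕ} {w : HeightOneSpectrum (𝓞 M)} :
    w ∈ Wx M x ↔ Ideal.absNorm w.asIdeal ≤ x := by
  rw [Wx, Set.Finite.mem_toFinset]
  rfl

theorem dvd_of_ex {I : Ideal (𝓞 M)} (hI : I ≠ ⊥) {w : HeightOneSpectrum (𝓞 M)}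
    (h : ex M I w ≠ 0) : w.asIdeal ∣ I :=
  (Associates.count_ne_zero_iff_dvd hI w.irreducible).1 h

theorem mem_of_ex {I : Ideal (𝓞 M)} (hI : I ≠ ⊥) {x : ℕ} (hx : Ideal.absNorm I ≤ x)
    {w : HeightOneSpectrum (𝓞 M)} (h : ex M I w ≠ 0) : w ∈ Wx M x := by
  rw [mem_Wx]
  refine le_trans (Nat.le_of_dvd ?_ ?_) hx
  · exact Nat.pos_of_ne_zero (Ideal.absNorm_eq_zero_iff.not.2 hI)
  · exact map_dvd Ideal.absNorm (dvd_of_ex M hI h)

theorem fact {I : Ideal (𝓞 M)} (hI : I ≠ ⊥) {x : ℕ} (hx : Ideal.absNorm I ≤ x) :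
    I = ∏ w ∈ Wx M x, w.asIdeal ^ ex M I w := by
  classical
  have h := Ideal.finprod_heightOneSpectrum_factorization hI
  rw [finprod_eq_prod_of_mulSupport_subset (s := Wx M x)] at h
  · exact h.symm
  · intro w hw
    rw [Function.mem_mulSupport] at hw
    refine Finset.mem_coe.2 (mem_of_ex M hI hx fun h0 => hw ?_)
    rw [HeightOneSpectrum.maxPowDividing]
    change w.asIdeal ^ ex M I w = 1
    rw [h0, pow_zero]

theorem ex_le {I : Ideal (𝓞 M)} (hI : I ≠ ⊥) {x : ℕ} (hx : Ideal.absNorm I ≤ x)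
    {w : HeightOneSpectrum (𝓞 M)} (hw : w ∈ Wx M x) : ex M I w < x + 1 := by
  have h1 : w.asIdeal ^ ex M I w ∣ I := by
    conv_rhs => rw [fact M hI hx]
    exact Finset.dvd_prod_of_mem (fun w => w.asIdeal ^ ex M I w) hw
  have h2 := map_dvd Ideal.absNorm h1
  rw [map_pow] at h2
  have h3 := Nat.le_of_dvd (Nat.pos_of_ne_zero (Ideal.absNorm_eq_zero_iff.not.2 hI)) h2
  have h4 : 2 ^ ex M I w ≤ Ideal.absNorm w.asIdeal ^ ex M I w :=
    Nat.pow_le_pow_left (HeightOneSpectrum.one_lt_absNorm w) _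
  have h5 := Nat.lt_two_pow_self (n := ex M I w)
  omega

/-- the non-zero ideals of norm at most `x` -/
noncomputable def Ax (x : ℕ) : Finset (Ideal (𝓞 M)) := by
  classical
  exact (Ideal.finite_setOfPred_absNorm_le (S := 𝓞 M) x).toFinset.filter fun I => I ≠ ⊥

theorem mem_Ax {x : ℕ} {I : Ideal (𝓞 M)} : I ∈ Ax M x ↔ Ideal.absNorm I ≤ x ∧ I ≠ ⊥ := by
  classical
  rw [Ax, Finset.mem_filter, Set.Finite.mem_toFinset]
  rfl

theorem range_le (x : ℕ) {s : ℝ} (hs : 0 < s) :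
    ∑ n ∈ Finset.range (x + 1), cf M n * (n : ℝ) ^ (-s) ≤
      ∑ I ∈ Ax M x, (Ideal.absNorm I : ℝ) ^ (-s) := by
  classical
  rw [← Finset.sum_fiberwise_of_maps_to (s := Ax M x) (t := Finset.range (x + 1))
    (g := fun I => Ideal.absNorm I)
    (fun I hI => Finset.mem_range.2 (Nat.lt_succ_of_le ((mem_Ax M).1 hI).1))]
  refine Finset.sum_le_sum fun n hn => ?_
  rcases Nat.eq_zero_or_pos n with rfl | hn0
  · rw [Nat.cast_zero, Real.zero_rpow (by linarith), mul_zero]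
    exact Finset.sum_nonneg fun I _ => Real.rpow_nonneg (Nat.cast_nonneg _) _
  · have h1 : ∑ I ∈ Ax M x with Ideal.absNorm I = n, (Ideal.absNorm I : ℝ) ^ (-s) =
        ((Ax M x).filter fun I => Ideal.absNorm I = n).card * (n : ℝ) ^ (-s) := by
      rw [← nsmul_eq_mul, ← Finset.sum_const]
      exact Finset.sum_congr rfl fun I hI => by rw [(Finset.mem_filter.1 hI).2]
    rw [h1]
    refine mul_le_mul_of_nonneg_right ?_ (Real.rpow_nonneg (Nat.cast_nonneg n) _)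
    rw [cf]
    have h3 : Nat.card {I : Ideal (𝓞 M) // Ideal.absNorm I = n} ≤
        Nat.card {I // I ∈ (Ax M x).filter fun I => Ideal.absNorm I = n} := by
      refine Nat.card_le_card_of_injective
        (fun I => (⟨I.1, Finset.mem_filter.2 ⟨(mem_Ax M).2 ⟨?_, ?_⟩, I.2⟩⟩ :
          {I // I ∈ (Ax M x).filter fun I => Ideal.absNorm I = n})) ?_
      · rw [I.2]
        exact Nat.lt_succ_iff.1 (Finset.mem_range.1 hn)
      · intro h0
        have h4 := I.2
        rw [h0, Ideal.absNorm_bot] at h4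
        omega
      · intro I J hIJ
        exact Subtype.ext (Subtype.mk.inj hIJ)
    rw [Nat.card_eq_fintype_card (α := {I // I ∈ _}), Fintype.card_coe] at h3
    exact_mod_cast h3

theorem geom_le {y : ℝ} (h0 : 0 ≤ y) (h1 : y < 1) (B : ℕ) :
    ∑ e ∈ Finset.range B, y ^ e ≤ (1 - y)⁻¹ := by
  rw [← tsum_geometric_of_lt_one h0 h1]
  exact (summable_geometric_of_lt_one h0 h1).sum_le_tsum _ fun n _ => pow_nonneg h0 n

theorem sum_Ax_le (x : ℕ) {s : ℝ} :
    ∑ I ∈ Ax M x, (Ideal.absNorm I : ℝ) ^ (-s) ≤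
      ∏ w ∈ Wx M x, ∑ e ∈ Finset.range (x + 1), ((Ideal.absNorm w.asIdeal : ℝ) ^ (-s)) ^ e := by
  classical
  rw [← Finset.prod_coe_sort (Wx M x), Finset.prod_univ_sum]
  have h1 : ∀ I ∈ Ax M x, (Ideal.absNorm I : ℝ) ^ (-s) =
      ∏ w : Wx M x, ((Ideal.absNorm w.1.asIdeal : ℝ) ^ (-s)) ^ ex M I w.1 := by
    intro I hI
    obtain ⟨hx, hI0⟩ := (mem_Ax M).1 hI
    conv_lhs => rw [fact M hI0 hx]
    rw [map_prod, Nat.cast_prod, ← Real.finsetProd_rpow _ _ fun w _ => Nat.cast_nonneg _,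
      ← Finset.prod_coe_sort (Wx M x)]
    refine Finset.prod_congr rfl fun w _ => ?_
    rw [map_pow, Nat.cast_pow, ← Real.rpow_natCast, ← Real.rpow_natCast,
      ← Real.rpow_mul (Nat.cast_nonneg _), ← Real.rpow_mul (Nat.cast_nonneg _), mul_comm]
  rw [Finset.sum_congr rfl h1]
  have hinj : Set.InjOn (fun (I : Ideal (𝓞 M)) (w : Wx M x) => ex M I w.1)
      (Ax M x : Set (Ideal (𝓞 M))) := by
    intro I hI J hJ hIJ
    obtain ⟨hx, hI0⟩ := (mem_Ax M).1 hI
    obtain ⟨hx', hJ0⟩ := (mem_Ax M).1 hJ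
    rw [fact M hI0 hx, fact M hJ0 hx']
    refine Finset.prod_congr rfl fun w hw => ?_
    have h := congrFun hIJ ⟨w, hw⟩
    simp only at h
    rw [h]
  rw [← Finset.sum_image (s := Ax M x) (g := fun (I : Ideal (𝓞 M)) (w : Wx M x) => ex M I w.1)
    (f := fun p : Wx M x → ℕ => ∏ w : Wx M x, ((Ideal.absNorm w.1.asIdeal : ℝ) ^ (-s)) ^ p w) hinj]
  refine Finset.sum_le_sum_of_subset_of_nonneg ?_ fun p _ _ => ?_
  · intro p hp
    obtain ⟨I, hI, rfl⟩ := Finset.mem_image.1 hp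
    obtain ⟨hx, hI0⟩ := (mem_Ax M).1 hI
    rw [Fintype.mem_piFinset]
    exact fun w => Finset.mem_range.2 (ex_le M hI0 hx w.2)
  · exact Finset.prod_nonneg fun w _ => pow_nonneg (Real.rpow_nonneg (Nat.cast_nonneg _) _) _

theorem neg_log_le {y : ℝ} (h0 : 0 ≤ y) (h1 : y ≤ 1 / 2) :
    -Real.log (1 - y) ≤ y + 2 * y ^ 2 := by
  have h := Real.one_sub_inv_le_log_of_pos (show 0 < 1 - y by linarith)
  have h2 : (1 - y)⁻¹ ≤ 1 + y + 2 * y ^ 2 := by
    rw [inv_le_iff_one_le_mul₀ (by linarith)]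
    nlinarith [pow_nonneg h0 2, pow_nonneg h0 3, mul_nonneg (pow_nonneg h0 2) (sub_nonneg.2 h1)]
  linarith

end ZLBM

open ZUBM ZLBM in
theorem specZlb : SpecZlb := by
  intro M _ _
  obtain ⟨c, C, hc, hC, hb⟩ := bounds_Z M
  refine ⟨2 * Z M 2 - Real.log (c / 2), fun s hs hs2 => ?_⟩
  have hs0 : 0 < s - 1 := by linarith
  have hZ0 : 0 < Z M s := one_pos.trans_le (one_le_Z M hs)
  have h1 : Tendsto (fun x : ℕ => ∑ n ∈ Finset.range x, cf M n * (n : ℝ) ^ (-s)) atTop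
      (𝓝 (Z M s)) := (summable_Z M hs).hasSum.tendsto_sum_nat
  have h2 := (h1.comp (tendsto_add_atTop_nat 1)).eventually_const_lt
    (by linarith : Z M s / 2 < Z M s)
  obtain ⟨x, hx⟩ := h2.exists
  simp only [Function.comp_apply] at hx
  refine ⟨Wx M x, ?_⟩
  have h3 := (range_le M x (by linarith : 0 < s)).trans (sum_Ax_le M x)
  have hy : ∀ w : HeightOneSpectrum (𝓞 M), 0 ≤ (Ideal.absNorm w.asIdeal : ℝ) ^ (-s) ∧
      (Ideal.absNorm w.asIdeal : ℝ) ^ (-s) ≤ 1 / 2 := by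
    intro w
    refine ⟨Real.rpow_nonneg (Nat.cast_nonneg _) _, ?_⟩
    have h4 := two_le_norm M w
    have h5 : (Ideal.absNorm w.asIdeal : ℝ) ^ (-s) ≤ (Ideal.absNorm w.asIdeal : ℝ) ^ (-1 : ℝ) :=
      Real.rpow_le_rpow_of_exponent_le (by linarith) (by linarith)
    rw [Real.rpow_neg_one] at h5
    refine h5.trans ?_
    rw [one_div]
    exact inv_anti₀ two_pos h4
  have h6 : ∏ w ∈ Wx M x, ∑ e ∈ Finset.range (x + 1), ((Ideal.absNorm w.asIdeal : ℝ) ^ (-s)) ^ e ≤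
      ∏ w ∈ Wx M x, (1 - (Ideal.absNorm w.asIdeal : ℝ) ^ (-s))⁻¹ :=
    Finset.prod_le_prod (fun w _ => Finset.sum_nonneg fun e _ => pow_nonneg (hy w).1 e)
      fun w _ => geom_le (hy w).1 (by linarith [(hy w).2]) _
  have h7 : c / 2 * (1 / (s - 1)) ≤ ∏ w ∈ Wx M x, (1 - (Ideal.absNorm w.asIdeal : ℝ) ^ (-s))⁻¹ := by
    have := (hb s hs hs2).1
    have e : c / 2 * (1 / (s - 1)) = c / (s - 1) / 2 := by ring
    rw [e]
    linarith
  have h8 := Real.log_le_log (by positivity) h7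
  rw [Real.log_mul (by positivity) (by positivity), Real.log_prod fun w _ => by
    have := (hy w).2
    exact inv_ne_zero (by linarith)] at h8
  have h9 : ∑ w ∈ Wx M x, Real.log (1 - (Ideal.absNorm w.asIdeal : ℝ) ^ (-s))⁻¹ ≤
      ∑ w ∈ Wx M x, ((Ideal.absNorm w.asIdeal : ℝ) ^ (-s) +
        2 * ((Ideal.absNorm w.asIdeal : ℝ) ^ (-s)) ^ 2) := by
    refine Finset.sum_le_sum fun w _ => ?_
    rw [Real.log_inv]
    exact neg_log_le (hy w).1 (hy w).2
  rw [Finset.sum_add_distrib, ← Finset.mul_sum] at h9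
  have h10 := sum_sq_le M (Wx M x) hs
  linarith

end Pool.Agent.Lib.MP_78b700_nt.HV
end
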